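import Pool.Agent.HP89.GDefs

/-! Steiner formula of a shadow and the relation `P = Π_j K` (sets). -/

namespace Pool.Agent.HP89
open MeasureTheory ProbabilityTheory Set Filter Topology Metric
open Pool.Agent.Helper82.Proj1 (supp shadow kappa)
open scoped RealInnerProductSpace ENNReal Pointwise

variable {V : Type*} [NormedAddCommGroup V] [InnerProductSpace ℝ V] [FiniteDimensional ℝ V]
  [MeasurableSpace V] [BorelSpace V]

/-- `v i` are the intrinsic volumes of `K | u^⊥` (Steiner's formula in `u^⊥`, of dimension `d - 1`). -/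
def StF (K : Set V) (u : V) (v : ℕ → ℝ) : Prop :=
  ∀ t : ℝ, 0 ≤ t → (volume (shadow K (ℝ ∙ u)ᗮ + closedBall (0 : (ℝ ∙ u)ᗮ) t)).toReal =
    ∑ i ∈ Finset.range (Module.finrank ℝ V),
      kappa (Module.finrank ℝ V - 1 - i) * v i * t ^ (Module.finrank ℝ V - 1 - i)

/-- `P` is the `j`-th projection body of `K`. -/
def IsPB (j : ℕ) (K P : Set V) : Prop := ∀ u : V, ‖u‖ = 1 → ∃ v : ℕ → ℝ, v j = supp P u ∧ StF K u v

end Pool.Agent.HP89
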