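import Pool.Agent.HP89.G0

/-! Module HP-G4: continuity of the volume.

* `supp_unif`: pointwise convergence of the (sublinear) support functions is uniform on the unit sphere. All `supp (A n)` are Lipschitz with one
  constant `R`: with an orthonormal basis `b`, `supp (A n) u ≤ ∑ |⟪b_i,u⟫| max(supp (A n) (± b_i)) ≤ R‖u‖` and
  `supp (A n) u - supp (A n) v ≤ supp (A n) (u - v)` (`supp_add_right_le`); take a finite `δ`-net of the sphere
  (compactness), `δ = ε/(3R)`.
* upper bound: if `supp (A n) u ≤ supp B u + ε` on the sphere then `A n ⊆ B + closedBall 0 ε` (`subset_iff`) `= cthickening ε B`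
  and `vol (cthickening ε B) → vol B` as `ε → 0` (`tendsto_measure_cthickening_of_isClosed`, finite measure near compact `B`).
* lower bound: if `vol B = 0` nothing to prove. Otherwise `B` has an interior point (a convex set of positive measure has nonempty
  interior: `Convex.addHaar_frontier = 0`), `closedBall p r ⊆ B`, `r > 0`. If `supp (A n) ≥ supp B - δ` on the sphere, `δ < r`, then
  `A n ⊇ (1 - δ/r) • B + (δ/r) • {p}`: its support function is `supp B u - (δ/r)(supp B u - ⟪p,u⟫) ≤ supp B u - δ`.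
  So `vol (A n) ≥ (1 - δ/r)^d vol B`. -/

namespace Pool.Agent.HP89
open MeasureTheory ProbabilityTheory Set Filter Topology Metric
open Pool.Agent.Helper82.Proj1
open scoped RealInnerProductSpace ENNReal Pointwise

variable {V : Type*} [NormedAddCommGroup V] [InnerProductSpace ℝ V] [FiniteDimensional ℝ V]

/-- eventually all `A n` lie in one ball. -/
theorem ev_bdd {A : ℕ → Set V} {B : Set V} (hA : ∀ n, CC (A n))
    (h : ∀ u, ‖u‖ = 1 → Tendsto (fun n => supp (A n) u) atTop (𝓝 (supp B u))) :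
    ∃ R : ℝ, 0 < R ∧ ∀ᶠ n in atTop, ∀ x ∈ A n, ‖x‖ ≤ R := by
  classical
  set b := stdOrthonormalBasis ℝ V with hb
  have hn : ∀ i, ‖b i‖ = 1 := fun i => b.orthonormal.1 i
  have hn' : ∀ i, ‖-(b i)‖ = 1 := fun i => by rw [norm_neg]; exact hn i
  set C : Fin (Module.finrank ℝ V) → ℝ := fun i => |supp B (b i)| + |supp B (-(b i))| + 1 with hC
  have hC0 : ∀ i, 0 ≤ C i := fun i => by
    have h1 := abs_nonneg (supp B (b i))
    have h2 := abs_nonneg (supp B (-(b i)))
    simp only [hC]; linarith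
  refine ⟨∑ i, C i + 1, by have := Finset.sum_nonneg (fun i (_ : i ∈ Finset.univ) => hC0 i); linarith, ?_⟩
  have h1 : ∀ᶠ n in atTop, ∀ i, supp (A n) (b i) < C i := by
    refine eventually_all.2 (fun i => ?_)
    have h2 : supp B (b i) < C i := by
      have h1 := le_abs_self (supp B (b i))
      have h2 := abs_nonneg (supp B (-(b i)))
      simp only [hC]; linarith
    exact (h _ (hn i)).eventually_lt_const h2
  have h2 : ∀ᶠ n in atTop, ∀ i, supp (A n) (-(b i)) < C i := by
    refine eventually_all.2 (fun i => ?_)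
    have h2 : supp B (-(b i)) < C i := by
      have h1 := le_abs_self (supp B (-(b i)))
      have h2 := abs_nonneg (supp B (b i))
      simp only [hC]; linarith
    exact (h _ (hn' i)).eventually_lt_const h2
  filter_upwards [h1, h2] with n hn1 hn2 x hx
  have hx' : ∀ i, |⟪b i, x⟫| ≤ C i := by
    intro i
    rw [abs_le]
    have e1 := le_supp (hA n).compact hx (b i)
    have e2 := le_supp (hA n).compact hx (-(b i))
    rw [inner_neg_right] at e2
    rw [real_inner_comm] at e1 e2
    constructor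
    · linarith [hn2 i]
    · linarith [hn1 i]
  calc ‖x‖ = ‖∑ i, ⟪b i, x⟫ • b i‖ := by rw [b.sum_repr' x]
    _ ≤ ∑ i, ‖⟪b i, x⟫ • b i‖ := norm_sum_le _ _
    _ = ∑ i, |⟪b i, x⟫| := by
        refine Finset.sum_congr rfl (fun i _ => ?_)
        rw [norm_smul, hn i, mul_one, Real.norm_eq_abs]
    _ ≤ ∑ i, C i := Finset.sum_le_sum (fun i _ => hx' i)
    _ ≤ ∑ i, C i + 1 := by linarith

theorem supp_unif {A : ℕ → Set V} {B : Set V} (hA : ∀ n, CC (A n)) (hB : CC B)
    (h : ∀ u, ‖u‖ = 1 → Tendsto (fun n => supp (A n) u) atTop (𝓝 (supp B u))) {ε : ℝ} (hε : 0 < ε) :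
    ∀ᶠ n in atTop, ∀ u, ‖u‖ = 1 → |supp (A n) u - supp B u| ≤ ε := by
  obtain ⟨R₁, hR₁, hev⟩ := ev_bdd hA h
  obtain ⟨R₂, hR₂⟩ := hB.compact.isBounded.exists_norm_le
  set R : ℝ := max R₁ R₂ with hR
  have hR0 : 0 < R := lt_of_lt_of_le hR₁ (le_max_left _ _)
  have hRB : ∀ x ∈ B, ‖x‖ ≤ R := fun x hx => (hR₂ x hx).trans (le_max_right _ _)
  have hδ : 0 < ε / (3 * R) := by positivity
  obtain ⟨t, ht, htf, htc⟩ := (isCompact_sphere (0 : V) 1).finite_cover_balls hδ
  have h1 : ∀ᶠ n in atTop, ∀ v ∈ t, |supp (A n) v - supp B v| < ε / 3 := by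
    refine (htf.eventually_all).2 (fun v hv => ?_)
    have hv1 : ‖v‖ = 1 := by simpa using ht hv
    have := h v hv1
    rw [Metric.tendsto_nhds] at this
    have h3 := this (ε / 3) (by positivity)
    simpa [Real.dist_eq] using h3
  filter_upwards [h1, hev] with n hn1 hn2 u hu
  have hRA : ∀ x ∈ A n, ‖x‖ ≤ R := fun x hx => (hn2 x hx).trans (le_max_left _ _)
  have hu' : u ∈ ⋃ x ∈ t, ball x (ε / (3 * R)) := htc (by simpa using hu)
  simp only [mem_iUnion, mem_ball, exists_prop] at hu'
  obtain ⟨v, hv, hd⟩ := hu'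
  rw [dist_eq_norm] at hd
  have hRd : R * ‖u - v‖ ≤ ε / 3 := by
    have : R * ‖u - v‖ ≤ R * (ε / (3 * R)) := by gcongr
    have e : R * (ε / (3 * R)) = ε / 3 := by field_simp
    linarith
  have a1 := supp_sub_le (hA n).compact (hA n).nonempty hRA u v
  have a2 := supp_sub_le (hA n).compact (hA n).nonempty hRA v u
  have b1 := supp_sub_le hB.compact hB.nonempty hRB u v
  have b2 := supp_sub_le hB.compact hB.nonempty hRB v u
  rw [norm_sub_rev v u] at a2 b2
  have c := abs_lt.1 (hn1 v hv)
  rw [abs_le]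
  constructor <;> linarith [c.1, c.2]

variable [MeasurableSpace V] [BorelSpace V]

theorem vol_tendsto {A : ℕ → Set V} {B : Set V} (hA : ∀ n, CC (A n)) (hB : CC B)
    (h : ∀ u, ‖u‖ = 1 → Tendsto (fun n => supp (A n) u) atTop (𝓝 (supp B u))) :
    Tendsto (fun n => (volume (A n)).toReal) atTop (𝓝 (volume B).toReal) := by
  have hBfin : volume B ≠ ∞ := hB.compact.measure_ne_top
  have hAfin : ∀ n, volume (A n) ≠ ∞ := fun n => (hA n).compact.measure_ne_top
  rw [ENNReal.tendsto_toReal_iff hAfin hBfin]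
  refine tendsto_order.2 ⟨fun a ha => ?_, fun a ha => ?_⟩
  · -- lower bound
    have hne : volume B ≠ 0 := (lt_of_le_of_lt bot_le ha).ne'
    have hint : (interior B).Nonempty := by
      by_contra hemp
      rw [Set.not_nonempty_iff_eq_empty] at hemp
      have h0 := hB.convex.addHaar_frontier volume
      have : frontier B = B := by
        rw [frontier, hemp, sdiff_empty, hB.compact.isClosed.closure_eq]
      rw [this] at h0
      exact hne h0
    obtain ⟨p, hp⟩ := hint
    obtain ⟨r, hr, hpr⟩ := Metric.nhds_basis_closedBall.mem_iff.1 (mem_interior_iff_mem_nhds.1 hp)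
    have hpB : ∀ u : V, ‖u‖ = 1 → ⟪p, u⟫ + r ≤ supp B u := by
      intro u hu
      have hm : p + r • u ∈ B := hpr (by
        rw [mem_closedBall, dist_eq_norm, add_sub_cancel_left, norm_smul, hu, Real.norm_eq_abs, abs_of_pos hr,
          mul_one])
      have := le_supp hB.compact hm u
      rw [inner_add_left, inner_smul_left, real_inner_self_eq_norm_sq, hu] at this
      simpa using this
    -- limit of the factor
    have hlim : Tendsto (fun c : ℝ => ENNReal.ofReal |c ^ Module.finrank ℝ V| * volume B) (𝓝 1)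
        (𝓝 (volume B)) := by
      have h1 : Tendsto (fun c : ℝ => ENNReal.ofReal |c ^ Module.finrank ℝ V|) (𝓝 1) (𝓝 1) := by
        have : Continuous (fun c : ℝ => ENNReal.ofReal |c ^ Module.finrank ℝ V|) :=
          ENNReal.continuous_ofReal.comp (by fun_prop)
        simpa using this.tendsto 1
      simpa using ENNReal.Tendsto.mul_const h1 (Or.inr hBfin)
    have hlim2 : Tendsto (fun δ : ℝ => 1 - δ / r) (𝓝[>] 0) (𝓝 1) := by
      have : Continuous (fun δ : ℝ => 1 - δ / r) := by fun_prop
      have h2 := this.tendsto 0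
      simp only [zero_div, sub_zero] at h2
      exact h2.mono_left nhdsWithin_le_nhds
    have h3 : ∀ᶠ δ in 𝓝[>] (0 : ℝ), a < ENNReal.ofReal |(1 - δ / r) ^ Module.finrank ℝ V| * volume B :=
      (hlim.comp hlim2).eventually_const_lt ha
    have h4 : ∀ᶠ δ in 𝓝[>] (0 : ℝ), δ < r :=
      (tendsto_id.mono_left nhdsWithin_le_nhds).eventually_lt_const hr
    obtain ⟨δ, ⟨hδ3, hδ4⟩, hδ0⟩ := ((h3.and h4).and self_mem_nhdsWithin).exists
    have hδ0' : 0 < δ := hδ0
    filter_upwards [supp_unif hA hB h hδ0'] with n hn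
    refine lt_of_lt_of_le hδ3 ?_
    rw [← Measure.addHaar_image_homothety volume p (1 - δ / r) B]
    refine measure_mono ?_
    rintro _ ⟨x, hx, rfl⟩
    refine (mem_iff' (hA n) _).2 (fun u hu => ?_)
    have e1 := le_supp hB.compact hx u
    have e2 := hpB u hu
    have e3 := (abs_le.1 (hn u hu)).1
    have hc0 : 0 ≤ 1 - δ / r := by
      rw [sub_nonneg, div_le_one hr]; exact hδ4.le
    have hc1 : 0 ≤ δ / r := by positivity
    have e4 : ⟪AffineMap.homothety p (1 - δ / r) x, u⟫ = (1 - δ / r) * ⟪x, u⟫ + (δ / r) * ⟪p, u⟫ := by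
      rw [AffineMap.homothety_apply, vsub_eq_sub, vadd_eq_add, inner_add_left, inner_smul_left, inner_sub_left]
      simp only [conj_trivial]
      ring
    rw [e4]
    have e5 : (1 - δ / r) * ⟪x, u⟫ ≤ (1 - δ / r) * supp B u := by gcongr
    have e6 : (δ / r) * ⟪p, u⟫ ≤ (δ / r) * (supp B u - r) := by
      gcongr; linarith
    have e7 : (δ / r) * r = δ := by field_simp
    nlinarith
  · -- upper bound
    have hlim := tendsto_measure_cthickening_of_isCompact (μ := (volume : Measure V)) hB.compact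
    have h3 : ∀ᶠ ε in 𝓝[>] (0 : ℝ), volume (cthickening ε B) < a :=
      (hlim.mono_left nhdsWithin_le_nhds).eventually_lt_const ha
    obtain ⟨ε, hε3, hε0⟩ := (h3.and self_mem_nhdsWithin).exists
    have hε0' : 0 < ε := hε0
    filter_upwards [supp_unif hA hB h hε0'] with n hn
    refine lt_of_le_of_lt (measure_mono ?_) hε3
    rw [← hB.compact.add_closedBall_zero hε0'.le]
    refine (subset_iff (hA n) (hB.add (cc_ball hε0'.le))).2 (fun u hu => ?_)
    rw [supp_add hB (cc_ball hε0'.le), supp_ball hε0'.le, hu]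
    have e3 := (abs_le.1 (hn u hu)).2
    linarith

theorem cfl_tendsto (Y : List V) {A : ℕ → Set V} {B : Set V} (hA : ∀ n, CC (A n)) (hB : CC B)
    (h : ∀ u, ‖u‖ = 1 → Tendsto (fun n => supp (A n) u) atTop (𝓝 (supp B u))) :
    Tendsto (fun n => cfl Y (A n)) atTop (𝓝 (cfl Y B)) := by
  induction Y generalizing A B with
  | nil => exact vol_tendsto hA hB h
  | cons y Y ih =>
    simp only [cfl]
    refine Tendsto.sub (ih (fun n => (hA n).add (cc_seg y)) (hB.add (cc_seg y)) ?_) (ih hA hB h)
    intro u hu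
    simp only [fun n => supp_add (hA n) (cc_seg y) u, supp_add hB (cc_seg y) u]
    exact (h u hu).add_const _

end Pool.Agent.HP89
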