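import Pool.Agent.HP89.GDefs

/-! Module HP-G6: the class `Zon` is a cone, closed under pointwise limits.

`Zon.of_tendsto`: first replace the measure of `f n` by one on the unit sphere: `μ' = (‖x‖ μ)` pushed forward by `x ↦ ‖x‖⁻¹ • x` on `{x ≠ 0}`:
`∫ |⟪x,u⟫| dμ = ∫ |⟪‖x‖⁻¹x, u⟫| ‖x‖ dμ`, mass `∫ ‖x‖ dμ ≤ ∑_i ∫ |⟪x, b_i⟫| dμ = ∑_i f n (b_i)` (orthonormal basis), which converges, so the masses
are bounded. The sphere is compact: by Prokhorov / weak-* compactness (Mathlib `Mathlib/MeasureTheory/Measure/Prokhorov.lean`: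
`CompactSpace (ProbabilityMeasure E)` for `E` compact metrizable, or the compactness of sets of finite measures of bounded mass) a subsequence of
the (normalised) measures on `sphere 0 1` converges weakly; masses converge along a further subsequence (if they tend to `0` then `f = 0`). The functions
`x ↦ |⟪x,u⟫|` are continuous and bounded on the sphere. -/

namespace Pool.Agent.HP89
open MeasureTheory ProbabilityTheory Set Filter Topology Metric
open scoped RealInnerProductSpace ENNReal NNReal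

variable {V : Type*} [NormedAddCommGroup V] [InnerProductSpace ℝ V] [FiniteDimensional ℝ V]
  [MeasurableSpace V] [BorelSpace V]

theorem g6_int {μ : Measure V} (h : Integrable (fun x => ‖x‖) μ) (u : V) :
    Integrable (fun x => |⟪x, u⟫|) μ := by
  refine (h.mul_const ‖u‖).mono' (by fun_prop) (Eventually.of_forall fun x => ?_)
  simp only [Real.norm_eq_abs, abs_abs]
  exact abs_real_inner_le_norm x u

theorem Zon.zero : Zon (fun _ : V => (0 : ℝ)) :=
  ⟨0, inferInstance, by simp, fun u _ => by simp⟩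

theorem Zon.add {f g : V → ℝ} (hf : Zon f) (hg : Zon g) : Zon (fun u => f u + g u) := by
  obtain ⟨μ, hμ, hi, h⟩ := hf
  obtain ⟨ν, hν, hj, k⟩ := hg
  refine ⟨μ + ν, inferInstance, hi.add_measure hj, fun u hu => ?_⟩
  simp only []
  rw [integral_add_measure (g6_int hi u) (g6_int hj u), h u hu, k u hu]

theorem Zon.smul {f : V → ℝ} (hf : Zon f) {c : ℝ} (hc : 0 ≤ c) : Zon (fun u => c * f u) := by
  obtain ⟨μ, hμ, hi, h⟩ := hf
  refine ⟨ENNReal.ofReal c • μ, ?_, hi.smul_measure ENNReal.ofReal_ne_top, fun u hu => ?_⟩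
  · exact Measure.smul_finite μ ENNReal.ofReal_ne_top
  · simp only []
    rw [integral_smul_measure, ENNReal.toReal_ofReal hc, smul_eq_mul, h u hu]

theorem Zon.congr {f g : V → ℝ} (hf : Zon f) (h : ∀ u, ‖u‖ = 1 → g u = f u) : Zon g := by
  obtain ⟨μ, hμ, hi, k⟩ := hf
  exact ⟨μ, hμ, hi, fun u hu => by rw [h u hu, k u hu]⟩

theorem Zon.list_sum {ι : Type*} (L : List ι) (f : ι → V → ℝ) (hf : ∀ i ∈ L, Zon (f i)) :
    Zon (fun u => (L.map (fun i => f i u)).sum) := by
  induction L with
  | nil => exact Zon.zero.congr (fun u _ => by simp)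
  | cons a L ih =>
    refine (Zon.add (hf a (by simp)) (ih fun i hi => hf i (by simp [hi]))).congr (fun u _ => ?_)
    simp

/-- replacing the measure by a measure on the sphere. -/
theorem g6_sphere (x0 : sphere (0 : V) 1) {μ : Measure V} [IsFiniteMeasure μ]
    (hi : Integrable (fun x => ‖x‖) μ) :
    ∃ ν : FiniteMeasure (sphere (0 : V) 1),
      (ν.mass : ℝ) = ∫ x, ‖x‖ ∂μ ∧
      ∀ u : V, ∫ y, |⟪(y : V), u⟫| ∂(ν : Measure (sphere (0 : V) 1)) = ∫ x, |⟪x, u⟫| ∂μ := by
  classical
  let ψ : V → V := fun x => if x = 0 then (x0 : V) else ‖x‖⁻¹ • x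
  have hψ : ∀ x, ψ x ∈ sphere (0 : V) 1 := by
    intro x
    by_cases h : x = 0
    · simp only [ψ, h, if_true]
      exact x0.2
    · simp only [ψ, h, if_false]
      rw [mem_sphere_zero_iff_norm, norm_smul, norm_inv, norm_norm,
        inv_mul_cancel₀ (norm_ne_zero_iff.2 h)]
  have hψm : Measurable ψ :=
    Measurable.ite (measurableSet_singleton (0 : V)) measurable_const
      (measurable_norm.inv.smul measurable_id)
  let φ : V → sphere (0 : V) 1 := fun x => ⟨ψ x, hψ x⟩
  have hφ : Measurable φ := hψm.subtype_mk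
  let m : Measure V := μ.withDensity (fun x => ENNReal.ofReal ‖x‖)
  have hm : IsFiniteMeasure m := by
    constructor
    simp only [m]
    rw [withDensity_apply _ MeasurableSet.univ, Measure.restrict_univ]
    exact hi.lintegral_lt_top
  have hfin : IsFiniteMeasure (m.map φ) := Measure.isFiniteMeasure_map m φ
  refine ⟨⟨m.map φ, hfin⟩, ?_, fun u => ?_⟩
  · have h1 : (m.map φ) univ = ENNReal.ofReal (∫ x, ‖x‖ ∂μ) := by
      rw [Measure.map_apply hφ MeasurableSet.univ, preimage_univ]
      simp only [m]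
      rw [withDensity_apply _ MeasurableSet.univ, Measure.restrict_univ]
      exact (ofReal_integral_eq_lintegral_ofReal hi (Eventually.of_forall fun x => norm_nonneg x)).symm
    have h2 : (0 : ℝ) ≤ ∫ x, ‖x‖ ∂μ := integral_nonneg fun x => norm_nonneg x
    simp only [FiniteMeasure.mass, FiniteMeasure.mk_apply]
    rw [h1, ENNReal.coe_toNNReal_eq_toReal, ENNReal.toReal_ofReal h2]
  · simp only [FiniteMeasure.toMeasure_mk]
    rw [integral_map hφ.aemeasurable (by
      have : Continuous (fun y : sphere (0 : V) 1 => |⟪(y : V), u⟫|) := by fun_prop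
      exact this.aestronglyMeasurable)]
    simp only [m]
    rw [integral_withDensity_eq_integral_toReal_smul (by fun_prop)
      (Eventually.of_forall fun x => ENNReal.ofReal_lt_top)]
    refine integral_congr_ae (Eventually.of_forall fun x => ?_)
    simp only [ENNReal.toReal_ofReal (norm_nonneg x), smul_eq_mul, φ, ψ]
    by_cases h : x = 0
    · simp [h]
    · have hx : ‖x‖ ≠ 0 := norm_ne_zero_iff.2 h
      simp only [h, if_false]
      rw [real_inner_smul_left, abs_mul, abs_inv, abs_norm, ← mul_assoc, mul_inv_cancel₀ hx, one_mul]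

theorem g6_norm_le {μ : Measure V} (hi : Integrable (fun x => ‖x‖) μ) :
    ∫ x, ‖x‖ ∂μ ≤ ∑ i, ∫ x, |⟪x, stdOrthonormalBasis ℝ V i⟫| ∂μ := by
  rw [← integral_finsetSum _ fun i _ => g6_int hi _]
  refine integral_mono hi (integrable_finsetSum _ fun i _ => g6_int hi _) fun x => ?_
  simp only []
  calc ‖x‖ = ‖∑ i, ⟪stdOrthonormalBasis ℝ V i, x⟫ • stdOrthonormalBasis ℝ V i‖ := by
        rw [(stdOrthonormalBasis ℝ V).sum_repr' x]
    _ ≤ ∑ i, ‖⟪stdOrthonormalBasis ℝ V i, x⟫ • stdOrthonormalBasis ℝ V i‖ := norm_sum_le _ _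
    _ = ∑ i, |⟪x, stdOrthonormalBasis ℝ V i⟫| := by
        refine Finset.sum_congr rfl fun i _ => ?_
        rw [norm_smul, (stdOrthonormalBasis ℝ V).norm_eq_one, mul_one, Real.norm_eq_abs,
          real_inner_comm]

theorem Zon.of_tendsto {f : ℕ → V → ℝ} {g : V → ℝ} (hf : ∀ n, Zon (f n))
    (h : ∀ u, ‖u‖ = 1 → Tendsto (fun n => f n u) atTop (𝓝 (g u))) : Zon g := by
  classical
  by_cases hne : Nonempty (sphere (0 : V) 1)
  swap
  · refine Zon.zero.congr fun u hu => ?_
    exact absurd ⟨⟨u, by simpa using hu⟩⟩ hne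
  obtain ⟨x0⟩ := hne
  choose μ hμ hi hfμ using hf
  have hsph : ∀ n, ∃ ν : FiniteMeasure (sphere (0 : V) 1),
      (ν.mass : ℝ) = ∫ x, ‖x‖ ∂(μ n) ∧
      ∀ u : V, ∫ y, |⟪(y : V), u⟫| ∂(ν : Measure (sphere (0 : V) 1)) = ∫ x, |⟪x, u⟫| ∂(μ n) :=
    fun n => g6_sphere x0 (hi n)
  choose ν hνm hν using hsph
  -- bounded masses
  have hb : ∃ C : ℝ≥0, ∀ n, (ν n).mass ≤ C := by
    have h1 : Tendsto (fun n => ∑ i, f n (stdOrthonormalBasis ℝ V i)) atTop
        (𝓝 (∑ i, g (stdOrthonormalBasis ℝ V i))) :=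
      tendsto_finsetSum _ fun i _ => h _ ((stdOrthonormalBasis ℝ V).norm_eq_one i)
    obtain ⟨C, hC⟩ := h1.bddAbove_range
    refine ⟨C.toNNReal, fun n => ?_⟩
    rw [← NNReal.coe_le_coe]
    refine le_trans ?_ (Real.le_coe_toNNReal C)
    rw [hνm n]
    refine (g6_norm_le (hi n)).trans ?_
    refine le_trans (le_of_eq ?_) (hC ⟨n, rfl⟩)
    exact Finset.sum_congr rfl fun i _ => (hfμ n _ ((stdOrthonormalBasis ℝ V).norm_eq_one i)).symm
  obtain ⟨C, hC⟩ := hb
  have hcomp : CompactSpace (sphere (0 : V) 1) := isCompact_iff_compactSpace.1 (isCompact_sphere 0 1)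
  have hK := isCompact_setOfPred_finiteMeasure_le_of_compactSpace (E := sphere (0 : V) 1) C
  obtain ⟨ρ, hρK, hρ⟩ := hK.exists_mapClusterPt (f := atTop) (u := ν)
    (by simpa using ⟨0, fun n _ => hC n⟩)
  refine ⟨(ρ : Measure (sphere (0 : V) 1)).map (fun y : sphere (0 : V) 1 => (y : V)),
    Measure.isFiniteMeasure_map _ _, ?_, fun u hu => ?_⟩
  · rw [integrable_map_measure (by fun_prop) (by fun_prop)]
    refine Integrable.mono' (integrable_const (1 : ℝ)) (by fun_prop)
      (Eventually.of_forall fun y => ?_)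
    simp
  · rw [integral_map (by fun_prop) (by
      exact Continuous.aestronglyMeasurable (by fun_prop))]
    have hcont : Continuous (fun y : sphere (0 : V) 1 => |⟪(y : V), u⟫|) := by fun_prop
    let F : BoundedContinuousFunction (sphere (0 : V) 1) ℝ :=
      BoundedContinuousFunction.mkOfCompact ⟨_, hcont⟩
    have hF : Continuous (fun ρ : FiniteMeasure (sphere (0 : V) 1) =>
        ∫ y, F y ∂(ρ : Measure (sphere (0 : V) 1))) :=
      FiniteMeasure.continuous_integral_boundedContinuousFunction F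
    have h2 : MapClusterPt (∫ y, F y ∂(ρ : Measure (sphere (0 : V) 1))) atTop
        (fun n => ∫ y, F y ∂(ν n : Measure (sphere (0 : V) 1))) :=
      hρ.continuousAt_comp hF.continuousAt
    have h3 : Tendsto (fun n => ∫ y, F y ∂(ν n : Measure (sphere (0 : V) 1))) atTop (𝓝 (g u)) := by
      refine (h u hu).congr fun n => ?_
      rw [hfμ n u hu, ← hν n u]
      rfl
    have h4 : ∫ y, F y ∂(ρ : Measure (sphere (0 : V) 1)) = g u := by
      have h5 : ClusterPt (∫ y, F y ∂(ρ : Measure (sphere (0 : V) 1))) (𝓝 (g u)) :=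
        ClusterPt.mono h2 h3
      exact eq_of_nhds_neBot h5
    exact h4.symm

end Pool.Agent.HP89
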