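import Pool.Agent.HP89.Defs

/-! Module HP-G7a: total variation of a unimodal Lipschitz function of one variable.

`q ≥ 0` Lipschitz, with compact support, and quasiconcave (all sets `{q ≥ s}` convex). Let `m` be a maximum point. `q` is
nondecreasing on `(-∞,m]` and nonincreasing on `[m,∞)` (quasiconcave), so `deriv q ≥ 0` resp. `≤ 0` there, and `deriv q` is bounded by the
Lipschitz constant, and `∫_{-R}^m deriv q = q m - q (-R) = q m`, `∫_m^R deriv q = - q m` by the fundamental theorem of calculus for Lipschitz (absolutely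
continuous) functions: `LipschitzOnWith.absolutelyContinuousOnInterval`, `AbsolutelyContinuousOnInterval.integral_deriv_eq_sub`
(if this is missing: for a monotone Lipschitz function the Stieltjes measure is absolutely continuous, or
difference quotients + dominated convergence: `∫_a^b (q(x+h)-q(x))/h → q b - q a`, derivative exists a.e. by `LipschitzWith.ae_differentiableAt`). -/

namespace Pool.Agent.HP89
open MeasureTheory Set Filter Topology
open scoped ENNReal NNReal

/-- the total variation of a monotone Lipschitz function. -/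
private theorem lintegral_abs_deriv_of_monotoneOn {f : ℝ → ℝ} {C : ℝ≥0} (hf : LipschitzWith C f) {a b : ℝ} (hab : a ≤ b)
    (hm : MonotoneOn f (Icc a b)) :
    ∫⁻ x in Ioc a b, ENNReal.ofReal |deriv f x| = ENNReal.ofReal (f b - f a) := by
  have hac : AbsolutelyContinuousOnInterval f a b := (hf.lipschitzOnWith (s := uIcc a b)).absolutelyContinuousOnInterval
  have hint := hac.intervalIntegrable_deriv
  have hftc := hac.integral_deriv_eq_sub
  rw [intervalIntegral.integral_of_le hab] at hftc
  rw [intervalIntegrable_iff_integrableOn_Ioc_of_le hab] at hint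
  have hnn : ∀ᵐ x ∂(volume.restrict (Ioc a b)), 0 ≤ deriv f x := by
    rw [← restrict_Ioo_eq_restrict_Ioc]
    refine (ae_restrict_iff' measurableSet_Ioo).2 (Eventually.of_forall fun x hx => ?_)
    have hmem : Icc a b ∈ 𝓝 x := Icc_mem_nhds hx.1 hx.2
    have h1 : 0 ≤ derivWithin f (Icc a b) x := hm.derivWithin_nonneg
    rwa [derivWithin_of_mem_nhds hmem] at h1
  rw [← hftc, ofReal_integral_eq_lintegral_ofReal hint hnn]
  refine lintegral_congr_ae ?_
  filter_upwards [hnn] with x hx
  rw [abs_of_nonneg hx]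

theorem variation_unimodal {q : ℝ → ℝ} {C : ℝ≥0} (hq : LipschitzWith C q) (hs : HasCompactSupport q)
    (h0 : ∀ x, 0 ≤ q x) (hqc : QuasiconcaveOn ℝ univ q) :
    ∃ m, (∀ x, q x ≤ q m) ∧ ∫⁻ x, ENNReal.ofReal |deriv q x| = ENNReal.ofReal (2 * q m) := by
  obtain ⟨m, hm⟩ := hq.continuous.exists_forall_ge_of_hasCompactSupport hs
  refine ⟨m, hm, ?_⟩
  have hseg : ∀ x y z, x ≤ y → y ≤ z → min (q x) (q z) ≤ q y := by
    intro x y z hxy hyz
    have hc := hqc (min (q x) (q z))
    have hx : x ∈ {t ∈ (univ : Set ℝ) | min (q x) (q z) ≤ q t} := ⟨mem_univ _, min_le_left _ _⟩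
    have hz : z ∈ {t ∈ (univ : Set ℝ) | min (q x) (q z) ≤ q t} := ⟨mem_univ _, min_le_right _ _⟩
    exact (hc.ordConnected.out hx hz ⟨hxy, hyz⟩).2
  have hmono : MonotoneOn q (Iic m) := by
    intro x hx y hy hxy
    have := hseg x y m hxy hy
    rwa [min_eq_left (hm x)] at this
  have hanti : AntitoneOn q (Ici m) := by
    intro x hx y hy hxy
    have := hseg m x y hx hxy
    rwa [min_eq_right (hm y)] at this
  obtain ⟨R, hR, hRm⟩ : ∃ R : ℝ, (∀ x, R ≤ |x| → q x = 0) ∧ |m| < R := by
    obtain ⟨R₀, hR₀⟩ := hs.isCompact.isBounded.subset_closedBall 0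
    refine ⟨max R₀ |m| + 1, fun x hx => ?_, by linarith [le_max_right R₀ |m|]⟩
    by_contra hne
    have h1 : x ∈ Metric.closedBall (0 : ℝ) R₀ := hR₀ (subset_tsupport _ hne)
    rw [Metric.mem_closedBall, dist_zero_right, Real.norm_eq_abs] at h1
    linarith [le_max_left R₀ |m|]
  have hmR := abs_lt.1 hRm
  have hqR : q R = 0 := hR R (le_abs_self R)
  have hqR' : q (-R) = 0 := hR (-R) (by rw [abs_neg]; exact le_abs_self R)
  have hout1 : ∫⁻ x in Iic (-R), ENNReal.ofReal |deriv q x| = 0 := by
    rw [← restrict_Iio_eq_restrict_Iic]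
    have : ∀ x ∈ Iio (-R), ENNReal.ofReal |deriv q x| = 0 := by
      intro x hx
      have he : q =ᶠ[𝓝 x] fun _ => (0 : ℝ) := by
        filter_upwards [Iio_mem_nhds (mem_Iio.1 hx)] with y hy
        exact hR y (by rw [le_abs]; right; linarith [mem_Iio.1 hy])
      rw [he.deriv_eq]
      simp
    rw [setLIntegral_congr_fun measurableSet_Iio this]
    simp
  have hout2 : ∫⁻ x in Ioi R, ENNReal.ofReal |deriv q x| = 0 := by
    have : ∀ x ∈ Ioi R, ENNReal.ofReal |deriv q x| = 0 := by
      intro x hx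
      have he : q =ᶠ[𝓝 x] fun _ => (0 : ℝ) := by
        filter_upwards [Ioi_mem_nhds (mem_Ioi.1 hx)] with y hy
        exact hR y (by rw [le_abs]; left; linarith [mem_Ioi.1 hy])
      rw [he.deriv_eq]
      simp
    rw [setLIntegral_congr_fun measurableSet_Ioi this]
    simp
  have hin1 : ∫⁻ x in Ioc (-R) m, ENNReal.ofReal |deriv q x| = ENNReal.ofReal (q m) := by
    rw [lintegral_abs_deriv_of_monotoneOn hq hmR.1.le (hmono.mono Icc_subset_Iic_self), hqR', sub_zero]
  have hin2 : ∫⁻ x in Ioc m R, ENNReal.ofReal |deriv q x| = ENNReal.ofReal (q m) := by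
    have h1 := lintegral_abs_deriv_of_monotoneOn (f := fun x => - q x) hq.neg hmR.2.le
      (fun x hx y hy hxy => neg_le_neg (hanti (Icc_subset_Ici_self hx) (Icc_subset_Ici_self hy) hxy))
    simp only [hqR, neg_zero, zero_sub, neg_neg] at h1
    rw [← h1]
    refine lintegral_congr fun x => ?_
    rw [show deriv (fun x => - q x) x = - deriv q x from deriv.fun_neg, abs_neg]
  have hsplit : (univ : Set ℝ) = (Iic (-R) ∪ Ioc (-R) m) ∪ (Ioc m R ∪ Ioi R) := by
    rw [Iic_union_Ioc_eq_Iic hmR.1.le, Ioc_union_Ioi_eq_Ioi hmR.2.le, Iic_union_Ioi]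
  rw [← setLIntegral_univ, hsplit, lintegral_union, lintegral_union, lintegral_union, hout1, hout2, hin1, hin2,
    zero_add, add_zero, ← ENNReal.ofReal_add (h0 m) (h0 m), two_mul]
  · exact measurableSet_Ioi
  · exact disjoint_left.2 fun x hx hx' => not_lt.2 hx.2 hx'
  · exact measurableSet_Ioc
  · exact disjoint_left.2 fun x hx hx' => not_lt.2 hx hx'.1
  · exact measurableSet_Ioc.union measurableSet_Ioi
  · rw [Iic_union_Ioc_eq_Iic hmR.1.le, Ioc_union_Ioi_eq_Ioi hmR.2.le]
    exact disjoint_left.2 fun x hx hx' => not_lt.2 (mem_Iic.1 hx) (mem_Ioi.1 hx')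

end Pool.Agent.HP89
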