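import Pool.Agent.HP89.G2a
import Pool.Agent.HP89.G7a

/-! Module HP-G7b: a smoothed indicator function gives an (almost) generating measure of the projection body.

`φ x = max 0 (1 - infDist x D/ε)`: Lipschitz (constant `1/ε`), compact support (`⊆ cthickening ε D`), `0 ≤ φ ≤ 1`, `{φ ≥ s} = cthickening ((1-s)ε) D =
D + closedBall 0 ((1-s)ε)` convex for `0 < s ≤ 1`. Rademacher (`LipschitzWith.ae_differentiableAt`): `φ` is differentiable a.e.; let `μ` be the image of
`volume.restrict (cthickening ε D)` under the gradient `x ↦ (InnerProductSpace.toDual ℝ V).symm (fderiv ℝ φ x)` (measurable: `measurable_fderiv`; bounded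
by `1/ε`), a finite measure, and
`∫ |⟪x,u⟫| dμ = ∫_V |fderiv φ x u| dx` (`fderiv φ = 0` a.e. outside the thickening, as `φ = 0` on the open complement)
`= ∫_{y ∈ S} ∫_ℝ |deriv (τ ↦ φ(y + τu)) τ| dτ dy` (`measurePreserving_split`, `S = (ℝ∙u)ᗮ`; at a point of differentiability
`fderiv φ (y+τu) u = deriv (fun τ => φ (y+τu)) τ`)
`= ∫_S 2 max_τ φ(y+τu) dy` (`variation_unimodal`)
and `1_{shadow D}(y) ≤ max_τ φ(y+τu) ≤ 1_{shadow (D + closedBall 0 ε)}(y)`. With `cfl_singleton` this is the claim. -/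

namespace Pool.Agent.HP89
open MeasureTheory ProbabilityTheory Set Filter Topology Metric
open Pool.Agent.Helper82.Proj1
open scoped RealInnerProductSpace ENNReal Pointwise NNReal

variable {V : Type*} [NormedAddCommGroup V] [InnerProductSpace ℝ V]

/-- the smoothed indicator function. -/
private noncomputable def phi (D : Set V) (ε : ℝ) (x : V) : ℝ := max (1 - infDist x D / ε) 0

omit [InnerProductSpace ℝ V] in
private lemma phi_nonneg (D : Set V) (ε : ℝ) (x : V) : 0 ≤ phi D ε x := le_max_right _ _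

omit [InnerProductSpace ℝ V] in
private lemma phi_le_one (D : Set V) {ε : ℝ} (hε : 0 < ε) (x : V) : phi D ε x ≤ 1 := by
  have : 0 ≤ infDist x D / ε := div_nonneg infDist_nonneg hε.le
  exact max_le (by linarith) zero_le_one

omit [InnerProductSpace ℝ V] in
private lemma phi_eq_one {D : Set V} {ε : ℝ} {x : V} (hx : x ∈ D) : phi D ε x = 1 := by
  have : infDist x D = 0 := infDist_zero_of_mem hx
  simp [phi, this]

omit [InnerProductSpace ℝ V] in
private lemma phi_lipschitz (D : Set V) {ε : ℝ} (hε : 0 < ε) :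
    LipschitzWith (Real.toNNReal (1 / ε)) (phi D ε) := by
  refine LipschitzWith.of_dist_le_mul fun x y => ?_
  rw [Real.coe_toNNReal _ (by positivity), Real.dist_eq]
  unfold phi
  refine (abs_max_sub_max_le_abs _ _ _).trans ?_
  have h1 : dist (infDist x D) (infDist y D) ≤ dist x y := by
    simpa using (lipschitz_infDist_pt D).dist_le_mul x y
  rw [Real.dist_eq] at h1
  have : (1 - infDist x D / ε) - (1 - infDist y D / ε) = -((infDist x D - infDist y D) / ε) := by ring
  rw [this, abs_neg, abs_div, abs_of_pos hε, one_div, div_eq_inv_mul]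
  exact mul_le_mul_of_nonneg_left h1 (by positivity)

private lemma infDist_gt {D : Set V} (hD : CC D) {ε : ℝ} {x : V}
    (hx : x ∉ D + closedBall (0 : V) ε) : ε < infDist x D := by
  by_contra h
  rw [not_lt] at h
  obtain ⟨p, hp, hpx⟩ := hD.compact.exists_infDist_eq_dist hD.nonempty x
  apply hx
  refine ⟨p, hp, x - p, ?_, by simp⟩
  rw [mem_closedBall_zero_iff, ← dist_eq_norm, ← hpx]
  exact h

private lemma phi_eq_zero {D : Set V} (hD : CC D) {ε : ℝ} (hε : 0 < ε) {x : V}
    (hx : x ∉ D + closedBall (0 : V) ε) : phi D ε x = 0 := by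
  have h1 := infDist_gt hD hx
  have : 1 < infDist x D / ε := by rwa [one_lt_div hε]
  exact max_eq_right (by linarith)

private lemma infDist_convexOn {D : Set V} (hD : CC D) : ConvexOn ℝ univ (fun x => infDist x D) := by
  refine ⟨convex_univ, fun x _ y _ a b ha hb hab => ?_⟩
  obtain ⟨p, hp, hpx⟩ := hD.compact.exists_infDist_eq_dist hD.nonempty x
  obtain ⟨q, hq, hqy⟩ := hD.compact.exists_infDist_eq_dist hD.nonempty y
  have hmem : a • p + b • q ∈ D := hD.convex hp hq ha hb hab
  refine (infDist_le_dist_of_mem hmem).trans ?_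
  show dist (a • x + b • y) (a • p + b • q) ≤ a • infDist x D + b • infDist y D
  rw [hpx, hqy, dist_eq_norm, dist_eq_norm, dist_eq_norm, smul_eq_mul, smul_eq_mul]
  have : a • x + b • y - (a • p + b • q) = a • (x - p) + b • (y - q) := by module
  rw [this]
  refine (norm_add_le _ _).trans ?_
  rw [norm_smul, norm_smul, Real.norm_of_nonneg ha, Real.norm_of_nonneg hb]

private lemma phi_quasi {D : Set V} (hD : CC D) {ε : ℝ} (hε : 0 < ε) (y u : V) :
    QuasiconcaveOn ℝ univ (fun τ : ℝ => phi D ε (y + τ • u)) := by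
  intro r
  rcases le_or_gt r 0 with hr | hr
  · have : {x | x ∈ (univ : Set ℝ) ∧ r ≤ phi D ε (y + x • u)} = univ := by
      ext x
      simp [hr.trans (phi_nonneg D ε _)]
    rw [this]
    exact convex_univ
  · have : {x | x ∈ (univ : Set ℝ) ∧ r ≤ phi D ε (y + x • u)} =
        {x : ℝ | infDist (y + x • u) D ≤ (1 - r) * ε} := by
      ext x
      simp only [mem_univ, true_and, mem_ofPred_eq, phi, le_max_iff, not_le.mpr hr, or_false]
      rw [← div_le_iff₀ hε]
      constructor <;> intro h <;> linarith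
    rw [this]
    intro s hs t ht a b ha hb hab
    simp only [mem_ofPred_eq, smul_eq_mul] at hs ht ⊢
    have h1 := (infDist_convexOn hD).2 (mem_univ (y + s • u)) (mem_univ (y + t • u)) ha hb hab
    have h2 : a • (y + s • u) + b • (y + t • u) = y + (a * s + b * t) • u := by
      have : y = (a + b) • y := by rw [hab, one_smul]
      conv_rhs => rw [this]
      module
    simp only [h2, smul_eq_mul] at h1
    calc infDist (y + (a * s + b * t) • u) D ≤ a * infDist (y + s • u) D + b * infDist (y + t • u) D := h1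
      _ ≤ a * ((1 - r) * ε) + b * ((1 - r) * ε) := by gcongr
      _ = (1 - r) * ε := by rw [← add_mul, hab, one_mul]

private lemma CC.thick {D : Set V} [FiniteDimensional ℝ V] (hD : CC D) {ε : ℝ} (hε : 0 < ε) : CC (D + closedBall (0 : V) ε) :=
  ⟨hD.compact.add (isCompact_closedBall _ _), hD.convex.add (convex_closedBall _ _),
    hD.nonempty.add ⟨0, by simp [hε.le]⟩⟩

private lemma phi_line_lip (D : Set V) {ε : ℝ} (hε : 0 < ε) (y : V) {u : V} (hu : ‖u‖ = 1) :
    LipschitzWith (Real.toNNReal (1 / ε)) (fun τ : ℝ => phi D ε (y + τ • u)) := by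
  refine LipschitzWith.of_dist_le_mul fun s t => ?_
  refine ((phi_lipschitz D hε).dist_le_mul _ _).trans ?_
  rw [dist_add_left, dist_eq_norm (s • u), ← sub_smul, norm_smul, hu, mul_one, ← dist_eq_norm]

private lemma phi_line_supp {D : Set V} [FiniteDimensional ℝ V] (hD : CC D) {ε : ℝ} (hε : 0 < ε) (y : V) {u : V}
    (hu : ‖u‖ = 1) : HasCompactSupport (fun τ : ℝ => phi D ε (y + τ • u)) := by
  obtain ⟨R, hR⟩ := (hD.thick hε).compact.isBounded.subset_closedBall (0 : V)
  refine HasCompactSupport.intro (isCompact_Icc (a := -(R + ‖y‖)) (b := R + ‖y‖)) fun τ hτ => ?_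
  refine phi_eq_zero hD hε fun hmem => hτ ?_
  have h1 := hR hmem
  rw [mem_closedBall_zero_iff] at h1
  have h2 : |τ| ≤ R + ‖y‖ := by
    have : ‖τ • u‖ ≤ ‖y + τ • u‖ + ‖y‖ := by
      have h3 : τ • u = (y + τ • u) - y := by abel
      conv_lhs => rw [h3]
      exact norm_sub_le _ _
    rw [norm_smul, hu, mul_one, Real.norm_eq_abs] at this
    linarith
  exact ⟨by linarith [neg_abs_le τ], by linarith [le_abs_self τ]⟩

variable [FiniteDimensional ℝ V] [MeasurableSpace V] [BorelSpace V]

/-- the gradient. -/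
private noncomputable def gr (D : Set V) (ε : ℝ) (x : V) : V :=
  (InnerProductSpace.toDual ℝ V).symm (fderiv ℝ (phi D ε) x)

private lemma gr_measurable (D : Set V) (ε : ℝ) : Measurable (gr D ε) :=
  (InnerProductSpace.toDual ℝ V).symm.continuous.measurable.comp (measurable_fderiv ℝ _)

omit [MeasurableSpace V] [BorelSpace V] in
private lemma inner_gr (D : Set V) (ε : ℝ) (x u : V) : ⟪gr D ε x, u⟫ = fderiv ℝ (phi D ε) x u :=
  InnerProductSpace.toDual_symm_apply

omit [MeasurableSpace V] [BorelSpace V] in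
private lemma norm_gr_le (D : Set V) {ε : ℝ} (hε : 0 < ε) (x : V) : ‖gr D ε x‖ ≤ 1 / ε := by
  unfold gr
  rw [LinearIsometryEquiv.norm_map]
  have := norm_fderiv_le_of_lipschitz ℝ (phi_lipschitz D hε) (x₀ := x)
  rwa [Real.coe_toNNReal _ (by positivity)] at this

omit [MeasurableSpace V] [BorelSpace V] in
private lemma fderiv_zero {D : Set V} (hD : CC D) {ε : ℝ} (hε : 0 < ε) {x : V}
    (hx : x ∉ D + closedBall (0 : V) ε) : fderiv ℝ (phi D ε) x = 0 := by
  have hopen : IsOpen (D + closedBall (0 : V) ε)ᶜ := (hD.thick hε).compact.isClosed.isOpen_compl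
  have h : phi D ε =ᶠ[𝓝 x] fun _ => (0 : ℝ) := by
    filter_upwards [hopen.mem_nhds hx] with z hz
    exact phi_eq_zero hD hε hz
  rw [h.fderiv_eq]
  simp

private lemma slice {D : Set V} (hD : CC D) {ε : ℝ} (hε : 0 < ε) {u : V} (hu : ‖u‖ = 1) :
    ∃ F : (ℝ ∙ u)ᗮ → ℝ, (∀ y, F y ≤ 1) ∧ (∀ y, 0 ≤ F y) ∧ (∀ y ∈ shadow D (ℝ ∙ u)ᗮ, 1 ≤ F y) ∧
      (∀ y, y ∉ shadow (D + closedBall (0 : V) ε) (ℝ ∙ u)ᗮ → F y = 0) ∧
      ∫⁻ x, ENNReal.ofReal |fderiv ℝ (phi D ε) x u| = ∫⁻ y, ENNReal.ofReal (2 * F y) := by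
  have hvar := fun y : (ℝ ∙ u)ᗮ => variation_unimodal (phi_line_lip D hε (y : V) hu)
    (phi_line_supp hD hε (y : V) hu) (fun τ => phi_nonneg D ε _) (phi_quasi hD hε (y : V) u)
  choose m hm hint using hvar
  refine ⟨fun y => phi D ε ((y : V) + m y • u), fun y => phi_le_one D hε _, fun y => phi_nonneg D ε _,
    ?_, ?_, ?_⟩
  · rintro y ⟨x, hx, rfl⟩
    have h1 : phi D ε (((ℝ ∙ u)ᗮ.orthogonalProjectionOnto x : V) + ⟪u, x⟫ • u) = 1 := by
      apply phi_eq_one
      have : ((ℝ ∙ u)ᗮ.orthogonalProjectionOnto x : V) + ⟪u, x⟫ • u = x := by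
        rw [Submodule.orthogonalProjectionOnto_orthogonal]
        show x - (ℝ ∙ u).starProjection x + ⟪u, x⟫ • u = x
        rw [Submodule.starProjection_unit_singleton ℝ hu x]
        abel
      rwa [this]
    have := hm ((ℝ ∙ u)ᗮ.orthogonalProjectionOnto x) ⟪u, x⟫
    rw [← h1]
    exact this
  · intro y hy
    refine phi_eq_zero hD hε fun hmem => hy ?_
    refine ⟨_, hmem, ?_⟩
    show (ℝ ∙ u)ᗮ.orthogonalProjectionOnto ((y : V) + m y • u) = y
    rw [map_add, map_smul, Submodule.orthogonalProjectionOnto_mem_subspace_eq_self,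
      Submodule.orthogonalProjectionOnto_orthogonalComplement_singleton_eq_zero, smul_zero, add_zero]
  · have hmeas : Measurable (fun x => ENNReal.ofReal |fderiv ℝ (phi D ε) x u|) := by
      have := (measurable_fderiv_apply_const ℝ (phi D ε) u)
      exact (measurable_norm.comp this).ennreal_ofReal
    have hmp := measurePreserving_split hu
    rw [← hmp.lintegral_comp hmeas]
    have hae : ∀ᵐ p : (ℝ ∙ u)ᗮ × ℝ ∂(volume.prod volume),
        DifferentiableAt ℝ (phi D ε) ((p.1 : V) + p.2 • u) :=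
      hmp.quasiMeasurePreserving.ae (phi_lipschitz D hε).ae_differentiableAt
    have heq : (fun p : (ℝ ∙ u)ᗮ × ℝ => ENNReal.ofReal |fderiv ℝ (phi D ε) ((p.1 : V) + p.2 • u) u|)
        =ᵐ[volume.prod volume]
        fun p => ENNReal.ofReal |deriv (fun τ : ℝ => phi D ε ((p.1 : V) + τ • u)) p.2| := by
      filter_upwards [hae] with p hp
      congr 2
      have hl : HasDerivAt (fun τ : ℝ => (p.1 : V) + τ • u) u p.2 := by
        simpa using ((hasDerivAt_id p.2).smul_const u).const_add (p.1 : V)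
      exact (hp.hasFDerivAt.comp_hasDerivAt p.2 hl).deriv.symm
    rw [lintegral_congr_ae heq, lintegral_prod _ ((hmeas.comp hmp.measurable).aemeasurable.congr heq)]
    exact lintegral_congr fun y => hint y

theorem bv_sandwich {D : Set V} (hD : CC D) {ε : ℝ} (hε : 0 < ε) :
    ∃ μ : Measure V, IsFiniteMeasure μ ∧ Integrable (fun x => ‖x‖) μ ∧
      ∀ u, ‖u‖ = 1 → cfl [u] D ≤ ∫ x, |⟪x, u⟫| ∂μ ∧ ∫ x, |⟪x, u⟫| ∂μ ≤ cfl [u] (D + closedBall (0 : V) ε) := by
  have hT := hD.thick hε
  have hTm : MeasurableSet (D + closedBall (0 : V) ε) := hT.compact.measurableSet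
  have hfin : IsFiniteMeasure (volume.restrict (D + closedBall (0 : V) ε)) :=
    ⟨by rw [Measure.restrict_apply_univ]; exact hT.compact.measure_lt_top⟩
  have hgm := gr_measurable D ε
  refine ⟨(volume.restrict (D + closedBall (0 : V) ε)).map (gr D ε), inferInstance, ?_, fun u hu => ?_⟩
  · rw [integrable_map_measure continuous_norm.aestronglyMeasurable hgm.aemeasurable]
    refine Integrable.of_bound (hgm.norm.aestronglyMeasurable) (1 / ε) (Eventually.of_forall fun x => ?_)
    simpa using norm_gr_le D hε x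
  · obtain ⟨F, hF1, hF0, hFD, hFT, hF⟩ := slice hD hε hu
    have hint : ∫ x, |⟪x, u⟫| ∂((volume.restrict (D + closedBall (0 : V) ε)).map (gr D ε)) =
        (∫⁻ y, ENNReal.ofReal (2 * F y)).toReal := by
      rw [integral_map hgm.aemeasurable (by fun_prop), integral_eq_lintegral_of_nonneg_ae
        (Eventually.of_forall fun x => abs_nonneg _) (by fun_prop)]
      congr 1
      rw [← hF, ← lintegral_indicator hTm]
      refine lintegral_congr fun x => ?_
      by_cases hx : x ∈ D + closedBall (0 : V) ε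
      · rw [indicator_of_mem hx, inner_gr]
      · rw [indicator_of_notMem hx, fderiv_zero hD hε hx]
        simp
    have hsD : IsCompact (shadow D (ℝ ∙ u)ᗮ) :=
      hD.compact.image ((ℝ ∙ u)ᗮ.orthogonalProjectionOnto).continuous
    have hsT : IsCompact (shadow (D + closedBall (0 : V) ε) (ℝ ∙ u)ᗮ) :=
      hT.compact.image ((ℝ ∙ u)ᗮ.orthogonalProjectionOnto).continuous
    have hlow : 2 * volume (shadow D (ℝ ∙ u)ᗮ) ≤ ∫⁻ y, ENNReal.ofReal (2 * F y) := by
      rw [← setLIntegral_const, ← lintegral_indicator hsD.measurableSet]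
      refine lintegral_mono fun y => ?_
      by_cases hy : y ∈ shadow D (ℝ ∙ u)ᗮ
      · rw [indicator_of_mem hy]
        have h2 : (2 : ℝ) ≤ 2 * F y := by linarith [hFD y hy]
        simpa using ENNReal.ofReal_le_ofReal h2
      · rw [indicator_of_notMem hy]; exact bot_le
    have hupp : ∫⁻ y, ENNReal.ofReal (2 * F y) ≤ 2 * volume (shadow (D + closedBall (0 : V) ε) (ℝ ∙ u)ᗮ) := by
      rw [← setLIntegral_const, ← lintegral_indicator hsT.measurableSet]
      refine lintegral_mono fun y => ?_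
      by_cases hy : y ∈ shadow (D + closedBall (0 : V) ε) (ℝ ∙ u)ᗮ
      · rw [indicator_of_mem hy]
        have h2 : 2 * F y ≤ (2 : ℝ) := by linarith [hF1 y]
        simpa using ENNReal.ofReal_le_ofReal h2
      · rw [indicator_of_notMem hy, hFT y hy]; simp
    have htop : 2 * volume (shadow (D + closedBall (0 : V) ε) (ℝ ∙ u)ᗮ) ≠ ⊤ :=
      ENNReal.mul_ne_top (by norm_num) hsT.measure_lt_top.ne
    rw [hint, cfl_singleton hD hu, cfl_singleton hT hu]
    have e2 : (2 : ℝ) = (2 : ℝ≥0∞).toReal := by norm_num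
    constructor
    · rw [e2, ← ENNReal.toReal_mul]
      exact ENNReal.toReal_mono (ne_top_of_le_ne_top htop hupp) hlow
    · rw [e2, ← ENNReal.toReal_mul]
      exact ENNReal.toReal_mono htop hupp

end Pool.Agent.HP89
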