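import Pool.Agent.HP89.G2b
import Pool.Agent.HP89.G4
import Pool.Agent.HP89.G6
import Pool.Agent.HP89.G7b

/-! Module HP-G7c: `u ↦ cfl (Y ++ [u]) D` is in `Zon`.

`zon_cfl_singleton`: `Zon.of_tendsto` for the measures of `bv_sandwich` with `ε = 1/(n+1)`; squeeze, `cfl_tendsto`
(`supp (D + closedBall 0 ε) u = supp D u + ε`).
`zon_cfl`: induction on `Y`, for all `D`: `cfl ((y::Y) ++ [u]) D = lim_{t→∞} t⁻¹ cfl (Y ++ [u]) (D + seg (t y))` by `cfl_add_seg`
(`t = n + 1`), limits in `Zon`. -/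

namespace Pool.Agent.HP89
open MeasureTheory ProbabilityTheory Set Filter Topology Metric
open Pool.Agent.Helper82.Proj1
open scoped RealInnerProductSpace ENNReal Pointwise

variable {V : Type*} [NormedAddCommGroup V] [InnerProductSpace ℝ V] [FiniteDimensional ℝ V]
  [MeasurableSpace V] [BorelSpace V]

theorem zon_cfl_singleton {D : Set V} (hD : CC D) : Zon (fun u => cfl [u] D) := by
  have hpos : ∀ n : ℕ, (0 : ℝ) < 1 / ((n : ℝ) + 1) := fun n => by positivity
  choose μ hfin hint hb using fun n : ℕ => bv_sandwich hD (hpos n)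
  refine Zon.of_tendsto (f := fun n u => ∫ x, |⟪x, u⟫| ∂(μ n)) (fun n => ?_) ?_
  · exact ⟨μ n, hfin n, hint n, fun u _ => rfl⟩
  · intro u hu
    have hlim : Tendsto (fun n : ℕ => cfl [u] (D + closedBall (0 : V) (1 / ((n : ℝ) + 1)))) atTop
        (𝓝 (cfl [u] D)) := by
      refine cfl_tendsto [u] (fun n => hD.add (cc_ball (hpos n).le)) hD ?_
      intro w _
      have h1 : (fun n : ℕ => supp (D + closedBall (0 : V) (1 / ((n : ℝ) + 1))) w) =
          fun n : ℕ => supp D w + 1 / ((n : ℝ) + 1) * ‖w‖ := by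
        funext n
        rw [supp_add hD (cc_ball (hpos n).le) w, supp_ball (hpos n).le w]
      rw [h1]
      have h2 : Tendsto (fun n : ℕ => (1 : ℝ) / ((n : ℝ) + 1)) atTop (𝓝 0) :=
        tendsto_one_div_add_atTop_nhds_zero_nat
      have h3 := (h2.mul_const ‖w‖).const_add (supp D w)
      simpa using h3
    exact tendsto_of_tendsto_of_tendsto_of_le_of_le tendsto_const_nhds hlim
      (fun n => (hb n u hu).1) (fun n => (hb n u hu).2)

theorem zon_cfl (Y : List V) {D : Set V} (hD : CC D) : Zon (fun u => cfl (Y ++ [u]) D) := by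
  induction Y generalizing D with
  | nil => exact zon_cfl_singleton hD
  | cons y Y ih =>
    have hpos : ∀ n : ℕ, (0 : ℝ) < (n : ℝ) + 1 := fun n => by positivity
    refine Zon.of_tendsto
      (f := fun (n : ℕ) u => ((n : ℝ) + 1)⁻¹ * cfl (Y ++ [u]) (D + seg (((n : ℝ) + 1) • y)))
      (fun n => (ih (hD.add (cc_seg _))).smul (inv_nonneg.2 (hpos n).le)) ?_
    intro u _
    have h1 : (fun n : ℕ => ((n : ℝ) + 1)⁻¹ * cfl (Y ++ [u]) (D + seg (((n : ℝ) + 1) • y))) =
        fun n : ℕ => 1 / ((n : ℝ) + 1) * cfl (Y ++ [u]) D + cfl (y :: Y ++ [u]) D := by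
      funext n
      rw [cfl_add_seg (Y ++ [u]) hD y (hpos n).le, mul_add, ← mul_assoc,
        inv_mul_cancel₀ (hpos n).ne', one_mul, one_div, List.cons_append]
    rw [h1]
    have h2 : Tendsto (fun n : ℕ => (1 : ℝ) / ((n : ℝ) + 1)) atTop (𝓝 0) :=
      tendsto_one_div_add_atTop_nhds_zero_nat
    have h3 := (h2.mul_const (cfl (Y ++ [u]) D)).add_const (cfl (y :: Y ++ [u]) D)
    simpa using h3

end Pool.Agent.HP89
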