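import Mathlib
import Pool.Agent.Helper82.Proj1.Defs

/-!
# Project HP89 (MP_33e5ad_gt): definitions

`V` is a Euclidean space of dimension `d = Module.finrank ℝ V`, `stdGaussian V` its standard Gaussian measure.
-/

set_option autoImplicit false

namespace Pool.Agent.HP89

open MeasureTheory ProbabilityTheory Set Filter Topology Metric
open scoped RealInnerProductSpace ENNReal

section lin
variable {V : Type*} [NormedAddCommGroup V] [InnerProductSpace ℝ V]

/-- orthogonal projection of `z` to `y^⊥` (`= z` if `y = 0`). -/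
noncomputable def ort (y z : V) : V := z - (⟪y, z⟫ / ‖y‖ ^ 2) • y

/-- `res X` = orthogonal projection to the orthogonal complement of the vectors of the list `X`. -/
noncomputable def res : List V → V → V
  | [], g => g
  | x :: X, g => ort (res X x) (res X g)

/-- volume of the parallelepiped spanned by the vectors of the list `X`. -/
noncomputable def wn : List V → ℝ
  | [] => 1
  | x :: X => wn X * ‖res X x‖

/-- continuous, nonnegative, positively homogeneous of degree one. -/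
structure Hom1 (G : V → ℝ) : Prop where
  cont : Continuous G
  nn : ∀ x, 0 ≤ G x
  hom : ∀ c : ℝ, 0 ≤ c → ∀ x, G (c • x) = c * G x

end lin

/-- `m_n = E |g|` for a standard Gaussian vector `g` of `ℝ^n`. -/
noncomputable def mG (n : ℕ) : ℝ := ∫ x, ‖x‖ ∂(stdGaussian (EuclideanSpace ℝ (Fin n)))

/-- `M_i = m_{d-1} m_{d-2} ... m_{d-i}`. -/
noncomputable def MM (d i : ℕ) : ℝ := ∏ s ∈ Finset.range i, mG (d - 1 - s)

/-- `κ_i = ∏_{s=0}^{i-2} (1 - j/(d-2-s))`. -/
noncomputable def kp (d j i : ℕ) : ℝ := ∏ s ∈ Finset.range (i - 1), (1 - (j : ℝ) / ((d : ℝ) - 2 - s))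

section meas
variable {V : Type*} [NormedAddCommGroup V] [InnerProductSpace ℝ V] [FiniteDimensional ℝ V]
  [MeasurableSpace V] [BorelSpace V]

/-- iterated integral: `iter μ l F Y = ∫ ... ∫ F (x_l :: ... :: x_1 :: Y) dμ(x_l) ... dμ(x_1)`. -/
noncomputable def iter (μ : Measure V) : ℕ → (List V → ℝ≥0∞) → List V → ℝ≥0∞
  | 0, F, Y => F Y
  | l + 1, F, Y => ∫⁻ x, iter μ l F (x :: Y) ∂μ

/-- measurable function of lists. -/
def LMeas (F : List V → ℝ≥0∞) : Prop := ∀ n : ℕ, Measurable (fun X : Fin n → V => F (List.ofFn X))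

/-- `|Y| E G(P_{Y^⊥} g)`. -/
noncomputable def TG (G : V → ℝ≥0∞) (Y : List V) : ℝ≥0∞ :=
  ENNReal.ofReal (wn Y) * ∫⁻ g, G (res Y g) ∂(stdGaussian V)

/-- the volume function with values in `ℝ≥0∞`. -/
noncomputable def ew (Y : List V) : ℝ≥0∞ := ENNReal.ofReal (wn Y)

/-- `R G(x) = |x| E G(P_{x^⊥} g) / m_{d-1}`: the mean over the great subsphere orthogonal to `x`. -/
noncomputable def Rop (G : V → ℝ) (x : V) : ℝ :=
  ‖x‖ * (∫ g, G (ort x g) ∂(stdGaussian V)) / mG (Module.finrank ℝ V - 1)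

/-- the positive operators `𝓛_i` (`i ≥ 1`). -/
noncomputable def Lop (μ : Measure V) (i : ℕ) (G : V → ℝ) (x : V) : ℝ :=
  (iter μ (i - 1) (TG (fun v => ENNReal.ofReal (G v))) [x]).toReal / MM (Module.finrank ℝ V) i

/-- `B_j(x) = ∫ |x ∧ x_1 ∧ ... ∧ x_j| dμ^j / M_j`. -/
noncomputable def BB (μ : Measure V) (j : ℕ) (x : V) : ℝ :=
  (iter μ j ew [x]).toReal / MM (Module.finrank ℝ V) j

/-- `h_μ(x) = √(π/2) ∫ |⟪y, x⟫| dμ(y)`. -/
noncomputable def hh (μ : Measure V) (x : V) : ℝ := √(Real.pi / 2) * ∫ y, |⟪y, x⟫| ∂μ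

/-- measurable, nonnegative, at most linear growth. -/
structure Adm (G : V → ℝ) : Prop where
  meas : Measurable G
  nn : ∀ x, 0 ≤ G x
  bdd : ∃ C, ∀ x, G x ≤ C * ‖x‖

/-- Good measures: quantitative isotropy. -/
structure Good (j : ℕ) (μ : Measure V) : Prop where
  fin : IsFiniteMeasure μ
  int : Integrable (fun x => ‖x‖) μ
  g1 : ∀ X : List V, wn X ≠ 0 →
    ∫⁻ x, ENNReal.ofReal ‖res X x‖ ∂μ ≤ ENNReal.ofReal (mG (Module.finrank ℝ V - X.length))
  g2 : ∀ X : List V, wn X ≠ 0 → ∀ G : V → ℝ, Hom1 G →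
    ENNReal.ofReal (((Module.finrank ℝ V : ℝ) - X.length - 1 - j) / mG (Module.finrank ℝ V - X.length)) *
      ∫⁻ g, ENNReal.ofReal (G (res X g)) ∂(stdGaussian V) ≤
    ∫⁻ x, ENNReal.ofReal ‖res X x‖ *
      ∫⁻ g, ENNReal.ofReal (G (res (x :: X) g)) ∂(stdGaussian V) ∂μ
  g3 : ∫⁻ x, ENNReal.ofReal ‖x‖ ∂μ = ENNReal.ofReal (mG (Module.finrank ℝ V - j))

/-- The measure of the next projection body (normalised):
law of `|X| P_{X^⊥} g` under `μ^j ⊗ γ`, divided by `∫ |X| dμ^j`. -/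
noncomputable def nu (j : ℕ) (μ : Measure V) : Measure V :=
  (∫⁻ X : Fin j → V, ew (List.ofFn X) ∂(Measure.pi fun _ => μ))⁻¹ •
    ((Measure.pi fun _ : Fin j => μ).prod (stdGaussian V)).map
      (fun p => wn (List.ofFn p.1) • res (List.ofFn p.1) p.2)

end meas

end Pool.Agent.HP89
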