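import Pool.Agent.HP89.A1a

/-! Module HP-A3a: laws of projections of a standard Gaussian vector.

All laws are identified by characteristic functions (`Measure.ext_of_charFun`, `charFun_stdGaussian`,
`charFun_gaussianReal`, `charFun_apply`, `integral_map`).

* `map_starProjection`: `E exp(i⟪P g, t⟫) = E exp(i⟪g, P t⟫) = exp(-‖P t‖²/2)`, and for `h` standard Gaussian on `F`:
  `E exp(i⟪h, t⟫) = E exp(i⟪h, P t⟫_F) = exp(-‖P t‖²/2)`.
* `map_split`: for a unit vector `e`, `s ~ N(0,1)` and `g ~ γ` independent, `s e + ort e g ~ γ`: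
  `exp(-⟪e,t⟫²/2) exp(-‖ort e t‖²/2) = exp(-‖t‖²/2)`.
* `map_split_sub`: the same inside a subspace `F` (`e ∈ F` unit): `s e + ort e (P_F g)` has the law of `P_F g`.
* `map_inner`: `⟪y, g⟫ ~ N(0, ‖y‖²)`.  `integral_abs_inner`: `E|⟪y,g⟫| = √(2/π) ‖y‖` (first absolute moment of `N(0,1)`,
  `∫ |x| exp(-x²/2) dx = 2`, e.g. `integral_mul_cexp_neg_mul_sq`, `integral_rpow_mul_exp_neg_mul_sq`, or
  via `integral_gaussianReal_eq_integral_smul` and FTC).
* `map_reflection`: invariance of `γ` under linear isometries, in particular `g ↦ 2 P_E g - g`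
  (`Submodule.reflection`, `stdGaussian_map`). -/

namespace Pool.Agent.HP89
open MeasureTheory ProbabilityTheory Set Filter Topology Metric
open scoped RealInnerProductSpace ENNReal

variable {V : Type*} [NormedAddCommGroup V] [InnerProductSpace ℝ V] [FiniteDimensional ℝ V]
  [MeasurableSpace V] [BorelSpace V]

theorem integrable_norm_gaussian : Integrable (fun g : V => ‖g‖) (stdGaussian V) :=
  (IsGaussian.integrable_id (μ := stdGaussian V)).norm

theorem integrable_norm_sq_gaussian : Integrable (fun g : V => ‖g‖ ^ 2) (stdGaussian V) :=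
  (IsGaussian.memLp_two_id (μ := stdGaussian V)).integrable_norm_pow (by norm_num)

private theorem charFun_map_adj {E F : Type*} [NormedAddCommGroup E] [InnerProductSpace ℝ E]
    [FiniteDimensional ℝ E] [MeasurableSpace E] [BorelSpace E] [NormedAddCommGroup F]
    [InnerProductSpace ℝ F] [FiniteDimensional ℝ F] [MeasurableSpace F] [BorelSpace F]
    (μ : Measure E) (f : E → F) (hf : Measurable f) (t : F) (s : E)
    (h : ∀ g, ⟪f g, t⟫ = ⟪g, s⟫) : charFun (μ.map f) t = charFun μ s := by
  rw [charFun_apply, charFun_apply, integral_map hf.aemeasurable (by fun_prop)]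
  simp only [h]

theorem map_starProjection (F : Submodule ℝ V) :
    (stdGaussian V).map (fun g => F.starProjection g) =
      (stdGaussian F).map (fun x : F => (x : V)) := by
  have i1 : IsProbabilityMeasure ((stdGaussian V).map (fun g => F.starProjection g)) :=
    Measure.isProbabilityMeasure_map (by fun_prop)
  have i2 : IsProbabilityMeasure ((stdGaussian F).map (fun x : F => (x : V))) :=
    Measure.isProbabilityMeasure_map (by fun_prop)
  apply Measure.ext_of_charFun
  ext t
  rw [charFun_map_adj (stdGaussian V) _ (by fun_prop) t (F.starProjection t)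
    (fun g => F.inner_starProjection_left_eq_right g t),
    charFun_map_adj (stdGaussian F) _ (by fun_prop) t (F.orthogonalProjectionOnto t) ?_,
    charFun_stdGaussian, charFun_stdGaussian]
  · rfl
  · intro g
    rw [Submodule.coe_inner, Submodule.coe_orthogonalProjectionOnto_apply,
      ← F.inner_starProjection_left_eq_right, Submodule.starProjection_eq_self_iff.2 g.2]

private theorem measurable_ort (e : V) : Measurable (ort e) := by
  unfold ort
  fun_prop

private theorem inner_ort_comm (e g t : V) : ⟪ort e g, t⟫ = ⟪g, ort e t⟫ := by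
  unfold ort
  rw [inner_sub_left, inner_sub_right, real_inner_smul_left, real_inner_smul_right,
    real_inner_comm g e]
  ring

private theorem charFun_split (F : Submodule ℝ V) (e t : V) :
    charFun (((gaussianReal 0 1).prod (stdGaussian V)).map
      (fun p => p.1 • e + ort e (F.starProjection p.2))) t =
      Complex.exp (-(⟪e, t⟫ : ℂ) ^ 2 / 2) *
        Complex.exp (-(‖F.starProjection (ort e t)‖ : ℂ) ^ 2 / 2) := by
  have hm : Measurable (fun p : ℝ × V => p.1 • e + ort e (F.starProjection p.2)) := by
    have h1 : Measurable (fun p : ℝ × V => ort e (F.starProjection p.2)) :=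
      (measurable_ort e).comp (by fun_prop)
    exact (by fun_prop : Measurable (fun p : ℝ × V => p.1 • e)).add h1
  rw [charFun_apply, integral_map hm.aemeasurable (by fun_prop)]
  have h2 : ∀ p : ℝ × V, Complex.exp (⟪p.1 • e + ort e (F.starProjection p.2), t⟫ * Complex.I) =
      Complex.exp ((⟪p.1, ⟪e, t⟫⟫ : ℝ) * Complex.I) *
        Complex.exp (⟪p.2, F.starProjection (ort e t)⟫ * Complex.I) := by
    intro p
    rw [← Complex.exp_add, ← add_mul, inner_add_left, real_inner_smul_left, inner_ort_comm,
      F.inner_starProjection_left_eq_right]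
    congr 2
    push_cast
    congr 1
    simp [mul_comm]
  simp_rw [h2]
  rw [integral_prod_mul (fun x : ℝ => Complex.exp ((⟪x, ⟪e, t⟫⟫ : ℝ) * Complex.I))
    (fun y : V => Complex.exp (⟪y, F.starProjection (ort e t)⟫ * Complex.I)),
    ← charFun_apply, ← charFun_apply, charFun_stdGaussian, charFun_gaussianReal]
  congr 2
  simp
  ring

theorem map_split_sub (F : Submodule ℝ V) {e : V} (he : ‖e‖ = 1) (heF : e ∈ F) :
    ((gaussianReal 0 1).prod (stdGaussian V)).map (fun p => p.1 • e + ort e (F.starProjection p.2)) =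
      (stdGaussian V).map (fun g => F.starProjection g) := by
  have hm : Measurable (fun p : ℝ × V => p.1 • e + ort e (F.starProjection p.2)) := by
    have h1 : Measurable (fun p : ℝ × V => ort e (F.starProjection p.2)) :=
      (measurable_ort e).comp (by fun_prop)
    exact (by fun_prop : Measurable (fun p : ℝ × V => p.1 • e)).add h1
  have i1 : IsProbabilityMeasure (((gaussianReal 0 1).prod (stdGaussian V)).map
      (fun p => p.1 • e + ort e (F.starProjection p.2))) :=
    Measure.isProbabilityMeasure_map hm.aemeasurable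
  have i2 : IsProbabilityMeasure ((stdGaussian V).map (fun g => F.starProjection g)) :=
    Measure.isProbabilityMeasure_map (by fun_prop)
  apply Measure.ext_of_charFun
  ext t
  rw [charFun_split, charFun_map_adj (stdGaussian V) _ (by fun_prop) t (F.starProjection t)
    (fun g => F.inner_starProjection_left_eq_right g t), charFun_stdGaussian, ← Complex.exp_add]
  congr 1
  have h1 : F.starProjection (ort e t) = ort e (F.starProjection t) := by
    unfold ort
    rw [map_sub, map_smul, Submodule.starProjection_eq_self_iff.2 heF,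
      ← F.inner_starProjection_left_eq_right, Submodule.starProjection_eq_self_iff.2 heF]
  have h2 : ⟪e, t⟫ = ⟪e, F.starProjection t⟫ := by
    rw [← F.inner_starProjection_left_eq_right, Submodule.starProjection_eq_self_iff.2 heF]
  have h3 := norm_ort_sq e (F.starProjection t)
  rw [he, div_one] at h3
  rw [h1, h2, ← Complex.ofReal_pow, ← Complex.ofReal_pow, ← Complex.ofReal_pow, h3]
  push_cast
  ring

theorem map_split {e : V} (he : ‖e‖ = 1) :
    ((gaussianReal 0 1).prod (stdGaussian V)).map (fun p => p.1 • e + ort e p.2) =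
      stdGaussian V := by
  have h := map_split_sub (⊤ : Submodule ℝ V) he Submodule.mem_top
  simp only [Submodule.starProjection_top'] at h
  simpa using h

theorem map_reflection (E : Submodule ℝ V) :
    (stdGaussian V).map (fun g => 2 • E.starProjection g - g) = stdGaussian V := by
  have h := stdGaussian_map E.reflection
  have h2 : (fun g => 2 • E.starProjection g - g) = (E.reflection : V → V) := by
    funext g
    rw [Submodule.reflection_apply]
  rw [h2]
  exact h

private theorem integral_abs_std : ∫ x, |x| ∂(gaussianReal 0 1) = √(2 / Real.pi) := by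
  rw [integral_gaussianReal_eq_integral_smul one_ne_zero]
  have h1 : ∀ x : ℝ, gaussianPDFReal 0 1 x • |x| =
      (√(2 * Real.pi))⁻¹ * (|x| * Real.exp (-(1 / 2) * |x| ^ 2)) := by
    intro x
    rw [gaussianPDFReal, smul_eq_mul, sq_abs]
    simp only [NNReal.coe_one, mul_one, sub_zero]
    rw [show -(1 / 2) * x ^ 2 = -x ^ 2 / 2 by ring]
    ring
  simp_rw [h1]
  rw [integral_const_mul, integral_comp_abs (f := fun x => x * Real.exp (-(1 / 2) * x ^ 2))]
  have h2 : ∫ x in Ioi (0 : ℝ), x * Real.exp (-(1 / 2) * x ^ 2) = 1 := by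
    have h3 := integral_mul_cexp_neg_mul_sq (b := (1 / 2 : ℂ)) (by norm_num)
    have h4 : ∀ x : ℝ, (x : ℂ) * Complex.exp (-(1 / 2 : ℂ) * (x : ℂ) ^ 2) =
        ((x * Real.exp (-(1 / 2) * x ^ 2) : ℝ) : ℂ) := by
      intro x
      push_cast
      rfl
    simp_rw [h4] at h3
    rw [integral_complex_ofReal] at h3
    have h5 : (2 * (1 / 2 : ℂ))⁻¹ = ((1 : ℝ) : ℂ) := by norm_num
    rw [h5] at h3
    exact_mod_cast h3
  rw [h2, Real.sqrt_div (by norm_num), Real.sqrt_mul (by norm_num)]
  have h6 : √2 * √2 = 2 := Real.mul_self_sqrt (by norm_num)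
  have h7 : √2 ≠ 0 := by positivity
  have h8 : √Real.pi ≠ 0 := by positivity
  field_simp
  nlinarith [h6]

private theorem map_inner_eq (y : V) :
    (stdGaussian V).map (fun g => ⟪y, g⟫) = (gaussianReal 0 1).map (fun x => ‖y‖ * x) := by
  have i1 : IsProbabilityMeasure ((stdGaussian V).map (fun g => ⟪y, g⟫)) :=
    Measure.isProbabilityMeasure_map (by fun_prop)
  have i2 : IsProbabilityMeasure ((gaussianReal 0 1).map (fun x => ‖y‖ * x)) :=
    Measure.isProbabilityMeasure_map (by fun_prop)
  apply Measure.ext_of_charFun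
  ext t
  rw [charFun_map_adj (stdGaussian V) _ (by fun_prop) t (t • y) (fun g => by
      rw [real_inner_smul_right, real_inner_comm y g]
      simp), charFun_map_adj (gaussianReal 0 1) _ (by fun_prop) t (‖y‖ * t) (fun g => by
      simp
      ring), charFun_stdGaussian, charFun_gaussianReal]
  congr 1
  rw [norm_smul]
  push_cast
  rw [mul_pow, mul_pow]
  have : ((‖t‖ : ℝ) : ℂ) ^ 2 = (t : ℂ) ^ 2 := by
    rw [← Complex.ofReal_pow, Real.norm_eq_abs, sq_abs]
    push_cast
    rfl
  rw [this]
  simp
  ring

theorem integral_abs_inner (y : V) : ∫ g, |⟪y, g⟫| ∂(stdGaussian V) = √(2 / Real.pi) * ‖y‖ := by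
  have h1 : ∫ g, |⟪y, g⟫| ∂(stdGaussian V) =
      ∫ x, |x| ∂((stdGaussian V).map (fun g => ⟪y, g⟫)) := by
    rw [integral_map (by fun_prop) (by fun_prop)]
  rw [h1, map_inner_eq, integral_map (by fun_prop) (by fun_prop)]
  simp_rw [abs_mul, abs_norm]
  rw [integral_const_mul, integral_abs_std]
  ring

theorem lintegral_abs_inner (y : V) :
    ∫⁻ g, ENNReal.ofReal |⟪y, g⟫| ∂(stdGaussian V) = ENNReal.ofReal (√(2 / Real.pi) * ‖y‖) := by
  rw [← integral_abs_inner, ofReal_integral_eq_lintegral_ofReal]
  · refine Integrable.mono' ((integrable_norm_gaussian (V := V)).const_mul ‖y‖) (by fun_prop) ?_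
    filter_upwards with g
    rw [Real.norm_eq_abs, abs_abs]
    exact abs_real_inner_le_norm y g
  · filter_upwards with g
    exact abs_nonneg _

end Pool.Agent.HP89
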