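import Pool.Agent.HP89.A1b

/-! Module HP-A1c: dimension, continuity.

* `finrank_span_of_wn_ne_zero`: induction on `X`; if `wn (x :: X) ≠ 0` then `wn X ≠ 0` and `res X x ≠ 0`, so
  `x ∉ span X` and `finrank (span (x :: X)) = finrank (span X) + 1`
  (e.g. `Submodule.finrank_sup_add_finrank_inf_eq` / `finrank_span_insert`-like lemmas, or show by induction that
  `X` is linearly independent as a family `fun i => X.get i`).
* `wn_eq_zero_of_lt`: contrapositive (`finrank span ≤ finrank V`).
* `continuous_wn`: induction on `n`, `List.ofFn X = X 0 :: List.ofFn (Fin.tail X)`;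
  `|wn (x :: Z) - wn (x' :: Z)| ≤ wn Z ‖x - x'‖` (`res Z` linear, norm `≤ 1`), `wn` is bounded on bounded sets
  (`wn_le_prod`), and for fixed `x₀` the map `X' ↦ wn (x₀ :: (ofFn X' ++ Y)) = wn (ofFn X' ++ (x₀ :: Y))` (`wn_perm`)
  is continuous by the induction hypothesis. -/

namespace Pool.Agent.HP89
open MeasureTheory ProbabilityTheory Set Filter Topology Metric
open scoped RealInnerProductSpace ENNReal

variable {V : Type*} [NormedAddCommGroup V] [InnerProductSpace ℝ V] [FiniteDimensional ℝ V]

theorem finrank_span_of_wn_ne_zero {X : List V} (h : wn X ≠ 0) :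
    Module.finrank ℝ (Submodule.span ℝ {x | x ∈ X}) = X.length := by
  induction X with
  | nil =>
    have h1 : {x : V | x ∈ ([] : List V)} = ∅ := by
      ext x
      simp
    rw [h1, Submodule.span_empty, finrank_bot]
    rfl
  | cons x X ih =>
    rw [wn_cons] at h
    have hX : wn X ≠ 0 := left_ne_zero_of_mul h
    have hx : res X x ≠ 0 := norm_ne_zero_iff.1 (right_ne_zero_of_mul h)
    have h1 : {y : V | y ∈ x :: X} = insert x {y : V | y ∈ X} := by
      ext y
      simp
    have hxS : x ∉ Submodule.span ℝ {y : V | y ∈ X} := by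
      intro hmem
      apply hx
      rw [res_eq, Submodule.starProjection_apply_eq_zero_iff, Submodule.orthogonal_orthogonal]
      exact hmem
    have hx0 : x ≠ 0 := by
      rintro rfl
      exact hxS (Submodule.zero_mem _)
    have hinf : (ℝ ∙ x) ⊓ Submodule.span ℝ {y : V | y ∈ X} = ⊥ := by
      rw [Submodule.eq_bot_iff]
      intro z hz
      rw [Submodule.mem_inf, Submodule.mem_span_singleton] at hz
      obtain ⟨⟨c, hc⟩, hz2⟩ := hz
      by_contra hz0
      have hc0 : c ≠ 0 := by
        rintro rfl
        rw [zero_smul] at hc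
        exact hz0 hc.symm
      apply hxS
      have h3 : x = c⁻¹ • z := by
        rw [← hc, smul_smul, inv_mul_cancel₀ hc0, one_smul]
      rw [h3]
      exact Submodule.smul_mem _ _ hz2
    have h4 := Submodule.finrank_sup_add_finrank_inf_eq (ℝ ∙ x) (Submodule.span ℝ {y : V | y ∈ X})
    rw [hinf, finrank_bot, finrank_span_singleton hx0, ih hX] at h4
    rw [h1, Submodule.span_insert, List.length_cons]
    omega

theorem length_le_of_wn_ne_zero {X : List V} (h : wn X ≠ 0) : X.length ≤ Module.finrank ℝ V := by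
  rw [← finrank_span_of_wn_ne_zero h]
  exact Submodule.finrank_le _

theorem finrank_orth_of_wn_ne_zero {X : List V} (h : wn X ≠ 0) :
    Module.finrank ℝ (Submodule.span ℝ {x | x ∈ X})ᗮ = Module.finrank ℝ V - X.length := by
  have h1 := Submodule.finrank_add_finrank_orthogonal (𝕜 := ℝ) (Submodule.span ℝ {x | x ∈ X})
  rw [finrank_span_of_wn_ne_zero h] at h1
  omega

theorem wn_eq_zero_of_lt {X : List V} (h : Module.finrank ℝ V < X.length) : wn X = 0 := by
  by_contra hne
  exact absurd (length_le_of_wn_ne_zero hne) (not_le.2 h)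

theorem continuous_wn (n : ℕ) (Y : List V) : Continuous (fun X : Fin n → V => wn (List.ofFn X ++ Y)) := by
  induction n generalizing Y with
  | zero =>
    have : (fun X : Fin 0 → V => wn (List.ofFn X ++ Y)) = fun _ => wn Y := by
      funext X
      simp
    rw [this]
    exact continuous_const
  | succ n ih =>
    have htail : Continuous (fun X : Fin (n + 1) → V => fun i : Fin n => X i.succ) :=
      continuous_pi (fun i => continuous_apply _)
    have hform : ∀ X : Fin (n + 1) → V, List.ofFn X ++ Y
        = X 0 :: (List.ofFn (fun i : Fin n => X i.succ) ++ Y) := by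
      intro X
      rw [List.ofFn_succ]
      rfl
    rw [continuous_iff_continuousAt]
    intro X0
    have hg : Continuous (fun X : Fin (n + 1) → V =>
        wn (List.ofFn (fun i : Fin n => X i.succ) ++ (X0 0 :: Y))) := (ih (X0 0 :: Y)).comp htail
    have hh : Continuous (fun X : Fin (n + 1) → V =>
        wn (List.ofFn (fun i : Fin n => X i.succ) ++ Y) * ‖X 0 - X0 0‖) :=
      ((ih Y).comp htail).mul ((continuous_apply (0 : Fin (n + 1))).sub continuous_const).norm
    have hperm : ∀ X : Fin (n + 1) → V,
        wn (List.ofFn (fun i : Fin n => X i.succ) ++ (X0 0 :: Y))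
          = wn (X0 0 :: (List.ofFn (fun i : Fin n => X i.succ) ++ Y)) := by
      intro X
      exact wn_perm List.perm_middle
    have hle : ∀ X : Fin (n + 1) → V,
        ‖wn (List.ofFn X ++ Y) - wn (List.ofFn (fun i : Fin n => X i.succ) ++ (X0 0 :: Y))‖
          ≤ wn (List.ofFn (fun i : Fin n => X i.succ) ++ Y) * ‖X 0 - X0 0‖ := by
      intro X
      rw [hperm X, hform X, wn_cons, wn_cons, ← mul_sub, norm_mul, Real.norm_of_nonneg (wn_nonneg _)]
      refine mul_le_mul_of_nonneg_left ?_ (wn_nonneg _)
      set Z := List.ofFn (fun i : Fin n => X i.succ) ++ Y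
      have h1 : res Z (X 0) - res Z (X0 0) = res Z (X 0 - X0 0) := by
        rw [sub_eq_add_neg, sub_eq_add_neg, res_add, ← neg_one_smul ℝ (X0 0), res_smul, neg_one_smul]
      calc ‖‖res Z (X 0)‖ - ‖res Z (X0 0)‖‖ ≤ ‖res Z (X 0) - res Z (X0 0)‖ :=
            abs_norm_sub_norm_le _ _
        _ = ‖res Z (X 0 - X0 0)‖ := by rw [h1]
        _ ≤ ‖X 0 - X0 0‖ := norm_res_le _ _
    have hlim : Tendsto (fun X : Fin (n + 1) → V =>
        wn (List.ofFn X ++ Y) - wn (List.ofFn (fun i : Fin n => X i.succ) ++ (X0 0 :: Y)))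
        (𝓝 X0) (𝓝 0) := by
      have h2 := hh.tendsto X0
      simp only [sub_self, norm_zero, mul_zero] at h2
      exact squeeze_zero_norm hle h2
    have h3 := hlim.add (hg.tendsto X0)
    simp only [sub_add_cancel, zero_add] at h3
    have h4 : wn (List.ofFn (fun i : Fin n => X0 i.succ) ++ (X0 0 :: Y)) = wn (List.ofFn X0 ++ Y) := by
      rw [hperm X0, hform X0]
    rw [h4] at h3
    exact h3

end Pool.Agent.HP89
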