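import Pool.Agent.HP89.A2a

/-! Module HP-A2b: `iter` as an integral over the product measure.

Proof. Induction on `l`, generalizing `Y`:
`iter μ (l+1) F Y = ∫⁻ x, iter μ l F (x :: Y) = ∫⁻ x, ∫⁻ X : Fin l → V, F (ofFn X ++ x :: Y)`, and
`ofFn X ++ x :: Y = ofFn (Fin.snoc X x) ++ Y` (`List.ofFn_succ'`/`List.ofFn_snoc`-like lemma); the measure `pi` on `Fin (l+1) → V` is the
image of `μ.prod (pi)` under `(x, X) ↦ Fin.insertNth (Fin.last l) x X = Fin.snoc X x`
(`MeasureTheory.measurePreserving_piFinSuccAbove`), Tonelli `lintegral_prod` (measurability: `LMeas.app`). -/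

namespace Pool.Agent.HP89
open MeasureTheory ProbabilityTheory Set Filter Topology Metric
open scoped RealInnerProductSpace ENNReal

variable {V : Type*} [NormedAddCommGroup V] [InnerProductSpace ℝ V] [FiniteDimensional ℝ V]
  [MeasurableSpace V] [BorelSpace V]

theorem iter_eq_pi (μ : Measure V) [IsFiniteMeasure μ] (l : ℕ) {F : List V → ℝ≥0∞} (hF : LMeas F) (Y : List V) :
    iter μ l F Y = ∫⁻ X : Fin l → V, F (List.ofFn X ++ Y) ∂(Measure.pi fun _ => μ) := by
  induction l generalizing Y with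
  | zero =>
    rw [iter_zero, lintegral_unique, Measure.pi_univ]
    simp
  | succ l ih =>
    rw [iter_succ]
    let e := MeasurableEquiv.piFinSuccAbove (fun _ : Fin (l + 1) => V) (Fin.last l)
    have hmp : MeasurePreserving e (Measure.pi fun _ : Fin (l + 1) => μ)
        (μ.prod (Measure.pi fun _ : Fin l => μ)) :=
      measurePreserving_piFinSuccAbove (fun _ => μ) (Fin.last l)
    let H : V × (Fin l → V) → ℝ≥0∞ := fun p => F (List.ofFn p.2 ++ p.1 :: Y)
    have hH : ∀ X : Fin (l + 1) → V, F (List.ofFn X ++ Y) = H (e X) := by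
      intro X
      have h1 : e X = (X (Fin.last l), fun i => X (Fin.castSucc i)) := by
        show ((MeasurableEquiv.piFinSuccAbove (fun _ : Fin (l + 1) => V) (Fin.last l)) X) = _
        ext1
        · rfl
        · funext i
          simp [MeasurableEquiv.piFinSuccAbove, Fin.init]
      show F (List.ofFn X ++ Y) = F (List.ofFn (e X).2 ++ (e X).1 :: Y)
      rw [h1, List.ofFn_succ_last, List.append_assoc]
      rfl
    have hHm : Measurable H := by
      have h2 : H = (fun X : Fin (l + 1) → V => F (List.ofFn X ++ Y)) ∘ e.symm := by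
        funext p
        show H p = F (List.ofFn (e.symm p) ++ Y)
        rw [hH, e.apply_symm_apply]
      rw [h2]
      exact (hF.app (l + 1) Y).comp e.symm.measurable
    calc ∫⁻ x, iter μ l F (x :: Y) ∂μ
        = ∫⁻ x, ∫⁻ X : Fin l → V, H (x, X) ∂(Measure.pi fun _ => μ) ∂μ := by
          apply lintegral_congr
          intro x
          rw [ih (x :: Y)]
      _ = ∫⁻ p, H p ∂(μ.prod (Measure.pi fun _ : Fin l => μ)) := by
          rw [lintegral_prod _ hHm.aemeasurable]
      _ = ∫⁻ X : Fin (l + 1) → V, H (e X) ∂(Measure.pi fun _ => μ) := by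
          rw [hmp.lintegral_comp hHm]
      _ = ∫⁻ X : Fin (l + 1) → V, F (List.ofFn X ++ Y) ∂(Measure.pi fun _ => μ) := by
          apply lintegral_congr
          intro X
          rw [hH]

private theorem iter_ew_le (μ : Measure V) [IsFiniteMeasure μ] (hμ : Integrable (fun x => ‖x‖) μ) (l : ℕ)
    (Y : List V) :
    iter μ l ew Y ≤ ENNReal.ofReal (Y.map (fun x => ‖x‖)).prod *
      (∫⁻ x, ENNReal.ofReal ‖x‖ ∂μ) ^ l := by
  induction l generalizing Y with
  | zero =>
    rw [iter_zero, pow_zero, mul_one]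
    unfold ew
    exact ENNReal.ofReal_le_ofReal (wn_le_prod Y)
  | succ l ih =>
    rw [iter_succ]
    have hprod : 0 ≤ (Y.map (fun x => ‖x‖)).prod := by
      apply List.prod_nonneg
      intro a ha
      rw [List.mem_map] at ha
      obtain ⟨x, _, rfl⟩ := ha
      exact norm_nonneg x
    have hI : (∫⁻ x, ENNReal.ofReal ‖x‖ ∂μ) ≠ ⊤ := by
      have := hμ.lintegral_lt_top
      exact this.ne
    calc ∫⁻ x, iter μ l ew (x :: Y) ∂μ
        ≤ ∫⁻ x, (ENNReal.ofReal (Y.map (fun x => ‖x‖)).prod *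
            (∫⁻ x, ENNReal.ofReal ‖x‖ ∂μ) ^ l) * ENNReal.ofReal ‖x‖ ∂μ := by
          apply lintegral_mono
          intro x
          refine (ih (x :: Y)).trans ?_
          rw [List.map_cons, List.prod_cons, mul_comm ‖x‖, ENNReal.ofReal_mul hprod]
          apply le_of_eq
          ring
      _ = (ENNReal.ofReal (Y.map (fun x => ‖x‖)).prod *
            (∫⁻ x, ENNReal.ofReal ‖x‖ ∂μ) ^ l) * ∫⁻ x, ENNReal.ofReal ‖x‖ ∂μ := by
          rw [lintegral_const_mul']
          exact ENNReal.mul_ne_top ENNReal.ofReal_ne_top (ENNReal.pow_ne_top hI)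
      _ = ENNReal.ofReal (Y.map (fun x => ‖x‖)).prod *
            (∫⁻ x, ENNReal.ofReal ‖x‖ ∂μ) ^ (l + 1) := by
          rw [pow_succ, mul_assoc]

/-- the total weight is finite. `wn ≤ ∏ ‖·‖`, induction on `l`. -/
theorem iter_ew_lt_top (μ : Measure V) [IsFiniteMeasure μ] (hμ : Integrable (fun x => ‖x‖) μ) (l : ℕ) (Y : List V) :
    iter μ l ew Y < ⊤ := by
  refine lt_of_le_of_lt (iter_ew_le μ hμ l Y) ?_
  have hI : (∫⁻ x, ENNReal.ofReal ‖x‖ ∂μ) ≠ ⊤ := hμ.lintegral_lt_top.ne
  exact lt_top_iff_ne_top.mpr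
    (ENNReal.mul_ne_top ENNReal.ofReal_ne_top (ENNReal.pow_ne_top hI))

end Pool.Agent.HP89
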