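import Pool.Agent.HP89.GDefs
import Pool.Agent.HP89.A2b
import Pool.Agent.HP89.A1c

/-! Module HP-G8: approximation of a generating measure by weighted lists.

Simple functions `s n = SimpleFunc.approxOn id measurable_id univ 0 _ n : V → V` (`V` is separable): `s n x → x`, `‖s n x‖ ≤ 2‖x‖`
(`SimpleFunc.tendsto_approxOn`, `SimpleFunc.norm_approxOn_zero_le`). `L n` = list of `(μ.real (s n ⁻¹' {v}), v)`, `v ∈ (s n).range.toList`.
* `∑_{L n} w |⟪v,u⟫| = ∫ |⟪s n x, u⟫| dμ → ∫ |⟪x,u⟫| dμ` (`SimpleFunc.integral_eq...`/`integral_map`, dominated convergence).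
* `sI (L n) l wn Y = (iter (μ.map (s n)) l ew Y).toReal`, `iter (μ.map (s n)) l ew Y = ∫⁻ X, ew (ofFn (fun i => s n (X i)) ++ Y) dμ^l`
  (`iter_eq_pi`, or induction), integrand → `ew (ofFn X ++ Y)` (`continuous_wn`), dominated by `∏ (2‖X i‖) ∏_{y∈Y} ‖y‖` (`wn_le_prod`),
  integrable for the product measure (`Integrable.fintype_prod`). -/

namespace Pool.Agent.HP89
open MeasureTheory ProbabilityTheory Set Filter Topology Metric
open scoped RealInnerProductSpace ENNReal

variable {V : Type*} [NormedAddCommGroup V] [InnerProductSpace ℝ V] [FiniteDimensional ℝ V]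
  [MeasurableSpace V] [BorelSpace V]

/-- the weighted list of a simple function. -/
private noncomputable def sList (μ : Measure V) (s : SimpleFunc V V) : List (ℝ × V) :=
  s.range.toList.map (fun v => (μ.real (s ⁻¹' {v}), v))

private lemma sList_sum (μ : Measure V) (s : SimpleFunc V V) (F : ℝ × V → ℝ) :
    ((sList μ s).map F).sum = ∑ v ∈ s.range, F (μ.real (s ⁻¹' {v}), v) := by
  rw [sList, List.map_map, Finset.sum_map_toList]
  rfl

private lemma lintegral_simple (μ : Measure V) (s : SimpleFunc V V) (φ : V → ℝ≥0∞) :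
    ∫⁻ x, φ (s x) ∂μ = ∑ v ∈ s.range, φ v * μ (s ⁻¹' {v}) := by
  rw [← SimpleFunc.map_lintegral, ← SimpleFunc.lintegral_eq_lintegral]
  rfl

private lemma sI_nonneg (μ : Measure V) (s : SimpleFunc V V) (l : ℕ) (Y : List V) :
    0 ≤ sI (sList μ s) l wn Y := by
  induction l generalizing Y with
  | zero => exact wn_nonneg Y
  | succ l ih =>
    rw [sI, sList_sum]
    exact Finset.sum_nonneg (fun v _ => mul_nonneg measureReal_nonneg (ih _))

private lemma ofReal_sI (μ : Measure V) [IsFiniteMeasure μ] (s : SimpleFunc V V) (l : ℕ) (Y : List V) :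
    ENNReal.ofReal (sI (sList μ s) l wn Y) = iter (μ.map s) l ew Y := by
  induction l generalizing Y with
  | zero => rfl
  | succ l ih =>
    have hm : Measurable (fun x : V => iter (μ.map s) l ew (x :: Y)) :=
      (lmeas_ew.iter (μ.map s) l).cons Y
    rw [iter_succ, lintegral_map hm s.measurable, sI, sList_sum]
    rw [lintegral_simple μ s (fun x => iter (μ.map s) l ew (x :: Y))]
    rw [ENNReal.ofReal_sum_of_nonneg (fun v _ => mul_nonneg measureReal_nonneg (sI_nonneg _ _ _ _))]
    refine Finset.sum_congr rfl (fun v _ => ?_)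
    rw [ENNReal.ofReal_mul measureReal_nonneg, ih, mul_comm, ofReal_measureReal]

private lemma iter_map_eq (μ : Measure V) [IsFiniteMeasure μ] (s : SimpleFunc V V) (l : ℕ) (Y : List V) :
    iter (μ.map s) l ew Y =
      ∫⁻ X : Fin l → V, ew (List.ofFn (fun i => s (X i)) ++ Y) ∂(Measure.pi fun _ => μ) := by
  rw [iter_eq_pi (μ.map s) l lmeas_ew Y]
  have h := Measure.pi_map_pi (μ := fun _ : Fin l => μ) (f := fun _ => (s : V → V))
    (fun _ => s.measurable.aemeasurable)
  rw [← h, lintegral_map (lmeas_ew.app l Y)]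
  exact measurable_pi_lambda _ (fun i => s.measurable.comp (measurable_pi_apply i))

theorem exists_lists (μ : Measure V) [IsFiniteMeasure μ] (hμ : Integrable (fun x => ‖x‖) μ) :
    ∃ L : ℕ → List (ℝ × V), (∀ n, ∀ p ∈ L n, 0 ≤ p.1) ∧
      (∀ u, Tendsto (fun n => ((L n).map (fun p => p.1 * |⟪p.2, u⟫|)).sum) atTop (𝓝 (∫ x, |⟪x, u⟫| ∂μ))) ∧
      (∀ l Y, Tendsto (fun n => sI (L n) l wn Y) atTop (𝓝 (iter μ l ew Y).toReal)) := by
  classical
  set s : ℕ → SimpleFunc V V :=
    fun n => SimpleFunc.approxOn (id : V → V) measurable_id univ 0 (mem_univ 0) n with hs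
  have s_tend : ∀ x : V, Tendsto (fun n => s n x) atTop (𝓝 x) := by
    intro x
    have := SimpleFunc.tendsto_approxOn (f := (id : V → V)) measurable_id (s := univ) (y₀ := 0)
      (mem_univ 0) (x := x) (by simp)
    simpa using this
  have s_norm : ∀ n, ∀ x : V, ‖s n x‖ ≤ ‖x‖ + ‖x‖ := by
    intro n x
    exact SimpleFunc.norm_approxOn_zero_le (f := (id : V → V)) measurable_id (s := univ)
      (mem_univ 0) x n
  refine ⟨fun n => sList μ (s n), ?_, ?_, ?_⟩
  · intro n p hp
    have hp' : p ∈ sList μ (s n) := hp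
    rw [sList, List.mem_map] at hp'
    obtain ⟨v, -, rfl⟩ := hp'
    exact measureReal_nonneg
  · intro u
    have hint : ∀ n, ((sList μ (s n)).map (fun p => p.1 * |⟪p.2, u⟫|)).sum = ∫ x, |⟪s n x, u⟫| ∂μ := by
      intro n
      rw [sList_sum]
      have hsi : Integrable (s n : V → V) μ := by
        refine Integrable.mono' (hμ.add hμ) (s n).measurable.aestronglyMeasurable ?_
        exact Eventually.of_forall (fun x => s_norm n x)
      have h1 := SimpleFunc.map_integral (μ := μ) (s n) (fun v => |⟪v, u⟫|) hsi (by simp)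
      have hmi : Integrable ((s n).map (fun v => |⟪v, u⟫|)) μ := by
        have := (hsi.inner_const (𝕜 := ℝ) u).abs
        simpa [SimpleFunc.coe_map, Function.comp_def] using this
      rw [SimpleFunc.integral_eq_integral _ hmi] at h1
      simp only [smul_eq_mul] at h1
      rw [← h1]
      rfl
    simp only [hint]
    refine tendsto_integral_of_dominated_convergence (fun x => (‖x‖ + ‖x‖) * ‖u‖) ?_ ?_ ?_ ?_
    · intro n
      exact ((s n).measurable.inner_const.abs).aestronglyMeasurable
    · exact (hμ.add hμ).mul_const _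
    · intro n
      refine Eventually.of_forall (fun x => ?_)
      rw [Real.norm_eq_abs, abs_abs]
      exact (abs_real_inner_le_norm _ _).trans
        (mul_le_mul_of_nonneg_right (s_norm n x) (norm_nonneg _))
    · refine Eventually.of_forall (fun x => ?_)
      exact ((s_tend x).inner tendsto_const_nhds).abs
  · intro l Y
    have e : ∀ n, sI (sList μ (s n)) l wn Y =
        (∫⁻ X : Fin l → V, ew (List.ofFn (fun i => s n (X i)) ++ Y) ∂(Measure.pi fun _ => μ)).toReal := by
      intro n
      rw [← iter_map_eq, ← ofReal_sI, ENNReal.toReal_ofReal (sI_nonneg _ _ _ _)]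
    simp only [e]
    have hfin : iter μ l ew Y ≠ ⊤ := (iter_ew_lt_top μ hμ l Y).ne
    refine (ENNReal.tendsto_toReal hfin).comp ?_
    rw [iter_eq_pi μ l lmeas_ew Y]
    have hbd : ∀ (X : Fin l → V), wn (List.ofFn X ++ Y) ≤ (∏ i, ‖X i‖) * (Y.map (fun x => ‖x‖)).prod := by
      intro X
      refine (wn_le_prod _).trans (le_of_eq ?_)
      rw [List.map_append, List.prod_append, List.map_ofFn, List.prod_ofFn]
      rfl
    have hbi : Integrable (fun X : Fin l → V => (∏ i, (‖X i‖ + ‖X i‖)) * (Y.map (fun x => ‖x‖)).prod)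
        (Measure.pi fun _ => μ) :=
      (Integrable.fintype_prod (f := fun (_ : Fin l) (x : V) => ‖x‖ + ‖x‖) (fun _ => hμ.add hμ)).mul_const _
    refine tendsto_lintegral_of_dominated_convergence
      (fun X => ENNReal.ofReal ((∏ i, (‖X i‖ + ‖X i‖)) * (Y.map (fun x => ‖x‖)).prod)) ?_ ?_ ?_ ?_
    · intro n
      exact (lmeas_ew.app l Y).comp
        (measurable_pi_lambda _ (fun i => (s n).measurable.comp (measurable_pi_apply i)))
    · intro n
      refine Eventually.of_forall (fun X => ?_)
      refine ENNReal.ofReal_le_ofReal ((hbd _).trans ?_)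
      refine mul_le_mul_of_nonneg_right ?_ (List.prod_nonneg ?_)
      · exact Finset.prod_le_prod (fun i _ => norm_nonneg _) (fun i _ => s_norm n (X i))
      · intro a ha
        obtain ⟨x, -, rfl⟩ := List.mem_map.1 ha
        exact norm_nonneg _
    · exact hbi.lintegral_lt_top.ne
    · refine Eventually.of_forall (fun X => ?_)
      refine (ENNReal.continuous_ofReal.tendsto _).comp ?_
      refine ((continuous_wn l Y).tendsto X).comp ?_
      rw [tendsto_pi_nhds]
      exact fun i => s_tend (X i)

end Pool.Agent.HP89
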