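import Pool.Agent.HP89.G9
import Pool.Agent.HP89.G7c
import Pool.Agent.HP89.G8
import Pool.Agent.HP89.A3a

/-! Module HP-G10: the two geometric theorems.

`geoI`: `Π_j K` is a zonoid. Let `L n` be the lists of `exists_lists` for the measure `√(π/2) γ` (`∫ |⟪x,u⟫| = ‖u‖` by `integral_abs_inner`), `Z n t` the zonotopes
with weights `t w`. For `t > 0` and unit `u`: `supp (K + Z n t) → supp (K + closedBall 0 t)`, so (`cfl_tendsto`, `expansion_scaled`)
`∑_{l<d} (1/l!) sI (L n) l (cfl · K) [u] t^l → 2 ∑_i κ_{d-1-i} v_i t^{d-1-i} = ∑_{l<d} 2 κ_l v_{d-1-l} t^l`; by `coeff_tendsto`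
with `l = d-1-j`: `(1/l!) sI (L n) l (cfl · K) [u] → 2 κ_l v_j = 2 κ_l supp P u`. The functions `u ↦ sI (L n) l (cfl · K) [u]` are
finite sums of `w_1...w_l cfl (Y ++ [u]) K`, in `Zon` (`zon_cfl`, `Zon.smul`, `Zon.list_sum`; induction on `l` over `sI (L n) l (cfl · K) (Y ++ [u])`).
`geoII`: `L n` the lists of `exists_lists` for `μ`; `supp (closedBall 0 t + zon (L n)) → supp (closedBall 0 t + K)` pointwise;
`expansion_ball` and `exists_lists`: `cfl [u] (K + closedBall 0 t) = ∑_{l<d} (2^{l+1}/l!) κ_{d-1-l} (iter μ l ew [u]).toReal t^{d-1-l}`;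
compare with `StF.cfl_eq` (`coeff_unique`, substitution `l ↦ d-1-l`, `kappa_pos`). -/

namespace Pool.Agent.HP89
open MeasureTheory ProbabilityTheory Set Filter Topology Metric
open Pool.Agent.Helper82.Proj1
open scoped RealInnerProductSpace ENNReal Pointwise

variable {V : Type*} [NormedAddCommGroup V] [InnerProductSpace ℝ V] [FiniteDimensional ℝ V]
  [MeasurableSpace V] [BorelSpace V]

/-- finite sums in `Zon`. -/
private theorem zon_sI (L : List (ℝ × V)) (hL : ∀ p ∈ L, 0 ≤ p.1) {K : Set V} (hK : CC K) (l : ℕ) :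
    ∀ Y : List V, Zon (fun u => sI L l (fun Z => cfl Z K) (Y ++ [u])) := by
  induction l with
  | zero => intro Y; exact zon_cfl Y hK
  | succ l ih =>
    intro Y
    simp only [sI]
    refine Zon.list_sum L (fun p u => p.1 * sI L l (fun Z => cfl Z K) (p.2 :: (Y ++ [u]))) ?_
    intro p hp
    exact (ih (p.2 :: Y)).smul (hL p hp)

private theorem reflect_sum (d : ℕ) (c : ℕ → ℝ) (t : ℝ) :
    ∑ i ∈ Finset.range d, c i * t ^ (d - 1 - i) = ∑ l ∈ Finset.range d, c (d - 1 - l) * t ^ l := by
  rw [← Finset.sum_range_reflect]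
  refine Finset.sum_congr rfl fun l hl => ?_
  have : l < d := Finset.mem_range.mp hl
  rw [show d - 1 - (d - 1 - l) = l by omega]

theorem geoI {j : ℕ} (hj : j < Module.finrank ℝ V) {K P : Set V} (hK : CC K) (h : IsPB j K P) : Zon (supp P) := by
  set d := Module.finrank ℝ V with hd
  have hpi : (0 : ℝ) < Real.pi := Real.pi_pos
  -- the measure with `∫ |⟪x,u⟫| = ‖u‖`
  let μ : Measure V := (ENNReal.ofReal (√(Real.pi / 2))) • stdGaussian V
  have hμf : IsFiniteMeasure μ := MeasureTheory.Measure.smul_finite _ ENNReal.ofReal_ne_top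
  have hμi : Integrable (fun x => ‖x‖) μ := integrable_norm_gaussian.smul_measure ENNReal.ofReal_ne_top
  have hμu : ∀ u : V, ∫ x, |⟪x, u⟫| ∂μ = ‖u‖ := by
    intro u
    rw [show (∫ x, |⟪x, u⟫| ∂μ) = (ENNReal.ofReal (√(Real.pi / 2))).toReal • ∫ x, |⟪x, u⟫| ∂(stdGaussian V) from
      integral_smul_measure _ _]
    have h1 : (fun x : V => |⟪x, u⟫|) = fun x => |⟪u, x⟫| := by
      funext x; rw [real_inner_comm]
    rw [h1, integral_abs_inner, ENNReal.toReal_ofReal (Real.sqrt_nonneg _), smul_eq_mul, ← mul_assoc,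
      ← Real.sqrt_mul (by positivity)]
    have : Real.pi / 2 * (2 / Real.pi) = 1 := by field_simp
    rw [this, Real.sqrt_one, one_mul]
  obtain ⟨L, hL0, hL1, -⟩ := exists_lists μ hμi
  set l := d - 1 - j with hl
  have hld : l < d := by omega
  have hkl : 0 < kappa l := kappa_pos l
  have key : ∀ u : V, ‖u‖ = 1 → Tendsto (fun n => (1 / (l.factorial : ℝ)) * sI (L n) l (fun Z => cfl Z K) [u]) atTop
      (𝓝 (2 * kappa l * supp P u)) := by
    intro u hu
    obtain ⟨v, hv, hst⟩ := h u hu
    have hb : 2 * kappa l * supp P u = 2 * (kappa l * v (d - 1 - l)) := by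
      rw [show d - 1 - l = j by omega, hv]; ring
    rw [hb]
    refine coeff_tendsto (D := d) (a := fun n l => (1 / (l.factorial : ℝ)) * sI (L n) l (fun Z => cfl Z K) [u])
      (b := fun l => 2 * (kappa l * v (d - 1 - l))) ?_ hld
    intro t ht
    have hpos : ∀ n, ∀ p ∈ ((L n).map (fun p => (t * p.1, p.2))), 0 ≤ p.1 := by
      intro n p hp
      obtain ⟨q, hq, rfl⟩ := List.mem_map.mp hp
      exact mul_nonneg ht.le (hL0 n q hq)
    have hconv := cfl_tendsto [u] (A := fun n => K + zon ((L n).map (fun p => (t * p.1, p.2))))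
      (B := K + closedBall (0 : V) t) (fun n => hK.add (cc_zon _)) (hK.add (cc_ball ht.le)) (by
        intro w hw
        simp only [fun n => supp_add hK (cc_zon ((L n).map (fun p => (t * p.1, p.2)))) w,
          supp_add hK (cc_ball ht.le) w, supp_ball ht.le w]
        refine Tendsto.const_add _ ?_
        have h2 : ∀ n, supp (zon ((L n).map (fun p => (t * p.1, p.2)))) w =
            t * ((L n).map (fun p => p.1 * |⟪p.2, w⟫|)).sum := by
          intro n
          rw [supp_zon (hpos n), List.map_map, ← List.sum_map_mul_left]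
          congr 1
          refine List.map_congr_left fun p _ => ?_
          simp only [Function.comp_apply]
          ring
        simp only [h2]
        have := (hL1 w).const_mul t
        rwa [hμu w] at this)
    have e1 : ∀ n, cfl [u] (K + zon ((L n).map (fun p => (t * p.1, p.2)))) = ∑ l ∈ Finset.range d,
      (1 / (l.factorial : ℝ)) * sI (L n) l (fun Z => cfl Z K) [u] * t ^ l := fun n =>
        expansion_scaled (hL0 n) hK u ht.le
    have e2 : cfl [u] (K + closedBall (0 : V) t) = ∑ l ∈ Finset.range d, 2 * (kappa l * v (d - 1 - l)) * t ^ l := by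
      rw [hst.cfl_eq hK hu ht.le, ← hd, reflect_sum d (fun i => kappa (d - 1 - i) * v i) t, Finset.mul_sum]
      refine Finset.sum_congr rfl fun l hl => ?_
      have : l < d := Finset.mem_range.mp hl
      rw [show d - 1 - (d - 1 - l) = l by omega]
      ring
    simp only [e1, e2] at hconv
    exact hconv
  refine Zon.of_tendsto (f := fun n u => (1 / (2 * kappa l)) * ((1 / (l.factorial : ℝ)) * sI (L n) l (fun Z => cfl Z K) [u]))
    (fun n => ?_) ?_
  · exact ((zon_sI (L n) (hL0 n) hK l []).smul (by positivity)).smul (by positivity)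
  · intro u hu
    have := (key u hu).const_mul (1 / (2 * kappa l))
    rwa [show 1 / (2 * kappa l) * (2 * kappa l * supp P u) = supp P u by field_simp] at this

theorem geoII {j : ℕ} (hj : j < Module.finrank ℝ V) {K P : Set V} (hK : CC K) (h : IsPB j K P)
    {μ : Measure V} [IsFiniteMeasure μ] (hμ : Integrable (fun x => ‖x‖) μ)
    (hs : ∀ u, ‖u‖ = 1 → supp K u = ∫ x, |⟪x, u⟫| ∂μ) {u : V} (hu : ‖u‖ = 1) :
    supp P u = 2 ^ j / (j.factorial : ℝ) * (iter μ j ew [u]).toReal := by
  set d := Module.finrank ℝ V with hd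
  obtain ⟨L, hL0, hL1, hL2⟩ := exists_lists μ hμ
  obtain ⟨v, hv, hst⟩ := h u hu
  have key : ∀ t : ℝ, 0 < t →
      ∑ l ∈ Finset.range d, (fun l => (2 ^ ((d - 1 - l) + 1) / ((d - 1 - l).factorial : ℝ)) * kappa l *
        (iter μ (d - 1 - l) ew [u]).toReal) l * t ^ l =
      ∑ l ∈ Finset.range d, (fun l => 2 * (kappa l * v (d - 1 - l))) l * t ^ l := by
    intro t ht
    have hconv := cfl_tendsto [u] (A := fun n => closedBall (0 : V) t + zon (L n))
      (B := K + closedBall (0 : V) t) (fun n => (cc_ball ht.le).add (cc_zon _)) (hK.add (cc_ball ht.le)) (by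
        intro w hw
        simp only [fun n => supp_add (cc_ball ht.le) (cc_zon (L n)) w,
          supp_add hK (cc_ball ht.le) w, supp_ball ht.le w, fun n => supp_zon (hL0 n) w]
        rw [add_comm (supp K w)]
        refine Tendsto.const_add _ ?_
        rw [hs w hw]
        exact hL1 w)
    have e1 : ∀ n, cfl [u] (closedBall (0 : V) t + zon (L n)) = ∑ l ∈ Finset.range d,
      (2 ^ (l + 1) / (l.factorial : ℝ)) * kappa (d - 1 - l) * sI (L n) l wn [u] * t ^ (d - 1 - l) := fun n =>
        expansion_ball (hL0 n) u ht.le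
    have e3 : Tendsto (fun n => ∑ l ∈ Finset.range d,
      (2 ^ (l + 1) / (l.factorial : ℝ)) * kappa (d - 1 - l) * sI (L n) l wn [u] * t ^ (d - 1 - l)) atTop
      (𝓝 (∑ l ∈ Finset.range d,
      (2 ^ (l + 1) / (l.factorial : ℝ)) * kappa (d - 1 - l) * (iter μ l ew [u]).toReal * t ^ (d - 1 - l))) := by
      refine tendsto_finsetSum _ fun l _ => ?_
      exact ((hL2 l [u]).const_mul _).mul_const _
    simp only [e1] at hconv
    have e4 := tendsto_nhds_unique e3 hconv
    rw [hst.cfl_eq hK hu ht.le, ← hd, reflect_sum d (fun i => kappa (d - 1 - i) * v i) t, Finset.mul_sum,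
      reflect_sum d (fun l => (2 ^ (l + 1) / (l.factorial : ℝ)) * kappa (d - 1 - l) * (iter μ l ew [u]).toReal) t] at e4
    have e5 : ∀ l ∈ Finset.range d, d - 1 - (d - 1 - l) = l := by
      intro l hl
      have : l < d := Finset.mem_range.mp hl
      omega
    calc _ = ∑ l ∈ Finset.range d, (fun l => (2 ^ (l + 1) / (l.factorial : ℝ)) * kappa (d - 1 - l) *
        (iter μ l ew [u]).toReal) (d - 1 - l) * t ^ l := by
          refine Finset.sum_congr rfl fun l hl => ?_
          simp only [e5 l hl]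
      _ = _ := e4
      _ = _ := by
          refine Finset.sum_congr rfl fun l hl => ?_
          simp only [e5 l hl]
          ring
  have hjd : d - 1 - (d - 1 - j) = j := by omega
  have := coeff_unique key (l := d - 1 - j) (by omega)
  simp only [hjd] at this
  have hk : 0 < kappa (d - 1 - j) := kappa_pos _
  rw [← hv]
  have h2 : 2 * kappa (d - 1 - j) * v j = 2 * kappa (d - 1 - j) * (2 ^ j / (j.factorial : ℝ) * (iter μ j ew [u]).toReal) := by
    have : 2 * kappa (d - 1 - j) * v j = 2 * (kappa (d - 1 - j) * v j) := by ring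
    rw [this, ← ‹2 ^ (j + 1) / (j.factorial : ℝ) * kappa (d - 1 - j) * (iter μ j ew [u]).toReal =
      2 * (kappa (d - 1 - j) * v j)›]
    ring
  exact mul_left_cancel₀ (by positivity) h2

end Pool.Agent.HP89
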