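import Pool.Agent.HP89.GDefs

/-! Module HP-G0: support functions of sums, segments, balls, zonotopes. Elementary.

`supp K u = sSup ((fun x => ⟪x,u⟫) '' K)`; `le_supp`, `supp_le` in Helper82.Proj1.Basic. `CC.add`: `IsCompact.add`, `Convex.add`.
`supp_shadow`: for `v ∈ S`, `⟪P x, v⟫ = ⟪x, v⟫`.
`mem_iff`: Hahn-Banach (`geometric_hahn_banach_closed_point`, `InnerProductSpace.toDual`). -/

namespace Pool.Agent.HP89
open MeasureTheory ProbabilityTheory Set Filter Topology Metric
open Pool.Agent.Helper82.Proj1
open scoped RealInnerProductSpace ENNReal Pointwise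

variable {V : Type*} [NormedAddCommGroup V] [InnerProductSpace ℝ V]

theorem CC.add {A B : Set V} (hA : CC A) (hB : CC B) : CC (A + B) :=
  ⟨hA.compact.add hB.compact, hA.convex.add hB.convex, hA.nonempty.add hB.nonempty⟩

theorem cc_seg (y : V) : CC (seg y) := by
  refine ⟨?_, convex_segment _ _, ⟨y, right_mem_segment ℝ _ _⟩⟩
  unfold seg
  rw [segment_eq_image]
  exact isCompact_Icc.image (by fun_prop)

theorem seg_zero : seg (0 : V) = {0} := by
  unfold seg
  rw [neg_zero, segment_same]

theorem cc_zon (L : List (ℝ × V)) : CC (zon L) := by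
  induction L with
  | nil => exact ⟨isCompact_singleton, convex_singleton 0, ⟨0, rfl⟩⟩
  | cons p L ih => exact ih.add (cc_seg _)

theorem cc_ball [FiniteDimensional ℝ V] {t : ℝ} (ht : 0 ≤ t) : CC (closedBall (0 : V) t) := by
  have : ProperSpace V := FiniteDimensional.proper ℝ V
  exact ⟨isCompact_closedBall 0 t, convex_closedBall 0 t, nonempty_closedBall.2 ht⟩

theorem CC.smul {A : Set V} (hA : CC A) (c : ℝ) : CC (c • A) :=
  ⟨hA.compact.smul c, hA.convex.smul c, hA.nonempty.smul_set⟩

theorem CC.shadow [FiniteDimensional ℝ V] {A : Set V} (hA : CC A) (S : Submodule ℝ V) :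
    CC (shadow A S) := by
  refine ⟨hA.compact.image (by fun_prop), ?_, hA.nonempty.image _⟩
  exact hA.convex.linear_image (S.orthogonalProjectionOnto : V →L[ℝ] S).toLinearMap

theorem supp_add {A B : Set V} (hA : CC A) (hB : CC B) (u : V) :
    supp (A + B) u = supp A u + supp B u := by
  apply le_antisymm
  · apply supp_le (hA.nonempty.add hB.nonempty)
    rintro _ ⟨a, ha, b, hb, rfl⟩
    simp only [inner_add_left]
    exact add_le_add (le_supp hA.compact ha u) (le_supp hB.compact hb u)
  · have h1 : supp A u ≤ supp (A + B) u - supp B u := by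
      apply supp_le hA.nonempty
      intro a ha
      have h2 : supp B u ≤ supp (A + B) u - ⟪a, u⟫ := by
        apply supp_le hB.nonempty
        intro b hb
        have := le_supp (hA.add hB).compact (Set.add_mem_add ha hb) u
        rw [inner_add_left] at this
        linarith
      linarith
    linarith

theorem supp_seg (y u : V) : supp (seg y) u = |⟪y, u⟫| := by
  apply le_antisymm
  · apply supp_le (cc_seg y).nonempty
    rintro _ ⟨a, b, ha, hb, hab, rfl⟩
    rw [inner_add_left, real_inner_smul_left, real_inner_smul_left, inner_neg_left]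
    have h1 : a * -⟪y, u⟫ + b * ⟪y, u⟫ = (b - a) * ⟪y, u⟫ := by ring
    rw [h1]
    calc (b - a) * ⟪y, u⟫ ≤ |(b - a) * ⟪y, u⟫| := le_abs_self _
      _ = |b - a| * |⟪y, u⟫| := abs_mul _ _
      _ ≤ 1 * |⟪y, u⟫| := by
          apply mul_le_mul_of_nonneg_right _ (abs_nonneg _)
          rw [abs_le]
          constructor <;> linarith
      _ = |⟪y, u⟫| := one_mul _
  · rw [abs_le']
    constructor
    · exact le_supp (cc_seg y).compact (right_mem_segment ℝ _ _) u
    · have := le_supp (cc_seg y).compact (left_mem_segment ℝ (-y) y) u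
      rwa [inner_neg_left] at this

theorem supp_zero_right {A : Set V} (hA : CC A) : supp A (0 : V) = 0 := by
  apply le_antisymm
  · apply supp_le hA.nonempty
    intro x _
    rw [inner_zero_right]
  · obtain ⟨x, hx⟩ := hA.nonempty
    have := le_supp hA.compact hx (0 : V)
    rwa [inner_zero_right] at this

theorem supp_smul_right {A : Set V} (hA : CC A) {c : ℝ} (hc : 0 ≤ c) (u : V) :
    supp A (c • u) = c * supp A u := by
  rcases hc.eq_or_lt with rfl | hc'
  · rw [zero_smul, supp_zero_right hA, zero_mul]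
  apply le_antisymm
  · apply supp_le hA.nonempty
    intro x hx
    rw [real_inner_smul_right]
    exact mul_le_mul_of_nonneg_left (le_supp hA.compact hx u) hc
  · have : supp A u ≤ supp A (c • u) / c := by
      apply supp_le hA.nonempty
      intro x hx
      rw [le_div_iff₀ hc']
      have := le_supp hA.compact hx (c • u)
      rw [real_inner_smul_right] at this
      linarith
    rw [le_div_iff₀ hc'] at this
    linarith

theorem supp_smul_left {A : Set V} (hA : CC A) {c : ℝ} (hc : 0 ≤ c) (u : V) :
    supp (c • A) u = c * supp A u := by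
  rw [← supp_smul_right hA hc]
  apply le_antisymm
  · apply supp_le (hA.smul c).nonempty
    rintro _ ⟨x, hx, rfl⟩
    simp only [real_inner_smul_left]
    have := le_supp hA.compact hx (c • u)
    rwa [real_inner_smul_right] at this
  · apply supp_le hA.nonempty
    intro x hx
    have := le_supp (hA.smul c).compact (Set.smul_mem_smul_set hx) u
    rwa [real_inner_smul_left, ← real_inner_smul_right] at this

theorem supp_add_right_le {A : Set V} (hA : CC A) (u v : V) :
    supp A (u + v) ≤ supp A u + supp A v := by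
  apply supp_le hA.nonempty
  intro x hx
  rw [inner_add_right]
  exact add_le_add (le_supp hA.compact hx u) (le_supp hA.compact hx v)

theorem supp_ball [FiniteDimensional ℝ V] {t : ℝ} (ht : 0 ≤ t) (u : V) :
    supp (closedBall (0 : V) t) u = t * ‖u‖ := by
  by_cases hu : u = 0
  · rw [hu, supp_zero_right (cc_ball ht), norm_zero, mul_zero]
  · have hn : ‖u‖ ≠ 0 := norm_ne_zero_iff.2 hu
    have h1 : ‖(‖u‖⁻¹ • u)‖ = 1 := by
      rw [norm_smul, norm_inv, norm_norm, inv_mul_cancel₀ hn]
    have h2 := supp_closedBall (0 : V) ht h1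
    rw [inner_zero_left, zero_add] at h2
    have h3 : u = ‖u‖ • (‖u‖⁻¹ • u) := by
      rw [smul_smul, mul_inv_cancel₀ hn, one_smul]
    calc supp (closedBall (0 : V) t) u = supp (closedBall (0 : V) t) (‖u‖ • (‖u‖⁻¹ • u)) := by
          rw [← h3]
      _ = ‖u‖ * supp (closedBall (0 : V) t) (‖u‖⁻¹ • u) :=
          supp_smul_right (cc_ball ht) (norm_nonneg u) _
      _ = t * ‖u‖ := by rw [h2, mul_comm]

theorem supp_zon {L : List (ℝ × V)} (hL : ∀ p ∈ L, 0 ≤ p.1) (u : V) :
    supp (zon L) u = (L.map (fun p => p.1 * |⟪p.2, u⟫|)).sum := by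
  induction L with
  | nil =>
    simp only [zon, List.map_nil, List.sum_nil]
    have : supp ({0} : Set V) u = supp (seg (0 : V)) u := by rw [seg_zero]
    rw [this, supp_seg, inner_zero_left, abs_zero]
  | cons p L ih =>
    have h1 : supp (zon (p :: L)) u = supp (zon L) u + supp (seg (p.1 • p.2)) u :=
      supp_add (cc_zon L) (cc_seg _) u
    rw [h1, ih (fun q hq => hL q (List.mem_cons_of_mem _ hq)), supp_seg, real_inner_smul_left,
      abs_mul, abs_of_nonneg (hL p List.mem_cons_self), List.map_cons, List.sum_cons, add_comm]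

theorem mem_iff [FiniteDimensional ℝ V] {A : Set V} (hA : CC A) (x : V) :
    x ∈ A ↔ ∀ u, ⟪x, u⟫ ≤ supp A u := by
  constructor
  · intro hx u
    exact le_supp hA.compact hx u
  · intro h
    by_contra hxK
    have : CompleteSpace V := FiniteDimensional.complete ℝ V
    obtain ⟨f, a, hfa, hfx⟩ :=
      geometric_hahn_banach_closed_point hA.convex hA.compact.isClosed hxK
    set v : V := (InnerProductSpace.toDual ℝ V).symm f with hv
    have hfv : ∀ z, f z = ⟪z, v⟫ := by
      intro z
      rw [hv, real_inner_comm, InnerProductSpace.toDual_symm_apply]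
    have h1 : supp A v ≤ a := by
      apply supp_le hA.nonempty
      intro z hz
      have := hfa z hz
      rw [hfv] at this
      exact this.le
    have h2 := h v
    rw [hfv] at hfx
    linarith

/-- it is enough to test unit vectors. -/
theorem mem_iff' [FiniteDimensional ℝ V] {A : Set V} (hA : CC A) (x : V) :
    x ∈ A ↔ ∀ u, ‖u‖ = 1 → ⟪x, u⟫ ≤ supp A u := by
  constructor
  · intro hx u _
    exact le_supp hA.compact hx u
  · intro h
    rw [mem_iff hA]
    intro u
    by_cases hu : u = 0
    · rw [hu, supp_zero_right hA, inner_zero_right]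
    · have hn : ‖u‖ ≠ 0 := norm_ne_zero_iff.2 hu
      have h1 : ‖(‖u‖⁻¹ • u)‖ = 1 := by
        rw [norm_smul, norm_inv, norm_norm, inv_mul_cancel₀ hn]
      have h3 : u = ‖u‖ • (‖u‖⁻¹ • u) := by
        rw [smul_smul, mul_inv_cancel₀ hn, one_smul]
      rw [h3, supp_smul_right hA (norm_nonneg u), real_inner_smul_right]
      exact mul_le_mul_of_nonneg_left (h _ h1) (norm_nonneg u)

theorem subset_iff [FiniteDimensional ℝ V] {A B : Set V} (hA : CC A) (hB : CC B) :
    A ⊆ B ↔ ∀ u, ‖u‖ = 1 → supp A u ≤ supp B u := by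
  constructor
  · intro h u _
    apply supp_le hA.nonempty
    intro x hx
    exact le_supp hB.compact (h hx) u
  · intro h x hx
    rw [mem_iff' hB]
    intro u hu
    exact (le_supp hA.compact hx u).trans (h u hu)

theorem eq_of_supp [FiniteDimensional ℝ V] {A B : Set V} (hA : CC A) (hB : CC B)
    (h : ∀ u, ‖u‖ = 1 → supp A u = supp B u) : A = B :=
  Set.Subset.antisymm ((subset_iff hA hB).2 fun u hu => (h u hu).le)
    ((subset_iff hB hA).2 fun u hu => (h u hu).ge)

theorem shadow_add [FiniteDimensional ℝ V] (A B : Set V) (S : Submodule ℝ V) :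
    shadow (A + B) S = shadow A S + shadow B S := by
  unfold Pool.Agent.Helper82.Proj1.shadow
  exact Set.image_add (S.orthogonalProjectionOnto)

theorem shadow_seg [FiniteDimensional ℝ V] (y : V) (S : Submodule ℝ V) :
    shadow (seg y) S = seg (S.orthogonalProjectionOnto y) := by
  unfold Pool.Agent.Helper82.Proj1.shadow seg
  have h := image_segment ℝ ((S.orthogonalProjectionOnto : V →L[ℝ] S).toLinearMap.toAffineMap)
    (-y) y
  simpa using h

theorem shadow_ball [FiniteDimensional ℝ V] {t : ℝ} (ht : 0 ≤ t) (S : Submodule ℝ V) :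
    shadow (closedBall (0 : V) t) S = closedBall (0 : S) t := by
  unfold Pool.Agent.Helper82.Proj1.shadow
  apply Set.Subset.antisymm
  · rintro _ ⟨x, hx, rfl⟩
    rw [mem_closedBall, dist_zero_right] at hx ⊢
    exact (S.norm_orthogonalProjectionOnto_apply_le x).trans hx
  · intro x hx
    rw [mem_closedBall, dist_zero_right] at hx
    refine ⟨(x : V), ?_, ?_⟩
    · rw [mem_closedBall, dist_zero_right]
      exact hx
    · simp

theorem shadow_smul [FiniteDimensional ℝ V] (A : Set V) (c : ℝ) (S : Submodule ℝ V) :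
    shadow (c • A) S = c • shadow A S := by
  unfold Pool.Agent.Helper82.Proj1.shadow
  ext z
  simp only [Set.mem_image, Set.mem_smul_set]
  constructor
  · rintro ⟨_, ⟨x, hx, rfl⟩, rfl⟩
    exact ⟨_, ⟨x, hx, rfl⟩, by simp⟩
  · rintro ⟨_, ⟨x, hx, rfl⟩, rfl⟩
    exact ⟨_, ⟨x, hx, rfl⟩, by simp⟩

end Pool.Agent.HP89
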