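import Pool.Agent.HP89.A1b

/-! Module HP-A2a: measurability and the calculus of `iter`.

* `measurable_ort`: explicit formula. `measurable_res`: induction on `n`; `List.ofFn X = X 0 :: List.ofFn (fun i => X i.succ)`
  (`List.ofFn_succ`), `res (x :: Z) g = ort (res Z x) (res Z g)`.
* `LMeas.lint`: `fun X => ∫⁻ x, F (x :: ofFn X) ∂μ = ∫⁻ x, F (ofFn (Fin.cons x X)) ∂μ`, `Measurable.lintegral_prod_right'`
  composed with the (continuous, hence measurable) map `(X, x) ↦ Fin.cons x X`.
* `LMeas.app`: `F (ofFn X ++ Y)` for a fixed list `Y`: `ofFn X ++ Y = ofFn (Fin.append X Y.get)` (`List.ofFn_fin_append`), the map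
  `X ↦ Fin.append X Y.get` is measurable (coordinatewise).
* `iter_*`: induction on `l`, generalizing `Y`. -/

namespace Pool.Agent.HP89
open MeasureTheory ProbabilityTheory Set Filter Topology Metric
open scoped RealInnerProductSpace ENNReal

variable {V : Type*} [NormedAddCommGroup V] [InnerProductSpace ℝ V] [FiniteDimensional ℝ V]
  [MeasurableSpace V] [BorelSpace V]

theorem measurable_ort : Measurable (fun p : V × V => ort p.1 p.2) := by
  unfold ort
  refine measurable_snd.sub (Measurable.smul ?_ measurable_fst)
  exact (measurable_fst.inner measurable_snd).div (measurable_fst.norm.pow_const 2)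

theorem measurable_res (n : ℕ) : Measurable (fun p : (Fin n → V) × V => res (List.ofFn p.1) p.2) := by
  induction n with
  | zero =>
    simp only [List.ofFn_zero, res_nil]
    exact measurable_snd
  | succ n ih =>
    have hl : ∀ X : Fin (n + 1) → V, List.ofFn X = X 0 :: List.ofFn (fun i : Fin n => X i.succ) :=
      fun X => List.ofFn_succ
    simp only [hl, res_cons]
    have ht : Measurable (fun p : (Fin (n + 1) → V) × V => fun i : Fin n => p.1 i.succ) :=
      measurable_pi_lambda _ fun i => (measurable_pi_apply i.succ).comp measurable_fst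
    exact measurable_ort.comp ((ih.comp (ht.prodMk ((measurable_pi_apply 0).comp measurable_fst))).prodMk
      (ih.comp (ht.prodMk measurable_snd)))

theorem measurable_wn (n : ℕ) : Measurable (fun X : Fin n → V => wn (List.ofFn X)) := by
  induction n with
  | zero =>
    simp only [List.ofFn_zero, wn_nil]
    exact measurable_const
  | succ n ih =>
    have hl : ∀ X : Fin (n + 1) → V, List.ofFn X = X 0 :: List.ofFn (fun i : Fin n => X i.succ) :=
      fun X => List.ofFn_succ
    simp only [hl, wn_cons]
    have ht : Measurable (fun X : Fin (n + 1) → V => fun i : Fin n => X i.succ) :=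
      measurable_pi_lambda _ fun i => measurable_pi_apply i.succ
    exact (ih.comp ht).mul ((measurable_res n).comp (ht.prodMk (measurable_pi_apply 0))).norm

/-- `res (x :: Y)` for a fixed list `Y`. -/
theorem measurable_res_cons (Y : List V) : Measurable (fun p : V × V => res (p.1 :: Y) p.2) := by
  simp only [res_cons]
  exact measurable_ort.comp (((continuous_res Y).measurable.comp measurable_fst).prodMk
    ((continuous_res Y).measurable.comp measurable_snd))

private theorem measurable_fcons (n : ℕ) :
    Measurable (fun p : (Fin n → V) × V => (Fin.cons p.2 p.1 : Fin (n + 1) → V)) := by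
  refine measurable_pi_lambda _ fun i => ?_
  refine Fin.cases ?_ (fun i => ?_) i
  · simp only [Fin.cons_zero]
    exact measurable_snd
  · simp only [Fin.cons_succ]
    exact (measurable_pi_apply i).comp measurable_fst

theorem LMeas.lint {F : List V → ℝ≥0∞} (hF : LMeas F) (μ : Measure V) [SFinite μ] :
    LMeas (fun Y => ∫⁻ x, F (x :: Y) ∂μ) := by
  intro n
  have h1 : Measurable (fun p : (Fin n → V) × V => F (p.2 :: List.ofFn p.1)) := by
    have h2 : (fun p : (Fin n → V) × V => F (p.2 :: List.ofFn p.1)) =
        (fun X : Fin (n + 1) → V => F (List.ofFn X)) ∘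
          (fun p : (Fin n → V) × V => (Fin.cons p.2 p.1 : Fin (n + 1) → V)) := by
      funext p
      simp only [Function.comp]
      rw [List.ofFn_cons]
    rw [h2]
    exact (hF (n + 1)).comp (measurable_fcons n)
  exact h1.lintegral_prod_right'

theorem LMeas.app {F : List V → ℝ≥0∞} (hF : LMeas F) (n : ℕ) (Y : List V) :
    Measurable (fun X : Fin n → V => F (List.ofFn X ++ Y)) := by
  have h1 : (fun X : Fin n → V => F (List.ofFn X ++ Y)) =
      (fun X : Fin (n + Y.length) → V => F (List.ofFn X)) ∘
        (fun X : Fin n → V => Fin.append X Y.get) := by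
    funext X
    simp only [Function.comp]
    rw [List.ofFn_fin_append, List.ofFn_get]
  rw [h1]
  refine (hF _).comp (measurable_pi_lambda _ fun i => ?_)
  refine Fin.addCases (fun i => ?_) (fun i => ?_) i
  · simp only [Fin.append_left]
    exact measurable_pi_apply i
  · simp only [Fin.append_right]
    exact measurable_const

theorem LMeas.cons {F : List V → ℝ≥0∞} (hF : LMeas F) (Y : List V) : Measurable (fun x : V => F (x :: Y)) := by
  have h1 := (hF.app 1 Y).comp (measurable_pi_lambda (fun (x : V) (_ : Fin 1) => x) fun _ => measurable_id)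
  have h2 : (fun x : V => F (x :: Y)) =
      (fun X : Fin 1 → V => F (List.ofFn X ++ Y)) ∘ (fun (x : V) (_ : Fin 1) => x) := by
    funext x
    simp
  rw [h2]
  exact h1

theorem LMeas.add {F G : List V → ℝ≥0∞} (hF : LMeas F) (hG : LMeas G) : LMeas (fun Y => F Y + G Y) :=
  fun n => (hF n).add (hG n)

theorem lmeas_ew : LMeas (ew : List V → ℝ≥0∞) := fun n =>
  ENNReal.measurable_ofReal.comp (measurable_wn n)

theorem lmeas_TG {G : V → ℝ≥0∞} (hG : Measurable G) : LMeas (TG G) := fun n =>
  (ENNReal.measurable_ofReal.comp (measurable_wn n)).mul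
    (Measurable.lintegral_prod_right' (hG.comp (measurable_res n)))

theorem LMeas.iter {F : List V → ℝ≥0∞} (hF : LMeas F) (μ : Measure V) [SFinite μ] (l : ℕ) :
    LMeas (iter μ l F) := by
  induction l with
  | zero => exact hF
  | succ l ih => exact ih.lint μ

theorem iter_zero (μ : Measure V) (F : List V → ℝ≥0∞) (Y : List V) : iter μ 0 F Y = F Y := rfl

theorem iter_succ (μ : Measure V) (l : ℕ) (F : List V → ℝ≥0∞) (Y : List V) :
    iter μ (l + 1) F Y = ∫⁻ x, iter μ l F (x :: Y) ∂μ := rfl

theorem iter_succ' (μ : Measure V) (l : ℕ) (F : List V → ℝ≥0∞) (Y : List V) :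
    iter μ (l + 1) F Y = iter μ l (fun Z => ∫⁻ x, F (x :: Z) ∂μ) Y := by
  induction l generalizing Y with
  | zero => rfl
  | succ l ih =>
    rw [iter_succ μ (l + 1), iter_succ μ l]
    exact lintegral_congr fun x => ih (x :: Y)

theorem iter_mono (μ : Measure V) (l : ℕ) {F G : List V → ℝ≥0∞} (h : ∀ Z, F Z ≤ G Z) (Y : List V) :
    iter μ l F Y ≤ iter μ l G Y := by
  induction l generalizing Y with
  | zero => exact h Y
  | succ l ih => exact lintegral_mono fun x => ih (x :: Y)

/-- only lists of length `length Y + l` matter. -/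
theorem iter_mono' (μ : Measure V) (l : ℕ) {F G : List V → ℝ≥0∞} (Y : List V)
    (h : ∀ Z, Z.length = Y.length + l → F Z ≤ G Z) : iter μ l F Y ≤ iter μ l G Y := by
  induction l generalizing Y with
  | zero => exact h Y rfl
  | succ l ih =>
    refine lintegral_mono fun x => ih (x :: Y) fun Z hZ => h Z ?_
    rw [hZ, List.length_cons]
    ring

theorem iter_congr' (μ : Measure V) (l : ℕ) {F G : List V → ℝ≥0∞} (Y : List V)
    (h : ∀ Z, Z.length = Y.length + l → F Z = G Z) : iter μ l F Y = iter μ l G Y :=
  le_antisymm (iter_mono' μ l Y fun Z hZ => (h Z hZ).le) (iter_mono' μ l Y fun Z hZ => (h Z hZ).ge)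

theorem iter_const_mul (μ : Measure V) (l : ℕ) (F : List V → ℝ≥0∞) {c : ℝ≥0∞} (hc : c ≠ ⊤) (Y : List V) :
    iter μ l (fun Z => c * F Z) Y = c * iter μ l F Y := by
  induction l generalizing Y with
  | zero => rfl
  | succ l ih =>
    rw [iter_succ, iter_succ, ← lintegral_const_mul' c _ hc]
    exact lintegral_congr fun x => ih (x :: Y)

theorem iter_add (μ : Measure V) [SFinite μ] (l : ℕ) {F G : List V → ℝ≥0∞} (hF : LMeas F) (Y : List V) :
    iter μ l (fun Z => F Z + G Z) Y = iter μ l F Y + iter μ l G Y := by
  induction l generalizing Y with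
  | zero => rfl
  | succ l ih =>
    rw [iter_succ, iter_succ, iter_succ, ← lintegral_add_left ((hF.iter μ l).cons Y)]
    exact lintegral_congr fun x => ih (x :: Y)

theorem iter_perm (μ : Measure V) (l : ℕ) {F : List V → ℝ≥0∞} (hF : ∀ Z Z' : List V, Z.Perm Z' → F Z = F Z')
    {Y Y' : List V} (h : Y.Perm Y') : iter μ l F Y = iter μ l F Y' := by
  induction l generalizing Y Y' with
  | zero => exact hF _ _ h
  | succ l ih => exact lintegral_congr fun x => ih (h.cons x)

/-- scaling of the measure. -/
theorem iter_smul_measure (μ : Measure V) (l : ℕ) (F : List V → ℝ≥0∞) (c : ℝ≥0∞) (hc : c ≠ ⊤) (Y : List V) :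
    iter (c • μ) l F Y = c ^ l * iter μ l F Y := by
  induction l generalizing Y with
  | zero =>
    rw [pow_zero, one_mul]
    rfl
  | succ l ih =>
    rw [iter_succ, iter_succ, lintegral_smul_measure, lintegral_congr fun x => ih (x :: Y),
      lintegral_const_mul' _ _ (ENNReal.pow_ne_top hc), smul_eq_mul, pow_succ']
    ring

/-- if `F` is homogeneous in the last vector of the list, so is `iter`. -/
theorem iter_hom_last (μ : Measure V) (l : ℕ) {F : List V → ℝ≥0∞} {c : ℝ≥0∞} (hc : c ≠ ⊤) {x y : V}
    (hF : ∀ Z : List V, F (Z ++ [y]) = c * F (Z ++ [x])) :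
    iter μ l F [y] = c * iter μ l F [x] := by
  have key : ∀ (l : ℕ) (Z : List V), iter μ l F (Z ++ [y]) = c * iter μ l F (Z ++ [x]) := by
    intro l
    induction l with
    | zero => exact hF
    | succ l ih =>
      intro Z
      rw [iter_succ, iter_succ, ← lintegral_const_mul' c _ hc]
      exact lintegral_congr fun z => ih (z :: Z)
  exact key l []

end Pool.Agent.HP89
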