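import Pool.Agent.HP89.A3a

/-! Module HP-A3b: moments of projections of a standard Gaussian vector.

* `integral_norm_proj`: by `map_starProjection` and a linear isometry equivalence `F ≃ₗᵢ EuclideanSpace ℝ (Fin n)`
  (`stdGaussian_map`, `LinearIsometryEquiv.ofFinrankEq`-like / `stdOrthonormalBasis.repr`).
* `integral_norm_proj_proj_le`: `P_F P_E g = P_F (g + g')/2` with `g' = 2 P_E g - g` (`map_reflection`), so
  `E ‖P_F P_E g‖ ≤ (E ‖P_F g‖ + E ‖P_F g'‖)/2 = m_f`.
* `integral_norm_sq_proj`: `E ‖P_W g‖² = dim W`: orthonormal basis `b` of `W`, `‖P_W g‖² = ∑ ⟪b_i, g⟫²`, `E ⟪b_i,g⟫² = 1`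
  (`variance_dual_stdGaussian`, or `covarianceBilin_stdGaussian`).
* `integral_norm_sq_proj_proj`: `‖P_F P_E g‖² = ‖P_E g‖² - ‖P_{F^⊥} P_E g‖²` and, with an orthonormal basis `b` of `F^⊥`,
  `E ‖P_{F^⊥} P_E g‖² = ∑ E ⟪b_i, P_E g⟫² = ∑ E⟪P_E b_i, g⟫² = ∑ ‖P_E b_i‖² ≤ d - f`. Hence `≥ e - (d - f)`. -/

namespace Pool.Agent.HP89
open MeasureTheory ProbabilityTheory Set Filter Topology Metric
open scoped RealInnerProductSpace ENNReal

variable {V : Type*} [NormedAddCommGroup V] [InnerProductSpace ℝ V] [FiniteDimensional ℝ V]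
  [MeasurableSpace V] [BorelSpace V]

theorem integral_norm_gaussian : ∫ g, ‖g‖ ∂(stdGaussian V) = mG (Module.finrank ℝ V) := by
  unfold mG
  rw [← stdGaussian_map (stdOrthonormalBasis ℝ V).repr,
    integral_map (by fun_prop) (by fun_prop)]
  simp

theorem integral_norm_proj (F : Submodule ℝ V) :
    ∫ g, ‖F.starProjection g‖ ∂(stdGaussian V) = mG (Module.finrank ℝ F) := by
  have h1 : ∫ g, ‖F.starProjection g‖ ∂(stdGaussian V) =
      ∫ x, ‖x‖ ∂((stdGaussian V).map (fun g => F.starProjection g)) := by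
    rw [integral_map (by fun_prop) (by fun_prop)]
  have h2 : ∫ x, ‖x‖ ∂((stdGaussian F).map (fun x : F => (x : V))) =
      ∫ x : F, ‖(x : V)‖ ∂(stdGaussian F) := by
    rw [integral_map (by fun_prop) (by fun_prop)]
  rw [h1, map_starProjection, h2, ← integral_norm_gaussian (V := F)]
  rfl

private theorem integrable_norm_comp (L : V →L[ℝ] V) :
    Integrable (fun g => ‖L g‖) (stdGaussian V) := by
  refine Integrable.mono' (integrable_norm_gaussian.const_mul ‖L‖) (by fun_prop) ?_
  filter_upwards with g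
  rw [Real.norm_of_nonneg (norm_nonneg _)]
  exact L.le_opNorm g

private theorem integrable_norm_sq_comp (L : V →L[ℝ] V) :
    Integrable (fun g => ‖L g‖ ^ 2) (stdGaussian V) := by
  refine Integrable.mono' (integrable_norm_sq_gaussian.const_mul (‖L‖ ^ 2)) (by fun_prop) ?_
  filter_upwards with g
  rw [Real.norm_of_nonneg (by positivity), ← mul_pow]
  exact pow_le_pow_left₀ (norm_nonneg _) (L.le_opNorm g) 2

private theorem integrable_inner_sq (y : V) :
    Integrable (fun g => ⟪y, g⟫ ^ 2) (stdGaussian V) := by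
  refine Integrable.mono' (integrable_norm_sq_gaussian.const_mul (‖y‖ ^ 2)) (by fun_prop) ?_
  filter_upwards with g
  rw [Real.norm_of_nonneg (by positivity), ← mul_pow, ← sq_abs]
  exact pow_le_pow_left₀ (abs_nonneg _) (abs_real_inner_le_norm y g) 2

theorem integral_norm_proj_proj_le (E F : Submodule ℝ V) :
    ∫ g, ‖F.starProjection (E.starProjection g)‖ ∂(stdGaussian V) ≤ mG (Module.finrank ℝ F) := by
  have h1 : ∫ g, ‖F.starProjection (2 • E.starProjection g - g)‖ ∂(stdGaussian V) =
      mG (Module.finrank ℝ F) := by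
    have h : ∫ g, ‖F.starProjection (2 • E.starProjection g - g)‖ ∂(stdGaussian V) =
        ∫ x, ‖F.starProjection x‖ ∂((stdGaussian V).map
          (fun g => 2 • E.starProjection g - g)) := by
      rw [integral_map (by fun_prop) (by fun_prop)]
    rw [h, map_reflection, integral_norm_proj]
  have hle : ∀ g : V, ‖F.starProjection (E.starProjection g)‖ ≤
      (1 / 2 : ℝ) * (‖F.starProjection g‖ + ‖F.starProjection (2 • E.starProjection g - g)‖) := by
    intro g
    have e : F.starProjection (E.starProjection g) =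
        (1 / 2 : ℝ) • (F.starProjection g + F.starProjection (2 • E.starProjection g - g)) := by
      rw [← map_add]
      have : g + (2 • E.starProjection g - g) = (2 : ℝ) • E.starProjection g := by
        rw [two_smul, two_smul]
        abel
      rw [this, map_smul, smul_smul]
      norm_num
    rw [e, norm_smul, Real.norm_of_nonneg (by norm_num)]
    exact mul_le_mul_of_nonneg_left (norm_add_le _ _) (by norm_num)
  have i1 := integrable_norm_comp (F.starProjection)
  have i2 : Integrable (fun g => ‖F.starProjection (2 • E.starProjection g - g)‖)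
      (stdGaussian V) := by
    have := integrable_norm_comp
      (F.starProjection.comp ((2 : ℝ) • E.starProjection - ContinuousLinearMap.id ℝ V))
    refine this.congr ?_
    filter_upwards with g
    simp [two_smul]
  have i3 : Integrable (fun g => ‖F.starProjection (E.starProjection g)‖) (stdGaussian V) :=
    integrable_norm_comp (F.starProjection.comp E.starProjection)
  calc ∫ g, ‖F.starProjection (E.starProjection g)‖ ∂(stdGaussian V)
      ≤ ∫ g, (1 / 2 : ℝ) * (‖F.starProjection g‖ +
          ‖F.starProjection (2 • E.starProjection g - g)‖) ∂(stdGaussian V) :=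
        integral_mono i3 ((i1.add i2).const_mul _) hle
    _ = mG (Module.finrank ℝ F) := by
        rw [integral_const_mul, integral_add i1 i2, h1, integral_norm_proj]
        ring

theorem integral_inner_sq (y : V) : ∫ g, ⟪y, g⟫ ^ 2 ∂(stdGaussian V) = ‖y‖ ^ 2 := by
  have h1 := variance_dual_stdGaussian (E := V) (innerSL ℝ y)
  have h0 : ∫ g, (innerSL ℝ y) g ∂(stdGaussian V) = 0 :=
    integral_strongDual_stdGaussian (innerSL ℝ y)
  rw [variance_of_integral_eq_zero (by fun_prop) h0] at h1
  rw [innerSL_apply_norm] at h1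
  exact h1

private theorem integral_norm_sq_gaussian :
    ∫ g, ‖g‖ ^ 2 ∂(stdGaussian V) = Module.finrank ℝ V := by
  have h : ∀ g : V, ‖g‖ ^ 2 = ∑ i, ⟪stdOrthonormalBasis ℝ V i, g⟫ ^ 2 := fun g =>
    ((stdOrthonormalBasis ℝ V).sum_sq_inner_right g).symm
  simp_rw [h]
  rw [integral_finsetSum _ (fun i _ => integrable_inner_sq _)]
  simp_rw [integral_inner_sq]
  simp

theorem integral_norm_sq_proj (W : Submodule ℝ V) :
    ∫ g, ‖W.starProjection g‖ ^ 2 ∂(stdGaussian V) = Module.finrank ℝ W := by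
  have h1 : ∫ g, ‖W.starProjection g‖ ^ 2 ∂(stdGaussian V) =
      ∫ x, ‖x‖ ^ 2 ∂((stdGaussian V).map (fun g => W.starProjection g)) := by
    rw [integral_map (by fun_prop) (by fun_prop)]
  have h2 : ∫ x, ‖x‖ ^ 2 ∂((stdGaussian W).map (fun x : W => (x : V))) =
      ∫ x : W, ‖(x : V)‖ ^ 2 ∂(stdGaussian W) := by
    rw [integral_map (by fun_prop) (by fun_prop)]
  rw [h1, map_starProjection, h2, ← integral_norm_sq_gaussian (V := W)]
  rfl

omit [MeasurableSpace V] [BorelSpace V] in
private theorem norm_sq_starProjection (W : Submodule ℝ V) (w : V) :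
    ‖W.starProjection w‖ ^ 2 = ∑ i, ⟪((stdOrthonormalBasis ℝ W i : W) : V), w⟫ ^ 2 := by
  rw [Submodule.starProjection_apply]
  have h : ‖((W.orthogonalProjectionOnto w : W) : V)‖ = ‖W.orthogonalProjectionOnto w‖ := rfl
  rw [h, ← (stdOrthonormalBasis ℝ W).sum_sq_inner_right]
  refine Finset.sum_congr rfl (fun i _ => ?_)
  rw [Submodule.inner_orthogonalProjectionOnto_eq_of_mem_left]

theorem integral_norm_sq_proj_proj (E F : Submodule ℝ V) :
    (Module.finrank ℝ E : ℝ) + Module.finrank ℝ F - Module.finrank ℝ V ≤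
      ∫ g, ‖F.starProjection (E.starProjection g)‖ ^ 2 ∂(stdGaussian V) := by
  have h0 : ∀ g : V, ‖F.starProjection (E.starProjection g)‖ ^ 2 =
      ‖E.starProjection g‖ ^ 2 - ‖Fᗮ.starProjection (E.starProjection g)‖ ^ 2 := by
    intro g
    have := Submodule.norm_sq_eq_add_norm_sq_starProjection (E.starProjection g) F
    linarith
  have h1 : ∀ g : V, ‖Fᗮ.starProjection (E.starProjection g)‖ ^ 2 =
      ∑ i, ⟪E.starProjection ((stdOrthonormalBasis ℝ Fᗮ i : Fᗮ) : V), g⟫ ^ 2 := by
    intro g
    rw [norm_sq_starProjection]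
    refine Finset.sum_congr rfl (fun i _ => ?_)
    rw [Submodule.inner_starProjection_left_eq_right]
  have i1 : Integrable (fun g => ‖E.starProjection g‖ ^ 2) (stdGaussian V) :=
    integrable_norm_sq_comp _
  have i2 : Integrable (fun g => ‖Fᗮ.starProjection (E.starProjection g)‖ ^ 2) (stdGaussian V) :=
    integrable_norm_sq_comp (Fᗮ.starProjection.comp E.starProjection)
  have h2 : ∫ g, ‖Fᗮ.starProjection (E.starProjection g)‖ ^ 2 ∂(stdGaussian V) ≤
      Module.finrank ℝ Fᗮ := by
    simp_rw [h1]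
    rw [integral_finsetSum _ (fun i _ => integrable_inner_sq _)]
    simp_rw [integral_inner_sq]
    calc ∑ i, ‖E.starProjection ((stdOrthonormalBasis ℝ Fᗮ i : Fᗮ) : V)‖ ^ 2
        ≤ ∑ _i : Fin (Module.finrank ℝ Fᗮ), (1 : ℝ) := by
          refine Finset.sum_le_sum (fun i _ => ?_)
          have h3 : ‖((stdOrthonormalBasis ℝ Fᗮ i : Fᗮ) : V)‖ = 1 := by
            rw [← Submodule.coe_norm]
            exact (stdOrthonormalBasis ℝ Fᗮ).orthonormal.1 i
          have h4 := Submodule.norm_sq_eq_add_norm_sq_starProjection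
            (((stdOrthonormalBasis ℝ Fᗮ i : Fᗮ) : V)) E
          rw [h3] at h4
          nlinarith [sq_nonneg ‖Eᗮ.starProjection ((stdOrthonormalBasis ℝ Fᗮ i : Fᗮ) : V)‖]
      _ = Module.finrank ℝ Fᗮ := by simp
  have h5 : (Module.finrank ℝ F : ℝ) + Module.finrank ℝ Fᗮ = Module.finrank ℝ V := by
    exact_mod_cast Submodule.finrank_add_finrank_orthogonal F
  simp_rw [h0]
  rw [integral_sub i1 i2, integral_norm_sq_proj]
  linarith

end Pool.Agent.HP89
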