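import Pool.Agent.HP89.A12
import Pool.Agent.HP89.G10

/-! Module HP-F1: chains of zonoids. One sequence `D n` of compact convex sets with `Π_j (D n) = s_n • D (n+1)`,
periodic, not trivial: all `D n` have constant support function on the sphere. -/

namespace Pool.Agent.HP89
open MeasureTheory ProbabilityTheory Set Filter Topology Metric
open Pool.Agent.Helper82.Proj1
open scoped RealInnerProductSpace ENNReal Pointwise

variable {V : Type*} [NormedAddCommGroup V] [InnerProductSpace ℝ V] [FiniteDimensional ℝ V]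
  [MeasurableSpace V] [BorelSpace V]

theorem iter_append (μ : Measure V) (l : ℕ) (F : List V → ℝ≥0∞) (Y W : List V) :
    iter μ l F (Y ++ W) = iter μ l (fun Z => F (Z ++ W)) Y := by
  induction l generalizing Y with
  | zero => rfl
  | succ l ih =>
    simp only [iter]
    congr 1
    ext x
    exact ih (x :: Y)

theorem ew_append_singleton_le (Z : List V) (u : V) : ew (Z ++ [u]) ≤ ENNReal.ofReal ‖u‖ * ew Z := by
  have h1 : wn (Z ++ [u]) = wn (u :: Z) := wn_perm (by simp [List.perm_append_singleton])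
  unfold ew
  rw [h1, wn_cons, ← ENNReal.ofReal_mul (norm_nonneg _)]
  apply ENNReal.ofReal_le_ofReal
  rw [mul_comm]
  exact mul_le_mul_of_nonneg_right (norm_res_le _ _) (wn_nonneg _)

theorem iter_ew_singleton_le (μ : Measure V) (l : ℕ) (u : V) :
    iter μ l ew [u] ≤ ENNReal.ofReal ‖u‖ * iter μ l ew [] := by
  have h := iter_append μ l ew [] [u]
  rw [List.nil_append] at h
  rw [h, ← iter_const_mul μ l ew ENNReal.ofReal_ne_top []]
  exact iter_mono μ l (fun Z => ew_append_singleton_le Z u) []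

/-- a sequence of zonoids. -/
theorem chain_const {j m : ℕ} (hj : 1 ≤ j) (hd : j ^ 4 + 2 ≤ Module.finrank ℝ V) (hm : 1 ≤ m)
    (D : ℕ → Set V) (hD : ∀ n, CC (D n)) (hper : ∀ n, D (n + m) = D n)
    (s : ℕ → ℝ) (hs : ∀ n, 0 < s n) (hpb : ∀ n, IsPB j (D n) (s n • D (n + 1)))
    (hne : ∀ n, ∃ u, ‖u‖ = 1 ∧ supp (D n) u ≠ 0) (n : ℕ) {u v : V} (hu : ‖u‖ = 1) (hv : ‖v‖ = 1) :
    supp (D n) u = supp (D n) v := by
  have hjd : j < Module.finrank ℝ V := by
    have h2 := two_mul_lt hj hd
    omega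
  -- all `D n` are zonoids
  have hzon1 : ∀ n, Zon (supp (D (n + 1))) := by
    intro n
    have h1 := (geoI hjd (hD n) (hpb n)).smul (inv_nonneg.2 (hs n).le)
    refine h1.congr ?_
    intro u hu
    rw [supp_smul_left (hD (n + 1)) (hs n).le]
    have := (hs n).ne'
    field_simp
  have hzon : ∀ n, Zon (supp (D n)) := by
    intro n
    rw [← hper n]
    obtain ⟨k, rfl⟩ : ∃ k, m = k + 1 := ⟨m - 1, by omega⟩
    have := hzon1 (n + k)
    rwa [show n + k + 1 = n + (k + 1) by ring] at this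
  choose μ hfin hint hμ using hzon
  -- formula for the next body
  have hnext : ∀ n, ∀ (μ' : Measure V), IsFiniteMeasure μ' → Integrable (fun x => ‖x‖) μ' →
      (∀ u, ‖u‖ = 1 → supp (D n) u = ∫ x, |⟪x, u⟫| ∂μ') → ∀ u, ‖u‖ = 1 →
      supp (D (n + 1)) u = (s n)⁻¹ * (2 ^ j / (j.factorial : ℝ)) * (iter μ' j ew [u]).toReal := by
    intro n μ' h1 h2 h3 u hu
    have h4 := geoII hjd (hD n) (hpb n) h2 h3 hu
    rw [supp_smul_left (hD (n + 1)) (hs n).le] at h4
    have := (hs n).ne'
    field_simp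
    field_simp at h4
    linarith
  have hK : (0 : ℝ) < 2 ^ j / (j.factorial : ℝ) := by positivity
  set K : ℝ := 2 ^ j / (j.factorial : ℝ) with hKdef
  have hw : ∀ n, iter (μ n) j ew [] ≠ 0 := by
    intro n h0
    obtain ⟨u, hu, hne⟩ := hne (n + 1)
    apply hne
    rw [hnext n (μ n) (hfin n) (hint n) (hμ n) u hu]
    have h1 := iter_ew_singleton_le (μ n) j u
    rw [h0, mul_zero] at h1
    rw [le_antisymm h1 (zero_le)]
    simp
  have hwtop : ∀ n, iter (μ n) j ew [] ≠ ⊤ := fun n => (iter_ew_lt_top (μ n) (hint n) j []).ne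
  have hwpos : ∀ n, 0 < (iter (μ n) j ew []).toReal := fun n => ENNReal.toReal_pos (hw n) (hwtop n)
  set ν : ℕ → Measure V := fun n => nu j (μ n) with hν
  have hgood : ∀ n, Good j (ν n) := fun n => good_nu (hint n) (hw n)
  set lam : ℕ → ℝ := fun n => (iter (μ n) j ew []).toReal⁻¹ * K⁻¹ * s n with hlam
  have hlampos : ∀ n, 0 < lam n := fun n => by
    have h1 := hwpos n
    have h2 := hs n
    simp only [hlam]
    positivity
  -- `hh (ν n) = lam n * supp (D (n+1))` on the sphere
  have hhν : ∀ n u, ‖u‖ = 1 → hh (ν n) u = lam n * supp (D (n + 1)) u := by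
    intro n u hu
    rw [hnext n (μ n) (hfin n) (hint n) (hμ n) u hu]
    have h1 := hh_nu (hint n) (hw n) u
    simp only [hν, hlam]
    rw [h1]
    have h2 := hs n
    have h3 := hwpos n
    field_simp
  have hext : ∀ (f g : V → ℝ) (c : ℝ), (∀ a : ℝ, 0 ≤ a → ∀ x, f (a • x) = a * f x) →
      (∀ a : ℝ, 0 ≤ a → ∀ x, g (a • x) = a * g x) → (∀ u, ‖u‖ = 1 → f u = c * g u) → ∀ x, f x = c * g x := by
    intro f g c hf hg h x
    by_cases hx : x = 0
    · have h1 := hf 0 le_rfl (0 : V)
      have h2 := hg 0 le_rfl (0 : V)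
      simp only [zero_smul, zero_mul] at h1 h2
      rw [hx, h1, h2, mul_zero]
    · have hn : ‖x‖ ≠ 0 := norm_ne_zero_iff.2 hx
      have h1 : x = ‖x‖ • (‖x‖⁻¹ • x) := by rw [smul_smul, mul_inv_cancel₀ hn, one_smul]
      rw [h1, hf _ (norm_nonneg x), hg _ (norm_nonneg x), h _ (by rw [norm_smul, norm_inv, norm_norm, inv_mul_cancel₀ hn])]
      ring
  have hhom : ∀ n, ∀ a : ℝ, 0 ≤ a → ∀ x, hh (ν n) (a • x) = a * hh (ν n) x := fun n => (Hom1_hh (hgood n).int).hom
  -- the steps
  have hMM : 0 < MM (Module.finrank ℝ V) j := MM_pos hjd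
  have hstep : ∀ n, ∃ c, 0 < c ∧ ∀ x, hh (ν (n + 1)) x = c * BB (ν n) j x := by
    intro n
    have hfi := (hgood n).fin
    set κ : ℝ := (lam n)⁻¹ * √(Real.pi / 2) with hκ
    have hpi : 0 < √(Real.pi / 2) := Real.sqrt_pos.2 (by positivity)
    have hκ0 : 0 < κ := by
      have := hlampos n
      positivity
    have hgen : ∀ u, ‖u‖ = 1 → supp (D (n + 1)) u = ∫ x, |⟪x, u⟫| ∂((ENNReal.ofReal κ) • ν n) := by
      intro u hu
      rw [integral_smul_measure, ENNReal.toReal_ofReal hκ0.le, smul_eq_mul]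
      have h1 := hhν n u hu
      have h2 := (hlampos n).ne'
      unfold hh at h1
      rw [hκ, mul_assoc, h1]
      field_simp
    have hfin' : IsFiniteMeasure ((ENNReal.ofReal κ) • ν n) := Measure.smul_finite _ ENNReal.ofReal_ne_top
    have hint' : Integrable (fun x => ‖x‖) ((ENNReal.ofReal κ) • ν n) :=
      (hgood n).int.smul_measure ENNReal.ofReal_ne_top
    refine ⟨lam (n + 1) * (s (n + 1))⁻¹ * K * κ ^ j * MM (Module.finrank ℝ V) j, ?_, ?_⟩
    · have h1 := hlampos (n + 1)
      have h2 := hs (n + 1)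
      positivity
    · apply hext _ _ _ (hhom (n + 1)) (fun a ha x => BB_hom (ν n) j ha x)
      intro u hu
      rw [hhν (n + 1) u hu, hnext (n + 1) _ hfin' hint' hgen u hu,
        iter_smul_measure _ _ _ _ ENNReal.ofReal_ne_top, ENNReal.toReal_mul, ENNReal.toReal_pow,
        ENNReal.toReal_ofReal hκ0.le]
      unfold BB
      field_simp
  choose c hc hstep' using hstep
  -- periodicity
  have hmean : 0 < mG (Module.finrank ℝ V - j) := mG_pos (by omega)
  have hperν : ∀ n x, hh (ν (n + m)) x = hh (ν n) x := by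
    intro n
    have h1 : ∀ x, hh (ν (n + m)) x = (lam (n + m) / lam n) * hh (ν n) x := by
      apply hext _ _ _ (hhom (n + m)) (hhom n)
      intro u hu
      rw [hhν _ u hu, hhν _ u hu, show n + m + 1 = (n + 1) + m by ring, hper]
      have := (hlampos n).ne'
      field_simp
    have h2 : ∫ g, hh (ν (n + m)) g ∂(stdGaussian V) = (lam (n + m) / lam n) * ∫ g, hh (ν n) g ∂(stdGaussian V) := by
      rw [← integral_const_mul]
      exact integral_congr_ae (ae_of_all _ h1)
    rw [(hgood (n + m)).integral_hh, (hgood n).integral_hh] at h2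
    have h3 : lam (n + m) / lam n = 1 := by
      have h4 : (lam (n + m) / lam n - 1) * mG (Module.finrank ℝ V - j) = 0 := by linarith
      rcases mul_eq_zero.1 h4 with h5 | h5
      · linarith
      · exact absurd h5 hmean.ne'
    intro x
    rw [h1 x, h3, one_mul]
  have hfinal := dynamic hj hd ν hgood c hc hstep' m hm hperν
  -- go back to `D n = D (n + m)`
  obtain ⟨k, rfl⟩ : ∃ k, m = k + 1 := ⟨m - 1, by omega⟩
  have h1 := hfinal (n + k) u v hu hv
  rw [hhν _ u hu, hhν _ v hv] at h1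
  have h2 := mul_left_cancel₀ (hlampos (n + k)).ne' h1
  rwa [show n + k + 1 = n + (k + 1) by ring, hper] at h2

end Pool.Agent.HP89
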