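import Pool.Agent.HP89.A3b

/-! Module HP-A4: the numbers `m_n = mG n` and the independence of `‖g‖` and `g/‖g‖`.

Let `I k = ∫_{0}^∞ r^k exp(-r²/2) dr`. Integration by parts (or `integral_rpow_mul_exp_neg_mul_sq`/Gamma function):
`I (k+2) = (k+1) I k`. `stdGaussian V` has density `(2π)^{-d/2} exp(-‖x‖²/2)` with respect to `volume`
(e.g. from `stdGaussian_eq_map_pi_orthonormalBasis`/`map_pi_eq_stdGaussian`, `gaussianReal` density, or by uniqueness of the characteristic
function: `charFun` of `exp(-‖x‖²/2) dx`, `integral_cexp_neg_mul_sq_norm_add`), and polar coordinates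
(`Measure.toSphere`, `measurePreserving_homeomorphUnitSphereProd`) give for a nonnegative measurable
1-homogeneous `G` : `E G(g) = c · (∫_S G dσ) · I d`, `E [G(g)/‖g‖] = c · (∫_S G dσ) · I (d-1)`,
`1 = c σ(S) I (d-1)`. With `G = ‖·‖`: `m_d = I d / I (d-1)`. So
`m_n m_{n+1} = I (n+1)/I (n-1) = n` (`n ≥ 1`; for `n = 0` both sides vanish), and `radial`. `m_n² ≤ n`: `m_n² ≤ E ‖g‖²` (Cauchy-Schwarz /
variance `≥ 0`, `integral_norm_sq_proj ⊤`). Monotonicity: project `ℝ^{n+1}` to a hyperplane (`integral_norm_proj`). -/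

namespace Pool.Agent.HP89
open MeasureTheory ProbabilityTheory Set Filter Topology Metric
open scoped RealInnerProductSpace ENNReal

/-- radial moments. -/
noncomputable def Irad (k : ℕ) : ℝ := ∫ y in Ioi (0 : ℝ), y ^ k * Real.exp (-(1 / 2) * y ^ 2)

theorem Irad_eq (k : ℕ) :
    Irad k = (1 / 2 : ℝ) ^ (-((k : ℝ) + 1) / 2) * (1 / 2) * Real.Gamma (((k : ℝ) + 1) / 2) := by
  have h := integral_rpow_mul_exp_neg_mul_rpow (p := 2) (q := (k : ℝ)) (b := 1 / 2) (by norm_num)
    (by have : (0 : ℝ) ≤ k := k.cast_nonneg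
        linarith) (by norm_num)
  rw [← h]
  unfold Irad
  refine setIntegral_congr_fun measurableSet_Ioi (fun x hx => ?_)
  simp only [Real.rpow_natCast]
  norm_num

theorem Irad_pos (k : ℕ) : 0 < Irad k := by
  rw [Irad_eq]
  have : (0 : ℝ) ≤ k := k.cast_nonneg
  have h2 : 0 < Real.Gamma (((k : ℝ) + 1) / 2) := Real.Gamma_pos_of_pos (by linarith)
  positivity

theorem Irad_succ (k : ℕ) : Irad (k + 2) = (k + 1) * Irad k := by
  rw [Irad_eq, Irad_eq]
  have h0 : (0 : ℝ) ≤ k := k.cast_nonneg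
  have e1 : (((k + 2 : ℕ) : ℝ) + 1) / 2 = ((k : ℝ) + 1) / 2 + 1 := by push_cast; ring
  have e2 : -(((k + 2 : ℕ) : ℝ) + 1) / 2 = -((k : ℝ) + 1) / 2 + (-1) := by push_cast; ring
  rw [e1, e2, Real.Gamma_add_one (by positivity), Real.rpow_add (by norm_num), Real.rpow_neg_one]
  ring

section dens
variable {V : Type*} [NormedAddCommGroup V] [InnerProductSpace ℝ V] [FiniteDimensional ℝ V]
  [MeasurableSpace V] [BorelSpace V]

/-- the constant of the Gaussian density. -/
noncomputable def cG (V : Type*) [NormedAddCommGroup V] [InnerProductSpace ℝ V] : ℝ :=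
  ((2 * Real.pi) ^ ((Module.finrank ℝ V : ℝ) / 2))⁻¹

theorem cG_pos : 0 < cG V := by
  unfold cG; positivity

theorem integrable_rho : Integrable (fun x : V => cG V * Real.exp (-(1 / 2) * ‖x‖ ^ 2)) := by
  refine Integrable.const_mul ?_ _
  by_contra hcon
  have h := GaussianFourier.integral_rexp_neg_mul_sq_norm (V := V) (b := 1 / 2) (by norm_num)
  rw [integral_undef hcon] at h
  have : (0 : ℝ) < (Real.pi / (1 / 2)) ^ ((Module.finrank ℝ V : ℝ) / 2) := by positivity
  linarith

theorem stdGaussian_density :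
    stdGaussian V = (volume : Measure V).withDensity
      (fun x => ENNReal.ofReal (cG V * Real.exp (-(1 / 2) * ‖x‖ ^ 2))) := by
  haveI : IsFiniteMeasure ((volume : Measure V).withDensity
      (fun x => ENNReal.ofReal (cG V * Real.exp (-(1 / 2) * ‖x‖ ^ 2)))) :=
    isFiniteMeasure_withDensity_ofReal integrable_rho.2
  apply Measure.ext_of_charFun
  ext t
  rw [charFun_stdGaussian, charFun_apply,
    integral_withDensity_eq_integral_toReal_smul (by fun_prop) (by simp)]
  have hpos : ∀ x : V, 0 ≤ cG V * Real.exp (-(1 / 2) * ‖x‖ ^ 2) := fun x => by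
    have := cG_pos (V := V); positivity
  simp_rw [ENNReal.toReal_ofReal (hpos _)]
  have h := GaussianFourier.integral_cexp_neg_mul_sq_norm_add (V := V) (b := 1 / 2) (by norm_num)
    Complex.I t
  have e : ∀ x : V, (cG V * Real.exp (-(1 / 2) * ‖x‖ ^ 2)) • Complex.exp (⟪x, t⟫ * Complex.I) =
      (cG V : ℂ) * Complex.exp (-(1 / 2 : ℂ) * ‖x‖ ^ 2 + Complex.I * ⟪t, x⟫) := by
    intro x
    rw [Complex.exp_add, real_inner_comm x t, Complex.real_smul]
    push_cast
    ring_nf
  simp_rw [e]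
  rw [integral_const_mul, h, cG]
  have h3 : ((Real.pi : ℂ) / (1 / 2)) ^ ((Module.finrank ℝ V : ℂ) / 2) =
      (((2 * Real.pi) ^ ((Module.finrank ℝ V : ℝ) / 2) : ℝ) : ℂ) := by
    rw [Complex.ofReal_cpow (by positivity)]
    push_cast
    congr 1
    ring
  rw [h3, ← mul_assoc, ← Complex.ofReal_mul, inv_mul_cancel₀ (by positivity)]
  simp only [Complex.ofReal_one, one_mul]
  congr 1
  rw [Complex.I_sq]
  ring

theorem integral_gaussian (f : V → ℝ) :
    ∫ g, f g ∂(stdGaussian V) = cG V * ∫ x, Real.exp (-(1 / 2) * ‖x‖ ^ 2) * f x := by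
  rw [stdGaussian_density,
    integral_withDensity_eq_integral_toReal_smul (by fun_prop) (by simp)]
  have hpos : ∀ x : V, 0 ≤ cG V * Real.exp (-(1 / 2) * ‖x‖ ^ 2) := fun x => by
    have := cG_pos (V := V); positivity
  simp_rw [ENNReal.toReal_ofReal (hpos _), smul_eq_mul, mul_assoc]
  rw [integral_const_mul]

/-- polar coordinates for a homogeneous function. -/
theorem polar_hom [Nontrivial V] {G : V → ℝ} (hG : ∀ c : ℝ, 0 ≤ c → ∀ x, G (c • x) = c * G x)
    (φ : ℝ → ℝ) :
    ∫ x : V, φ ‖x‖ * G x =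
      (∫ θ, G θ.1 ∂((volume : Measure V).toSphere)) *
        ∫ y in Ioi (0 : ℝ), y ^ (Module.finrank ℝ V - 1) * (φ y * y) := by
  have h1 : ∫ x : V, φ ‖x‖ * G x =
      ∫ x : ({(0 : V)}ᶜ : Set V), φ ‖x.1‖ * G x.1 ∂((volume : Measure V).comap (↑)) := by
    rw [integral_subtype_comap (measurableSet_singleton _).compl fun x => φ ‖x‖ * G x,
      restrict_compl_singleton]
  have h2 : ∫ x : ({(0 : V)}ᶜ : Set V), φ ‖x.1‖ * G x.1 ∂((volume : Measure V).comap (↑)) =
      ∫ p, G p.1.1 * (φ p.2.1 * p.2.1)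
        ∂((volume : Measure V).toSphere.prod (.volumeIoiPow (Module.finrank ℝ V - 1))) := by
    rw [← (volume : Measure V).measurePreserving_homeomorphUnitSphereProd.integral_comp
      (Homeomorph.measurableEmbedding _)]
    refine integral_congr_ae (Eventually.of_forall fun x => ?_)
    have hx : 0 < ‖x.1‖ := norm_pos_iff.2 x.2
    simp only [homeomorphUnitSphereProd_apply_snd_coe, homeomorphUnitSphereProd_apply_fst_coe]
    rw [hG _ (inv_nonneg.2 hx.le)]
    field_simp
  have h3 : ∫ p, G p.1.1 * (φ p.2.1 * p.2.1)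
        ∂((volume : Measure V).toSphere.prod (.volumeIoiPow (Module.finrank ℝ V - 1))) =
      (∫ θ, G θ.1 ∂((volume : Measure V).toSphere)) *
        ∫ r : Ioi (0 : ℝ), (φ r.1 * r.1) ∂(Measure.volumeIoiPow (Module.finrank ℝ V - 1)) :=
    integral_prod_mul (fun θ : sphere (0 : V) 1 => G θ.1) (fun r : Ioi (0 : ℝ) => φ r.1 * r.1)
  rw [h1, h2, h3]
  congr 1
  simp only [Measure.volumeIoiPow, ENNReal.ofReal]
  rw [integral_withDensity_eq_integral_smul,
    integral_subtype_comap measurableSet_Ioi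
      fun a => Real.toNNReal (a ^ (Module.finrank ℝ V - 1)) • (φ a * a),
    setIntegral_congr_fun measurableSet_Ioi fun x hx => ?_]
  · rw [NNReal.smul_def, Real.coe_toNNReal _ (pow_nonneg hx.out.le _), smul_eq_mul]
  · exact (measurable_subtype_coe.pow_const _).real_toNNReal

theorem gauss_hom [Nontrivial V] {G : V → ℝ} (hG : ∀ c : ℝ, 0 ≤ c → ∀ x, G (c • x) = c * G x) :
    ∫ g, G g ∂(stdGaussian V) =
      cG V * (∫ θ, G θ.1 ∂((volume : Measure V).toSphere)) * Irad (Module.finrank ℝ V) := by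
  rw [integral_gaussian, polar_hom hG (fun r => Real.exp (-(1 / 2) * r ^ 2)), ← mul_assoc]
  congr 1
  unfold Irad
  refine setIntegral_congr_fun measurableSet_Ioi (fun x hx => ?_)
  have : Module.finrank ℝ V = (Module.finrank ℝ V - 1) + 1 :=
    (Nat.sub_add_cancel Module.finrank_pos).symm
  conv_rhs => rw [this, pow_succ]
  ring

theorem gauss_hom_div [Nontrivial V] {G : V → ℝ}
    (hG : ∀ c : ℝ, 0 ≤ c → ∀ x, G (c • x) = c * G x) :
    ∫ g, G g / ‖g‖ ∂(stdGaussian V) =
      cG V * (∫ θ, G θ.1 ∂((volume : Measure V).toSphere)) * Irad (Module.finrank ℝ V - 1) := by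
  have e : ∀ x : V, Real.exp (-(1 / 2) * ‖x‖ ^ 2) * (G x / ‖x‖) =
      (fun r : ℝ => Real.exp (-(1 / 2) * r ^ 2) / r) ‖x‖ * G x := fun x => by
    simp only; ring
  rw [integral_gaussian, integral_congr_ae (Eventually.of_forall e),
    polar_hom hG (fun r : ℝ => Real.exp (-(1 / 2) * r ^ 2) / r), ← mul_assoc]
  congr 1
  unfold Irad
  refine setIntegral_congr_fun measurableSet_Ioi (fun x hx => ?_)
  have hx' : x ≠ 0 := ne_of_gt hx
  field_simp

/-- `m_d I_{d-1} = I_d`. -/
theorem norm_gauss_mul [Nontrivial V] :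
    (∫ g : V, ‖g‖ ∂(stdGaussian V)) * Irad (Module.finrank ℝ V - 1) = Irad (Module.finrank ℝ V) := by
  have hn : ∀ c : ℝ, 0 ≤ c → ∀ x : V, ‖c • x‖ = c * ‖x‖ := fun c hc x => by
    rw [norm_smul, Real.norm_eq_abs, abs_of_nonneg hc]
  have h1 := gauss_hom (V := V) hn
  have h2 := gauss_hom_div (V := V) hn
  have h3 : ∫ g : V, ‖g‖ / ‖g‖ ∂(stdGaussian V) = 1 := by
    have hne : ∀ᵐ g : V ∂(stdGaussian V), ‖g‖ / ‖g‖ = 1 := by
      have h0 : (stdGaussian V) {(0 : V)} = 0 := by
        rw [stdGaussian_density, withDensity_apply _ (measurableSet_singleton _)]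
        simp
      have : ∀ᵐ g : V ∂(stdGaussian V), g ≠ 0 := by
        rw [ae_iff]
        simpa using h0
      filter_upwards [this] with g hg
      exact div_self (norm_ne_zero_iff.2 hg)
    rw [integral_congr_ae hne]
    simp
  rw [h3] at h2
  rw [h1]
  calc _ = (cG V * (∫ θ, ‖(θ.1 : V)‖ ∂((volume : Measure V).toSphere)) *
        Irad (Module.finrank ℝ V - 1)) * Irad (Module.finrank ℝ V) := by ring
    _ = _ := by rw [← h2, one_mul]

end dens

theorem mG_mul_Irad (n : ℕ) : mG (n + 1) * Irad n = Irad (n + 1) := by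
  have h := norm_gauss_mul (V := EuclideanSpace ℝ (Fin (n + 1)))
  simpa [mG, finrank_euclideanSpace] using h

theorem mG_zero : mG 0 = 0 := by
  have : ∀ x : EuclideanSpace ℝ (Fin 0), ‖x‖ = 0 := fun x => by
    rw [Subsingleton.elim x 0, norm_zero]
  simp [mG, this]

theorem mG_nonneg (n : ℕ) : 0 ≤ mG n := integral_nonneg fun _ => norm_nonneg _

theorem mG_pos {n : ℕ} (hn : 1 ≤ n) : 0 < mG n := by
  obtain ⟨k, rfl⟩ : ∃ k, n = k + 1 := ⟨n - 1, by omega⟩
  have h := mG_mul_Irad k
  have h1 := Irad_pos k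
  have h2 := Irad_pos (k + 1)
  by_contra hcon
  push Not at hcon
  nlinarith

theorem mG_mul (n : ℕ) : mG (n + 1) * mG n = n := by
  rcases n with _ | k
  · simp [mG_zero]
  · have h1 := mG_mul_Irad k
    have h2 := mG_mul_Irad (k + 1)
    have h3 := Irad_succ k
    have h4 := Irad_pos k
    have h5 : mG (k + 1 + 1) * mG (k + 1) * Irad k = ((k + 1 : ℕ) : ℝ) * Irad k := by
      rw [mul_assoc, h1, h2, h3]
      push_cast
      ring
    exact mul_right_cancel₀ h4.ne' h5

theorem mG_le_succ (n : ℕ) : mG n ≤ mG (n + 1) := by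
  set W := EuclideanSpace ℝ (Fin (n + 1))
  haveI : Fact (Module.finrank ℝ W = n + 1) := ⟨finrank_euclideanSpace_fin⟩
  obtain ⟨e, he⟩ := exists_ne (0 : W)
  have hf : Module.finrank ℝ (ℝ ∙ e)ᗮ = n := Submodule.finrank_orthogonal_span_singleton he
  have h := integral_norm_proj (V := W) ((ℝ ∙ e)ᗮ)
  rw [hf] at h
  rw [← h]
  refine integral_mono_of_nonneg (Eventually.of_forall fun _ => norm_nonneg _)
    integrable_norm_gaussian (Eventually.of_forall fun g => ?_)
  exact Submodule.norm_starProjection_apply_le _ g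

theorem mG_mono {m n : ℕ} (h : m ≤ n) : mG m ≤ mG n :=
  monotone_nat_of_le_succ mG_le_succ h

theorem mG_sq_le (n : ℕ) : mG n ^ 2 ≤ n := by
  have h1 := mG_mul n
  have h2 := mG_le_succ n
  have h3 := mG_nonneg n
  nlinarith

variable {V : Type*} [NormedAddCommGroup V] [InnerProductSpace ℝ V] [FiniteDimensional ℝ V]
  [MeasurableSpace V] [BorelSpace V]

theorem radial {G : V → ℝ} (hG : Hom1 G) (hd : 1 ≤ Module.finrank ℝ V) :
    ∫ g, G g ∂(stdGaussian V) = mG (Module.finrank ℝ V) * ∫ g, G g / ‖g‖ ∂(stdGaussian V) := by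
  haveI : Nontrivial V := Module.nontrivial_of_finrank_pos (R := ℝ) (by omega)
  obtain ⟨k, hk⟩ : ∃ k, Module.finrank ℝ V = k + 1 := ⟨Module.finrank ℝ V - 1, by omega⟩
  rw [gauss_hom hG.hom, gauss_hom_div hG.hom, hk, ← mG_mul_Irad k]
  simp only [Nat.add_sub_cancel]
  ring

/-- the same in a subspace (`map_starProjection`, apply `radial` in `F`). -/
theorem radial_sub {G : V → ℝ} (hG : Hom1 G) (F : Submodule ℝ V) (hF : 1 ≤ Module.finrank ℝ F) :
    ∫ g, G (F.starProjection g) ∂(stdGaussian V) =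
      mG (Module.finrank ℝ F) * ∫ g, G (F.starProjection g) / ‖F.starProjection g‖ ∂(stdGaussian V) := by
  have hc : Continuous (fun g : V => F.starProjection g) := F.starProjection.continuous
  have key : ∀ f : V → ℝ, Measurable f →
      ∫ g, f (F.starProjection g) ∂(stdGaussian V) = ∫ x : F, f (x : V) ∂(stdGaussian F) := by
    intro f hf
    rw [← integral_map (φ := fun g : V => F.starProjection g) hc.aemeasurable
      hf.aestronglyMeasurable, map_starProjection,
      integral_map (by fun_prop) hf.aestronglyMeasurable]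
  have hm : Measurable G := hG.cont.measurable
  rw [key G hm, key (fun x => G x / ‖x‖) (hm.div measurable_norm)]
  have hG' : Hom1 (fun x : F => G (x : V)) :=
    ⟨hG.cont.comp continuous_subtype_val, fun x => hG.nn _, fun c hc x => by
      simpa using hG.hom c hc (x : V)⟩
  simpa using radial hG' hF

end Pool.Agent.HP89
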