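import Pool.Agent.HP89.G2a
import Pool.Agent.HP89.A1c

/-! Module HP-G2b: `cfl` of long lists and of balls.

Induction on the length of the list, for all spaces of the universe simultaneously, with `cfl_snoc` (see G2a). Every list is `[]` or
`Y ++ [y]`. `y = 0`: `cfl (Y ++ [0]) M = cfl (0 :: Y) M = 0` (`cfl_perm`, `cfl_zero_cons`) and `wn = 0` (`wn_zero_mem`).
`y ≠ 0`: `finrank (ℝ∙y)ᗮ = d - 1`, `shadow (closedBall 0 t) = closedBall 0 t`,
`wn (Y ++ [y]) = ‖y‖ wn (Y.map P)` (`wn_append_singleton'`). Base case: `vol (closedBall 0 t) = t^d κ_d` (`addHaar_closedBall`, `κ_d` = volume of the unit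
ball of `EuclideanSpace ℝ (Fin d)`; an isometry `V ≃ₗᵢ EuclideanSpace ℝ (Fin d)` preserves volume). -/

universe v

namespace Pool.Agent.HP89
open MeasureTheory ProbabilityTheory Set Filter Topology Metric
open Pool.Agent.Helper82.Proj1
open scoped RealInnerProductSpace ENNReal Pointwise

variable {V : Type v} [NormedAddCommGroup V] [InnerProductSpace ℝ V] [FiniteDimensional ℝ V]
  [MeasurableSpace V] [BorelSpace V]

theorem kappa_pos (n : ℕ) : 0 < kappa n :=
  ENNReal.toReal_pos (measure_ball_pos volume _ one_pos).ne' measure_ball_lt_top.ne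

private theorem volume_ball_eq :
    volume (ball (0 : V) 1) = volume (ball (0 : EuclideanSpace ℝ (Fin (Module.finrank ℝ V))) 1) := by
  have h := (stdOrthonormalBasis ℝ V).measurePreserving_repr.measure_preimage
    (measurableSet_ball (x := (0 : EuclideanSpace ℝ (Fin (Module.finrank ℝ V)))) (ε := 1)).nullMeasurableSet
  rw [← h]
  congr 1
  ext x
  simp

theorem volume_closedBall_eq {t : ℝ} (ht : 0 ≤ t) :
    (volume (closedBall (0 : V) t)).toReal = kappa (Module.finrank ℝ V) * t ^ Module.finrank ℝ V := by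
  rw [Measure.addHaar_closedBall _ _ ht, volume_ball_eq, ENNReal.toReal_mul, ENNReal.toReal_ofReal (pow_nonneg ht _),
    kappa, mul_comm]

omit [MeasurableSpace V] [BorelSpace V] in
private theorem finrank_orth {y : V} (hy : y ≠ 0) :
    Module.finrank ℝ (ℝ ∙ y)ᗮ + 1 = Module.finrank ℝ V := by
  have h := Submodule.finrank_add_finrank_orthogonal (ℝ ∙ y)
  rw [finrank_span_singleton hy] at h
  omega

private theorem cfl_snoc_zero (Y : List V) (M : Set V) : cfl (Y ++ [(0 : V)]) M = 0 := by
  rw [cfl_perm (List.perm_append_singleton (0 : V) Y) M, cfl_zero_cons]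

private theorem cfl_nonneg_aux (n : ℕ) : ∀ (V : Type v) [NormedAddCommGroup V] [InnerProductSpace ℝ V]
    [FiniteDimensional ℝ V] [MeasurableSpace V] [BorelSpace V] (Y : List V), Y.length = n →
    ∀ {M : Set V}, CC M → 0 ≤ cfl Y M := by
  induction n with
  | zero =>
    intro V _ _ _ _ _ Y hY M hM
    rw [List.length_eq_zero_iff.1 hY]
    exact ENNReal.toReal_nonneg
  | succ n ih =>
    intro V _ _ _ _ _ Y hY M hM
    rcases List.eq_nil_or_concat' Y with h | ⟨Y', y, rfl⟩
    · simp [h] at hY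
    by_cases hy : y = 0
    · rw [hy, cfl_snoc_zero]
    rw [cfl_snoc Y' hM hy]
    refine mul_nonneg (by positivity) (ih _ _ ?_ (hM.shadow _))
    simpa using hY

theorem cfl_nonneg (Y : List V) {M : Set V} (hM : CC M) : 0 ≤ cfl Y M :=
  cfl_nonneg_aux _ V Y rfl hM

private theorem cfl_zero_aux (n : ℕ) : ∀ (V : Type v) [NormedAddCommGroup V] [InnerProductSpace ℝ V]
    [FiniteDimensional ℝ V] [MeasurableSpace V] [BorelSpace V] (Y : List V), Y.length = n →
    Module.finrank ℝ V < n → ∀ {M : Set V}, CC M → cfl Y M = 0 := by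
  induction n with
  | zero =>
    intro V _ _ _ _ _ Y hY hlt
    exact absurd hlt (Nat.not_lt_zero _)
  | succ n ih =>
    intro V _ _ _ _ _ Y hY hlt M hM
    rcases List.eq_nil_or_concat' Y with h | ⟨Y', y, rfl⟩
    · simp [h] at hY
    by_cases hy : y = 0
    · rw [hy, cfl_snoc_zero]
    have hf := finrank_orth hy
    rw [cfl_snoc Y' hM hy, ih _ _ ?_ ?_ (hM.shadow _), mul_zero]
    · simpa using hY
    · omega

theorem cfl_zero_of_length {Y : List V} (h : Module.finrank ℝ V < Y.length) {M : Set V} (hM : CC M) :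
    cfl Y M = 0 :=
  cfl_zero_aux _ V Y rfl h hM

private theorem cfl_ball_aux (n : ℕ) : ∀ (V : Type v) [NormedAddCommGroup V] [InnerProductSpace ℝ V]
    [FiniteDimensional ℝ V] [MeasurableSpace V] [BorelSpace V] (Y : List V), Y.length = n →
    n ≤ Module.finrank ℝ V → ∀ {t : ℝ}, 0 ≤ t →
    cfl Y (closedBall (0 : V) t) =
      2 ^ n * kappa (Module.finrank ℝ V - n) * t ^ (Module.finrank ℝ V - n) * wn Y := by
  induction n with
  | zero =>
    intro V _ _ _ _ _ Y hY hle t ht
    rw [List.length_eq_zero_iff.1 hY]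
    change (volume (closedBall (0 : V) t)).toReal = _
    rw [volume_closedBall_eq ht]
    simp [wn]
  | succ n ih =>
    intro V _ _ _ _ _ Y hY hle t ht
    rcases List.eq_nil_or_concat' Y with h | ⟨Y', y, rfl⟩
    · simp [h] at hY
    by_cases hy : y = 0
    · rw [hy, cfl_snoc_zero, wn_zero_mem (by simp), mul_zero]
    have hf := finrank_orth hy
    rw [cfl_snoc Y' (cc_ball ht) hy, shadow_ball ht, ih _ _ (by simpa using hY) (by omega) ht,
      wn_append_singleton' Y' y, show Module.finrank ℝ (ℝ ∙ y)ᗮ - n = Module.finrank ℝ V - (n + 1) by omega]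
    ring

theorem cfl_ball (Y : List V) (h : Y.length ≤ Module.finrank ℝ V) {t : ℝ} (ht : 0 ≤ t) :
    cfl Y (closedBall (0 : V) t) =
      2 ^ Y.length * kappa (Module.finrank ℝ V - Y.length) * t ^ (Module.finrank ℝ V - Y.length) * wn Y :=
  cfl_ball_aux _ V Y rfl h ht

end Pool.Agent.HP89
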