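import Pool.Agent.HP89.G9
import Pool.Agent.HP89.G2b

/-! Module HP-G12: balls.

`shadow (closedBall y r) S = closedBall (P y) r`, `+ closedBall 0 t = closedBall (P y) (r+t)`, volume `κ_{d-1} (r+t)^{d-1}`
(`volume_closedBall_eq` in `S`, `finrank S = d-1`), binomial formula `∑_{i<d} C(d-1,i) r^i t^{d-1-i}`; so `v i = C(d-1,i) κ_{d-1} r^i/κ_{d-1-i}`. -/

namespace Pool.Agent.HP89
open MeasureTheory ProbabilityTheory Set Filter Topology Metric
open Pool.Agent.Helper82.Proj1
open scoped RealInnerProductSpace ENNReal Pointwise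

variable {V : Type*} [NormedAddCommGroup V] [InnerProductSpace ℝ V] [FiniteDimensional ℝ V]
  [MeasurableSpace V] [BorelSpace V]

private theorem kappa_pos' (n : ℕ) : 0 < kappa n := by
  unfold kappa
  exact ENNReal.toReal_pos (measure_ball_pos _ _ one_pos).ne' measure_ball_lt_top.ne

private theorem vol_unit_ball (n : ℕ) (hn : Module.finrank ℝ V = n) :
    (volume (ball (0 : V) 1)).toReal = kappa n := by
  subst hn
  unfold kappa
  congr 1
  have h := (stdOrthonormalBasis ℝ V).measurePreserving_repr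
  rw [← h.measure_preimage (measurableSet_ball.nullMeasurableSet)]
  congr 1
  ext x
  simp

theorem StF_ball (hd : 1 ≤ Module.finrank ℝ V) (y : V) {r : ℝ} (hr : 0 ≤ r) {u : V} (hu : ‖u‖ = 1) :
    StF (closedBall y r) u (fun i => ((Module.finrank ℝ V - 1).choose i : ℝ) * kappa (Module.finrank ℝ V - 1) * r ^ i /
      kappa (Module.finrank ℝ V - 1 - i)) := by
  intro t ht
  have hu0 : u ≠ 0 := by
    intro h
    rw [h, norm_zero] at hu
    exact zero_ne_one hu
  have hfin : Module.finrank ℝ (ℝ ∙ u)ᗮ = Module.finrank ℝ V - 1 := by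
    have h1 := (ℝ ∙ u).finrank_add_finrank_orthogonal
    rw [finrank_span_singleton hu0] at h1
    omega
  have hball : (closedBall y r : Set V) = {y} + closedBall (0 : V) r := by
    rw [singleton_add_closedBall, add_zero]
  have hsh : shadow (closedBall y r) (ℝ ∙ u)ᗮ + closedBall (0 : (ℝ ∙ u)ᗮ) t =
      closedBall ((ℝ ∙ u)ᗮ.orthogonalProjectionOnto y) (r + t) := by
    rw [hball, shadow_add, shadow_ball hr]
    have h1 : shadow ({y} : Set V) (ℝ ∙ u)ᗮ = {(ℝ ∙ u)ᗮ.orthogonalProjectionOnto y} := by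
      simp [shadow]
    rw [h1, singleton_add_closedBall, add_zero, closedBall_add_closedBall hr ht, add_zero]
  rw [hsh, Measure.addHaar_closedBall _ _ (add_nonneg hr ht), ENNReal.toReal_mul,
    vol_unit_ball _ hfin, ENNReal.toReal_ofReal (pow_nonneg (add_nonneg hr ht) _), hfin]
  obtain ⟨n, hn⟩ : ∃ n, Module.finrank ℝ V = n + 1 := ⟨Module.finrank ℝ V - 1, by omega⟩
  rw [hn, Nat.add_sub_cancel, add_pow, Finset.sum_mul]
  refine Finset.sum_congr rfl (fun i _ => ?_)
  have hk := (kappa_pos' (n - i)).ne'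
  field_simp

theorem ball_isPB {j : ℕ} (hj : j < Module.finrank ℝ V) (y : V) {r : ℝ} (hr : 0 < r) :
    ∃ ρ : ℝ, 0 < ρ ∧ IsPB j (closedBall y r) (closedBall (0 : V) ρ) := by
  have hpos : 0 < ((Module.finrank ℝ V - 1).choose j : ℝ) * kappa (Module.finrank ℝ V - 1) * r ^ j /
      kappa (Module.finrank ℝ V - 1 - j) := by
    have h1 : 0 < ((Module.finrank ℝ V - 1).choose j : ℝ) := by
      exact_mod_cast Nat.choose_pos (by omega)
    exact div_pos (mul_pos (mul_pos h1 (kappa_pos' _)) (pow_pos hr _)) (kappa_pos' _)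
  refine ⟨_, hpos, fun u hu => ⟨_, ?_, StF_ball (by omega) y hr.le hu⟩⟩
  rw [supp_ball hpos.le, hu, mul_one]

end Pool.Agent.HP89
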