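import Pool.Agent.HP89.F1
import Pool.Agent.HP89.G12

/-! Module HP-F2: from chains `K = C 0, C 1, ..., C m = c K + x` of projection bodies to balls, and back. -/

namespace Pool.Agent.HP89
open MeasureTheory ProbabilityTheory Set Filter Topology Metric
open Pool.Agent.Helper82.Proj1
open scoped RealInnerProductSpace ENNReal Pointwise

variable {V : Type*} [NormedAddCommGroup V] [InnerProductSpace ℝ V] [FiniteDimensional ℝ V]
  [MeasurableSpace V] [BorelSpace V]

/-- `Π_j (c K + x) = c^j Π_j K`. -/
theorem IsPB.homothety {j : ℕ} {K P : Set V} (hK : CC K) (hP : CC P) (h : IsPB j K P) {c : ℝ} (hc : 0 < c) (x : V) :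
    IsPB j ((fun y => c • y + x) '' K) (c ^ j • P) := by
  intro u hu
  obtain ⟨v, hv, hst⟩ := h u hu
  refine ⟨fun i => c ^ i * v i, ?_, hst.homothety hK hu hc x⟩
  show c ^ j * v j = _
  rw [supp_smul_left hP (by positivity), hv]

/-- a set with interior points is not a single point (dimension at least one). -/
theorem not_singleton_of_interior (hd : 1 ≤ Module.finrank ℝ V) {K : Set V} (h : (interior K).Nonempty) (p : V) :
    K ≠ {p} := by
  intro hK
  rw [hK] at h
  have : Nontrivial V := Module.nontrivial_of_finrank_pos (R := ℝ) (by omega)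
  rw [interior_singleton] at h
  exact Set.not_nonempty_empty h

theorem ball_of_chain {j m : ℕ} (hj : 1 ≤ j) (hd : j ^ 4 + 2 ≤ Module.finrank ℝ V) (hm : 1 ≤ m)
    (C : ℕ → Set V) (hC : ∀ i, CC (C i)) (hint : (interior (C 0)).Nonempty)
    (hpb : ∀ i < m, IsPB j (C i) (C (i + 1))) {c : ℝ} (hc : 0 < c) {x : V}
    (hH : C m = (fun y => c • y + x) '' C 0) : ∃ (y : V) (r : ℝ), 0 < r ∧ C 0 = closedBall y r := by
  have hjd : j < Module.finrank ℝ V := by
    have h2 := two_mul_lt hj hd
    omega
  set D : ℕ → Set V := fun n => C (1 + n % m) with hD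
  have hDC : ∀ n, CC (D n) := fun n => hC _
  have hper : ∀ n, D (n + m) = D n := by
    intro n
    simp only [hD, Nat.add_mod_right]
  -- the relation between consecutive bodies
  have hrel : ∀ n, ∃ s : ℝ, 0 < s ∧ IsPB j (D n) (s • D (n + 1)) := by
    intro n
    have hlt : n % m < m := Nat.mod_lt _ (by omega)
    by_cases h : n % m + 1 = m
    · have h1 : (n + 1) % m = 0 := by
        rw [Nat.add_mod]
        rcases Nat.lt_or_ge 1 m with h2 | h2
        · rw [Nat.mod_eq_of_lt h2, h, Nat.mod_self]
        · have : m = 1 := by omega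
          subst this
          simp [Nat.mod_one]
      refine ⟨c ^ j, by positivity, ?_⟩
      have h3 : D n = (fun y => c • y + x) '' C 0 := by
        rw [← hH]
        simp only [hD]
        congr 1
        omega
      have h4 : D (n + 1) = C 1 := by
        simp only [hD, h1]
      rw [h3, h4]
      exact (hpb 0 (by omega)).homothety (hC 0) (hC 1) hc x
    · refine ⟨1, one_pos, ?_⟩
      have h1 : (n + 1) % m = n % m + 1 := by
        rw [Nat.add_mod, Nat.mod_eq_of_lt (show 1 < m by omega), Nat.mod_eq_of_lt (by omega)]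
      have h2 : D (n + 1) = C (1 + n % m + 1) := by
        simp only [hD, h1]
        rfl
      rw [one_smul, h2]
      exact hpb (1 + n % m) (by omega)
  choose s hs hrel' using hrel
  -- nontriviality
  have hzero : ∀ n, (∀ u, ‖u‖ = 1 → supp (D n) u = 0) → ∀ u, ‖u‖ = 1 → supp (D (n + 1)) u = 0 := by
    intro n h0 u hu
    have h1 := geoII hjd (hDC n) (hrel' n) (μ := (0 : Measure V)) (by simp) (by simpa using h0) hu
    have h2 : iter (0 : Measure V) j ew [u] = 0 := by
      obtain ⟨k, rfl⟩ : ∃ k, j = k + 1 := ⟨j - 1, by omega⟩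
      simp [iter]
    rw [h2, supp_smul_left (hDC _) (hs n).le] at h1
    simp only [ENNReal.toReal_zero, mul_zero] at h1
    rcases mul_eq_zero.1 h1 with h3 | h3
    · exact absurd h3 (hs n).ne'
    · exact h3
  have hDm : ∀ n, D (n * m + (m - 1)) = C m := by
    intro n
    simp only [hD]
    congr 1
    rw [Nat.add_mod, Nat.mul_mod_left, zero_add, Nat.mod_mod, Nat.mod_eq_of_lt (by omega)]
    omega
  have hCm : ¬ ∀ u, ‖u‖ = 1 → supp (C m) u = 0 := by
    intro h0
    have h1 : C m = {0} := by
      apply eq_of_supp (hC m) (by rw [← seg_zero]; exact cc_seg 0)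
      intro u hu
      rw [h0 u hu, ← seg_zero, supp_seg]
      simp
    apply not_singleton_of_interior (by omega) hint (-(c⁻¹ • x))
    obtain ⟨p, hp⟩ := (hC 0).nonempty
    have h2 : ∀ y ∈ C 0, y = -(c⁻¹ • x) := by
      intro y hy
      have h3 : c • y + x ∈ C m := by
        rw [hH]
        exact ⟨y, hy, rfl⟩
      rw [h1, Set.mem_singleton_iff] at h3
      have h4 : c • y = -x := eq_neg_of_add_eq_zero_left h3
      have h5 : c⁻¹ • (c • y) = y := by rw [smul_smul, inv_mul_cancel₀ hc.ne', one_smul]
      rw [← h5, h4, smul_neg]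
    ext y
    constructor
    · intro hy
      exact h2 y hy
    · intro hy
      rw [Set.mem_singleton_iff] at hy
      rw [hy, ← h2 p hp]
      exact hp
  have hne : ∀ n, ∃ u, ‖u‖ = 1 ∧ supp (D n) u ≠ 0 := by
    intro n
    by_contra hcon
    push Not at hcon
    have h1 : ∀ k, ∀ u, ‖u‖ = 1 → supp (D (n + k)) u = 0 := by
      intro k
      induction k with
      | zero => exact hcon
      | succ k ih => exact hzero (n + k) ih
    apply hCm
    have h2 : n ≤ n * m + (m - 1) := by
      have : n * 1 ≤ n * m := Nat.mul_le_mul_left n hm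
      omega
    obtain ⟨k, hk⟩ := Nat.exists_eq_add_of_le h2
    rw [← hDm n, hk]
    exact h1 k
  have hconst := chain_const hj hd hm D hDC hper s hs hrel' hne
  -- `C m` is a ball with centre `0`
  have hV : Nontrivial V := Module.nontrivial_of_finrank_pos (R := ℝ) (by omega)
  obtain ⟨e, he⟩ := exists_norm_eq V (zero_le_one' ℝ)
  set r : ℝ := supp (C m) e with hr
  have hr' : ∀ u, ‖u‖ = 1 → supp (C m) u = r := by
    intro u hu
    have := hconst (0 * m + (m - 1)) hu he
    rw [hDm 0] at this
    exact this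
  have hr0 : 0 ≤ r := by
    have h1 := supp_add_right_le (hC m) e (-e)
    rw [add_neg_cancel, hr' (-e) (by rw [norm_neg, he]), ← hr] at h1
    have h2 : supp (C m) (0 : V) = 0 := by
      have := supp_smul_right (hC m) le_rfl (0 : V)
      simpa using this
    linarith
  have hball : C m = closedBall (0 : V) r := by
    apply Pool.Agent.Helper82.Proj1.eq_closedBall (hC m).compact (hC m).convex (hC m).nonempty 0 r hr0
    intro u hu
    rw [hr' u hu]
    simp
  have hrpos : 0 < r := by
    rcases hr0.lt_or_eq with h | h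
    · exact h
    · exfalso
      apply hCm
      intro u hu
      rw [hr' u hu, h]
  refine ⟨-(c⁻¹ • x), c⁻¹ * r, by positivity, ?_⟩
  ext y
  have h1 : y ∈ C 0 ↔ c • y + x ∈ C m := by
    rw [hH]
    constructor
    · intro hy
      exact ⟨y, hy, rfl⟩
    · rintro ⟨z, hz, hzy⟩
      have h2 : c • z = c • y := add_right_cancel hzy
      have h3 : z = y := by
        have := congrArg (fun w => c⁻¹ • w) h2
        simpa [smul_smul, inv_mul_cancel₀ hc.ne'] using this
      rwa [← h3]
  rw [h1, hball, mem_closedBall, mem_closedBall, dist_zero_right, dist_eq_norm]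
  have h4 : y - -(c⁻¹ • x) = c⁻¹ • (c • y + x) := by
    rw [smul_add, smul_smul, inv_mul_cancel₀ hc.ne', one_smul]
    abel
  rw [h4, norm_smul, Real.norm_of_nonneg (inv_nonneg.2 hc.le)]
  constructor
  · intro h
    exact mul_le_mul_of_nonneg_left h (inv_nonneg.2 hc.le)
  · intro h
    exact le_of_mul_le_mul_left h (inv_pos.2 hc)

/-- chains starting with a ball. -/
theorem chain_of_ball {j : ℕ} (hj : j < Module.finrank ℝ V) (y : V) {r : ℝ} (hr : 0 < r) :
    ∃ (ρ : ℕ → ℝ), (∀ i, 0 < ρ i) ∧ ρ 0 = r ∧
      ∀ i, IsPB j (closedBall (if i = 0 then y else 0) (ρ i)) (closedBall (0 : V) (ρ (i + 1))) := by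
  have h : ∀ (z : V) (t : ℝ), ∃ ρ : ℝ, 0 < t → 0 < ρ ∧ IsPB j (closedBall z t) (closedBall (0 : V) ρ) := by
    intro z t
    by_cases ht : 0 < t
    · obtain ⟨ρ, h1, h2⟩ := ball_isPB hj z ht
      exact ⟨ρ, fun _ => ⟨h1, h2⟩⟩
    · exact ⟨0, fun h => absurd h ht⟩
  choose f hf using h
  let ρ : ℕ → ℝ := fun n => Nat.rec r (fun i t => f (if i = 0 then y else 0) t) n
  have hpos : ∀ i, 0 < ρ i := by
    intro i
    induction i with
    | zero => exact hr
    | succ i ih => exact (hf (if i = 0 then y else 0) (ρ i) ih).1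
  refine ⟨ρ, hpos, rfl, ?_⟩
  intro i
  exact (hf (if i = 0 then y else 0) (ρ i) (hpos i)).2

end Pool.Agent.HP89
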