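import Pool.Agent.HP89.Defs

/-! Module HP-A11: arithmetic of the constants. Real numbers; `j ≥ 1`, `d ≥ j⁴ + 2`.

Each factor of `kp d j i`, `i ≤ j`: `d - 2 - s ≥ d - j > 0` for `s ≤ j - 2`, so `1 - j/(d-2-s) ≥ 1 - j/(d-j) ≥ 0`, and
`∏ (1 - x_s) ≥ 1 - ∑ x_s` (`Finset.one_sub_sum_le_prod...` / induction), number of factors `i - 1`.
`theta_lt`: with `κ ≥ κ₀ = 1 - j(j-1)/(d-j) > 0` it is enough that `j²/(d-1) + j³(j-1)/(d-j) < 1 - 2 j(j-1)/(d-j) ≤ κ₀²`.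
`j = 1`: `1/(d-1) < 1`. `j = 2`: `4/(d-1) + 12/(d-2) ≤ 4/17 + 12/16 < 1`. `j ≥ 3`: `d - 1 ≥ j⁴ + 1`, `d - j ≥ j⁴ + 2 - j`,
`j²/(j⁴+1) + (j⁴ - j³ + 2j² - 2j)/(j⁴ - j + 2) < 1` since `j³ - 2j² + j + 2 ≥ j² (1 + ...)`, `(j³-2j²+j+2)(j⁴+1) > j²(j⁴-j+2)`
(write `j = 3 + t`, all coefficients positive). -/

namespace Pool.Agent.HP89

private theorem factor_bounds {d j i s : ℕ} (hij : i ≤ j) (hd : 2 * j < d)
    (hs : s ∈ Finset.range (i - 1)) :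
    0 < 1 - (j : ℝ) / ((d : ℝ) - 2 - s) ∧ 1 - (j : ℝ) / ((d : ℝ) - 2 - s) ≤ 1 ∧
      1 - (j : ℝ) / ((d : ℝ) - j) ≤ 1 - (j : ℝ) / ((d : ℝ) - 2 - s) := by
  rw [Finset.mem_range] at hs
  have h1 : s + 2 ≤ j := by omega
  have h1' : (s : ℝ) + 2 ≤ j := by exact_mod_cast h1
  have h2 : (2 : ℝ) * j < d := by exact_mod_cast hd
  have hj0 : (0 : ℝ) ≤ j := by positivity
  have h3 : (0 : ℝ) < (d : ℝ) - j := by linarith
  have h4 : (d : ℝ) - j ≤ (d : ℝ) - 2 - s := by linarith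
  have h5 : (0 : ℝ) < (d : ℝ) - 2 - s := by linarith
  refine ⟨?_, ?_, ?_⟩
  · rw [sub_pos, div_lt_one h5]
    linarith
  · have : 0 ≤ (j : ℝ) / ((d : ℝ) - 2 - s) := by positivity
    linarith
  · have : (j : ℝ) / ((d : ℝ) - 2 - s) ≤ (j : ℝ) / ((d : ℝ) - j) :=
      div_le_div_of_nonneg_left hj0 h3 h4
    linarith

theorem kp_nonneg {d j i : ℕ} (hij : i ≤ j) (hd : 2 * j < d) : 0 ≤ kp d j i := by
  unfold kp
  exact Finset.prod_nonneg (fun s hs => (factor_bounds hij hd hs).1.le)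

theorem kp_le_one {d j i : ℕ} (hij : i ≤ j) (hd : 2 * j < d) : kp d j i ≤ 1 := by
  unfold kp
  exact Finset.prod_le_one (fun s hs => (factor_bounds hij hd hs).1.le)
    (fun s hs => (factor_bounds hij hd hs).2.1)

theorem kp_ge {d j i : ℕ} (hi : 1 ≤ i) (hij : i ≤ j) (hd : 2 * j < d) :
    1 - (j : ℝ) * ((i : ℝ) - 1) / ((d : ℝ) - j) ≤ kp d j i := by
  have h2 : (2 : ℝ) * j < d := by exact_mod_cast hd
  have hj0 : (0 : ℝ) ≤ j := by positivity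
  have h3 : (0 : ℝ) < (d : ℝ) - j := by linarith
  have h4 : (j : ℝ) / ((d : ℝ) - j) ≤ 1 := by
    rw [div_le_one h3]
    linarith
  have h5 : (1 - (j : ℝ) / ((d : ℝ) - j)) ^ (i - 1) ≤ kp d j i := by
    unfold kp
    calc (1 - (j : ℝ) / ((d : ℝ) - j)) ^ (i - 1)
        = ∏ _s ∈ Finset.range (i - 1), (1 - (j : ℝ) / ((d : ℝ) - j)) := by
          rw [Finset.prod_const, Finset.card_range]
      _ ≤ _ := Finset.prod_le_prod (fun s hs => by linarith)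
          (fun s hs => (factor_bounds hij hd hs).2.2)
  have h6 := one_add_mul_le_pow (a := -((j : ℝ) / ((d : ℝ) - j))) (by linarith) (i - 1)
  have h7 : ((i - 1 : ℕ) : ℝ) = (i : ℝ) - 1 := by
    rw [Nat.cast_sub hi, Nat.cast_one]
  rw [h7] at h6
  calc 1 - (j : ℝ) * ((i : ℝ) - 1) / ((d : ℝ) - j)
      = 1 + ((i : ℝ) - 1) * -((j : ℝ) / ((d : ℝ) - j)) := by ring
    _ ≤ (1 + -((j : ℝ) / ((d : ℝ) - j))) ^ (i - 1) := h6
    _ = (1 - (j : ℝ) / ((d : ℝ) - j)) ^ (i - 1) := by rw [← sub_eq_add_neg]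
    _ ≤ _ := h5

theorem two_mul_lt {d j : ℕ} (hj : 1 ≤ j) (hd : j ^ 4 + 2 ≤ d) : 2 * j < d := by
  rcases Nat.lt_or_ge j 2 with h | h
  · interval_cases j
    norm_num at hd
    omega
  · have h1 : 2 * j ≤ j ^ 4 := by
      calc 2 * j ≤ j * j := Nat.mul_le_mul_right _ h
        _ ≤ (j * j) * (j * j) := Nat.le_mul_of_pos_right _ (by positivity)
        _ = j ^ 4 := by ring
    omega

theorem kp_pos {d j : ℕ} (hj : 1 ≤ j) (hd : j ^ 4 + 2 ≤ d) : 0 < kp d j j := by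
  unfold kp
  exact Finset.prod_pos (fun s hs => (factor_bounds le_rfl (two_mul_lt hj hd) hs).1)

/-- `∑_{i=1}^j a^{j-i} (1 - κ_i) ≤ j²(j-1)/(2(d-j))`. -/
theorem sum_gap_le {d j : ℕ} (hj : 1 ≤ j) (hd : j ^ 4 + 2 ≤ d) {a : ℝ} (ha0 : 0 ≤ a) (ha1 : a ≤ 1) :
    ∑ i ∈ Finset.Icc 1 j, a ^ (j - i) * (1 - kp d j i) ≤ (j : ℝ) ^ 2 * ((j : ℝ) - 1) / (2 * ((d : ℝ) - j)) := by
  have hd2 := two_mul_lt hj hd
  have h2 : (2 : ℝ) * j < d := by exact_mod_cast hd2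
  have hj0 : (0 : ℝ) ≤ j := by positivity
  have h3 : (0 : ℝ) < (d : ℝ) - j := by linarith
  have hsum : ∀ n : ℕ, ∑ i ∈ Finset.Icc 1 n, ((i : ℝ) - 1) = (n : ℝ) * ((n : ℝ) - 1) / 2 := by
    intro n
    induction n with
    | zero => simp
    | succ n ih =>
      rw [Finset.sum_Icc_succ_top (by omega), ih]
      push_cast
      ring
  calc ∑ i ∈ Finset.Icc 1 j, a ^ (j - i) * (1 - kp d j i)
      ≤ ∑ i ∈ Finset.Icc 1 j, (j : ℝ) / ((d : ℝ) - j) * ((i : ℝ) - 1) := by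
        refine Finset.sum_le_sum (fun i hi => ?_)
        rw [Finset.mem_Icc] at hi
        have h4 := kp_ge hi.1 hi.2 hd2
        have h5 := kp_le_one (i := i) hi.2 hd2
        have h6 : a ^ (j - i) ≤ 1 := pow_le_one₀ ha0 ha1
        calc a ^ (j - i) * (1 - kp d j i) ≤ 1 * (1 - kp d j i) :=
              mul_le_mul_of_nonneg_right h6 (by linarith)
          _ ≤ (j : ℝ) * ((i : ℝ) - 1) / ((d : ℝ) - j) := by linarith
          _ = _ := by ring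
    _ = (j : ℝ) / ((d : ℝ) - j) * ((j : ℝ) * ((j : ℝ) - 1) / 2) := by
        rw [← Finset.mul_sum, hsum]
    _ = _ := by
        field_simp

private theorem key_poly {x : ℝ} (hx : x = 1 ∨ 2 ≤ x) :
    x ^ 2 * (x ^ 4 - x + 2) < (x ^ 3 - 2 * x ^ 2 + x + 2) * (x ^ 4 + 1) := by
  rcases hx with rfl | hx
  · norm_num
  · obtain ⟨t, rfl⟩ : ∃ t, x = 2 + t := ⟨x - 2, by ring⟩
    have ht : 0 ≤ t := by linarith
    have h : ((2 + t) ^ 3 - 2 * (2 + t) ^ 2 + (2 + t) + 2) * ((2 + t) ^ 4 + 1) -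
        (2 + t) ^ 2 * ((2 + t) ^ 4 - (2 + t) + 2) =
        4 + 25 * t + 88 * t ^ 2 + 138 * t ^ 3 + 112 * t ^ 4 + 49 * t ^ 5 + 11 * t ^ 6 + t ^ 7 := by
      ring
    have h2 : 0 < 4 + 25 * t + 88 * t ^ 2 + 138 * t ^ 3 + 112 * t ^ 4 + 49 * t ^ 5 + 11 * t ^ 6 +
        t ^ 7 := by positivity
    linarith

theorem theta_lt {d j : ℕ} (hj : 1 ≤ j) (hd : j ^ 4 + 2 ≤ d) :
    ((kp d j j)⁻¹) ^ 2 * ((j : ℝ) ^ 2 / ((d : ℝ) - 1) + (j : ℝ) ^ 3 * ((j : ℝ) - 1) / ((d : ℝ) - j)) < 1 := by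
  have hd2 := two_mul_lt hj hd
  have hk0 := kp_pos hj hd
  have hk1 := kp_ge hj le_rfl hd2
  set κ := kp d j j with hκ
  have hd' : (j : ℝ) ^ 4 + 2 ≤ d := by exact_mod_cast hd
  have hj1 : (1 : ℝ) ≤ j := by exact_mod_cast hj
  have hx : (j : ℝ) = 1 ∨ (2 : ℝ) ≤ j := by
    rcases Nat.lt_or_ge j 2 with h | h
    · left
      have : j = 1 := by omega
      rw [this]; norm_num
    · right
      exact_mod_cast h
  have hpoly := key_poly hx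
  set x : ℝ := (j : ℝ) with hxdef
  have hx4 : x ≤ x ^ 4 := by
    have : x ^ 1 ≤ x ^ 4 := pow_le_pow_right₀ hj1 (by norm_num)
    simpa using this
  have hD1 : 0 < x ^ 4 + 1 := by positivity
  have hD2 : 0 < x ^ 4 - x + 2 := by linarith
  have hd1 : x ^ 4 + 1 ≤ (d : ℝ) - 1 := by linarith
  have hd3 : x ^ 4 - x + 2 ≤ (d : ℝ) - x := by linarith
  have hd4 : 0 < (d : ℝ) - x := by linarith
  have hx0 : 0 ≤ x - 1 := by linarith
  have h1 : x ^ 2 / ((d : ℝ) - 1) ≤ x ^ 2 / (x ^ 4 + 1) :=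
    div_le_div_of_nonneg_left (by positivity) hD1 hd1
  have hnum : 0 ≤ x ^ 3 * (x - 1) + 2 * (x * (x - 1)) := by positivity
  have h2 : (x ^ 3 * (x - 1) + 2 * (x * (x - 1))) / ((d : ℝ) - x) ≤
      (x ^ 3 * (x - 1) + 2 * (x * (x - 1))) / (x ^ 4 - x + 2) :=
    div_le_div_of_nonneg_left hnum hD2 hd3
  have h3 : x ^ 2 / (x ^ 4 + 1) + (x ^ 3 * (x - 1) + 2 * (x * (x - 1))) / (x ^ 4 - x + 2) < 1 := by
    rw [div_add_div _ _ hD1.ne' hD2.ne', div_lt_one (by positivity)]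
    nlinarith [hpoly]
  have h4 : x ^ 2 / ((d : ℝ) - 1) + x ^ 3 * (x - 1) / ((d : ℝ) - x) <
      1 - 2 * (x * (x - 1) / ((d : ℝ) - x)) := by
    have h5 : (x ^ 3 * (x - 1) + 2 * (x * (x - 1))) / ((d : ℝ) - x) =
        x ^ 3 * (x - 1) / ((d : ℝ) - x) + 2 * (x * (x - 1) / ((d : ℝ) - x)) := by ring
    linarith
  have hq0 : 0 ≤ x ^ 2 / ((d : ℝ) - 1) + x ^ 3 * (x - 1) / ((d : ℝ) - x) := by
    have : 0 < (d : ℝ) - 1 := by linarith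
    positivity
  have h6 : 1 - 2 * (x * (x - 1) / ((d : ℝ) - x)) ≤ κ ^ 2 := by
    set q := x * (x - 1) / ((d : ℝ) - x) with hq
    have h7 : 0 < 1 - 2 * q := by linarith
    have h8 : 0 ≤ q := by positivity
    have h9 : 0 ≤ 1 - q := by linarith
    have h10 : (1 - q) ^ 2 ≤ κ ^ 2 := pow_le_pow_left₀ h9 hk1 2
    nlinarith [sq_nonneg q]
  rw [inv_pow, inv_mul_lt_iff₀ (by positivity), mul_one]
  linarith

end Pool.Agent.HP89
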