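import Pool.Agent.HP89.A8b

/-! Module HP-A8c: lower bound for `Lop`, expansion of `BB`.

* `Lop_lower`: iterate `iter_TG_step` from `l = 0` to `i - 1` with `X = [x]`; `TG G [x] = ofReal (‖x‖ ∫ G (ort x g)) =
  ofReal (mG (d-1) * Rop G x)`; the constant is `∏_{s<i-1} (d-2-s-j)/mG (d-1-s)`, divided by `MM d i`, times `mG (d-1)`:
  `∏_{s<i-1} (d-2-s-j)/(mG (d-1-s) mG (d-2-s)) = kp d j i` by `mG_mul`. (All factors are `≥ 0` as `2j < d`.)
* `BB_low`: `BB μ j x = Lop μ j (hh μ) x` (`iter_ew_succ`) and `Lop_lower` (`Hom1_hh`).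
* `BB_exp`: `BB μ (l+1) x = Lop μ (l+1) (hh μ) x = a * Lop μ (l+1) ‖·‖ x + Lop μ (l+1) k x = a * BB μ l x + Lop μ (l+1) k x`
  (`Lop_norm_eq`); induction on `l ≤ j` (sum up to `l` with `a ^ (l - i)`). -/

namespace Pool.Agent.HP89
open MeasureTheory ProbabilityTheory Set Filter Topology Metric
open scoped RealInnerProductSpace ENNReal

variable {V : Type*} [NormedAddCommGroup V] [InnerProductSpace ℝ V] [FiniteDimensional ℝ V]
  [MeasurableSpace V] [BorelSpace V]

/-- the constants of `Lop_lower` -/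
private theorem const_eq (d j : ℕ) : ∀ n : ℕ, n + 1 < d →
    (∏ s ∈ Finset.range n, ((d : ℝ) - 2 - s - j) / mG (d - 1 - s)) * mG (d - 1) =
      MM d (n + 1) * ∏ s ∈ Finset.range n, (1 - (j : ℝ) / ((d : ℝ) - 2 - s)) := by
  intro n
  induction n with
  | zero =>
    intro _
    simp [MM]
  | succ n ih =>
    intro hn
    have h1 := ih (by omega)
    have e1 : MM d (n + 1 + 1) = MM d (n + 1) * mG (d - 1 - (n + 1)) := by
      unfold MM
      rw [Finset.prod_range_succ]
    rw [e1, Finset.prod_range_succ, Finset.prod_range_succ]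
    have hm : mG (d - 1 - n) * mG (d - 1 - (n + 1)) = (d : ℝ) - 2 - n := by
      have h2 := mG_mul (d - 1 - (n + 1))
      have e2 : d - 1 - (n + 1) + 1 = d - 1 - n := by omega
      rw [e2] at h2
      rw [h2, Nat.cast_sub (by omega), Nat.cast_sub (by omega)]
      push_cast
      ring
    have hp1 : 0 < mG (d - 1 - n) := mG_pos (by omega)
    have hne : (d : ℝ) - 2 - n ≠ 0 := by
      have : (n : ℝ) + 1 + 1 < (d : ℝ) := by exact_mod_cast hn
      have h3 : (0 : ℝ) < (d : ℝ) - 2 - n := by linarith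
      exact h3.ne'
    have hf : ((d : ℝ) - 2 - n - j) / mG (d - 1 - n) =
        mG (d - 1 - (n + 1)) * (1 - (j : ℝ) / ((d : ℝ) - 2 - n)) := by
      rw [div_eq_iff hp1.ne']
      have : mG (d - 1 - (n + 1)) * (1 - (j : ℝ) / ((d : ℝ) - 2 - n)) * mG (d - 1 - n) =
          (mG (d - 1 - n) * mG (d - 1 - (n + 1))) * (1 - (j : ℝ) / ((d : ℝ) - 2 - n)) := by ring
      rw [this, hm]
      field_simp
    rw [hf]
    calc _ = ((∏ s ∈ Finset.range n, ((d : ℝ) - 2 - s - j) / mG (d - 1 - s)) * mG (d - 1)) *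
          (mG (d - 1 - (n + 1)) * (1 - (j : ℝ) / ((d : ℝ) - 2 - n))) := by ring
      _ = _ := by rw [h1]; ring

private theorem TG_singleton {G : V → ℝ} (hG : Hom1 G) (hd : 2 ≤ Module.finrank ℝ V) (x : V) :
    ENNReal.ofReal (mG (Module.finrank ℝ V - 1) * Rop G x) ≤ TG (fun v => ENNReal.ofReal (G v)) [x] := by
  have hp : 0 < mG (Module.finrank ℝ V - 1) := mG_pos (by omega)
  have e1 : mG (Module.finrank ℝ V - 1) * Rop G x = ‖x‖ * ∫ g, G (ort x g) ∂(stdGaussian V) := by
    unfold Rop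
    field_simp
  have hcont : Continuous (fun g : V => G (ort x g)) := by
    apply hG.cont.comp
    unfold ort
    fun_prop
  rw [e1, TG, wn_singleton, ENNReal.ofReal_mul (norm_nonneg _)]
  refine mul_le_mul_right ?_ _
  rw [integral_eq_lintegral_of_nonneg_ae (Eventually.of_forall fun g => hG.nn _)
    hcont.aestronglyMeasurable]
  exact ENNReal.ofReal_toReal_le

private theorem iter_TG_lt_top {μ : Measure V} [IsFiniteMeasure μ] (hμ : Integrable (fun x => ‖x‖) μ)
    {G : V → ℝ} (hG : Adm G) (l : ℕ) (X : List V) :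
    iter μ l (TG (fun v => ENNReal.ofReal (G v))) X < ⊤ := by
  obtain ⟨C, hC⟩ := hG.bdd
  have h1 : ∀ Z : List V, TG (fun v => ENNReal.ofReal (G v)) Z ≤
      ENNReal.ofReal |C| * TG (fun v : V => ENNReal.ofReal ‖v‖) Z := by
    intro Z
    unfold TG
    rw [mul_left_comm]
    refine mul_le_mul_right ?_ _
    rw [← lintegral_const_mul']
    · apply lintegral_mono
      intro g
      simp only
      rw [← ENNReal.ofReal_mul (abs_nonneg _)]
      apply ENNReal.ofReal_le_ofReal
      exact (hC _).trans (mul_le_mul_of_nonneg_right (le_abs_self C) (norm_nonneg _))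
    · exact ENNReal.ofReal_ne_top
  refine lt_of_le_of_lt (iter_mono μ l h1 X) ?_
  rw [iter_const_mul μ l _ ENNReal.ofReal_ne_top X, iter_TG_norm]
  exact ENNReal.mul_lt_top ENNReal.ofReal_lt_top
    (ENNReal.mul_lt_top ENNReal.ofReal_lt_top (iter_ew_lt_top μ hμ l X))

theorem Lop_lower {j : ℕ} {μ : Measure V} (hμ : Good j μ) (hjd : 2 * j < Module.finrank ℝ V) {i : ℕ} (hi : 1 ≤ i)
    (hij : i ≤ j) {G : V → ℝ} (hG : Hom1 G) (x : V) :
    kp (Module.finrank ℝ V) j i * Rop G x ≤ Lop μ i G x := by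
  haveI := hμ.fin
  obtain ⟨n, rfl⟩ : ∃ n, i = n + 1 := ⟨i - 1, by omega⟩
  set d := Module.finrank ℝ V with hd
  have hmain : ∀ l : ℕ, l ≤ n →
      ENNReal.ofReal ((∏ s ∈ Finset.range l, ((d : ℝ) - 2 - s - j) / mG (d - 1 - s)) *
        (mG (d - 1) * Rop G x)) ≤ iter μ l (TG (fun v => ENNReal.ofReal (G v))) [x] := by
    intro l
    induction l with
    | zero =>
      intro _
      rw [Finset.range_zero, Finset.prod_empty, one_mul, iter_zero]
      exact TG_singleton hG (by omega) x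
    | succ l ih =>
      intro hl
      have h1 := ih (by omega)
      have h2 := iter_TG_step hμ hG l [x]
      refine le_trans ?_ h2
      have hfac : (0 : ℝ) ≤ ((d : ℝ) - 2 - l - j) / mG (d - 1 - l) := by
        apply div_nonneg _ (mG_nonneg _)
        have h3 : l + j + 2 ≤ d := by omega
        have h4 : (l : ℝ) + j + 2 ≤ (d : ℝ) := by exact_mod_cast h3
        linarith
      have e1 : ((Module.finrank ℝ V : ℝ) - ((([x] : List V).length : ℝ) + l) - 1 - j) /
          mG (Module.finrank ℝ V - (([x] : List V).length + l)) =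
          ((d : ℝ) - 2 - l - j) / mG (d - 1 - l) := by
        have e2 : Module.finrank ℝ V - (([x] : List V).length + l) = d - 1 - l := by
          simp only [List.length_singleton]
          omega
        rw [e2]
        simp only [List.length_singleton, Nat.cast_one, ← hd]
        congr 1
        ring
      rw [e1, Finset.prod_range_succ, mul_comm (∏ s ∈ Finset.range l, _), mul_assoc,
        ENNReal.ofReal_mul hfac]
      exact mul_le_mul_right h1 _
  have h1 := hmain n le_rfl
  have hfin : iter μ n (TG (fun v => ENNReal.ofReal (G v))) [x] ≠ ⊤ :=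
    (iter_TG_lt_top hμ.int hG.adm n [x]).ne
  rw [ENNReal.ofReal_le_iff_le_toReal hfin] at h1
  have hMM : 0 < MM d (n + 1) := MM_pos (by omega)
  unfold Lop
  rw [← hd, le_div_iff₀ hMM]
  have e3 := const_eq d j n (by omega)
  have e4 : kp d j (n + 1) = ∏ s ∈ Finset.range n, (1 - (j : ℝ) / ((d : ℝ) - 2 - s)) := rfl
  rw [e4]
  have e5 : (∏ s ∈ Finset.range n, (1 - (j : ℝ) / ((d : ℝ) - 2 - s))) * Rop G x * MM d (n + 1) =
      (∏ s ∈ Finset.range n, ((d : ℝ) - 2 - s - j) / mG (d - 1 - s)) * (mG (d - 1) * Rop G x) := by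
    rw [← mul_assoc, e3]; ring
  rw [e5]
  exact h1

theorem BB_low {j : ℕ} {μ : Measure V} (hμ : Good j μ) (hj : 1 ≤ j) (hjd : 2 * j < Module.finrank ℝ V) (x : V) :
    kp (Module.finrank ℝ V) j j * Rop (hh μ) x ≤ BB μ j x := by
  have h1 := Lop_lower hμ hjd hj le_rfl (Hom1_hh hμ.int) x
  have h2 := BB_succ hμ (j - 1) x
  rw [Nat.sub_add_cancel hj] at h2
  rw [h2]
  exact h1

theorem BB_exp {j : ℕ} {μ : Measure V} (hμ : Good j μ) (hjd : 2 * j < Module.finrank ℝ V) {a : ℝ} (ha : 0 ≤ a)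
    {k : V → ℝ} (hk : Hom1 k) (h : ∀ v, hh μ v = a * ‖v‖ + k v) (x : V) :
    BB μ j x = a ^ j * ‖x‖ + ∑ i ∈ Finset.Icc 1 j, a ^ (j - i) * Lop μ i k x := by
  have key : ∀ l : ℕ, l ≤ j →
      BB μ l x = a ^ l * ‖x‖ + ∑ i ∈ Finset.Icc 1 l, a ^ (l - i) * Lop μ i k x := by
    intro l
    induction l with
    | zero =>
      intro _
      simp [BB_zero]
    | succ l ih =>
      intro hl
      have h1 := ih (by omega)
      have hld : l + 1 < Module.finrank ℝ V := by omega
      have e1 : hh μ = fun v => a * ‖v‖ + k v := by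
        funext v; exact h v
      have h2 : Lop μ (l + 1) (hh μ) x = a * BB μ l x + Lop μ (l + 1) k x := by
        rw [e1]
        have h3 := Lop_add hμ (i := l + 1) (by omega) hld (adm_norm.smul ha) hk.adm x
        have h4 := Lop_smul hμ (i := l + 1) (by omega) hld adm_norm ha x
        have h5 := Lop_norm_eq hμ (i := l + 1) (by omega) hld x
        rw [h3, h4, h5, Nat.add_sub_cancel]
      rw [BB_succ hμ l x, h2, h1, Finset.sum_Icc_succ_top (by omega), mul_add, Finset.mul_sum,
        Nat.sub_self, pow_zero, one_mul, pow_succ]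
      have e2 : ∑ i ∈ Finset.Icc 1 l, a * (a ^ (l - i) * Lop μ i k x) =
          ∑ i ∈ Finset.Icc 1 l, a ^ (l + 1 - i) * Lop μ i k x := by
        apply Finset.sum_congr rfl
        intro i hi
        rw [Finset.mem_Icc] at hi
        have : l + 1 - i = (l - i) + 1 := by omega
        rw [this, pow_succ]
        ring
      rw [e2]
      ring
  exact key j le_rfl

end Pool.Agent.HP89
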