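import Pool.Agent.HP89.A9
import Pool.Agent.HP89.A8c
import Pool.Agent.HP89.A11

/-! Module HP-A10: one-step and two-step estimates for the oscillation.

`a = inf of h = hh μ over the unit sphere` (`sInf`, or `IsCompact.exists_isMinOn`), `k = h - a‖·‖ ≥ 0` is `Hom1`, and
`k ≤ O‖·‖` if `O` bounds the oscillation of `h` on the unit sphere. `0 ≤ a ≤ 1`: `a m_d ≤ ∫ h dγ = m_{d-j} ≤ m_d`.
`ℓ_i = Lop μ i k`:  `κ_i R k ≤ ℓ_i ≤ κ_i R k + (1-κ_i) O ‖·‖` (`Lop_lower` for `k` and for `O‖·‖ - k`, `Lop_add`, `Lop_norm_le`,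
`Rop_add`, `Rop_norm`). `B = BB μ j = a^j‖·‖ + ∑ a^{j-i} ℓ_i` (`BB_exp`).
(1) `B u - B v ≤ s (R k u - R k v) + (S - s) O`, `s = ∑ a^{j-i} κ_i ≤ S = ∑ a^{j-i} ≤ j`, `S - s ≤ j²(j-1)/(2(d-j))` (`sum_gap_le`);
(2) `R B u - R B v ≤ s (R² k u - R² k v) + (S - s) O` and `R²k u - R²k v ≤ O/(d-1)`: `Rop_Rop_lower` for `k` at `v` and for
    `O‖·‖ - k` at `u`. -/

namespace Pool.Agent.HP89
open MeasureTheory ProbabilityTheory Set Filter Topology Metric
open scoped RealInnerProductSpace ENNReal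

variable {V : Type*} [NormedAddCommGroup V] [InnerProductSpace ℝ V] [FiniteDimensional ℝ V]
  [MeasurableSpace V] [BorelSpace V]

/-- `O` bounds the oscillation of `f` on the unit sphere. -/
def Osc (f : V → ℝ) (O : ℝ) : Prop := ∀ u v : V, ‖u‖ = 1 → ‖v‖ = 1 → f u - f v ≤ O

private theorem adm_zero : Adm (fun _ : V => (0 : ℝ)) :=
  ⟨measurable_const, fun _ => le_rfl, 0, fun x => by simp⟩

private theorem adm_sum {ι : Type*} (s : Finset ι) (c : ι → ℝ) (G : ι → V → ℝ)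
    (hc : ∀ i ∈ s, 0 ≤ c i) (hG : ∀ i ∈ s, Adm (G i)) :
    Adm (fun x => ∑ i ∈ s, c i * G i x) ∧
      ∀ x, Rop (fun x => ∑ i ∈ s, c i * G i x) x = ∑ i ∈ s, c i * Rop (G i) x := by
  classical
  induction s using Finset.induction_on with
  | empty =>
    refine ⟨by simpa using (adm_zero (V := V)), fun x => ?_⟩
    simp [Rop]
  | insert a s ha ih =>
    have hc' : ∀ i ∈ s, 0 ≤ c i := fun i hi => hc i (Finset.mem_insert_of_mem hi)
    have hG' : ∀ i ∈ s, Adm (G i) := fun i hi => hG i (Finset.mem_insert_of_mem hi)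
    obtain ⟨i1, i2⟩ := ih hc' hG'
    have ha1 := (hG a (Finset.mem_insert_self _ _)).smul (hc a (Finset.mem_insert_self _ _))
    have hfun : (fun x => ∑ i ∈ insert a s, c i * G i x) =
        (fun x => c a * G a x + ∑ i ∈ s, c i * G i x) := by
      funext x
      rw [Finset.sum_insert ha]
    rw [hfun]
    refine ⟨ha1.add i1, fun x => ?_⟩
    rw [Finset.sum_insert ha, Rop_add ha1 i1, Rop_smul, i2]

/-- the data of the decomposition. -/
private theorem setup {j : ℕ} {μ : Measure V} (hμ : Good j μ) (hj : 1 ≤ j)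
    (hd : j ^ 4 + 2 ≤ Module.finrank ℝ V) {O : ℝ} (hO : 0 ≤ O) (h : Osc (hh μ) O) :
    ∃ (a : ℝ) (k k' : V → ℝ), 0 ≤ a ∧ a ≤ 1 ∧ Hom1 k ∧ Hom1 k' ∧
      (∀ v, hh μ v = a * ‖v‖ + k v) ∧ (∀ v, k v + k' v = O * ‖v‖) := by
  have hjd := two_mul_lt hj hd
  have hh1 : Hom1 (hh μ) := Hom1_hh hμ.int
  have hcomp : IsCompact (Metric.sphere (0 : V) 1) := isCompact_sphere 0 1
  have : Nontrivial V := by
    apply Module.nontrivial_of_finrank_pos (R := ℝ)
    omega
  have hne : (Metric.sphere (0 : V) 1).Nonempty := NormedSpace.sphere_nonempty.mpr zero_le_one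
  obtain ⟨v0, hv0, hmin⟩ := hcomp.exists_isMinOn hne hh1.cont.continuousOn
  have hv01 : ‖v0‖ = 1 := by simpa using hv0
  set a := hh μ v0 with ha
  have ha0 : 0 ≤ a := hh1.nn _
  have hscale : ∀ x : V, x ≠ 0 → ∃ u : V, ‖u‖ = 1 ∧ x = ‖x‖ • u := by
    intro x hx
    have hx' : ‖x‖ ≠ 0 := norm_ne_zero_iff.mpr hx
    refine ⟨(‖x‖)⁻¹ • x, ?_, ?_⟩
    · rw [norm_smul, norm_inv, norm_norm, inv_mul_cancel₀ hx']
    · rw [smul_smul, mul_inv_cancel₀ hx', one_smul]
  have hz : hh μ 0 = 0 := by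
    have := hh1.hom 0 le_rfl 0
    simpa using this
  have hlow : ∀ x, a * ‖x‖ ≤ hh μ x := by
    intro x
    by_cases hx : x = 0
    · subst hx
      simp [hz]
    · obtain ⟨u, hu, hxu⟩ := hscale x hx
      have h1 : a ≤ hh μ u := hmin (by simpa using hu)
      have h2 : hh μ x = ‖x‖ * hh μ u := by
        conv_lhs => rw [hxu]
        exact hh1.hom _ (norm_nonneg _) _
      rw [h2]
      nlinarith [norm_nonneg x]
  have hup : ∀ x, hh μ x - a * ‖x‖ ≤ O * ‖x‖ := by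
    intro x
    by_cases hx : x = 0
    · subst hx
      simp [hz]
    · obtain ⟨u, hu, hxu⟩ := hscale x hx
      have h1 : hh μ u - a ≤ O := h u v0 hu hv01
      have h2 : hh μ x = ‖x‖ * hh μ u := by
        conv_lhs => rw [hxu]
        exact hh1.hom _ (norm_nonneg _) _
      rw [h2]
      nlinarith [norm_nonneg x]
  have ha1 : a ≤ 1 := by
    have hint : a * mG (Module.finrank ℝ V) ≤ mG (Module.finrank ℝ V - j) := by
      rw [← integral_norm_gaussian (V := V), ← hμ.integral_hh, ← integral_const_mul]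
      exact integral_mono (integrable_norm_gaussian.const_mul a) hh1.adm.integrable hlow
    have h2 : mG (Module.finrank ℝ V - j) ≤ mG (Module.finrank ℝ V) := mG_mono (by omega)
    have h3 : 0 < mG (Module.finrank ℝ V) := mG_pos (by omega)
    by_contra hcon
    push Not at hcon
    nlinarith
  refine ⟨a, fun v => hh μ v - a * ‖v‖, fun v => O * ‖v‖ - (hh μ v - a * ‖v‖), ha0, ha1,
    ⟨?_, ?_, ?_⟩, ⟨?_, ?_, ?_⟩, ?_, ?_⟩
  · exact hh1.cont.sub (continuous_const.mul continuous_norm)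
  · intro x
    linarith [hlow x]
  · intro c hc x
    rw [hh1.hom c hc, norm_smul, Real.norm_of_nonneg hc]
    ring
  · exact (continuous_const.mul continuous_norm).sub
      (hh1.cont.sub (continuous_const.mul continuous_norm))
  · intro x
    linarith [hup x]
  · intro c hc x
    rw [hh1.hom c hc, norm_smul, Real.norm_of_nonneg hc]
    ring
  · intro v
    ring
  · intro v
    ring

private theorem Rop_sum_eq (hd : 2 ≤ Module.finrank ℝ V) {k k' : V → ℝ} (hk : Adm k) (hk' : Adm k')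
    {O : ℝ} (h : ∀ v, k v + k' v = O * ‖v‖) (x : V) : Rop k x + Rop k' x = O * ‖x‖ := by
  rw [← Rop_add hk hk']
  have : (fun v => k v + k' v) = (fun v : V => O * ‖v‖) := funext h
  rw [this, Rop_smul, Rop_norm hd]

private theorem Lop_upper {j : ℕ} {μ : Measure V} (hμ : Good j μ) (hjd : 2 * j < Module.finrank ℝ V)
    {i : ℕ} (hi : 1 ≤ i) (hij : i ≤ j) {k k' : V → ℝ} (hk : Hom1 k) (hk' : Hom1 k') {O : ℝ}
    (hO : 0 ≤ O) (h : ∀ v, k v + k' v = O * ‖v‖) (x : V) :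
    Lop μ i k x ≤ O * ‖x‖ - Lop μ i k' x := by
  have h1 := Lop_add hμ hi (by omega) hk.adm hk'.adm x
  have h2 : (fun v => k v + k' v) = (fun v : V => O * ‖v‖) := funext h
  rw [h2, Lop_smul hμ hi (by omega) adm_norm hO] at h1
  have h3 := Lop_norm_le hμ hi (i := i) (by omega) x
  nlinarith

theorem one_step {j : ℕ} {μ : Measure V} (hμ : Good j μ) (hj : 1 ≤ j) (hd : j ^ 4 + 2 ≤ Module.finrank ℝ V)
    {O Q : ℝ} (hO : 0 ≤ O) (hQ : 0 ≤ Q) (h : Osc (hh μ) O) (h' : Osc (Rop (hh μ)) Q) :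
    Osc (BB μ j) (j * Q + (j : ℝ) ^ 2 * ((j : ℝ) - 1) / (2 * ((Module.finrank ℝ V : ℝ) - j)) * O) := by
  obtain ⟨a, k, k', ha0, ha1, hk, hk', hdec, hsum⟩ := setup hμ hj hd hO h
  have hjd := two_mul_lt hj hd
  intro u v hu hv
  rw [BB_exp hμ hjd ha0 hk hdec u, BB_exp hμ hjd ha0 hk hdec v, hu, hv]
  have hRh : ∀ x, Rop (hh μ) x = a * ‖x‖ + Rop k x := by
    intro x
    have : (hh μ) = (fun v => a * ‖v‖ + k v) := funext hdec
    rw [this, Rop_add (adm_norm.smul ha0) hk.adm, Rop_smul, Rop_norm (by omega)]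
  have hRk : Rop k u - Rop k v ≤ Q := by
    have := h' u v hu hv
    rw [hRh, hRh, hu, hv] at this
    linarith
  have hterm : ∀ i ∈ Finset.Icc 1 j, a ^ (j - i) * Lop μ i k u - a ^ (j - i) * Lop μ i k v ≤
      Q + a ^ (j - i) * (1 - kp (Module.finrank ℝ V) j i) * O := by
    intro i hi
    rw [Finset.mem_Icc] at hi
    have hp : 0 ≤ a ^ (j - i) := pow_nonneg ha0 _
    have hp1 : a ^ (j - i) ≤ 1 := pow_le_one₀ ha0 ha1
    have hkp := kp_nonneg (i := i) hi.2 hjd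
    have hkp1 := kp_le_one (i := i) hi.2 hjd
    have l1 := Lop_lower hμ hjd hi.1 hi.2 hk v
    have l2 := Lop_lower hμ hjd hi.1 hi.2 hk' u
    have l3 := Lop_upper hμ hjd hi.1 hi.2 hk hk' hO hsum u
    have l4 := Rop_sum_eq (by omega) hk.adm hk'.adm hsum u
    rw [hu] at l3 l4
    have l5 : Lop μ i k u - Lop μ i k v ≤ kp (Module.finrank ℝ V) j i * (Rop k u - Rop k v) +
        (1 - kp (Module.finrank ℝ V) j i) * O := by
      have : Rop k' u = O - Rop k u := by linarith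
      rw [this] at l2
      nlinarith
    have l6 : kp (Module.finrank ℝ V) j i * (Rop k u - Rop k v) ≤
        kp (Module.finrank ℝ V) j i * Q := mul_le_mul_of_nonneg_left hRk hkp
    have l7 : a ^ (j - i) * (Lop μ i k u - Lop μ i k v) ≤ a ^ (j - i) *
        (kp (Module.finrank ℝ V) j i * Q + (1 - kp (Module.finrank ℝ V) j i) * O) :=
      mul_le_mul_of_nonneg_left (by linarith) hp
    have l8 : a ^ (j - i) * (kp (Module.finrank ℝ V) j i * Q) ≤ 1 * (1 * Q) :=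
      mul_le_mul hp1 (mul_le_mul_of_nonneg_right hkp1 hQ) (mul_nonneg hkp hQ) zero_le_one
    nlinarith
  have hS := Finset.sum_le_sum hterm
  rw [Finset.sum_sub_distrib, Finset.sum_add_distrib, Finset.sum_const, Nat.card_Icc,
    ← Finset.sum_mul, nsmul_eq_mul] at hS
  have hgap := mul_le_mul_of_nonneg_right (sum_gap_le hj hd ha0 ha1) hO
  have e : ((j + 1 - 1 : ℕ) : ℝ) = j := by simp
  rw [e] at hS
  linarith

theorem one_step_trivial {j : ℕ} {μ : Measure V} (hμ : Good j μ) (hj : 1 ≤ j) (hd : j ^ 4 + 2 ≤ Module.finrank ℝ V)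
    {O : ℝ} (hO : 0 ≤ O) (h : Osc (hh μ) O) : Osc (BB μ j) (j * O) := by
  obtain ⟨a, k, k', ha0, ha1, hk, hk', hdec, hsum⟩ := setup hμ hj hd hO h
  have hjd := two_mul_lt hj hd
  intro u v hu hv
  rw [BB_exp hμ hjd ha0 hk hdec u, BB_exp hμ hjd ha0 hk hdec v, hu, hv]
  have hterm : ∀ i ∈ Finset.Icc 1 j, a ^ (j - i) * Lop μ i k u - a ^ (j - i) * Lop μ i k v ≤ O := by
    intro i hi
    rw [Finset.mem_Icc] at hi
    have hp : 0 ≤ a ^ (j - i) := pow_nonneg ha0 _
    have hp1 : a ^ (j - i) ≤ 1 := pow_le_one₀ ha0 ha1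
    have l3 := Lop_upper hμ hjd hi.1 hi.2 hk hk' hO hsum u
    have l1 : 0 ≤ Lop μ i k v := (Lop_adm hμ hi.1 (by omega) hk.adm).nn v
    have l2 : 0 ≤ Lop μ i k' u := (Lop_adm hμ hi.1 (by omega) hk'.adm).nn u
    rw [hu] at l3
    have l4 : a ^ (j - i) * (Lop μ i k u - Lop μ i k v) ≤ a ^ (j - i) * O :=
      mul_le_mul_of_nonneg_left (by linarith) hp
    have l5 : a ^ (j - i) * O ≤ 1 * O := mul_le_mul_of_nonneg_right hp1 hO
    linarith
  have hS := Finset.sum_le_sum hterm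
  rw [Finset.sum_sub_distrib, Finset.sum_const, Nat.card_Icc, nsmul_eq_mul] at hS
  have e : ((j + 1 - 1 : ℕ) : ℝ) = j := by simp
  rw [e] at hS
  linarith

theorem one_step_R {j : ℕ} {μ : Measure V} (hμ : Good j μ) (hj : 1 ≤ j) (hd : j ^ 4 + 2 ≤ Module.finrank ℝ V)
    {O : ℝ} (hO : 0 ≤ O) (h : Osc (hh μ) O) :
    Osc (Rop (BB μ j)) ((j / ((Module.finrank ℝ V : ℝ) - 1) +
      (j : ℝ) ^ 2 * ((j : ℝ) - 1) / (2 * ((Module.finrank ℝ V : ℝ) - j))) * O) := by
  obtain ⟨a, k, k', ha0, ha1, hk, hk', hdec, hsum⟩ := setup hμ hj hd hO h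
  have hjd := two_mul_lt hj hd
  have hd3 : 3 ≤ Module.finrank ℝ V := by
    have : 1 ≤ j ^ 4 := Nat.one_le_pow _ _ hj
    omega
  have hd3' : (3 : ℝ) ≤ (Module.finrank ℝ V : ℝ) := by exact_mod_cast hd3
  have hadm : ∀ i ∈ Finset.Icc 1 j, Adm (Lop μ i k) := by
    intro i hi
    rw [Finset.mem_Icc] at hi
    exact Lop_adm hμ hi.1 (by omega) hk.adm
  obtain ⟨s1, s2⟩ := adm_sum (Finset.Icc 1 j) (fun i => a ^ (j - i)) (fun i => Lop μ i k)
    (fun i _ => pow_nonneg ha0 _) hadm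
  have hRB : ∀ x, Rop (BB μ j) x = a ^ j * ‖x‖ +
      ∑ i ∈ Finset.Icc 1 j, a ^ (j - i) * Rop (Lop μ i k) x := by
    intro x
    have : BB μ j = (fun x => a ^ j * ‖x‖ + ∑ i ∈ Finset.Icc 1 j, a ^ (j - i) * Lop μ i k x) :=
      funext (BB_exp hμ hjd ha0 hk hdec)
    rw [this, Rop_add (adm_norm.smul (pow_nonneg ha0 _)) s1, Rop_smul, Rop_norm (by omega), s2]
  have hRRsum : ∀ x, Rop (Rop k) x + Rop (Rop k') x = O * ‖x‖ := fun x =>
    Rop_sum_eq (by omega) (Rop_adm hk.adm) (Rop_adm hk'.adm)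
      (fun v => Rop_sum_eq (by omega) hk.adm hk'.adm hsum v) x
  intro u v hu hv
  -- `R² k u - R² k v ≤ O/(d-1)`
  have hRR : Rop (Rop k) u - Rop (Rop k) v ≤ O / ((Module.finrank ℝ V : ℝ) - 1) := by
    have q1 := Rop_Rop_lower hd3 hk v
    have q2 := Rop_Rop_lower hd3 hk' u
    have q3 := hRRsum u
    rw [hv] at q1
    rw [hu] at q2 q3
    have q4 : (∫ g, k g ∂(stdGaussian V)) + (∫ g, k' g ∂(stdGaussian V)) =
        O * mG (Module.finrank ℝ V) := by
      rw [← integral_add hk.adm.integrable hk'.adm.integrable, ← integral_norm_gaussian (V := V),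
        ← integral_const_mul]
      exact integral_congr_ae (ae_of_all _ hsum)
    have q5 : 0 < mG (Module.finrank ℝ V) := mG_pos (by omega)
    have q6 : (∫ g, k g ∂(stdGaussian V)) / mG (Module.finrank ℝ V) +
        (∫ g, k' g ∂(stdGaussian V)) / mG (Module.finrank ℝ V) = O := by
      rw [← add_div, q4]
      field_simp
    have q7 : 1 * (((Module.finrank ℝ V : ℝ) - 2) / ((Module.finrank ℝ V : ℝ) - 1)) *
        ((∫ g, k g ∂(stdGaussian V)) / mG (Module.finrank ℝ V)) +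
        1 * (((Module.finrank ℝ V : ℝ) - 2) / ((Module.finrank ℝ V : ℝ) - 1)) *
        ((∫ g, k' g ∂(stdGaussian V)) / mG (Module.finrank ℝ V)) =
        O - O / ((Module.finrank ℝ V : ℝ) - 1) := by
      rw [← mul_add, q6]
      have : (Module.finrank ℝ V : ℝ) - 1 ≠ 0 := by linarith
      field_simp
      ring
    linarith
  -- bounds for `R ℓ_i`
  have hterm : ∀ i ∈ Finset.Icc 1 j,
      a ^ (j - i) * Rop (Lop μ i k) u - a ^ (j - i) * Rop (Lop μ i k) v ≤
      O / ((Module.finrank ℝ V : ℝ) - 1) + a ^ (j - i) * (1 - kp (Module.finrank ℝ V) j i) * O := by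
    intro i hi
    have hadmi := hadm i hi
    rw [Finset.mem_Icc] at hi
    have hp : 0 ≤ a ^ (j - i) := pow_nonneg ha0 _
    have hp1 : a ^ (j - i) ≤ 1 := pow_le_one₀ ha0 ha1
    have hkp := kp_nonneg (i := i) hi.2 hjd
    have hkp1 := kp_le_one (i := i) hi.2 hjd
    have hOd : 0 ≤ O / ((Module.finrank ℝ V : ℝ) - 1) := div_nonneg hO (by linarith)
    have l1 : kp (Module.finrank ℝ V) j i * Rop (Rop k) v ≤ Rop (Lop μ i k) v := by
      rw [← Rop_smul]
      exact Rop_mono ((Rop_adm hk.adm).smul hkp) hadmi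
        (fun x => Lop_lower hμ hjd hi.1 hi.2 hk x) v
    have hadmi' : Adm (Lop μ i k') := Lop_adm hμ hi.1 (by omega) hk'.adm
    have l2 : kp (Module.finrank ℝ V) j i * Rop (Rop k') u ≤ Rop (Lop μ i k') u := by
      rw [← Rop_smul]
      exact Rop_mono ((Rop_adm hk'.adm).smul hkp) hadmi'
        (fun x => Lop_lower hμ hjd hi.1 hi.2 hk' x) u
    have l3 : Rop (Lop μ i k) u + Rop (Lop μ i k') u ≤ O := by
      rw [← Rop_add hadmi hadmi']
      have := Rop_mono (hadmi.add hadmi') (adm_norm.smul hO)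
        (fun x => by linarith [Lop_upper hμ hjd hi.1 hi.2 hk hk' hO hsum x]) u
      rw [Rop_smul, Rop_norm (by omega), hu] at this
      linarith
    have l4 := hRRsum u
    rw [hu] at l4
    have l5 : Rop (Lop μ i k) u - Rop (Lop μ i k) v ≤
        kp (Module.finrank ℝ V) j i * (Rop (Rop k) u - Rop (Rop k) v) +
        (1 - kp (Module.finrank ℝ V) j i) * O := by
      have : Rop (Rop k') u = O - Rop (Rop k) u := by linarith
      rw [this] at l2
      nlinarith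
    have l6 : kp (Module.finrank ℝ V) j i * (Rop (Rop k) u - Rop (Rop k) v) ≤
        kp (Module.finrank ℝ V) j i * (O / ((Module.finrank ℝ V : ℝ) - 1)) :=
      mul_le_mul_of_nonneg_left hRR hkp
    have l7 : a ^ (j - i) * (Rop (Lop μ i k) u - Rop (Lop μ i k) v) ≤ a ^ (j - i) *
        (kp (Module.finrank ℝ V) j i * (O / ((Module.finrank ℝ V : ℝ) - 1)) +
          (1 - kp (Module.finrank ℝ V) j i) * O) :=
      mul_le_mul_of_nonneg_left (by linarith) hp
    have l8 : a ^ (j - i) * (kp (Module.finrank ℝ V) j i * (O / ((Module.finrank ℝ V : ℝ) - 1))) ≤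
        1 * (1 * (O / ((Module.finrank ℝ V : ℝ) - 1))) :=
      mul_le_mul hp1 (mul_le_mul_of_nonneg_right hkp1 hOd) (mul_nonneg hkp hOd) zero_le_one
    nlinarith
  have hS := Finset.sum_le_sum hterm
  rw [Finset.sum_sub_distrib, Finset.sum_add_distrib, Finset.sum_const, Nat.card_Icc,
    ← Finset.sum_mul, nsmul_eq_mul] at hS
  have hgap := mul_le_mul_of_nonneg_right (sum_gap_le hj hd ha0 ha1) hO
  have e : ((j + 1 - 1 : ℕ) : ℝ) = j := by simp
  rw [e] at hS
  rw [hRB, hRB, hu, hv]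
  have e2 : (j / ((Module.finrank ℝ V : ℝ) - 1) +
      (j : ℝ) ^ 2 * ((j : ℝ) - 1) / (2 * ((Module.finrank ℝ V : ℝ) - j))) * O =
      j * (O / ((Module.finrank ℝ V : ℝ) - 1)) +
      (j : ℝ) ^ 2 * ((j : ℝ) - 1) / (2 * ((Module.finrank ℝ V : ℝ) - j)) * O := by
    ring
  rw [e2]
  linarith

end Pool.Agent.HP89
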