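import Pool.Agent.HP89.A10

/-! Module HP-A12: contraction over two steps; periodic chains are constant.

`hh (ν (n+1)) = c n * BB (ν n) j`, `∫ hh (ν n) dγ = m_{d-j}` (`Good.integral_hh`) and `BB_low`, `mean_Rop` give `c n ≤ κ⁻¹`, `κ = kp d j j`:
`m_{d-j} = c ∫ BB ≥ c κ ∫ Rop (hh) ≥ c κ m_{d-j}`.
If `Osc (hh (ν n)) O`: `Osc (hh (ν (n+1))) (κ⁻¹ j O)` and `Osc (Rop (hh (ν (n+1)))) (κ⁻¹ (j/(d-1) + E) O)` with
`E = j²(j-1)/(2(d-j))`, so `Osc (hh (ν (n+2))) (κ⁻¹ (j κ⁻¹(j/(d-1) + E) + E κ⁻¹ j) O) = θ O`, `θ < 1` (`theta_lt`).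
Hence `Osc (hh (ν (n + 2N))) (θ^N O)`; by periodicity `hh (ν (n + 2 m N)) = hh (ν n)`, so `Osc (hh (ν n)) 0`. An initial `O`
exists because `hh` is bounded on the sphere. -/

namespace Pool.Agent.HP89
open MeasureTheory ProbabilityTheory Set Filter Topology Metric
open scoped RealInnerProductSpace ENNReal

variable {V : Type*} [NormedAddCommGroup V] [InnerProductSpace ℝ V] [FiniteDimensional ℝ V]
  [MeasurableSpace V] [BorelSpace V]

theorem dynamic_c_le {j : ℕ} (hj : 1 ≤ j) (hd : j ^ 4 + 2 ≤ Module.finrank ℝ V) {μ μ' : Measure V}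
    (hμ : Good j μ) (hμ' : Good j μ') {c : ℝ} (hc : 0 < c) (hstep : ∀ x, hh μ' x = c * BB μ j x) :
    c ≤ (kp (Module.finrank ℝ V) j j)⁻¹ := by
  have hκ := kp_pos hj hd
  have hjd := two_mul_lt hj hd
  have hm : 0 < mG (Module.finrank ℝ V - j) := mG_pos (by omega)
  have h1 := hμ.integral_hh
  have h2 := hμ'.integral_hh
  have hB : Integrable (fun x => BB μ j x) (stdGaussian V) := by
    have : (fun x => BB μ j x) = fun x => c⁻¹ * hh μ' x := by
      funext x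
      rw [hstep x, ← mul_assoc, inv_mul_cancel₀ hc.ne', one_mul]
    rw [this]
    exact ((Hom1_hh hμ'.int).adm.integrable).const_mul _
  have hR : Integrable (fun x => Rop (hh μ) x) (stdGaussian V) :=
    (Rop_adm (Hom1_hh hμ.int).adm).integrable
  have h3 : ∫ x, hh μ' x ∂(stdGaussian V) = c * ∫ x, BB μ j x ∂(stdGaussian V) := by
    rw [← integral_const_mul]
    exact integral_congr_ae (Eventually.of_forall hstep)
  have h4 : kp (Module.finrank ℝ V) j j * ∫ x, Rop (hh μ) x ∂(stdGaussian V) ≤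
      ∫ x, BB μ j x ∂(stdGaussian V) := by
    rw [← integral_const_mul]
    exact integral_mono (hR.const_mul _) hB (fun x => BB_low hμ hj hjd x)
  have h5 := mean_Rop (by omega : 2 ≤ Module.finrank ℝ V) (Hom1_hh hμ.int)
  rw [h1] at h5
  rw [h2] at h3
  have h6 : kp (Module.finrank ℝ V) j j * mG (Module.finrank ℝ V - j) ≤
      ∫ x, BB μ j x ∂(stdGaussian V) := (mul_le_mul_of_nonneg_left h5 hκ.le).trans h4
  have h7 : c * (kp (Module.finrank ℝ V) j j * mG (Module.finrank ℝ V - j)) ≤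
      mG (Module.finrank ℝ V - j) := by
    conv_rhs => rw [h3]
    exact mul_le_mul_of_nonneg_left h6 hc.le
  have h8 : c * kp (Module.finrank ℝ V) j j ≤ 1 := by
    have : (c * kp (Module.finrank ℝ V) j j) * mG (Module.finrank ℝ V - j) ≤
        1 * mG (Module.finrank ℝ V - j) := by
      rw [one_mul, mul_assoc]
      exact h7
    exact le_of_mul_le_mul_right this hm
  rw [← one_div, le_div_iff₀ hκ]
  exact h8

omit [InnerProductSpace ℝ V] [FiniteDimensional ℝ V] [MeasurableSpace V] [BorelSpace V] in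
/-- scaling of oscillation bounds. -/
theorem Osc.scale {f g : V → ℝ} {c k O : ℝ} (h : Osc f O) (hg : ∀ x, g x = c * f x) (hc : 0 ≤ c)
    (hck : c ≤ k) (hO : 0 ≤ O) : Osc g (k * O) := by
  intro u v hu hv
  rw [hg, hg, ← mul_sub]
  exact (mul_le_mul_of_nonneg_left (h u v hu hv) hc).trans (mul_le_mul_of_nonneg_right hck hO)

/-- two steps contract the oscillation. -/
theorem dynamic_two {j : ℕ} (hj : 1 ≤ j) (hd : j ^ 4 + 2 ≤ Module.finrank ℝ V) {μ μ' μ'' : Measure V}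
    (hμ : Good j μ) (hμ' : Good j μ') (hμ'' : Good j μ'') {c c' : ℝ} (hc : 0 < c) (hc' : 0 < c')
    (hstep : ∀ x, hh μ' x = c * BB μ j x) (hstep' : ∀ x, hh μ'' x = c' * BB μ' j x)
    {O : ℝ} (hO : 0 ≤ O) (h : Osc (hh μ) O) :
    Osc (hh μ'') (((kp (Module.finrank ℝ V) j j)⁻¹) ^ 2 * ((j : ℝ) ^ 2 / ((Module.finrank ℝ V : ℝ) - 1) +
      (j : ℝ) ^ 3 * ((j : ℝ) - 1) / ((Module.finrank ℝ V : ℝ) - j)) * O) := by
  have hκ := kp_pos hj hd
  have hjd := two_mul_lt hj hd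
  have hc1 := dynamic_c_le hj hd hμ hμ' hc hstep
  have hc2 := dynamic_c_le hj hd hμ' hμ'' hc' hstep'
  have hj1 : (1 : ℝ) ≤ j := by exact_mod_cast hj
  have hdj : (2 : ℝ) * j < (Module.finrank ℝ V : ℝ) := by exact_mod_cast hjd
  have hd1 : 0 < (Module.finrank ℝ V : ℝ) - 1 := by linarith
  have hd2 : 0 < (Module.finrank ℝ V : ℝ) - j := by linarith
  have hj0 : 0 ≤ (j : ℝ) - 1 := by linarith
  have hκi : 0 ≤ (kp (Module.finrank ℝ V) j j)⁻¹ := inv_nonneg.mpr hκ.le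
  set κi := (kp (Module.finrank ℝ V) j j)⁻¹ with hκi_def
  set D := (Module.finrank ℝ V : ℝ) with hD_def
  have hE : 0 ≤ (j : ℝ) ^ 2 * ((j : ℝ) - 1) / (2 * (D - j)) := by positivity
  have hF : 0 ≤ (j : ℝ) / (D - 1) + (j : ℝ) ^ 2 * ((j : ℝ) - 1) / (2 * (D - j)) := by positivity
  have s1 : Osc (hh μ') (κi * ((j : ℝ) * O)) :=
    (one_step_trivial hμ hj hd hO h).scale hstep hc.le hc1 (by positivity)
  have s2 : Osc (Rop (hh μ')) (κi * (((j : ℝ) / (D - 1) +
      (j : ℝ) ^ 2 * ((j : ℝ) - 1) / (2 * (D - j))) * O)) := by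
    refine (one_step_R hμ hj hd hO h).scale (c := c) ?_ hc.le hc1 (mul_nonneg hF hO)
    intro x
    rw [show hh μ' = fun v => c * BB μ j v from funext hstep]
    exact Rop_smul _ _ _
  have s3 := one_step hμ' hj hd (O := κi * ((j : ℝ) * O)) (Q := κi * (((j : ℝ) / (D - 1) +
      (j : ℝ) ^ 2 * ((j : ℝ) - 1) / (2 * (D - j))) * O)) (by positivity)
      (mul_nonneg hκi (mul_nonneg hF hO)) s1 s2
  have s4 := s3.scale hstep' hc'.le hc2 (by positivity)
  have e : κi * ((j : ℝ) * (κi * (((j : ℝ) / (D - 1) +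
      (j : ℝ) ^ 2 * ((j : ℝ) - 1) / (2 * (D - j))) * O)) + (j : ℝ) ^ 2 * ((j : ℝ) - 1) / (2 * (D - j)) *
      (κi * ((j : ℝ) * O))) = κi ^ 2 * ((j : ℝ) ^ 2 / (D - 1) + (j : ℝ) ^ 3 * ((j : ℝ) - 1) / (D - j)) * O := by
    field_simp
    ring
  rw [← e]
  exact s4

theorem dynamic {j : ℕ} (hj : 1 ≤ j) (hd : j ^ 4 + 2 ≤ Module.finrank ℝ V) (ν : ℕ → Measure V)
    (hν : ∀ n, Good j (ν n)) (c : ℕ → ℝ) (hc : ∀ n, 0 < c n)
    (hstep : ∀ n x, hh (ν (n + 1)) x = c n * BB (ν n) j x) (m : ℕ) (hm : 1 ≤ m)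
    (hper : ∀ n x, hh (ν (n + m)) x = hh (ν n) x) (n : ℕ) (u v : V) (hu : ‖u‖ = 1) (hv : ‖v‖ = 1) :
    hh (ν n) u = hh (ν n) v := by
  have hjd := two_mul_lt hj hd
  have hj1 : (1 : ℝ) ≤ j := by exact_mod_cast hj
  have hdj : (2 : ℝ) * j < (Module.finrank ℝ V : ℝ) := by exact_mod_cast hjd
  have hd1 : 0 < (Module.finrank ℝ V : ℝ) - 1 := by linarith
  have hd2 : 0 < (Module.finrank ℝ V : ℝ) - j := by linarith
  have hj0 : 0 ≤ (j : ℝ) - 1 := by linarith
  set θ := ((kp (Module.finrank ℝ V) j j)⁻¹) ^ 2 * ((j : ℝ) ^ 2 / ((Module.finrank ℝ V : ℝ) - 1) +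
      (j : ℝ) ^ 3 * ((j : ℝ) - 1) / ((Module.finrank ℝ V : ℝ) - j)) with hθ_def
  have hθ1 : θ < 1 := theta_lt hj hd
  have hθ0 : 0 ≤ θ := by positivity
  obtain ⟨C, hC⟩ := (Hom1_hh (hν n).int).adm.bdd
  have hO : Osc (hh (ν n)) |C| := by
    intro a b ha _
    have h1 := hC a
    rw [ha, mul_one] at h1
    have h2 := (Hom1_hh (hν n).int).nn b
    have h3 := le_abs_self C
    linarith
  have hiter : ∀ N : ℕ, Osc (hh (ν (n + 2 * N))) (θ ^ N * |C|) := by
    intro N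
    induction N with
    | zero => simpa using hO
    | succ N ih =>
      have := dynamic_two hj hd (hν (n + 2 * N)) (hν (n + 2 * N + 1)) (hν (n + 2 * N + 1 + 1))
        (hc (n + 2 * N)) (hc (n + 2 * N + 1)) (hstep (n + 2 * N)) (hstep (n + 2 * N + 1))
        (by positivity) ih
      rw [← hθ_def] at this
      rw [show n + 2 * (N + 1) = n + 2 * N + 1 + 1 by ring, pow_succ', mul_assoc]
      exact this
  have hperN : ∀ (N n : ℕ) (x : V), hh (ν (n + m * N)) x = hh (ν n) x := by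
    intro N
    induction N with
    | zero => intro n x; simp
    | succ N ih =>
      intro n x
      rw [show n + m * (N + 1) = n + m * N + m by ring, hper, ih]
  have hosc : ∀ N : ℕ, Osc (hh (ν n)) (θ ^ (m * N) * |C|) := by
    intro N a b ha hb
    have h1 := hiter (m * N) a b ha hb
    rw [show n + 2 * (m * N) = n + m * (2 * N) by ring, hperN, hperN] at h1
    exact h1
  have hlim : Tendsto (fun N : ℕ => θ ^ (m * N) * |C|) atTop (𝓝 0) := by
    have h1 : Tendsto (fun N : ℕ => (θ ^ m) ^ N) atTop (𝓝 0) :=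
      tendsto_pow_atTop_nhds_zero_of_lt_one (by positivity) (pow_lt_one₀ hθ0 hθ1 (by omega))
    have h2 := h1.mul_const |C|
    rw [zero_mul] at h2
    refine h2.congr fun N => ?_
    rw [pow_mul]
  have hle : ∀ a b : V, ‖a‖ = 1 → ‖b‖ = 1 → hh (ν n) a ≤ hh (ν n) b := by
    intro a b ha hb
    have : hh (ν n) a - hh (ν n) b ≤ 0 :=
      ge_of_tendsto hlim (Eventually.of_forall fun N => hosc N a b ha hb)
    linarith
  exact le_antisymm (hle u v hu hv) (hle v u hv hu)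

end Pool.Agent.HP89
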