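import Pool.Agent.HP89.Defs

/-! Module HP-A1a: elementary facts on `ort`, `res`, `wn`.

`ort y z = z - (⟪y,z⟫/‖y‖²) y`. All by direct computation; `ort_eq`: `Submodule.starProjection_orthogonal`-type
lemmas (`z - starProjection (ℝ∙y) z`, and `Submodule.starProjection_singleton`), `res_eq` by induction on `X`:
for `F = (span X)ᗮ` and `x' = P_F x`: `P_{F ⊓ (ℝ∙x)ᗮ} g = ort x' (P_F g)` (check that `ort x' (P_F g)` lies in
`F` and is orthogonal to `x` and that `g - ort x' (P_F g) ∈ span (x :: X)`). -/

namespace Pool.Agent.HP89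
open MeasureTheory ProbabilityTheory Set Filter Topology Metric
open scoped RealInnerProductSpace ENNReal

variable {V : Type*} [NormedAddCommGroup V] [InnerProductSpace ℝ V]

@[simp] theorem ort_zero_left (z : V) : ort 0 z = z := by simp [ort]
theorem inner_ort (y z : V) : ⟪y, ort y z⟫ = 0 := by
  by_cases hy : y = 0
  · simp [hy]
  have hy' : ‖y‖ ^ 2 ≠ 0 := pow_ne_zero 2 (norm_ne_zero_iff.2 hy)
  rw [ort, inner_sub_right, inner_smul_right, real_inner_self_eq_norm_sq, div_mul_cancel₀ _ hy',
    sub_self]
theorem ort_add (y z w : V) : ort y (z + w) = ort y z + ort y w := by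
  simp only [ort, inner_add_right, add_div, add_smul]
  abel
theorem ort_smul (y z : V) (c : ℝ) : ort y (c • z) = c • ort y z := by
  simp only [ort, inner_smul_right, smul_sub, smul_smul, mul_div_assoc]
theorem ort_smul_left {c : ℝ} (hc : c ≠ 0) (y z : V) : ort (c • y) z = ort y z := by
  simp only [ort]
  congr 1
  rw [real_inner_smul_left, norm_smul, Real.norm_eq_abs, mul_pow, sq_abs, smul_smul]
  congr 1
  by_cases hy : y = 0
  · simp [hy]
  have hy' : ‖y‖ ≠ 0 := norm_ne_zero_iff.2 hy
  field_simp
theorem norm_ort_sq (y z : V) : ‖ort y z‖ ^ 2 = ‖z‖ ^ 2 - (⟪y, z⟫ / ‖y‖) ^ 2 := by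
  by_cases hy : y = 0
  · simp [hy]
  have hy' : ‖y‖ ≠ 0 := norm_ne_zero_iff.2 hy
  rw [ort, norm_sub_sq_real, inner_smul_right, norm_smul, real_inner_comm, Real.norm_eq_abs,
    mul_pow, sq_abs]
  field_simp
  ring
theorem norm_ort_le (y z : V) : ‖ort y z‖ ≤ ‖z‖ := by
  have h := norm_ort_sq y z
  have h2 : 0 ≤ (⟪y, z⟫ / ‖y‖) ^ 2 := sq_nonneg _
  have h3 : ‖ort y z‖ ^ 2 ≤ ‖z‖ ^ 2 := by linarith
  exact (pow_le_pow_iff_left₀ (norm_nonneg _) (norm_nonneg _) two_ne_zero).1 h3
/-- `|y|² |P_{y^⊥} z|² = |y|²|z|² - ⟪y,z⟫²`. -/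
theorem norm_mul_norm_ort (y z : V) : (‖y‖ * ‖ort y z‖) ^ 2 = ‖y‖ ^ 2 * ‖z‖ ^ 2 - ⟪y, z⟫ ^ 2 := by
  rw [mul_pow, norm_ort_sq]
  by_cases hy : y = 0
  · simp [hy]
  have hy' : ‖y‖ ≠ 0 := norm_ne_zero_iff.2 hy
  field_simp
theorem ort_eq [FiniteDimensional ℝ V] (y z : V) : ort y z = (ℝ ∙ y)ᗮ.starProjection z := by
  rw [Submodule.starProjection_orthogonal_val, Submodule.starProjection_singleton]
  simp [ort]

theorem res_add (X : List V) (g h : V) : res X (g + h) = res X g + res X h := by
  induction X with
  | nil => rfl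
  | cons x X ih =>
    change ort (res X x) (res X (g + h)) = ort (res X x) (res X g) + ort (res X x) (res X h)
    rw [ih, ort_add]
theorem res_smul (X : List V) (c : ℝ) (g : V) : res X (c • g) = c • res X g := by
  induction X with
  | nil => rfl
  | cons x X ih =>
    change ort (res X x) (res X (c • g)) = c • ort (res X x) (res X g)
    rw [ih, ort_smul]
@[simp] theorem res_nil (g : V) : res [] g = g := rfl
theorem res_cons (x : V) (X : List V) (g : V) : res (x :: X) g = ort (res X x) (res X g) := rfl
theorem norm_res_le (X : List V) (g : V) : ‖res X g‖ ≤ ‖g‖ := by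
  induction X with
  | nil => exact le_rfl
  | cons x X ih => exact (norm_ort_le _ _).trans ih
theorem res_smul_cons {c : ℝ} (hc : c ≠ 0) (x : V) (X : List V) (g : V) :
    res (c • x :: X) g = res (x :: X) g := by
  rw [res_cons, res_cons, res_smul, ort_smul_left hc]
theorem continuous_ort (y : V) : Continuous (ort y) := by
  unfold ort
  fun_prop
theorem continuous_res (X : List V) : Continuous (res X) := by
  induction X with
  | nil => exact continuous_id
  | cons x X ih => exact (continuous_ort (res X x)).comp ih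
/-- `res X` is the orthogonal projection to the orthogonal complement of the span of `X`. -/
theorem res_eq [FiniteDimensional ℝ V] (X : List V) (g : V) :
    res X g = (Submodule.span ℝ {x | x ∈ X})ᗮ.starProjection g := by
  induction X generalizing g with
  | nil =>
    symm
    rw [res_nil, Submodule.starProjection_eq_self_iff]
    simp
  | cons x X ih =>
    rw [res_cons, ih x, ih g]
    set S := Submodule.span ℝ {y | y ∈ X} with hS
    set S' := Submodule.span ℝ {y | y ∈ x :: X} with hS'
    set x' := Sᗮ.starProjection x with hx'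
    set g' := Sᗮ.starProjection g with hg'
    have hSS' : S ≤ S' := Submodule.span_mono (fun y hy => List.mem_cons_of_mem x hy)
    have hxS' : x ∈ S' := Submodule.subset_span (List.mem_cons_self)
    have hx'S : x' ∈ Sᗮ := Submodule.starProjection_apply_mem _ _
    have hg'S : g' ∈ Sᗮ := Submodule.starProjection_apply_mem _ _
    have hvS : ort x' g' ∈ Sᗮ := Submodule.sub_mem _ hg'S (Submodule.smul_mem _ _ hx'S)
    have hxx : x - x' ∈ Sᗮᗮ := Submodule.sub_starProjection_mem_orthogonal x
    have hgg : g - g' ∈ Sᗮᗮ := Submodule.sub_starProjection_mem_orthogonal g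
    have hperp : ∀ w ∈ Sᗮ, ⟪w, x⟫ = ⟪w, x'⟫ := by
      intro w hw
      have := hxx w hw
      rw [inner_sub_right] at this
      linarith
    symm
    refine Submodule.eq_starProjection_of_mem_orthogonal ?_ ?_
    · have h1 : S' ≤ (Submodule.span ℝ {ort x' g'})ᗮ := by
        rw [hS', Submodule.span_le]
        intro y hy
        rw [SetLike.mem_coe, Submodule.mem_orthogonal_singleton_iff_inner_left]
        rcases List.mem_cons.1 hy with h | h
        · rw [h, real_inner_comm, hperp _ hvS, real_inner_comm, inner_ort]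
        · exact hvS y (Submodule.subset_span h)
      intro u hu
      exact Submodule.mem_orthogonal_singleton_iff_inner_left.1 (h1 hu)
    · intro w hw
      have hwS : w ∈ Sᗮ := Submodule.orthogonal_le hSS' hw
      have h1 : ⟪w, g - g'⟫ = 0 := hgg w hwS
      have h2 : ⟪w, x'⟫ = 0 := by
        rw [← hperp w hwS, real_inner_comm]
        exact hw x hxS'
      have h3 : g - ort x' g' = (g - g') + (⟪x', g'⟫ / ‖x'‖ ^ 2) • x' := by
        rw [ort]
        abel
      rw [h3, inner_add_right, inner_smul_right, h1, h2]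
      simp
/-- self-adjoint. -/
theorem inner_res [FiniteDimensional ℝ V] (X : List V) (g h : V) : ⟪res X g, h⟫ = ⟪g, res X h⟫ := by
  rw [res_eq, res_eq, Submodule.inner_starProjection_left_eq_right]
theorem res_perm [FiniteDimensional ℝ V] {X Y : List V} (h : X.Perm Y) (g : V) : res X g = res Y g := by
  have h1 : {x | x ∈ X} = {x | x ∈ Y} := by
    ext x
    exact h.mem_iff
  rw [res_eq, res_eq, h1]

@[simp] theorem wn_nil : wn ([] : List V) = 1 := rfl
theorem wn_cons (x : V) (X : List V) : wn (x :: X) = wn X * ‖res X x‖ := rfl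
@[simp] theorem wn_singleton (x : V) : wn [x] = ‖x‖ := by simp [wn]
theorem wn_nonneg (X : List V) : 0 ≤ wn X := by
  induction X with
  | nil => exact zero_le_one
  | cons x X ih => exact mul_nonneg ih (norm_nonneg _)
theorem wn_smul_cons (c : ℝ) (x : V) (X : List V) : wn (c • x :: X) = |c| * wn (x :: X) := by
  rw [wn_cons, wn_cons, res_smul, norm_smul, Real.norm_eq_abs]
  ring
theorem wn_le_prod (X : List V) : wn X ≤ (X.map (fun x => ‖x‖)).prod := by
  induction X with
  | nil => simp
  | cons x X ih =>
    rw [wn_cons, List.map_cons, List.prod_cons, mul_comm]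
    exact mul_le_mul (norm_res_le X x) ih (wn_nonneg X) (norm_nonneg x)

end Pool.Agent.HP89
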