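import Pool.Agent.HP89.A1a

/-! Module HP-A1b: symmetry of `wn`, adding a vector at the end, isometries.

* `wn_perm`: induction on `List.Perm`. `swap`: with `x' = res X x`, `y' = res X y`,
  `wn (y :: x :: X) = wn X ‖x'‖ ‖ort x' y'‖`, and `norm_mul_norm_ort` is symmetric in `x', y'`. `cons`: `res_perm`.
* `wn_append_singleton`: by `wn_perm` and induction, or directly: `wn (X ++ [y]) = ‖y‖ * wn (X.map (ort y))`. For this
  `res (X ++ [y]) x = res (X.map (ort y)) (ort y x)` (induction on `X`, all formulas are the same since
  `res ((x :: X) ++ [y]) g = ort (res (X++[y]) x) (res (X++[y]) g)`; base case `res [y] g = ort y g`).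
* `res_map`, `wn_map`: a linear isometry commutes with `ort`. -/

namespace Pool.Agent.HP89
open MeasureTheory ProbabilityTheory Set Filter Topology Metric
open scoped RealInnerProductSpace ENNReal

variable {V : Type*} [NormedAddCommGroup V] [InnerProductSpace ℝ V]

theorem wn_perm [FiniteDimensional ℝ V] {X Y : List V} (h : X.Perm Y) : wn X = wn Y := by
  induction h with
  | nil => rfl
  | cons x h ih => rw [wn_cons, wn_cons, ih, res_perm h]
  | swap x y X =>
    have key : ‖res X x‖ * ‖ort (res X x) (res X y)‖ = ‖res X y‖ * ‖ort (res X y) (res X x)‖ := by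
      have h1 := norm_mul_norm_ort (res X x) (res X y)
      have h2 := norm_mul_norm_ort (res X y) (res X x)
      rw [real_inner_comm (res X x) (res X y)] at h2
      have h3 : (‖res X x‖ * ‖ort (res X x) (res X y)‖) ^ 2 =
          (‖res X y‖ * ‖ort (res X y) (res X x)‖) ^ 2 := by
        rw [h1, h2]
        ring
      exact (sq_eq_sq₀ (by positivity) (by positivity)).mp h3
    rw [wn_cons, wn_cons, wn_cons, wn_cons, res_cons, res_cons, mul_assoc, mul_assoc, key]
  | trans _ _ ih1 ih2 => exact ih1.trans ih2

theorem res_append_singleton (X : List V) (y g : V) :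
    res (X ++ [y]) g = res (X.map (ort y)) (ort y g) := by
  induction X generalizing g with
  | nil => rfl
  | cons x X ih =>
    rw [List.cons_append, List.map_cons, res_cons, res_cons, ih, ih]

theorem wn_append_singleton (X : List V) (y : V) : wn (X ++ [y]) = ‖y‖ * wn (X.map (ort y)) := by
  induction X with
  | nil => simp
  | cons x X ih =>
    rw [List.cons_append, List.map_cons, wn_cons, wn_cons, ih, res_append_singleton, mul_assoc]

theorem res_map {W : Type*} [NormedAddCommGroup W] [InnerProductSpace ℝ W] (f : V →ₗᵢ[ℝ] W) (X : List V)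
    (g : V) : res (X.map f) (f g) = f (res X g) := by
  induction X generalizing g with
  | nil => rfl
  | cons x X ih =>
    rw [List.map_cons, res_cons, res_cons, ih, ih]
    unfold ort
    rw [f.inner_map_map, f.norm_map, map_sub, map_smul]

theorem wn_map {W : Type*} [NormedAddCommGroup W] [InnerProductSpace ℝ W] (f : V →ₗᵢ[ℝ] W) (X : List V) :
    wn (X.map f) = wn X := by
  induction X with
  | nil => rfl
  | cons x X ih => rw [List.map_cons, wn_cons, wn_cons, ih, res_map, f.norm_map]

/-- the form used for shadows. -/
theorem wn_append_singleton' [FiniteDimensional ℝ V] (X : List V) (y : V) :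
    wn (X ++ [y]) = ‖y‖ * wn (X.map (fun x => (ℝ ∙ y)ᗮ.orthogonalProjectionOnto x)) := by
  rw [wn_append_singleton, ← wn_map (ℝ ∙ y)ᗮ.subtypeₗᵢ, List.map_map]
  congr 2
  refine List.map_congr_left fun x _ => ?_
  rw [ort_eq]
  rfl

theorem wn_zero_mem {X : List V} (h : (0 : V) ∈ X) : wn X = 0 := by
  induction X with
  | nil => simp at h
  | cons x X ih =>
    rw [wn_cons]
    rcases List.mem_cons.mp h with h | h
    · have h0 : res X (0 : V) = 0 := by
        have := res_smul X 0 (0 : V)
        rwa [zero_smul, zero_smul] at this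
      rw [← h, h0, norm_zero, mul_zero]
    · rw [ih h, zero_mul]

end Pool.Agent.HP89
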