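import Pool.Agent.HP89.A3a

/-! Module HP-A5: the tilt identity.

One dimension: `gaussianReal 0 1` has density `(2π)^{-1/2} exp(-x²/2)`; for `0 < s` and `φ : ℝ → ℝ≥0∞` measurable
`∫⁻ exp(-(s⁻² - 1) x²/2) φ(x) dN(0,1) = s ∫⁻ φ(s x) dN(0,1)` (substitution `x = s y`, `lintegral` of a density,
`Measure.map_smul`-scaling of `volume` on `ℝ`).
`tilt`: apply `map_split_sub` with `e = y/‖y‖` to both sides: `⟪y, x e + ort e (P_F g)⟫ = ‖y‖ x`;
`s = ε/√(ε² + ‖y‖²)` satisfies `s⁻² - 1 = ‖y‖²/ε²`; `ort y (x e + ort e z) = ort e z`, so the point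
`ort y w + s (⟪y,w⟫/‖y‖²) y` for `w = x e + ort e z` is `s x e + ort e z`. For `y = 0` both sides agree (`s = 1`). -/

namespace Pool.Agent.HP89
open MeasureTheory ProbabilityTheory Set Filter Topology Metric
open scoped RealInnerProductSpace ENNReal

theorem tilt_real {s : ℝ} (hs : 0 < s) {φ : ℝ → ℝ≥0∞} (hφ : Measurable φ) :
    ∫⁻ x, ENNReal.ofReal (Real.exp (-((s ^ 2)⁻¹ - 1) * x ^ 2 / 2)) * φ x ∂(gaussianReal 0 1) =
      ENNReal.ofReal s * ∫⁻ x, φ (s * x) ∂(gaussianReal 0 1) := by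
  have h1 : (1 : NNReal) ≠ 0 := one_ne_zero
  rw [gaussianReal_of_var_ne_zero 0 h1]
  have hm1 : Measurable (fun x : ℝ =>
      ENNReal.ofReal (Real.exp (-((s ^ 2)⁻¹ - 1) * x ^ 2 / 2)) * φ x) := by fun_prop
  have hm2 : Measurable (fun x : ℝ => φ (s * x)) := by fun_prop
  rw [lintegral_withDensity_eq_lintegral_mul _ (measurable_gaussianPDF 0 1) hm1,
    lintegral_withDensity_eq_lintegral_mul _ (measurable_gaussianPDF 0 1) hm2]
  set h : ℝ → ℝ≥0∞ := fun x => gaussianPDF 0 1 (s⁻¹ * x) * φ x with hh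
  have hmh : Measurable h := by
    rw [hh]
    exact ((measurable_gaussianPDF 0 1).comp (measurable_const.mul measurable_id)).mul hφ
  have e1 : ∀ x : ℝ, (gaussianPDF 0 1 * fun x : ℝ =>
      ENNReal.ofReal (Real.exp (-((s ^ 2)⁻¹ - 1) * x ^ 2 / 2)) * φ x) x = h x := by
    intro x
    rw [hh]
    simp only [Pi.mul_apply]
    rw [← mul_assoc]
    congr 1
    unfold gaussianPDF
    rw [← ENNReal.ofReal_mul (gaussianPDFReal_nonneg 0 1 x)]
    congr 1
    unfold gaussianPDFReal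
    rw [mul_assoc, ← Real.exp_add]
    congr 2
    have hs' : s ≠ 0 := hs.ne'
    push_cast
    field_simp
    ring
  have e2 : ∀ x : ℝ, (gaussianPDF 0 1 * fun x : ℝ => φ (s * x)) x = h (s * x) := by
    intro x
    rw [hh]
    simp only [Pi.mul_apply]
    rw [← mul_assoc, inv_mul_cancel₀ hs.ne', one_mul]
  rw [lintegral_congr e1, lintegral_congr e2]
  have e3 : ∫⁻ x, h x = ∫⁻ x, h x ∂(ENNReal.ofReal |s| • Measure.map (s * ·) volume) := by
    rw [Real.smul_map_volume_mul_left hs.ne']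
  rw [e3, lintegral_smul_measure, abs_of_pos hs, smul_eq_mul,
    lintegral_map hmh (measurable_const_mul s)]

variable {V : Type*} [NormedAddCommGroup V] [InnerProductSpace ℝ V] [FiniteDimensional ℝ V]
  [MeasurableSpace V] [BorelSpace V]

theorem tilt (F : Submodule ℝ V) {y : V} (hy : y ∈ F) {ε : ℝ} (hε : 0 < ε) {Φ : V → ℝ≥0∞} (hΦ : Measurable Φ) :
    ∫⁻ g, ENNReal.ofReal (Real.exp (-⟪y, F.starProjection g⟫ ^ 2 / (2 * ε ^ 2))) * Φ (F.starProjection g)
        ∂(stdGaussian V) =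
      ENNReal.ofReal (ε / √(ε ^ 2 + ‖y‖ ^ 2)) *
        ∫⁻ g, Φ (ort y (F.starProjection g) +
          (ε / √(ε ^ 2 + ‖y‖ ^ 2) * (⟪y, F.starProjection g⟫ / ‖y‖ ^ 2)) • y) ∂(stdGaussian V) := by
  rcases eq_or_ne y 0 with rfl | hy0
  · have h1 : √(ε ^ 2 + ‖(0 : V)‖ ^ 2) = ε := by
      rw [norm_zero, zero_pow two_ne_zero, add_zero, Real.sqrt_sq hε.le]
    rw [h1, div_self hε.ne']
    simp only [inner_zero_left, ort, norm_zero, smul_zero, sub_zero, add_zero, ne_eq,
      OfNat.ofNat_ne_zero, not_false_eq_true, zero_pow, neg_zero, zero_div, Real.exp_zero,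
      ENNReal.ofReal_one, one_mul]
  have hn : 0 < ‖y‖ := norm_pos_iff.mpr hy0
  set s : ℝ := ε / √(ε ^ 2 + ‖y‖ ^ 2) with hs
  have hq : 0 < ε ^ 2 + ‖y‖ ^ 2 := by positivity
  have hs0 : 0 < s := by rw [hs]; positivity
  have hs2 : (s ^ 2)⁻¹ - 1 = ‖y‖ ^ 2 / ε ^ 2 := by
    rw [hs, div_pow, Real.sq_sqrt hq.le]
    field_simp
    ring
  set e : V := ‖y‖⁻¹ • y with he
  have hye : y = ‖y‖ • e := by
    rw [he, smul_smul, mul_inv_cancel₀ hn.ne', one_smul]
  have hen : ‖e‖ = 1 := by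
    rw [he, norm_smul, norm_inv, norm_norm, inv_mul_cancel₀ hn.ne']
  have heF : e ∈ F := by rw [he]; exact F.smul_mem _ hy
  have hee : ⟪e, e⟫ = 1 := by rw [real_inner_self_eq_norm_sq, hen]; norm_num
  have hsplit := map_split_sub F hen heF
  -- orthogonality
  have horte : ∀ w : V, ⟪y, ort e w⟫ = 0 := by
    intro w
    have h1 : ⟪e, ort e w⟫ = 0 := by
      unfold ort
      rw [inner_sub_right, inner_smul_right, hee, hen]
      ring
    rw [hye, inner_smul_left, h1]
    simp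
  have hinner : ∀ (x : ℝ) (w : V), ⟪y, x • e + ort e w⟫ = ‖y‖ * x := by
    intro x w
    rw [inner_add_right, horte, inner_smul_right, add_zero]
    have : ⟪y, e⟫ = ‖y‖ := by
      conv_lhs => rw [hye]
      rw [inner_smul_left, hee]
      simp
    rw [this]; ring
  have hort : ∀ (x : ℝ) (w : V), ort y (x • e + ort e w) = ort e w := by
    intro x w
    have h1 : ort y (x • e + ort e w) =
        x • e + ort e w - (⟪y, x • e + ort e w⟫ / ‖y‖ ^ 2) • y := rfl
    rw [h1, hinner]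
    have h2 : (‖y‖ * x / ‖y‖ ^ 2) • y = x • e := by
      rw [he, smul_smul]
      congr 1
      field_simp
    rw [h2]; abel
  have hortm : ∀ (u : V), Measurable (fun w : V => ort u w) := by
    intro u
    unfold ort
    fun_prop
  have hPm : Measurable (fun g : V => F.starProjection g) := F.starProjection.continuous.measurable
  have hmap : Measurable (fun p : ℝ × V => p.1 • e + ort e (F.starProjection p.2)) := by
    have h1 : Measurable (fun p : ℝ × V => ort e (F.starProjection p.2)) :=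
      (hortm e).comp (hPm.comp measurable_snd)
    have h2 : Measurable (fun p : ℝ × V => p.1 • e) := by fun_prop
    exact h2.add h1
  -- transfer
  have key : ∀ ψ : V → ℝ≥0∞, Measurable ψ → ∫⁻ g, ψ (F.starProjection g) ∂(stdGaussian V) =
      ∫⁻ g, ∫⁻ x, ψ (x • e + ort e (F.starProjection g)) ∂(gaussianReal 0 1) ∂(stdGaussian V) := by
    intro ψ hψ
    have h1 : ∫⁻ g, ψ (F.starProjection g) ∂(stdGaussian V) =
        ∫⁻ w, ψ w ∂((stdGaussian V).map (fun g => F.starProjection g)) :=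
      (lintegral_map hψ hPm).symm
    rw [h1, ← hsplit, lintegral_map hψ hmap]
    exact lintegral_prod_symm' _ (hψ.comp hmap)
  have hψ1 : Measurable (fun w : V =>
      ENNReal.ofReal (Real.exp (-⟪y, w⟫ ^ 2 / (2 * ε ^ 2))) * Φ w) := by
    have : Measurable (fun w : V => ⟪y, w⟫) := by fun_prop
    fun_prop
  have hψ2 : Measurable (fun w : V => Φ (ort y w + (s * (⟪y, w⟫ / ‖y‖ ^ 2)) • y)) := by
    have h1 : Measurable (fun w : V => (s * (⟪y, w⟫ / ‖y‖ ^ 2)) • y) := by fun_prop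
    exact hΦ.comp ((hortm y).add h1)
  rw [key _ hψ1, key _ hψ2]
  rw [← lintegral_const_mul' _ _ ENNReal.ofReal_ne_top]
  refine lintegral_congr (fun g => ?_)
  set z : V := ort e (F.starProjection g) with hz
  have hφm : Measurable (fun x : ℝ => Φ (x • e + z)) := by
    have h1 : Measurable (fun x : ℝ => x • e + z) := by fun_prop
    exact hΦ.comp h1
  have ht := tilt_real hs0 hφm
  have hL : ∀ x : ℝ, ENNReal.ofReal (Real.exp (-⟪y, x • e + z⟫ ^ 2 / (2 * ε ^ 2))) * Φ (x • e + z) =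
      ENNReal.ofReal (Real.exp (-((s ^ 2)⁻¹ - 1) * x ^ 2 / 2)) * Φ (x • e + z) := by
    intro x
    rw [hz, hinner, hs2]
    congr 3
    field_simp
  have hR : ∀ x : ℝ, Φ (ort y (x • e + z) + (s * (⟪y, x • e + z⟫ / ‖y‖ ^ 2)) • y) =
      Φ ((s * x) • e + z) := by
    intro x
    rw [hz, hinner, hort]
    congr 1
    have h2 : (s * (‖y‖ * x / ‖y‖ ^ 2)) • y = (s * x) • e := by
      rw [he, smul_smul]
      congr 1
      field_simp
    rw [h2, add_comm]
  rw [lintegral_congr hL, lintegral_congr hR]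
  exact ht

end Pool.Agent.HP89
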