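import Pool.Agent.HP89.A6b

/-! Module HP-A6: Lemma M.

From `JM_lower` and `JM_tendsto` (let `ε = 1/(n+1) → 0`): the left side of `JM_lower` converges to
`(e+f-1-d) E[G(P_F g)/‖P_F g‖]` (monotone or dominated convergence: `G w/√(ε²+‖w‖²) ≤ C`; at `w = 0` everything is `0`),
and `E[G(P_F g)/‖P_F g‖] = E G(P_F g)/m_f` (`radial_sub`, `finrank F ≥ 1` because `finrank E ≤ finrank V`). -/

namespace Pool.Agent.HP89
open MeasureTheory ProbabilityTheory Set Filter Topology Metric
open scoped RealInnerProductSpace ENNReal

variable {V : Type*} [NormedAddCommGroup V] [InnerProductSpace ℝ V] [FiniteDimensional ℝ V]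
  [MeasurableSpace V] [BorelSpace V]

theorem lemmaM (E F : Submodule ℝ V) {G : V → ℝ} (hG : Hom1 G)
    (h : Module.finrank ℝ V + 1 ≤ Module.finrank ℝ E + Module.finrank ℝ F) :
    ENNReal.ofReal (((Module.finrank ℝ E : ℝ) + Module.finrank ℝ F - 1 - Module.finrank ℝ V) /
        mG (Module.finrank ℝ F)) *
      ∫⁻ g, ENNReal.ofReal (G (F.starProjection g)) ∂(stdGaussian V) ≤
    ∫⁻ ξ, ENNReal.ofReal ‖F.starProjection (E.starProjection ξ)‖ *
        ∫⁻ g, ENNReal.ofReal (G (ort (F.starProjection (E.starProjection ξ)) (F.starProjection g)))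
          ∂(stdGaussian V) ∂(stdGaussian V) := by
  obtain ⟨C, hC0, hC⟩ := hG.bound
  have hG0 : G 0 = 0 := by
    have := hG.hom 0 le_rfl 0
    simpa using this
  have hE : Module.finrank ℝ E ≤ Module.finrank ℝ V := Submodule.finrank_le E
  have hF : 1 ≤ Module.finrank ℝ F := by omega
  have hm : 0 < mG (Module.finrank ℝ F) := mG_pos hF
  set c : ℝ := (Module.finrank ℝ E : ℝ) + Module.finrank ℝ F - 1 - Module.finrank ℝ V with hc
  have hc0 : 0 ≤ c := by
    have h1 : (Module.finrank ℝ V : ℝ) + 1 ≤ (Module.finrank ℝ E : ℝ) + Module.finrank ℝ F := by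
      exact_mod_cast h
    linarith
  have hPc : Continuous (fun g : V => F.starProjection g) := F.starProjection.continuous
  have hGP : Continuous (fun g : V => G (F.starProjection g)) := hG.cont.comp hPc
  -- convergence of the left side
  have hlim : Tendsto (fun n : ℕ => ∫⁻ g, ENNReal.ofReal (G (F.starProjection g) /
      √((1 / ((n : ℝ) + 1)) ^ 2 + ‖F.starProjection g‖ ^ 2)) ∂(stdGaussian V)) atTop
      (𝓝 (∫⁻ g, ENNReal.ofReal (G (F.starProjection g) / ‖F.starProjection g‖) ∂(stdGaussian V))) := by
    apply tendsto_lintegral_of_dominated_convergence (fun _ => ENNReal.ofReal C)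
    · intro n
      apply Measurable.ennreal_ofReal
      apply Measurable.div hGP.measurable
      exact (Real.continuous_sqrt.comp (continuous_const.add (hPc.norm.pow 2))).measurable
    · intro n
      filter_upwards with g
      apply ENNReal.ofReal_le_ofReal
      have hpos : 0 < √((1 / ((n : ℝ) + 1)) ^ 2 + ‖F.starProjection g‖ ^ 2) := by
        apply Real.sqrt_pos.2
        positivity
      rw [div_le_iff₀ hpos]
      refine (hC _).trans ?_
      apply mul_le_mul_of_nonneg_left _ hC0
      apply Real.le_sqrt_of_sq_le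
      have : 0 ≤ (1 / ((n : ℝ) + 1)) ^ 2 := by positivity
      linarith
    · rw [lintegral_const, measure_univ, mul_one]
      exact ENNReal.ofReal_ne_top
    · filter_upwards with g
      apply ENNReal.tendsto_ofReal
      by_cases hw : F.starProjection g = 0
      · rw [hw, hG0]
        simp
      · have hw' : ‖F.starProjection g‖ ≠ 0 := norm_ne_zero_iff.2 hw
        apply Tendsto.div tendsto_const_nhds _ hw'
        have h1 : Tendsto (fun n : ℕ => √((1 / ((n : ℝ) + 1)) ^ 2 + ‖F.starProjection g‖ ^ 2)) atTop
            (𝓝 (√(0 ^ 2 + ‖F.starProjection g‖ ^ 2))) := by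
          apply (Real.continuous_sqrt.tendsto _).comp
          exact (tendsto_one_div_add_atTop_nhds_zero_nat.pow 2).add tendsto_const_nhds
        have h2 : √(0 ^ 2 + ‖F.starProjection g‖ ^ 2) = ‖F.starProjection g‖ := by
          rw [zero_pow two_ne_zero, zero_add]
          exact Real.sqrt_sq (norm_nonneg _)
        rw [h2] at h1
        exact h1
  have hlim2 := ENNReal.Tendsto.const_mul (a := ENNReal.ofReal c) hlim
    (Or.inr ENNReal.ofReal_ne_top)
  have hle := le_of_tendsto_of_tendsto' hlim2 (JM_tendsto E F hG) (fun n =>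
    JM_lower E F hG (by positivity) h)
  refine le_trans (le_of_eq ?_) hle
  -- the identity `radial_sub`
  have hint1 : Integrable (fun g : V => G (F.starProjection g)) (stdGaussian V) := by
    refine Integrable.mono' (integrable_norm_gaussian.const_mul C) hGP.aestronglyMeasurable ?_
    filter_upwards with g
    rw [Real.norm_of_nonneg (hG.nn _)]
    refine (hC _).trans ?_
    exact mul_le_mul_of_nonneg_left (F.norm_starProjection_apply_le g) hC0
  have hint2 : Integrable (fun g : V => G (F.starProjection g) / ‖F.starProjection g‖)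
      (stdGaussian V) := by
    refine Integrable.mono' (integrable_const C) (hGP.measurable.div hPc.norm.measurable).aestronglyMeasurable ?_
    filter_upwards with g
    rw [Real.norm_of_nonneg (div_nonneg (hG.nn _) (norm_nonneg _))]
    by_cases hw : F.starProjection g = 0
    · rw [hw, hG0]
      simpa using hC0
    · rw [div_le_iff₀ (norm_pos_iff.2 hw)]
      exact hC _
  have e1 := ofReal_integral_eq_lintegral_ofReal hint1 (Eventually.of_forall fun g => hG.nn _)
  have e2 := ofReal_integral_eq_lintegral_ofReal hint2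
    (Eventually.of_forall fun g => div_nonneg (hG.nn _) (norm_nonneg _))
  rw [← e1, ← e2, radial_sub hG F hF, ← ENNReal.ofReal_mul (div_nonneg hc0 hm.le),
    ← ENNReal.ofReal_mul hc0]
  congr 1
  field_simp

end Pool.Agent.HP89
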