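import Pool.Agent.HP89.A5
import Pool.Agent.HP89.A3b
import Pool.Agent.HP89.A2a

/-! Module HP-A6a: Lemma M, first half (integrate `g` first, then `ε → 0`).

`JM E F G ε = ∫⁻ ξ ∫⁻ g ε⁻¹ exp(-⟪P_F g, P_E ξ⟫²/(2ε²)) ‖P_F P_E ξ‖² G(P_F g)`.
With `y = P_F P_E ξ ∈ F` one has `⟪P_F g, P_E ξ⟫ = ⟪y, P_F g⟫`, so by `tilt` the inner integral equals
`‖y‖² (ε² + ‖y‖²)^{-1/2} ∫⁻ G(ort y (P_F g) + (s ⟪y, P_F g⟫/‖y‖²) y)`, `s = ε/√(ε²+‖y‖²) ≤ 1`.
`G v ≤ C ‖v‖` (`Hom1`, compactness of the sphere), and `‖ort y w + s(⟪y,w⟫/‖y‖²) y‖ ≤ ‖w‖`; so the integrand (as a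
function of `(ξ, g)`) is at most `C ‖y‖ ‖P_F g‖`, integrable for `γ ⊗ γ`. As `ε → 0+`, `s → 0` (`y ≠ 0`) and
`‖y‖²(ε²+‖y‖²)^{-1/2} → ‖y‖`, `G` continuous: dominated convergence (`tendsto_lintegral_filter_of_dominated_convergence`, or
along the sequence `ε = 1/(n+1)`). -/

namespace Pool.Agent.HP89
open MeasureTheory ProbabilityTheory Set Filter Topology Metric
open scoped RealInnerProductSpace ENNReal

variable {V : Type*} [NormedAddCommGroup V] [InnerProductSpace ℝ V] [FiniteDimensional ℝ V]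
  [MeasurableSpace V] [BorelSpace V]

theorem Hom1.bound {G : V → ℝ} (hG : Hom1 G) : ∃ C, 0 ≤ C ∧ ∀ x, G x ≤ C * ‖x‖ := by
  have hc : IsCompact (Metric.sphere (0 : V) 1) := isCompact_sphere 0 1
  obtain ⟨C, hC⟩ := (hc.image hG.cont).bddAbove
  refine ⟨max C 0, le_max_right _ _, fun x => ?_⟩
  by_cases hx : x = 0
  · have h0 : G x = 0 := by
      have := hG.hom 0 le_rfl 0
      simp only [zero_smul, zero_mul] at this
      rw [hx]; exact this
    rw [h0, hx]; simp
  · have hxn : 0 < ‖x‖ := norm_pos_iff.2 hx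
    have h1 : G x = ‖x‖ * G (‖x‖⁻¹ • x) := by
      rw [hG.hom _ (by positivity)]
      field_simp
    have h2 : G (‖x‖⁻¹ • x) ≤ C := by
      apply hC
      refine ⟨‖x‖⁻¹ • x, ?_, rfl⟩
      rw [mem_sphere_zero_iff_norm, norm_smul, norm_inv, norm_norm]
      field_simp
    rw [h1, mul_comm]
    exact mul_le_mul_of_nonneg_right (h2.trans (le_max_left _ _)) hxn.le

noncomputable def JM (E F : Submodule ℝ V) (G : V → ℝ) (ε : ℝ) : ℝ≥0∞ :=
  ∫⁻ ξ, ∫⁻ g, ENNReal.ofReal (ε⁻¹ * Real.exp (-⟪F.starProjection g, E.starProjection ξ⟫ ^ 2 / (2 * ε ^ 2)) *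
    ‖F.starProjection (E.starProjection ξ)‖ ^ 2 * G (F.starProjection g)) ∂(stdGaussian V) ∂(stdGaussian V)

/-- the tilted integrand. -/
private noncomputable def KK (G : V → ℝ) (ε : ℝ) (y w : V) : ℝ :=
  ‖y‖ ^ 2 / √(ε ^ 2 + ‖y‖ ^ 2) *
    G (ort y w + (ε / √(ε ^ 2 + ‖y‖ ^ 2) * (⟪y, w⟫ / ‖y‖ ^ 2)) • y)

private theorem KK_le {G : V → ℝ} {C : ℝ} (hC : 0 ≤ C) (hG : ∀ x, G x ≤ C * ‖x‖) {ε : ℝ} (hε : 0 < ε)
    (y w : V) : KK G ε y w ≤ ‖y‖ * (C * ‖w‖) := by
  unfold KK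
  have hs0 : 0 < √(ε ^ 2 + ‖y‖ ^ 2) := Real.sqrt_pos.2 (by positivity)
  have hs1 : ε ≤ √(ε ^ 2 + ‖y‖ ^ 2) := Real.le_sqrt_of_sq_le (by nlinarith [sq_nonneg ‖y‖])
  have hs2 : ‖y‖ ≤ √(ε ^ 2 + ‖y‖ ^ 2) := Real.le_sqrt_of_sq_le (by nlinarith [sq_nonneg ε])
  have h1 : ‖y‖ ^ 2 / √(ε ^ 2 + ‖y‖ ^ 2) ≤ ‖y‖ := by
    rw [div_le_iff₀ hs0, pow_two ‖y‖]
    rw [pow_two ‖y‖] at hs2
    exact mul_le_mul_of_nonneg_left hs2 (norm_nonneg _)
  set s : ℝ := ε / √(ε ^ 2 + ‖y‖ ^ 2) with hs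
  have hsn : 0 ≤ s := by positivity
  have hs' : s ≤ 1 := by rw [hs, div_le_one hs0]; exact hs1
  have h2 : ort y w + (s * (⟪y, w⟫ / ‖y‖ ^ 2)) • y = (1 - s) • ort y w + s • w := by
    have : w = ort y w + (⟪y, w⟫ / ‖y‖ ^ 2) • y := by simp [ort]
    calc ort y w + (s * (⟪y, w⟫ / ‖y‖ ^ 2)) • y
        = (1 - s) • ort y w + s • (ort y w + (⟪y, w⟫ / ‖y‖ ^ 2) • y) := by module
      _ = _ := by rw [← this]
  have h3 : ‖ort y w + (s * (⟪y, w⟫ / ‖y‖ ^ 2)) • y‖ ≤ ‖w‖ := by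
    rw [h2]
    calc ‖(1 - s) • ort y w + s • w‖ ≤ ‖(1 - s) • ort y w‖ + ‖s • w‖ := norm_add_le _ _
      _ = (1 - s) * ‖ort y w‖ + s * ‖w‖ := by
        rw [norm_smul, norm_smul, Real.norm_of_nonneg (by linarith), Real.norm_of_nonneg hsn]
      _ ≤ (1 - s) * ‖w‖ + s * ‖w‖ := by
        have := norm_ort_le y w
        have h1s : 0 ≤ 1 - s := by linarith
        nlinarith [mul_le_mul_of_nonneg_left this h1s]
      _ = ‖w‖ := by ring
  have h4 : G (ort y w + (s * (⟪y, w⟫ / ‖y‖ ^ 2)) • y) ≤ C * ‖w‖ :=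
    (hG _).trans (mul_le_mul_of_nonneg_left h3 hC)
  calc _ ≤ ‖y‖ ^ 2 / √(ε ^ 2 + ‖y‖ ^ 2) * (C * ‖w‖) :=
        mul_le_mul_of_nonneg_left h4 (by positivity)
    _ ≤ _ := mul_le_mul_of_nonneg_right h1 (by positivity)

private theorem KK_meas {G : V → ℝ} (hG : Continuous G) (ε : ℝ) :
    Measurable (fun p : V × V => KK G ε p.1 p.2) := by
  unfold KK
  have h1 : Measurable (fun p : V × V => ort p.1 p.2) := measurable_ort
  have h2 : Measurable (fun p : V × V => ‖p.1‖) := measurable_fst.norm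
  have h3 : Measurable (fun p : V × V => ⟪p.1, p.2⟫) := continuous_inner.measurable
  refine ((h2.pow_const 2).div ((measurable_const.add (h2.pow_const 2)).sqrt)).mul ?_
  refine hG.measurable.comp ?_
  refine h1.add ?_
  refine Measurable.smul ?_ measurable_fst
  exact (measurable_const.div ((measurable_const.add (h2.pow_const 2)).sqrt)).mul (h3.div (h2.pow_const 2))

private theorem KK_tendsto {G : V → ℝ} (hG : Continuous G) (y w : V) :
    Tendsto (fun n : ℕ => KK G (1 / ((n : ℝ) + 1)) y w) atTop (𝓝 (‖y‖ * G (ort y w))) := by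
  by_cases hy : y = 0
  · subst hy
    have : (fun n : ℕ => KK G (1 / ((n : ℝ) + 1)) (0 : V) w) = fun _ => (0 : ℝ) := by
      funext n; simp [KK]
    rw [this]; simp
  have hyn : 0 < ‖y‖ := norm_pos_iff.2 hy
  have h0 : Tendsto (fun n : ℕ => 1 / ((n : ℝ) + 1)) atTop (𝓝 0) := tendsto_one_div_add_atTop_nhds_zero_nat
  have hcont : ContinuousAt (fun ε : ℝ => KK G ε y w) 0 := by
    unfold KK
    have hsq : ContinuousAt (fun ε : ℝ => √(ε ^ 2 + ‖y‖ ^ 2)) 0 := by fun_prop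
    have hne : √((0 : ℝ) ^ 2 + ‖y‖ ^ 2) ≠ 0 := by
      rw [zero_pow two_ne_zero, zero_add, Real.sqrt_sq hyn.le]; exact hyn.ne'
    refine (continuousAt_const.div hsq hne).mul ?_
    refine hG.continuousAt.comp ?_
    refine continuousAt_const.add ?_
    exact ((continuousAt_id.div hsq hne).mul continuousAt_const).smul continuousAt_const
  have h := hcont.tendsto.comp h0
  have hv : KK G 0 y w = ‖y‖ * G (ort y w) := by
    unfold KK
    rw [zero_pow two_ne_zero, zero_add, Real.sqrt_sq hyn.le]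
    simp only [zero_div, zero_mul, zero_smul, add_zero]
    congr 1
    field_simp
  rw [hv] at h
  exact h

private theorem JM_inner (E F : Submodule ℝ V) {G : V → ℝ} (hG : Hom1 G) {ε : ℝ} (hε : 0 < ε) (ξ : V) :
    ∫⁻ g, ENNReal.ofReal (ε⁻¹ * Real.exp (-⟪F.starProjection g, E.starProjection ξ⟫ ^ 2 / (2 * ε ^ 2)) *
      ‖F.starProjection (E.starProjection ξ)‖ ^ 2 * G (F.starProjection g)) ∂(stdGaussian V) =
    ∫⁻ g, ENNReal.ofReal (KK G ε (F.starProjection (E.starProjection ξ)) (F.starProjection g))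
      ∂(stdGaussian V) := by
  obtain ⟨y, hy⟩ : ∃ y, y = F.starProjection (E.starProjection ξ) := ⟨_, rfl⟩
  have hyF : y ∈ F := by rw [hy]; exact Submodule.starProjection_apply_mem _ _
  have hin : ∀ g : V, ⟪F.starProjection g, E.starProjection ξ⟫ = ⟪y, F.starProjection g⟫ := by
    intro g
    rw [hy, Submodule.inner_starProjection_left_eq_right, real_inner_comm,
      ← Submodule.inner_starProjection_left_eq_right,
      Submodule.starProjection_eq_self_iff.2 (Submodule.starProjection_apply_mem F (E.starProjection ξ))]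
  rw [← hy]
  have hΦ : Measurable (fun v : V => ENNReal.ofReal (ε⁻¹ * ‖y‖ ^ 2 * G v)) :=
    (hG.cont.measurable.const_mul _).ennreal_ofReal
  have h1 := tilt F hyF hε hΦ
  have h2 : ∀ g : V, ENNReal.ofReal (ε⁻¹ * Real.exp (-⟪F.starProjection g, E.starProjection ξ⟫ ^ 2 / (2 * ε ^ 2)) *
      ‖y‖ ^ 2 * G (F.starProjection g)) =
      ENNReal.ofReal (Real.exp (-⟪y, F.starProjection g⟫ ^ 2 / (2 * ε ^ 2))) *
        ENNReal.ofReal (ε⁻¹ * ‖y‖ ^ 2 * G (F.starProjection g)) := by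
    intro g
    rw [hin g, ← ENNReal.ofReal_mul (Real.exp_pos _).le]
    congr 1
    ring
  simp_rw [h2]
  rw [h1, ← lintegral_const_mul']
  · refine lintegral_congr fun g => ?_
    rw [← ENNReal.ofReal_mul (by positivity)]
    congr 1
    unfold KK
    field_simp
  · exact ENNReal.ofReal_ne_top

theorem JM_tendsto (E F : Submodule ℝ V) {G : V → ℝ} (hG : Hom1 G) :
    Tendsto (fun n : ℕ => JM E F G (1 / ((n : ℝ) + 1))) atTop
      (𝓝 (∫⁻ ξ, ENNReal.ofReal ‖F.starProjection (E.starProjection ξ)‖ *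
        ∫⁻ g, ENNReal.ofReal (G (ort (F.starProjection (E.starProjection ξ)) (F.starProjection g)))
          ∂(stdGaussian V) ∂(stdGaussian V))) := by
  obtain ⟨C, hC0, hC⟩ := hG.bound
  have hpos : ∀ n : ℕ, 0 < 1 / ((n : ℝ) + 1) := fun n => by positivity
  have hJ : ∀ n : ℕ, JM E F G (1 / ((n : ℝ) + 1)) = ∫⁻ ξ, ∫⁻ g, ENNReal.ofReal
      (KK G (1 / ((n : ℝ) + 1)) (F.starProjection (E.starProjection ξ)) (F.starProjection g))
      ∂(stdGaussian V) ∂(stdGaussian V) := by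
    intro n
    unfold JM
    exact lintegral_congr fun ξ => JM_inner E F hG (hpos n) ξ
  simp_rw [hJ]
  have hPm : Measurable (fun g : V => F.starProjection g) := F.starProjection.continuous.measurable
  have hEm : Measurable (fun g : V => F.starProjection (E.starProjection g)) :=
    (F.starProjection.continuous.comp E.starProjection.continuous).measurable
  have hmeas : ∀ n : ℕ, Measurable (fun p : V × V => ENNReal.ofReal
      (KK G (1 / ((n : ℝ) + 1)) (F.starProjection (E.starProjection p.1)) (F.starProjection p.2))) := by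
    intro n
    exact ((KK_meas hG.cont _).comp
      ((hEm.comp measurable_fst).prodMk (hPm.comp measurable_snd))).ennreal_ofReal
  -- finiteness
  have hfin1 : ∫⁻ g : V, ENNReal.ofReal ‖g‖ ∂(stdGaussian V) ≠ ⊤ := by
    have := (integrable_norm_gaussian (V := V)).lintegral_lt_top
    exact this.ne
  have hle : ∀ n : ℕ, ∀ ξ g : V, ENNReal.ofReal
      (KK G (1 / ((n : ℝ) + 1)) (F.starProjection (E.starProjection ξ)) (F.starProjection g)) ≤
      ENNReal.ofReal ‖ξ‖ * (ENNReal.ofReal C * ENNReal.ofReal ‖g‖) := by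
    intro n ξ g
    rw [← ENNReal.ofReal_mul hC0, ← ENNReal.ofReal_mul (norm_nonneg _)]
    apply ENNReal.ofReal_le_ofReal
    refine (KK_le hC0 hC (hpos n) _ _).trans ?_
    have h1 : ‖F.starProjection (E.starProjection ξ)‖ ≤ ‖ξ‖ :=
      (Submodule.norm_starProjection_apply_le _ _).trans (Submodule.norm_starProjection_apply_le _ _)
    have h2 : ‖F.starProjection g‖ ≤ ‖g‖ := Submodule.norm_starProjection_apply_le _ _
    exact mul_le_mul h1 (mul_le_mul_of_nonneg_left h2 hC0) (by positivity) (norm_nonneg _)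
  refine tendsto_lintegral_of_dominated_convergence
    (fun ξ => ∫⁻ g, ENNReal.ofReal ‖ξ‖ * (ENNReal.ofReal C * ENNReal.ofReal ‖g‖) ∂(stdGaussian V))
    (fun n => (hmeas n).lintegral_prod_right') (fun n => Eventually.of_forall fun ξ => ?_) ?_
    (Eventually.of_forall fun ξ => ?_)
  · exact lintegral_mono fun g => hle n ξ g
  · have h1 : ∀ ξ : V, ∫⁻ g, ENNReal.ofReal ‖ξ‖ * (ENNReal.ofReal C * ENNReal.ofReal ‖g‖) ∂(stdGaussian V) =
        ENNReal.ofReal ‖ξ‖ * (ENNReal.ofReal C * ∫⁻ g : V, ENNReal.ofReal ‖g‖ ∂(stdGaussian V)) := by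
      intro ξ
      rw [lintegral_const_mul' _ _ ENNReal.ofReal_ne_top, lintegral_const_mul' _ _ ENNReal.ofReal_ne_top]
    simp_rw [h1]
    have hc : ENNReal.ofReal C * ∫⁻ g : V, ENNReal.ofReal ‖g‖ ∂(stdGaussian V) ≠ ⊤ :=
      ENNReal.mul_ne_top ENNReal.ofReal_ne_top hfin1
    rw [lintegral_mul_const' _ _ hc]
    exact ENNReal.mul_ne_top hfin1 hc
  · -- inner limit
    have h1 : Tendsto (fun n : ℕ => ∫⁻ g, ENNReal.ofReal
        (KK G (1 / ((n : ℝ) + 1)) (F.starProjection (E.starProjection ξ)) (F.starProjection g))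
        ∂(stdGaussian V)) atTop
        (𝓝 (∫⁻ g, ENNReal.ofReal (‖F.starProjection (E.starProjection ξ)‖ *
          G (ort (F.starProjection (E.starProjection ξ)) (F.starProjection g))) ∂(stdGaussian V))) := by
      have hm' : ∀ n : ℕ, Measurable (fun g : V => ENNReal.ofReal
          (KK G (1 / ((n : ℝ) + 1)) (F.starProjection (E.starProjection ξ)) (F.starProjection g))) := by
        intro n
        have := (hmeas n).comp (measurable_prodMk_left (x := ξ))
        exact this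
      refine tendsto_lintegral_of_dominated_convergence
        (fun g => ENNReal.ofReal ‖ξ‖ * (ENNReal.ofReal C * ENNReal.ofReal ‖g‖))
        hm'
        (fun n => Eventually.of_forall fun g => hle n ξ g) ?_ (Eventually.of_forall fun g => ?_)
      · rw [lintegral_const_mul' _ _ ENNReal.ofReal_ne_top, lintegral_const_mul' _ _ ENNReal.ofReal_ne_top]
        exact ENNReal.mul_ne_top ENNReal.ofReal_ne_top (ENNReal.mul_ne_top ENNReal.ofReal_ne_top hfin1)
      · exact (ENNReal.continuous_ofReal.tendsto _).comp (KK_tendsto hG.cont _ _)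
    have h2 : ∫⁻ g, ENNReal.ofReal (‖F.starProjection (E.starProjection ξ)‖ *
          G (ort (F.starProjection (E.starProjection ξ)) (F.starProjection g))) ∂(stdGaussian V) =
        ENNReal.ofReal ‖F.starProjection (E.starProjection ξ)‖ *
        ∫⁻ g, ENNReal.ofReal (G (ort (F.starProjection (E.starProjection ξ)) (F.starProjection g)))
          ∂(stdGaussian V) := by
      rw [← lintegral_const_mul' _ _ ENNReal.ofReal_ne_top]
      refine lintegral_congr fun g => ?_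
      rw [ENNReal.ofReal_mul (norm_nonneg _)]
    rw [← h2]
    exact h1

end Pool.Agent.HP89
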