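import Pool.Agent.HP89.A6a
import Pool.Agent.HP89.A4

/-! Module HP-A6b: Lemma M, second half (integrate `ξ` first).

Exchange the integrals in `JM` (Tonelli). For fixed `g`, `w = P_F g`, `b = P_E w`: `⟪w, P_E ξ⟫ = ⟪b, P_E ξ⟫`. By `tilt`
(space `E`, vector `b ∈ E`, `Φ v = ‖P_F v‖²`)
`∫⁻ ξ, ε⁻¹ exp(-⟪b,P_E ξ⟫²/(2ε²)) ‖P_F P_E ξ‖² = (ε²+‖b‖²)^{-1/2} ∫⁻ ‖P_F (ort b (P_E ξ) + t ⟪b, P_E ξ⟫ b)‖²`, `t = s/‖b‖²`.
Expand the square; the cross term `2 t ⟪b,P_E ξ⟫ ⟪P_F (ort b (P_E ξ)), P_F b⟫` has integral `0` (`ort b (P_E ξ) = P_{E'} ξ` with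
`E' = E ⊓ (ℝ∙b)ᗮ` and `⟪b, P_E ξ⟫ = ⟪b, ξ⟫`; `E ⟪b,ξ⟫⟪P_{E'} ξ, c⟫ = ⟪b, P_{E'} c⟫ = 0` by polarisation of `integral_inner_sq`; or:
invariance of the law of `P_E ξ` under the reflection `b ↦ -b`), hence it is at least
`(ε²+‖b‖²)^{-1/2} E ‖P_F P_{E'} ξ‖² ≥ (e - 1 + f - d)/√(ε²+‖w‖²)` by `integral_norm_sq_proj_proj` (`finrank E' ≥ e - 1`),
`‖b‖ ≤ ‖w‖`. Multiply by `G w` and integrate over `g`. -/

namespace Pool.Agent.HP89
open MeasureTheory ProbabilityTheory Set Filter Topology Metric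
open scoped RealInnerProductSpace ENNReal

variable {V : Type*} [NormedAddCommGroup V] [InnerProductSpace ℝ V] [FiniteDimensional ℝ V]
  [MeasurableSpace V] [BorelSpace V]

omit [MeasurableSpace V] [BorelSpace V] in
private theorem b_inner_starProjection (E : Submodule ℝ V) {b : V} (hb : b ∈ E) (ξ : V) :
    ⟪b, E.starProjection ξ⟫ = ⟪b, ξ⟫ := by
  rw [← Submodule.inner_starProjection_left_eq_right, Submodule.starProjection_eq_self_iff.mpr hb]

omit [MeasurableSpace V] [BorelSpace V] in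
private theorem b_proj_ort (E : Submodule ℝ V) {b : V} (hb : b ∈ E) (ξ : V) :
    E.starProjection (ort b ξ) = ort b (E.starProjection ξ) := by
  unfold ort
  rw [map_sub, map_smul, Submodule.starProjection_eq_self_iff.mpr hb, b_inner_starProjection E hb]

omit [MeasurableSpace V] [BorelSpace V] in
private theorem b_proj_inf (E : Submodule ℝ V) {b : V} (hb : b ∈ E) (ξ : V) :
    (E ⊓ (ℝ ∙ b)ᗮ).starProjection ξ = ort b (E.starProjection ξ) := by
  symm
  have h1 : ort b (E.starProjection ξ) ∈ E := by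
    unfold ort
    exact E.sub_mem (Submodule.starProjection_apply_mem E ξ) (E.smul_mem _ hb)
  symm
  apply Submodule.eq_starProjection_of_mem_of_inner_eq_zero
  · refine Submodule.mem_inf.mpr ⟨h1, ?_⟩
    rw [Submodule.mem_orthogonal_singleton_iff_inner_right]
    exact inner_ort b _
  · intro v hv
    obtain ⟨hvE, hvb⟩ := Submodule.mem_inf.mp hv
    rw [Submodule.mem_orthogonal_singleton_iff_inner_right] at hvb
    have e1 : ξ - ort b (E.starProjection ξ) =
        (ξ - E.starProjection ξ) + (⟪b, E.starProjection ξ⟫ / ‖b‖ ^ 2) • b := by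
      unfold ort
      abel
    rw [e1, inner_add_left, inner_smul_left, hvb, Submodule.starProjection_inner_eq_zero ξ v hvE]
    simp

omit [MeasurableSpace V] [BorelSpace V] in
private theorem b_finrank_inf (E : Submodule ℝ V) (b : V) :
    Module.finrank ℝ E ≤ Module.finrank ℝ (E ⊓ (ℝ ∙ b)ᗮ : Submodule ℝ V) + 1 := by
  have h1 := Submodule.finrank_sup_add_finrank_inf_eq E (ℝ ∙ b)ᗮ
  have h2 := Submodule.finrank_le (E ⊔ (ℝ ∙ b)ᗮ)
  have h3 := Submodule.finrank_add_finrank_orthogonal (ℝ ∙ b)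
  have h4 : Module.finrank ℝ (ℝ ∙ b) ≤ 1 := by
    have := finrank_span_le_card (R := ℝ) ({b} : Set V)
    simpa using this
  omega

private theorem b_norm_sq (E F : Submodule ℝ V) :
    ENNReal.ofReal ((Module.finrank ℝ E : ℝ) + Module.finrank ℝ F - Module.finrank ℝ V) ≤
      ∫⁻ ξ, ENNReal.ofReal (‖F.starProjection (E.starProjection ξ)‖ ^ 2) ∂(stdGaussian V) := by
  have h := integral_norm_sq_proj_proj E F
  by_cases hi : Integrable (fun ξ => ‖F.starProjection (E.starProjection ξ)‖ ^ 2) (stdGaussian V)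
  · rw [← ofReal_integral_eq_lintegral_ofReal hi (Eventually.of_forall (fun ξ => by positivity))]
    exact ENNReal.ofReal_le_ofReal h
  · rw [integral_undef hi] at h
    rw [ENNReal.ofReal_of_nonpos h]
    exact bot_le

omit [FiniteDimensional ℝ V] [MeasurableSpace V] [BorelSpace V] in
private theorem b_sq_add (x y : V) : 2 * ‖x‖ ^ 2 ≤ ‖x + y‖ ^ 2 + ‖x - y‖ ^ 2 := by
  have h := parallelogram_law_with_norm ℝ x y
  nlinarith [norm_nonneg y]

private theorem b_cross (E F : Submodule ℝ V) {b : V} (hb : b ∈ E) (c : ℝ) :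
    ∫⁻ ξ, ENNReal.ofReal (‖F.starProjection (ort b (E.starProjection ξ))‖ ^ 2) ∂(stdGaussian V) ≤
      ∫⁻ ξ, ENNReal.ofReal (‖F.starProjection (ort b (E.starProjection ξ) +
        (c * (⟪b, E.starProjection ξ⟫ / ‖b‖ ^ 2)) • b)‖ ^ 2) ∂(stdGaussian V) := by
  set f : V → ℝ≥0∞ := fun ξ => ENNReal.ofReal (‖F.starProjection (ort b (E.starProjection ξ) +
        (c * (⟪b, E.starProjection ξ⟫ / ‖b‖ ^ 2)) • b)‖ ^ 2) with hf
  have hcont : Continuous (fun ξ => ‖F.starProjection (ort b (E.starProjection ξ) +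
        (c * (⟪b, E.starProjection ξ⟫ / ‖b‖ ^ 2)) • b)‖ ^ 2) := by
    unfold ort
    fun_prop
  have hfm : Measurable f := hcont.measurable.ennreal_ofReal
  have hRm : Measurable (fun g : V => 2 • (ℝ ∙ b)ᗮ.starProjection g - g) := by
    apply Continuous.measurable
    fun_prop
  have h1 : ∫⁻ ξ, f ξ ∂(stdGaussian V) =
      ∫⁻ ξ, f (2 • (ℝ ∙ b)ᗮ.starProjection ξ - ξ) ∂(stdGaussian V) := by
    conv_lhs => rw [← map_reflection (ℝ ∙ b)ᗮ]
    rw [lintegral_map hfm hRm]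
  have h2 : 2 * ∫⁻ ξ, ENNReal.ofReal (‖F.starProjection (ort b (E.starProjection ξ))‖ ^ 2)
      ∂(stdGaussian V) ≤ 2 * ∫⁻ ξ, f ξ ∂(stdGaussian V) := by
    rw [two_mul (∫⁻ ξ, f ξ ∂(stdGaussian V))]
    conv_rhs => arg 2; rw [h1]
    rw [← lintegral_add_left hfm, ← lintegral_const_mul' _ _ (by norm_num)]
    apply lintegral_mono
    intro ξ
    simp only []
    have e0 : (2 • (ℝ ∙ b)ᗮ.starProjection ξ - ξ : V) = (2 : ℝ) • ort b ξ - ξ := by
      rw [ort_eq, two_smul, two_smul]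
    have e1 : E.starProjection ((2 : ℝ) • ort b ξ - ξ) =
        (2 : ℝ) • ort b (E.starProjection ξ) - E.starProjection ξ := by
      rw [map_sub, map_smul, b_proj_ort E hb]
    have e2 : ort b ((2 : ℝ) • ort b (E.starProjection ξ) - E.starProjection ξ) =
        ort b (E.starProjection ξ) := by
      rw [sub_eq_add_neg, ort_add, ort_smul]
      have e3 : ort b (ort b (E.starProjection ξ)) = ort b (E.starProjection ξ) := by
        rw [ort_eq b (ort b (E.starProjection ξ)), ort_eq]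
        exact Submodule.starProjection_eq_self_iff.mpr (Submodule.starProjection_apply_mem _ _)
      have e4 : ort b (-E.starProjection ξ) = -ort b (E.starProjection ξ) := by
        rw [← neg_one_smul ℝ, ort_smul, neg_one_smul]
      rw [e3, e4, two_smul]
      abel
    have e5 : ⟪b, (2 : ℝ) • ort b (E.starProjection ξ) - E.starProjection ξ⟫ =
        -⟪b, E.starProjection ξ⟫ := by
      rw [inner_sub_right, inner_smul_right, inner_ort]
      ring
    have e6 : f (2 • (ℝ ∙ b)ᗮ.starProjection ξ - ξ) =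
        ENNReal.ofReal (‖F.starProjection (ort b (E.starProjection ξ)) -
        (c * (⟪b, E.starProjection ξ⟫ / ‖b‖ ^ 2)) • F.starProjection b‖ ^ 2) := by
      simp only [hf]
      rw [e0, e1, e2, e5, map_add, map_smul]
      congr 3
      rw [sub_eq_add_neg, ← neg_smul]
      congr 2
      ring
    have e7 : f ξ = ENNReal.ofReal (‖F.starProjection (ort b (E.starProjection ξ)) +
        (c * (⟪b, E.starProjection ξ⟫ / ‖b‖ ^ 2)) • F.starProjection b‖ ^ 2) := by
      simp only [hf]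
      rw [map_add, map_smul]
    rw [e6, e7, ← ENNReal.ofReal_add (by positivity) (by positivity)]
    have e8 : (2 : ℝ≥0∞) = ENNReal.ofReal 2 := by norm_num
    rw [e8, ← ENNReal.ofReal_mul (by norm_num)]
    exact ENNReal.ofReal_le_ofReal (b_sq_add _ _)
  have h3 := (ENNReal.mul_le_mul_iff_right (a := 2) (by norm_num) (by norm_num)).mp h2
  exact h3

theorem JM_lower (E F : Submodule ℝ V) {G : V → ℝ} (hG : Hom1 G) {ε : ℝ} (hε : 0 < ε)
    (h : Module.finrank ℝ V + 1 ≤ Module.finrank ℝ E + Module.finrank ℝ F) :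
    ENNReal.ofReal ((Module.finrank ℝ E : ℝ) + Module.finrank ℝ F - 1 - Module.finrank ℝ V) *
      ∫⁻ g, ENNReal.ofReal (G (F.starProjection g) / √(ε ^ 2 + ‖F.starProjection g‖ ^ 2)) ∂(stdGaussian V) ≤
    JM E F G ε := by
  have hGc := hG.cont
  have hcont : Continuous (fun p : V × V => ε⁻¹ *
      Real.exp (-⟪F.starProjection p.2, E.starProjection p.1⟫ ^ 2 / (2 * ε ^ 2)) *
      ‖F.starProjection (E.starProjection p.1)‖ ^ 2 * G (F.starProjection p.2)) := by
    have c1 : Continuous (fun p : V × V => G (F.starProjection p.2)) := by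
      apply hGc.comp
      fun_prop
    have c2 : Continuous (fun p : V × V =>
        Real.exp (-⟪F.starProjection p.2, E.starProjection p.1⟫ ^ 2 / (2 * ε ^ 2))) := by
      apply Real.continuous_exp.comp
      apply Continuous.div_const
      apply Continuous.neg
      apply Continuous.pow
      apply Continuous.inner
      · fun_prop
      · fun_prop
    have c3 : Continuous (fun p : V × V => ‖F.starProjection (E.starProjection p.1)‖ ^ 2) := by
      fun_prop
    exact ((continuous_const.mul c2).mul c3).mul c1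
  unfold JM
  rw [lintegral_lintegral_swap (hcont.measurable.ennreal_ofReal.aemeasurable)]
  rw [← lintegral_const_mul' _ _ ENNReal.ofReal_ne_top]
  apply lintegral_mono
  intro g
  simp only []
  set w := F.starProjection g with hw
  set b := E.starProjection w with hb
  have hbE : b ∈ E := Submodule.starProjection_apply_mem E w
  have hGw : 0 ≤ G w := hG.nn w
  have hbw : ‖b‖ ≤ ‖w‖ := Submodule.norm_starProjection_apply_le E w
  have hin : ∀ ξ, ⟪w, E.starProjection ξ⟫ = ⟪b, E.starProjection ξ⟫ := by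
    intro ξ
    rw [b_inner_starProjection E hbE, hb, Submodule.inner_starProjection_left_eq_right E w ξ]
  have hΦ : Measurable (fun v : V => ENNReal.ofReal (‖F.starProjection v‖ ^ 2)) := by
    apply Measurable.ennreal_ofReal
    apply Continuous.measurable
    fun_prop
  have h1 : ∫⁻ ξ, ENNReal.ofReal (ε⁻¹ * Real.exp (-⟪w, E.starProjection ξ⟫ ^ 2 / (2 * ε ^ 2)) *
      ‖F.starProjection (E.starProjection ξ)‖ ^ 2 * G w) ∂(stdGaussian V) =
      ENNReal.ofReal (ε⁻¹ * G w) * ∫⁻ ξ, ENNReal.ofReal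
        (Real.exp (-⟪b, E.starProjection ξ⟫ ^ 2 / (2 * ε ^ 2))) *
        ENNReal.ofReal (‖F.starProjection (E.starProjection ξ)‖ ^ 2) ∂(stdGaussian V) := by
    rw [← lintegral_const_mul' _ _ ENNReal.ofReal_ne_top]
    apply lintegral_congr
    intro ξ
    rw [hin, ← ENNReal.ofReal_mul (Real.exp_pos _).le, ← ENNReal.ofReal_mul (by positivity)]
    congr 1
    ring
  rw [h1]
  have h2 := tilt E hbE hε hΦ
  rw [h2]
  have h3 := b_cross E F hbE (ε / √(ε ^ 2 + ‖b‖ ^ 2))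
  have h4 := b_norm_sq (E ⊓ (ℝ ∙ b)ᗮ) F
  have h5 : ENNReal.ofReal ((Module.finrank ℝ E : ℝ) + Module.finrank ℝ F - 1 - Module.finrank ℝ V) ≤
      ∫⁻ ξ, ENNReal.ofReal (‖F.starProjection (ort b (E.starProjection ξ) +
        (ε / √(ε ^ 2 + ‖b‖ ^ 2) * (⟪b, E.starProjection ξ⟫ / ‖b‖ ^ 2)) • b)‖ ^ 2)
        ∂(stdGaussian V) := by
    refine le_trans ?_ h3
    have h6 : ∀ ξ, ort b (E.starProjection ξ) = (E ⊓ (ℝ ∙ b)ᗮ).starProjection ξ := by
      intro ξ
      rw [b_proj_inf E hbE]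
    simp only [h6]
    refine le_trans ?_ h4
    apply ENNReal.ofReal_le_ofReal
    have h7 := b_finrank_inf E b
    have h7' : (Module.finrank ℝ E : ℝ) ≤ Module.finrank ℝ (E ⊓ (ℝ ∙ b)ᗮ : Submodule ℝ V) + 1 := by
      exact_mod_cast h7
    linarith
  have hs1 : 0 < √(ε ^ 2 + ‖b‖ ^ 2) := by
    apply Real.sqrt_pos.mpr
    positivity
  have hs2 : √(ε ^ 2 + ‖b‖ ^ 2) ≤ √(ε ^ 2 + ‖w‖ ^ 2) := by
    apply Real.sqrt_le_sqrt
    have := norm_nonneg b
    nlinarith
  have h8 : ENNReal.ofReal (G w / √(ε ^ 2 + ‖w‖ ^ 2)) ≤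
      ENNReal.ofReal (ε⁻¹ * G w) * ENNReal.ofReal (ε / √(ε ^ 2 + ‖b‖ ^ 2)) := by
    rw [← ENNReal.ofReal_mul (by positivity)]
    apply ENNReal.ofReal_le_ofReal
    have e1 : ε⁻¹ * G w * (ε / √(ε ^ 2 + ‖b‖ ^ 2)) = G w / √(ε ^ 2 + ‖b‖ ^ 2) := by
      field_simp
    rw [e1]
    exact div_le_div_of_nonneg_left hGw hs1 hs2
  calc ENNReal.ofReal ((Module.finrank ℝ E : ℝ) + Module.finrank ℝ F - 1 - Module.finrank ℝ V) *
      ENNReal.ofReal (G w / √(ε ^ 2 + ‖w‖ ^ 2)) ≤
      (∫⁻ ξ, ENNReal.ofReal (‖F.starProjection (ort b (E.starProjection ξ) +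
        (ε / √(ε ^ 2 + ‖b‖ ^ 2) * (⟪b, E.starProjection ξ⟫ / ‖b‖ ^ 2)) • b)‖ ^ 2)
        ∂(stdGaussian V)) *
      (ENNReal.ofReal (ε⁻¹ * G w) * ENNReal.ofReal (ε / √(ε ^ 2 + ‖b‖ ^ 2))) := by
        exact mul_le_mul' h5 h8
    _ = _ := by
        rw [mul_comm, mul_assoc]

end Pool.Agent.HP89
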