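import Pool.Agent.HP89.A6
import Pool.Agent.HP89.A2b
import Pool.Agent.HP89.A1c

/-! Module HP-A7: the measure `nu j μ` is good, and its support function.

`w = ∫⁻ ew (ofFn X) dμ^j` is finite (`iter_ew_lt_top`, `iter_eq_pi`) and `≠ 0` by assumption. For `f : V → ℝ≥0∞` measurable:
`∫⁻ f d(nu) = w⁻¹ ∫⁻ X ∫⁻ g f(wn X • res X g)` (`lintegral_smul_measure`, `lintegral_map`, `lintegral_prod`, measurability from A2a).
* finite: `(pi μ).prod γ` is finite. `g3`, integrability: `‖wn X • res X g‖ = wn X ‖res X g‖`, and if `wn X ≠ 0`,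
  `E ‖res X g‖ = m_{d-j}` (`res_eq`, `finrank_orth_of_wn_ne_zero`, `integral_norm_proj`).
* `g1`: `‖res Z (wn X • res X g)‖ = wn X ‖res Z (res X g)‖`, `integral_norm_proj_proj_le` with `F = (span Z)ᗮ`, `E = (span X)ᗮ`.
* `g2`: with `x = wn X • res X g`, `wn X ≠ 0`: `res (x :: Z) g' = ort (res Z (res X g)) (res Z g')` (`ort_smul_left`), so the
  right side is `w⁻¹ ∫⁻ X, ew X * (right side of lemmaM)`; `lemmaM` if `d + 1 ≤ (d-j) + (d-|Z|)`, else the left side is `0`.
  Note `finrank F = d - |Z|`, `finrank E = d - j` (natural subtraction is real subtraction: `length_le_of_wn_ne_zero`).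
* `hh_nu`: `√(π/2) ∫ |⟪y,x⟫| d(nu)(y) = w⁻¹ ∫ wn X √(π/2) E|⟪res X g, x⟫| = w⁻¹ ∫ wn X ‖res X x‖ = w⁻¹ ∫ wn (x :: X)`
  (`inner_res`, `integral_abs_inner`), and `wn (x :: ofFn X) = wn (ofFn X ++ [x])` (`wn_perm`), `iter_eq_pi` with `Y = [x]`. -/

namespace Pool.Agent.HP89
open MeasureTheory ProbabilityTheory Set Filter Topology Metric
open scoped RealInnerProductSpace ENNReal

variable {V : Type*} [NormedAddCommGroup V] [InnerProductSpace ℝ V] [FiniteDimensional ℝ V]
  [MeasurableSpace V] [BorelSpace V]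


/-! ### private helpers -/

private theorem a7_meas_map (j : ℕ) :
    Measurable (fun p : (Fin j → V) × V => wn (List.ofFn p.1) • res (List.ofFn p.1) p.2) :=
  ((measurable_wn j).comp measurable_fst).smul (measurable_res j)

private theorem a7_w (j : ℕ) (μ : Measure V) [IsFiniteMeasure μ] :
    ∫⁻ X : Fin j → V, ew (List.ofFn X) ∂(Measure.pi fun _ => μ) = iter μ j ew [] := by
  rw [iter_eq_pi μ j lmeas_ew]
  simp only [List.append_nil]

private theorem a7_lint {j : ℕ} {μ : Measure V} [IsFiniteMeasure μ] {f : V → ℝ≥0∞} (hf : Measurable f)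
    (hom : ∀ c : ℝ, 0 ≤ c → ∀ y, f (c • y) = ENNReal.ofReal c * f y) :
    ∫⁻ y, f y ∂(nu j μ) = (iter μ j ew [])⁻¹ *
      ∫⁻ X : Fin j → V, ew (List.ofFn X) * ∫⁻ g, f (res (List.ofFn X) g) ∂(stdGaussian V)
        ∂(Measure.pi fun _ => μ) := by
  unfold nu
  have hcomp : Measurable (fun p : (Fin j → V) × V => f (wn (List.ofFn p.1) • res (List.ofFn p.1) p.2)) :=
    hf.comp (a7_meas_map j)
  rw [a7_w, lintegral_smul_measure, lintegral_map hf (a7_meas_map j),
    lintegral_prod _ hcomp.aemeasurable, smul_eq_mul]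
  congr 1
  refine lintegral_congr fun X => ?_
  have h1 : Measurable (fun g : V => f (res (List.ofFn X) g)) :=
    hf.comp (continuous_res _).measurable
  unfold ew
  rw [← lintegral_const_mul _ h1]
  refine lintegral_congr fun g => ?_
  exact hom _ (wn_nonneg _) _

private theorem a7_cancel {j : ℕ} {μ : Measure V} [IsFiniteMeasure μ]
    (hμ : Integrable (fun x => ‖x‖) μ) (hw : iter μ j ew [] ≠ 0) (c : ℝ≥0∞) :
    (iter μ j ew [])⁻¹ * ∫⁻ X : Fin j → V, ew (List.ofFn X) * c ∂(Measure.pi fun _ => μ) = c := by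
  rw [lintegral_mul_const, a7_w, ← mul_assoc,
    ENNReal.inv_mul_cancel hw (iter_ew_lt_top μ hμ j []).ne, one_mul]
  have h := (lmeas_ew (V := V)) j
  exact h

private theorem a7_norm {X : List V} (hX : wn X ≠ 0) :
    ∫⁻ g, ENNReal.ofReal ‖res X g‖ ∂(stdGaussian V) =
      ENNReal.ofReal (mG (Module.finrank ℝ V - X.length)) := by
  have h1 : Integrable (fun g : V => ‖res X g‖) (stdGaussian V) := by
    refine integrable_norm_gaussian.mono' ?_ ?_
    · exact (continuous_res X).norm.measurable.aestronglyMeasurable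
    · exact Eventually.of_forall fun g => by
        rw [norm_norm]; exact norm_res_le X g
  rw [← ofReal_integral_eq_lintegral_ofReal h1 (Eventually.of_forall fun g => norm_nonneg _)]
  simp only [res_eq]
  rw [integral_norm_proj, finrank_orth_of_wn_ne_zero hX]

private theorem a7_norm2 {X Z : List V} (hZ : wn Z ≠ 0) :
    ∫⁻ g, ENNReal.ofReal ‖res Z (res X g)‖ ∂(stdGaussian V) ≤
      ENNReal.ofReal (mG (Module.finrank ℝ V - Z.length)) := by
  have h1 : Integrable (fun g : V => ‖res Z (res X g)‖) (stdGaussian V) := by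
    refine integrable_norm_gaussian.mono' ?_ ?_
    · exact ((continuous_res Z).comp (continuous_res X)).norm.measurable.aestronglyMeasurable
    · exact Eventually.of_forall fun g => by
        rw [norm_norm]; exact (norm_res_le Z _).trans (norm_res_le X g)
  rw [← ofReal_integral_eq_lintegral_ofReal h1 (Eventually.of_forall fun g => norm_nonneg _)]
  simp only [res_eq]
  rw [← finrank_orth_of_wn_ne_zero hZ]
  exact ENNReal.ofReal_le_ofReal (integral_norm_proj_proj_le _ _)

private theorem a7_isFinite {j : ℕ} {μ : Measure V} [IsFiniteMeasure μ]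
    (hw : iter μ j ew [] ≠ 0) : IsFiniteMeasure (nu j μ) := by
  unfold nu
  rw [a7_w]
  have : IsFiniteMeasure (((Measure.pi fun _ : Fin j => μ).prod (stdGaussian V)).map
      (fun p => wn (List.ofFn p.1) • res (List.ofFn p.1) p.2)) := inferInstance
  exact Measure.smul_finite _ (ENNReal.inv_ne_top.2 hw)

private theorem a7_g3 {j : ℕ} {μ : Measure V} [IsFiniteMeasure μ]
    (hμ : Integrable (fun x => ‖x‖) μ) (hw : iter μ j ew [] ≠ 0) :
    ∫⁻ x, ENNReal.ofReal ‖x‖ ∂(nu j μ) = ENNReal.ofReal (mG (Module.finrank ℝ V - j)) := by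
  rw [a7_lint (f := fun x => ENNReal.ofReal ‖x‖) (by fun_prop) (fun c hc y => by
    rw [norm_smul, Real.norm_of_nonneg hc, ENNReal.ofReal_mul hc])]
  rw [← a7_cancel hμ hw (ENNReal.ofReal (mG (Module.finrank ℝ V - j)))]
  congr 1
  refine lintegral_congr fun X => ?_
  by_cases hX : wn (List.ofFn X) = 0
  · simp [ew, hX]
  · rw [a7_norm hX, List.length_ofFn]

private theorem a7_g1 {j : ℕ} {μ : Measure V} [IsFiniteMeasure μ]
    (hμ : Integrable (fun x => ‖x‖) μ) (hw : iter μ j ew [] ≠ 0) (Z : List V) (hZ : wn Z ≠ 0) :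
    ∫⁻ x, ENNReal.ofReal ‖res Z x‖ ∂(nu j μ) ≤
      ENNReal.ofReal (mG (Module.finrank ℝ V - Z.length)) := by
  rw [a7_lint (f := fun x => ENNReal.ofReal ‖res Z x‖)
    ((continuous_res Z).norm.measurable.ennreal_ofReal) (fun c hc y => by
    rw [res_smul, norm_smul, Real.norm_of_nonneg hc, ENNReal.ofReal_mul hc])]
  rw [← a7_cancel hμ hw (ENNReal.ofReal (mG (Module.finrank ℝ V - Z.length)))]
  gcongr with X
  exact a7_norm2 hZ

private theorem a7_g2 {j : ℕ} {μ : Measure V} [IsFiniteMeasure μ]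
    (hμ : Integrable (fun x => ‖x‖) μ) (hw : iter μ j ew [] ≠ 0) (Z : List V) (hZ : wn Z ≠ 0)
    (G : V → ℝ) (hG : Hom1 G) :
    ENNReal.ofReal (((Module.finrank ℝ V : ℝ) - Z.length - 1 - j) / mG (Module.finrank ℝ V - Z.length)) *
      ∫⁻ g, ENNReal.ofReal (G (res Z g)) ∂(stdGaussian V) ≤
    ∫⁻ x, ENNReal.ofReal ‖res Z x‖ *
      ∫⁻ g, ENNReal.ofReal (G (res (x :: Z) g)) ∂(stdGaussian V) ∂(nu j μ) := by
  have hm : Measurable (fun x : V => ENNReal.ofReal ‖res Z x‖ *
      ∫⁻ g, ENNReal.ofReal (G (res (x :: Z) g)) ∂(stdGaussian V)) := by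
    refine ((continuous_res Z).norm.measurable.ennreal_ofReal).mul ?_
    have h1 : Measurable (fun p : V × V => ENNReal.ofReal (G (res (p.1 :: Z) p.2))) :=
      (hG.cont.measurable.comp (measurable_res_cons Z)).ennreal_ofReal
    exact h1.lintegral_prod_right'
  rw [a7_lint (f := fun x : V => ENNReal.ofReal ‖res Z x‖ *
      ∫⁻ g, ENNReal.ofReal (G (res (x :: Z) g)) ∂(stdGaussian V)) hm (fun c hc y => by
    rcases eq_or_lt_of_le hc with h0 | h0
    · subst h0
      have h2 : res Z (0 : V) = 0 := by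
        have := res_smul Z (0 : ℝ) (0 : V)
        simpa using this
      simp [h2]
    · simp only [res_smul_cons h0.ne']
      rw [res_smul, norm_smul, Real.norm_of_nonneg hc, ENNReal.ofReal_mul hc, mul_assoc])]
  rw [← a7_cancel hμ hw (ENNReal.ofReal (((Module.finrank ℝ V : ℝ) - Z.length - 1 - j) /
      mG (Module.finrank ℝ V - Z.length)) * ∫⁻ g, ENNReal.ofReal (G (res Z g)) ∂(stdGaussian V))]
  refine mul_le_mul' le_rfl (lintegral_mono fun X => ?_)
  by_cases hX : wn (List.ofFn X) = 0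
  · simp [ew, hX]
  refine mul_le_mul' le_rfl ?_
  have hE : Module.finrank ℝ (Submodule.span ℝ {x | x ∈ List.ofFn X})ᗮ = Module.finrank ℝ V - j := by
    rw [finrank_orth_of_wn_ne_zero hX, List.length_ofFn]
  have hF := finrank_orth_of_wn_ne_zero hZ
  have hjd : j ≤ Module.finrank ℝ V := by
    have := length_le_of_wn_ne_zero hX
    rwa [List.length_ofFn] at this
  have hzd := length_le_of_wn_ne_zero hZ
  by_cases h : Module.finrank ℝ V + 1 ≤ (Module.finrank ℝ V - j) + (Module.finrank ℝ V - Z.length)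
  · have hM := lemmaM (Submodule.span ℝ {x | x ∈ List.ofFn X})ᗮ (Submodule.span ℝ {x | x ∈ Z})ᗮ hG
      (by rw [hE, hF]; exact h)
    simp only [← res_eq] at hM
    rw [hE, hF] at hM
    have e1 : ((Module.finrank ℝ V - j : ℕ) : ℝ) + ((Module.finrank ℝ V - Z.length : ℕ) : ℝ) - 1 -
        (Module.finrank ℝ V : ℝ) = (Module.finrank ℝ V : ℝ) - Z.length - 1 - j := by
      rw [Nat.cast_sub hjd, Nat.cast_sub hzd]; ring
    rw [e1] at hM
    exact hM
  · have e2 : ((Module.finrank ℝ V : ℝ) - Z.length - 1 - j) / mG (Module.finrank ℝ V - Z.length) ≤ 0 := by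
      apply div_nonpos_of_nonpos_of_nonneg _ (mG_nonneg _)
      have h3 : Module.finrank ℝ V < j + Z.length + 1 := by omega
      have h4 : (Module.finrank ℝ V : ℝ) < (j : ℝ) + Z.length + 1 := by exact_mod_cast h3
      linarith
    rw [ENNReal.ofReal_of_nonpos e2, zero_mul]
    exact zero_le

theorem good_nu {j : ℕ} {μ : Measure V} [IsFiniteMeasure μ] (hμ : Integrable (fun x => ‖x‖) μ)
    (hw : iter μ j ew [] ≠ 0) : Good j (nu j μ) := by
  refine ⟨a7_isFinite hw, ?_, fun X hX => a7_g1 hμ hw X hX, fun X hX G hG => a7_g2 hμ hw X hX G hG,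
    a7_g3 hμ hw⟩
  refine ⟨measurable_norm.aestronglyMeasurable, ?_⟩
  unfold HasFiniteIntegral
  have h1 := a7_g3 hμ hw
  have h2 : ∀ x : V, ‖‖x‖‖ₑ = ENNReal.ofReal ‖x‖ := fun x => by
    rw [Real.enorm_eq_ofReal (norm_nonneg _)]
  simp only [h2]
  rw [h1]
  exact ENNReal.ofReal_lt_top

theorem hh_nu {j : ℕ} {μ : Measure V} [IsFiniteMeasure μ] (hμ : Integrable (fun x => ‖x‖) μ)
    (hw : iter μ j ew [] ≠ 0) (x : V) :
    hh (nu j μ) x = (iter μ j ew []).toReal⁻¹ * (iter μ j ew [x]).toReal := by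
  unfold hh
  have hc : Continuous (fun y : V => |⟪y, x⟫|) := by fun_prop
  rw [integral_eq_lintegral_of_nonneg_ae (Eventually.of_forall fun y => abs_nonneg _)
    hc.measurable.aestronglyMeasurable]
  rw [a7_lint (f := fun y => ENNReal.ofReal |⟪y, x⟫|) hc.measurable.ennreal_ofReal
    (fun c hc y => by
      rw [real_inner_smul_left, abs_mul, abs_of_nonneg hc, ENNReal.ofReal_mul hc])]
  have h1 : ∫⁻ X : Fin j → V, ew (List.ofFn X) * ∫⁻ g, ENNReal.ofReal |⟪res (List.ofFn X) g, x⟫|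
      ∂(stdGaussian V) ∂(Measure.pi fun _ => μ) =
      ENNReal.ofReal (√(2 / Real.pi)) * iter μ j ew [x] := by
    rw [iter_eq_pi μ j lmeas_ew, ← lintegral_const_mul _ ((lmeas_ew (V := V)).app j [x])]
    refine lintegral_congr fun X => ?_
    have h2 : ∀ g : V, |⟪res (List.ofFn X) g, x⟫| = |⟪res (List.ofFn X) x, g⟫| := fun g => by
      rw [inner_res, real_inner_comm]
    simp only [h2]
    rw [lintegral_abs_inner]
    have h3 : wn (List.ofFn X ++ [x]) = wn (x :: List.ofFn X) :=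
      wn_perm List.perm_append_comm
    unfold ew
    rw [h3, wn_cons, ENNReal.ofReal_mul (Real.sqrt_nonneg _), ENNReal.ofReal_mul (wn_nonneg _)]
    ring
  rw [h1, ENNReal.toReal_mul, ENNReal.toReal_mul, ENNReal.toReal_inv,
    ENNReal.toReal_ofReal (Real.sqrt_nonneg _)]
  have h4 : √(Real.pi / 2) * √(2 / Real.pi) = 1 := by
    rw [← Real.sqrt_mul (by positivity)]
    have : Real.pi / 2 * (2 / Real.pi) = 1 := by
      have := Real.pi_ne_zero
      field_simp
    rw [this, Real.sqrt_one]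
  calc √(Real.pi / 2) * ((iter μ j ew []).toReal⁻¹ * (√(2 / Real.pi) * (iter μ j ew [x]).toReal))
      = (√(Real.pi / 2) * √(2 / Real.pi)) * ((iter μ j ew []).toReal⁻¹ * (iter μ j ew [x]).toReal) := by
        ring
    _ = _ := by rw [h4, one_mul]

end Pool.Agent.HP89
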