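import Pool.Agent.HP89.A7

/-! Module HP-A8a: the recursions.

* `iter_TG_norm`: `TG ‖·‖ Y = ew Y * ofReal (mG (d - |Y|))`: both sides vanish if `wn Y = 0`; otherwise
  `finrank_orth_of_wn_ne_zero`, `res_eq`, `integral_norm_proj`. Then `iter_congr'` (lists of length `l + |X|`), `iter_const_mul`.
* `iter_ew_succ`: `iter μ (l+1) ew X = iter μ l (TG hh) X`: by `iter_succ'` and for every `Z`
  `TG hh Z = ew Z ∫⁻ g, √(π/2) ∫⁻ x |⟪x, res Z g⟫| = ew Z ∫⁻ x, √(π/2) E|⟪res Z x, g⟫| = ew Z ∫⁻ x ‖res Z x‖ = ∫⁻ x, ew (x :: Z)`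
  (`lintegral_lintegral_swap`, `inner_res`, `lintegral_abs_inner`, `ofReal_integral_eq_lintegral_ofReal`).
* `ew_step`: `g1`. `TG_step`: `g2`: `∫⁻ x, TG G (x :: Z) = ew Z ∫⁻ x ‖res Z x‖ ∫⁻ g G(res (x :: Z) g)`.
* `iter_ew_le`, `iter_TG_step`: induction on `l` generalizing `X`, or `iter_succ'` + `iter_mono'`. -/

namespace Pool.Agent.HP89
open MeasureTheory ProbabilityTheory Set Filter Topology Metric
open scoped RealInnerProductSpace ENNReal

variable {V : Type*} [NormedAddCommGroup V] [InnerProductSpace ℝ V] [FiniteDimensional ℝ V]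
  [MeasurableSpace V] [BorelSpace V]

omit [FiniteDimensional ℝ V] [MeasurableSpace V] [BorelSpace V] in
private theorem ew_cons' (x : V) (Z : List V) :
    ew (x :: Z) = ENNReal.ofReal (wn Z) * ENNReal.ofReal ‖res Z x‖ := by
  rw [ew, wn_cons, ENNReal.ofReal_mul (wn_nonneg Z)]

theorem TG_norm (Y : List V) :
    TG (fun v : V => ENNReal.ofReal ‖v‖) Y = ENNReal.ofReal (mG (Module.finrank ℝ V - Y.length)) * ew Y := by
  by_cases h : wn Y = 0
  · rw [TG, ew, h]
    simp
  · have hint : Integrable (fun g : V => ‖res Y g‖) (stdGaussian V) := by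
      refine (integrable_norm_gaussian (V := V)).mono' ?_ ?_
      · exact ((continuous_res Y).norm).aestronglyMeasurable
      · refine Filter.Eventually.of_forall fun g => ?_
        rw [norm_norm]
        exact norm_res_le Y g
    have h1 : ∫⁻ g, ENNReal.ofReal ‖res Y g‖ ∂(stdGaussian V) =
        ENNReal.ofReal (mG (Module.finrank ℝ V - Y.length)) := by
      rw [← ofReal_integral_eq_lintegral_ofReal hint
        (Filter.Eventually.of_forall fun g => norm_nonneg _)]
      congr 1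
      rw [← finrank_orth_of_wn_ne_zero h, ← integral_norm_proj]
      refine integral_congr_ae (Filter.Eventually.of_forall fun g => ?_)
      simp only
      rw [res_eq Y g]
    rw [TG, h1, ew, mul_comm]

theorem iter_TG_norm (μ : Measure V) (l : ℕ) (X : List V) :
    iter μ l (TG (fun v : V => ENNReal.ofReal ‖v‖)) X =
      ENNReal.ofReal (mG (Module.finrank ℝ V - (X.length + l))) * iter μ l ew X := by
  rw [← iter_const_mul μ l ew ENNReal.ofReal_ne_top X]
  refine iter_congr' μ l X fun Z hZ => ?_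
  rw [TG_norm, hZ]

theorem lint_ew_cons {μ : Measure V} [IsFiniteMeasure μ] (hμ : Integrable (fun x => ‖x‖) μ) (Z : List V) :
    ∫⁻ x, ew (x :: Z) ∂μ = TG (fun v : V => ENNReal.ofReal (hh μ v)) Z := by
  have hL : ∫⁻ x, ew (x :: Z) ∂μ =
      ENNReal.ofReal (wn Z) * ∫⁻ x, ENNReal.ofReal ‖res Z x‖ ∂μ := by
    simp_rw [ew_cons']
    rw [lintegral_const_mul' _ _ ENNReal.ofReal_ne_top]
  rw [hL, TG]
  congr 1
  have hhh : ∀ v : V, ENNReal.ofReal (hh μ v) =
      ENNReal.ofReal √(Real.pi / 2) * ∫⁻ y, ENNReal.ofReal |⟪y, v⟫| ∂μ := by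
    intro v
    have hint : Integrable (fun y : V => |⟪y, v⟫|) μ := by
      refine (hμ.mul_const ‖v‖).mono' ?_ ?_
      · exact ((continuous_id.inner continuous_const).abs).aestronglyMeasurable
      · refine Filter.Eventually.of_forall fun y => ?_
        rw [Real.norm_eq_abs, abs_abs]
        exact abs_real_inner_le_norm y v
    rw [hh, ENNReal.ofReal_mul (Real.sqrt_nonneg _),
      ofReal_integral_eq_lintegral_ofReal hint (Filter.Eventually.of_forall fun y => abs_nonneg _)]
  simp_rw [hhh]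
  rw [lintegral_const_mul' _ _ ENNReal.ofReal_ne_top]
  have hmeas : Measurable (Function.uncurry fun (g y : V) => ENNReal.ofReal |⟪y, res Z g⟫|) := by
    refine ENNReal.measurable_ofReal.comp ?_
    have hc : Continuous (fun p : V × V => |⟪p.2, res Z p.1⟫|) :=
      (continuous_snd.inner ((continuous_res Z).comp continuous_fst)).abs
    exact hc.measurable
  rw [lintegral_lintegral_swap hmeas.aemeasurable]
  have hin : ∀ y : V, ∫⁻ g, ENNReal.ofReal |⟪y, res Z g⟫| ∂(stdGaussian V) =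
      ENNReal.ofReal √(2 / Real.pi) * ENNReal.ofReal ‖res Z y‖ := by
    intro y
    rw [← ENNReal.ofReal_mul (Real.sqrt_nonneg _), ← lintegral_abs_inner]
    refine lintegral_congr fun g => ?_
    rw [inner_res]
  simp_rw [hin]
  rw [lintegral_const_mul' _ _ ENNReal.ofReal_ne_top, ← mul_assoc,
    ← ENNReal.ofReal_mul (Real.sqrt_nonneg _), ← Real.sqrt_mul (by positivity)]
  have hpi : Real.pi / 2 * (2 / Real.pi) = 1 := by
    have := Real.pi_pos.ne'
    field_simp
  rw [hpi, Real.sqrt_one, ENNReal.ofReal_one, one_mul]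

theorem iter_ew_succ {μ : Measure V} [IsFiniteMeasure μ] (hμ : Integrable (fun x => ‖x‖) μ) (l : ℕ) (X : List V) :
    iter μ (l + 1) ew X = iter μ l (TG (fun v : V => ENNReal.ofReal (hh μ v))) X := by
  rw [iter_succ']
  refine iter_congr' μ l X fun Z _ => ?_
  exact lint_ew_cons hμ Z

theorem iter_ew_le {j : ℕ} {μ : Measure V} (hμ : Good j μ) (l : ℕ) (X : List V) :
    iter μ (l + 1) ew X ≤ ENNReal.ofReal (mG (Module.finrank ℝ V - (X.length + l))) * iter μ l ew X := by
  rw [iter_succ', ← iter_const_mul μ l ew ENNReal.ofReal_ne_top X]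
  refine iter_mono' μ l X fun Z hZ => ?_
  have hL : ∫⁻ x, ew (x :: Z) ∂μ =
      ENNReal.ofReal (wn Z) * ∫⁻ x, ENNReal.ofReal ‖res Z x‖ ∂μ := by
    simp_rw [ew_cons']
    rw [lintegral_const_mul' _ _ ENNReal.ofReal_ne_top]
  rw [hL]
  by_cases h : wn Z = 0
  · rw [h, ENNReal.ofReal_zero, zero_mul]
    exact zero_le
  · rw [ew, mul_comm (ENNReal.ofReal (mG _)), ← hZ]
    exact mul_le_mul_right (hμ.g1 Z h) _

theorem iter_TG_step {j : ℕ} {μ : Measure V} (hμ : Good j μ) {G : V → ℝ} (hG : Hom1 G) (l : ℕ) (X : List V) :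
    ENNReal.ofReal (((Module.finrank ℝ V : ℝ) - ((X.length : ℝ) + l) - 1 - j) /
        mG (Module.finrank ℝ V - (X.length + l))) * iter μ l (TG (fun v => ENNReal.ofReal (G v))) X ≤
      iter μ (l + 1) (TG (fun v => ENNReal.ofReal (G v))) X := by
  rw [iter_succ', ← iter_const_mul μ l _ ENNReal.ofReal_ne_top X]
  refine iter_mono' μ l X fun Z hZ => ?_
  have hL : ∫⁻ x, TG (fun v => ENNReal.ofReal (G v)) (x :: Z) ∂μ =
      ENNReal.ofReal (wn Z) * ∫⁻ x, ENNReal.ofReal ‖res Z x‖ *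
        ∫⁻ g, ENNReal.ofReal (G (res (x :: Z) g)) ∂(stdGaussian V) ∂μ := by
    rw [← lintegral_const_mul' _ _ ENNReal.ofReal_ne_top]
    refine lintegral_congr fun x => ?_
    rw [TG, wn_cons, ENNReal.ofReal_mul (wn_nonneg Z), mul_assoc]
  rw [hL]
  by_cases h : wn Z = 0
  · rw [TG, h, ENNReal.ofReal_zero, zero_mul, zero_mul, mul_zero]
  · have h1 := hμ.g2 Z h G hG
    have h2 : ((X.length : ℝ) + l) = (Z.length : ℝ) := by
      rw [hZ]
      push_cast
      ring
    rw [h2, ← hZ, TG, mul_left_comm]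
    exact mul_le_mul_right h1 _

end Pool.Agent.HP89
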