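import Pool.Agent.HP89.A8a

/-! Module HP-A8b: real-valued facts on `Lop` and `BB`. Throughout `i ≥ 1`, `i ≤ j`, `2 j < d`.

`MM d i > 0` for `i ≤ d - 1` (`mG_pos`). Finiteness: for `G ≤ C‖·‖`: `iter μ l (TG G) [x] ≤ C iter μ l (TG ‖·‖) [x]
= C m iter μ l ew [x] < ⊤` (`iter_TG_norm`, `iter_ew_lt_top`).
* `BB_le`: `iter μ l ew [x] ≤ ofReal (MM d l) * ofReal ‖x‖`, induction with `iter_ew_le` (`X = [x]`).
* `Lop_norm`: `Lop μ i ‖·‖ x = BB μ (i-1) x ≤ ‖x‖` (`iter_TG_norm`, `MM d i = MM d (i-1) * mG (d-1-(i-1))`).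
* `Lop_norm_eq`: `Lop μ i ‖·‖ = BB μ (i-1)`. -/

namespace Pool.Agent.HP89
open MeasureTheory ProbabilityTheory Set Filter Topology Metric
open scoped RealInnerProductSpace ENNReal

variable {V : Type*} [NormedAddCommGroup V] [InnerProductSpace ℝ V] [FiniteDimensional ℝ V]
  [MeasurableSpace V] [BorelSpace V]

theorem MM_nonneg' (d i : ℕ) : 0 ≤ MM d i :=
  Finset.prod_nonneg fun _ _ => mG_nonneg _

theorem MM_succ' (d i : ℕ) : MM d (i + 1) = MM d i * mG (d - 1 - i) := by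
  unfold MM
  rw [Finset.prod_range_succ]

theorem MM_pos {d i : ℕ} (h : i < d) : 0 < MM d i := by
  unfold MM
  apply Finset.prod_pos
  intro s hs
  rw [Finset.mem_range] at hs
  exact mG_pos (by omega)

theorem Hom1.adm {G : V → ℝ} (hG : Hom1 G) : Adm G := by
  obtain ⟨C, _, hC⟩ := hG.bound
  exact ⟨hG.cont.measurable, hG.nn, C, hC⟩

theorem Adm.add {G H : V → ℝ} (hG : Adm G) (hH : Adm H) : Adm (fun x => G x + H x) := by
  obtain ⟨C, hC⟩ := hG.bdd
  obtain ⟨D, hD⟩ := hH.bdd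
  refine ⟨hG.meas.add hH.meas, fun x => add_nonneg (hG.nn x) (hH.nn x), C + D, fun x => ?_⟩
  have := hC x
  have := hD x
  rw [add_mul]
  linarith

theorem Adm.smul {G : V → ℝ} (hG : Adm G) {c : ℝ} (hc : 0 ≤ c) : Adm (fun x => c * G x) := by
  obtain ⟨C, hC⟩ := hG.bdd
  refine ⟨hG.meas.const_mul c, fun x => mul_nonneg hc (hG.nn x), c * C, fun x => ?_⟩
  rw [mul_assoc]
  exact mul_le_mul_of_nonneg_left (hC x) hc

theorem adm_norm : Adm (fun x : V => ‖x‖) :=
  ⟨continuous_norm.measurable, fun x => norm_nonneg x, 1, fun x => by rw [one_mul]⟩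

theorem hom1_norm : Hom1 (fun x : V => ‖x‖) :=
  ⟨continuous_norm, fun x => norm_nonneg x, fun c hc x => by
    rw [norm_smul, Real.norm_of_nonneg hc]⟩

theorem integrable_abs_inner' {μ : Measure V} (hμ : Integrable (fun x => ‖x‖) μ) (x : V) :
    Integrable (fun y => |⟪y, x⟫|) μ := by
  refine Integrable.mono' (hμ.mul_const ‖x‖) ?_ ?_
  · exact (Measurable.aestronglyMeasurable (by fun_prop))
  · refine ae_of_all _ fun y => ?_
    rw [Real.norm_eq_abs, abs_abs]
    exact abs_real_inner_le_norm y x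

theorem Hom1_hh {μ : Measure V} (hμ : Integrable (fun x => ‖x‖) μ) : Hom1 (hh μ) := by
  have hs : 0 ≤ √(Real.pi / 2) := Real.sqrt_nonneg _
  refine ⟨?_, fun x => ?_, fun c hc x => ?_⟩
  · set L : ℝ := √(Real.pi / 2) * ∫ y, ‖y‖ ∂μ with hL
    have hL0 : 0 ≤ L := mul_nonneg hs (integral_nonneg fun y => norm_nonneg y)
    have key : ∀ x x' : V, hh μ x - hh μ x' ≤ L * ‖x - x'‖ := by
      intro x x'
      unfold hh
      rw [hL, ← mul_sub, ← integral_sub (integrable_abs_inner' hμ x) (integrable_abs_inner' hμ x'),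
        mul_assoc, ← integral_mul_const]
      apply mul_le_mul_of_nonneg_left _ hs
      apply integral_mono ((integrable_abs_inner' hμ x).sub (integrable_abs_inner' hμ x'))
        (hμ.mul_const _)
      intro y
      have h1 : |⟪y, x⟫| - |⟪y, x'⟫| ≤ |⟪y, x⟫ - ⟪y, x'⟫| := abs_sub_abs_le_abs_sub _ _
      rw [← inner_sub_right] at h1
      exact h1.trans (abs_real_inner_le_norm y (x - x'))
    have hlip : LipschitzWith (Real.toNNReal L) (hh μ) := by
      apply LipschitzWith.of_dist_le_mul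
      intro x x'
      rw [Real.dist_eq, dist_eq_norm, Real.coe_toNNReal _ hL0, abs_le]
      constructor
      · have := key x' x
        rw [norm_sub_rev] at this
        linarith
      · exact key x x'
    exact hlip.continuous
  · exact mul_nonneg hs (integral_nonneg fun y => abs_nonneg _)
  · unfold hh
    have h1 : (fun y : V => |⟪y, c • x⟫|) = fun y => c * |⟪y, x⟫| := by
      funext y
      rw [inner_smul_right, abs_mul, abs_of_nonneg hc]
    rw [h1, integral_const_mul]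
    ring

theorem BB_zero (μ : Measure V) (x : V) : BB μ 0 x = ‖x‖ := by
  unfold BB
  rw [iter_zero]
  unfold ew
  rw [wn_singleton, ENNReal.toReal_ofReal (norm_nonneg x)]
  simp [MM]

theorem iter_ew_bound' {j : ℕ} {μ : Measure V} (hμ : Good j μ) (l : ℕ) (x : V) :
    iter μ l ew [x] ≤ ENNReal.ofReal (MM (Module.finrank ℝ V) l) * ENNReal.ofReal ‖x‖ := by
  induction l with
  | zero =>
    rw [iter_zero]
    unfold ew
    rw [wn_singleton]
    simp [MM]
  | succ l ih =>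
    refine (iter_ew_le hμ l [x]).trans ?_
    rw [MM_succ', ENNReal.ofReal_mul (MM_nonneg' _ _)]
    have h1 : Module.finrank ℝ V - ([x].length + l) = Module.finrank ℝ V - 1 - l := by
      simp only [List.length_cons, List.length_nil]
      omega
    rw [h1]
    calc ENNReal.ofReal (mG (Module.finrank ℝ V - 1 - l)) * iter μ l ew [x]
        ≤ ENNReal.ofReal (mG (Module.finrank ℝ V - 1 - l)) *
          (ENNReal.ofReal (MM (Module.finrank ℝ V) l) * ENNReal.ofReal ‖x‖) := by gcongr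
      _ = _ := by ring

theorem BB_le {j : ℕ} {μ : Measure V} (hμ : Good j μ) {l : ℕ} (hl : l < Module.finrank ℝ V) (x : V) :
    BB μ l x ≤ ‖x‖ := by
  unfold BB
  have hM := MM_pos hl
  rw [div_le_iff₀ hM]
  have h1 := iter_ew_bound' hμ l x
  have h2 := ENNReal.toReal_mono (by finiteness) h1
  rw [ENNReal.toReal_mul, ENNReal.toReal_ofReal hM.le, ENNReal.toReal_ofReal (norm_nonneg x)] at h2
  linarith

theorem BB_nonneg (μ : Measure V) (l : ℕ) (x : V) : 0 ≤ BB μ l x :=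
  div_nonneg ENNReal.toReal_nonneg (MM_nonneg' _ _)

/-- homogeneity of `BB` in `x`. -/
theorem BB_hom (μ : Measure V) (l : ℕ) {c : ℝ} (hc : 0 ≤ c) (x : V) : BB μ l (c • x) = c * BB μ l x := by
  unfold BB
  have h1 : iter μ l ew [c • x] = ENNReal.ofReal c * iter μ l ew [x] := by
    apply iter_hom_last μ l ENNReal.ofReal_ne_top
    intro Z
    unfold ew
    have e1 : wn (Z ++ [c • x]) = wn (c • x :: Z) := wn_perm (List.perm_append_singleton _ _)
    have e2 : wn (Z ++ [x]) = wn (x :: Z) := wn_perm (List.perm_append_singleton _ _)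
    rw [e1, e2, wn_smul_cons, abs_of_nonneg hc, ENNReal.ofReal_mul hc]
  rw [h1, ENNReal.toReal_mul, ENNReal.toReal_ofReal hc]
  ring

/-- monotonicity of `TG`. -/
theorem TG_mono' {G H : V → ℝ≥0∞} (h : ∀ v, G v ≤ H v) (Y : List V) : TG G Y ≤ TG H Y := by
  unfold TG
  gcongr
  exact h _

theorem TG_const_mul' {G : V → ℝ≥0∞} {c : ℝ≥0∞} (hc : c ≠ ⊤) (Y : List V) :
    TG (fun v => c * G v) Y = c * TG G Y := by
  unfold TG
  rw [lintegral_const_mul' _ _ hc]
  ring

theorem iter_TG_bound' {μ : Measure V} {G : V → ℝ} {C : ℝ} (hC : 0 ≤ C)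
    (h : ∀ v, G v ≤ C * ‖v‖) (l : ℕ) (X : List V) :
    iter μ l (TG fun v => ENNReal.ofReal (G v)) X ≤
      ENNReal.ofReal C * iter μ l (TG fun v => ENNReal.ofReal ‖v‖) X := by
  rw [← iter_const_mul μ l _ ENNReal.ofReal_ne_top]
  apply iter_mono
  intro Z
  rw [← TG_const_mul' ENNReal.ofReal_ne_top]
  apply TG_mono'
  intro v
  rw [← ENNReal.ofReal_mul hC]
  exact ENNReal.ofReal_le_ofReal (h v)

theorem iter_TG_norm_lt_top' {j : ℕ} {μ : Measure V} (hμ : Good j μ) (l : ℕ) (X : List V) :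
    iter μ l (TG fun v : V => ENNReal.ofReal ‖v‖) X < ⊤ := by
  haveI := hμ.fin
  rw [iter_TG_norm]
  exact ENNReal.mul_lt_top ENNReal.ofReal_lt_top (iter_ew_lt_top μ hμ.int l X)

theorem Adm.bdd' {G : V → ℝ} (hG : Adm G) : ∃ C, 0 ≤ C ∧ ∀ x, G x ≤ C * ‖x‖ := by
  obtain ⟨C, hC⟩ := hG.bdd
  refine ⟨max C 0, le_max_right _ _, fun x => (hC x).trans ?_⟩
  exact mul_le_mul_of_nonneg_right (le_max_left _ _) (norm_nonneg x)

theorem iter_TG_lt_top' {j : ℕ} {μ : Measure V} (hμ : Good j μ) {G : V → ℝ} (hG : Adm G)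
    (l : ℕ) (X : List V) : iter μ l (TG fun v : V => ENNReal.ofReal (G v)) X < ⊤ := by
  obtain ⟨C, hC0, hC⟩ := hG.bdd'
  exact (iter_TG_bound' hC0 hC l X).trans_lt
    (ENNReal.mul_lt_top ENNReal.ofReal_lt_top (iter_TG_norm_lt_top' hμ l X))

theorem Lop_norm_eq {j : ℕ} {μ : Measure V} (hμ : Good j μ) {i : ℕ} (hi : 1 ≤ i) (hid : i < Module.finrank ℝ V)
    (x : V) : Lop μ i (fun v => ‖v‖) x = BB μ (i - 1) x := by
  unfold Lop BB
  obtain ⟨i, rfl⟩ : ∃ k, i = k + 1 := ⟨i - 1, by omega⟩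
  rw [Nat.add_sub_cancel, iter_TG_norm, MM_succ']
  have h1 : Module.finrank ℝ V - ([x].length + i) = Module.finrank ℝ V - 1 - i := by
    simp only [List.length_cons, List.length_nil]
    omega
  have h2 : 0 < mG (Module.finrank ℝ V - 1 - i) := mG_pos (by omega)
  rw [h1, ENNReal.toReal_mul, ENNReal.toReal_ofReal h2.le]
  rw [mul_comm, mul_div_mul_right _ _ h2.ne']

theorem Lop_norm_le {j : ℕ} {μ : Measure V} (hμ : Good j μ) {i : ℕ} (hi : 1 ≤ i) (hid : i < Module.finrank ℝ V)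
    (x : V) : Lop μ i (fun v => ‖v‖) x ≤ ‖x‖ := by
  rw [Lop_norm_eq hμ hi hid]
  exact BB_le hμ (by omega) x

theorem Lop_adm {j : ℕ} {μ : Measure V} (hμ : Good j μ) {i : ℕ} (hi : 1 ≤ i) (hid : i < Module.finrank ℝ V)
    {G : V → ℝ} (hG : Adm G) : Adm (Lop μ i G) := by
  haveI := hμ.fin
  have hM := MM_pos hid
  refine ⟨?_, fun x => div_nonneg ENNReal.toReal_nonneg hM.le, ?_⟩
  · have h1 : Measurable (fun x : V => iter μ (i - 1) (TG fun v => ENNReal.ofReal (G v)) [x]) :=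
      ((lmeas_TG hG.meas.ennreal_ofReal).iter μ (i - 1)).cons []
    exact h1.ennreal_toReal.div_const _
  · obtain ⟨C, hC0, hC⟩ := hG.bdd'
    refine ⟨C, fun x => ?_⟩
    have h1 := iter_TG_bound' (μ := μ) hC0 hC (i - 1) [x]
    have h2 := ENNReal.toReal_mono
      (ENNReal.mul_lt_top ENNReal.ofReal_lt_top (iter_TG_norm_lt_top' hμ (i - 1) [x])).ne h1
    rw [ENNReal.toReal_mul, ENNReal.toReal_ofReal hC0] at h2
    have h3 : Lop μ i G x ≤ C * Lop μ i (fun v => ‖v‖) x := by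
      unfold Lop
      rw [← mul_div_assoc]
      exact div_le_div_of_nonneg_right h2 hM.le
    exact h3.trans (mul_le_mul_of_nonneg_left (Lop_norm_le hμ hi hid x) hC0)

theorem Lop_add {j : ℕ} {μ : Measure V} (hμ : Good j μ) {i : ℕ} (hi : 1 ≤ i) (hid : i < Module.finrank ℝ V)
    {G H : V → ℝ} (hG : Adm G) (hH : Adm H) (x : V) :
    Lop μ i (fun v => G v + H v) x = Lop μ i G x + Lop μ i H x := by
  haveI := hμ.fin
  unfold Lop
  have h1 : iter μ (i - 1) (TG fun v => ENNReal.ofReal (G v + H v)) [x] =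
      iter μ (i - 1) (TG fun v => ENNReal.ofReal (G v)) [x] +
        iter μ (i - 1) (TG fun v => ENNReal.ofReal (H v)) [x] := by
    rw [← iter_add μ (i - 1) (lmeas_TG hG.meas.ennreal_ofReal)]
    congr 1
    funext Z
    unfold TG
    rw [← mul_add, ← lintegral_add_left]
    · congr 1
      apply lintegral_congr
      intro g
      exact ENNReal.ofReal_add (hG.nn _) (hH.nn _)
    · exact (hG.meas.comp (continuous_res Z).measurable).ennreal_ofReal
  rw [h1, ENNReal.toReal_add (iter_TG_lt_top' hμ hG _ _).ne (iter_TG_lt_top' hμ hH _ _).ne, add_div]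

theorem Lop_smul {j : ℕ} {μ : Measure V} (hμ : Good j μ) {i : ℕ} (hi : 1 ≤ i) (hid : i < Module.finrank ℝ V)
    {G : V → ℝ} (hG : Adm G) {c : ℝ} (hc : 0 ≤ c) (x : V) :
    Lop μ i (fun v => c * G v) x = c * Lop μ i G x := by
  unfold Lop
  have h1 : iter μ (i - 1) (TG fun v => ENNReal.ofReal (c * G v)) [x] =
      ENNReal.ofReal c * iter μ (i - 1) (TG fun v => ENNReal.ofReal (G v)) [x] := by
    rw [← iter_const_mul μ (i - 1) _ ENNReal.ofReal_ne_top]
    congr 1
    funext Z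
    rw [← TG_const_mul' ENNReal.ofReal_ne_top]
    congr 1
    funext v
    exact ENNReal.ofReal_mul hc
  rw [h1, ENNReal.toReal_mul, ENNReal.toReal_ofReal hc, mul_div_assoc]

/-- `BB μ (l+1) = Lop μ (l+1) (hh μ)` (`iter_ew_succ`). -/
theorem BB_succ {j : ℕ} {μ : Measure V} (hμ : Good j μ) (l : ℕ) (x : V) :
    BB μ (l + 1) x = Lop μ (l + 1) (hh μ) x := by
  haveI := hμ.fin
  unfold BB Lop
  rw [iter_ew_succ hμ.int l [x], Nat.add_sub_cancel]

end Pool.Agent.HP89
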