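import Pool.Agent.HP89.A8b

/-! Module HP-A9: the operator `R = Rop`.

For `G` admissible, `g ↦ G (ort x g)` is integrable (`G ≤ C‖·‖`, `norm_ort_le`). `E ‖ort x g‖ = m_{d-1}` for `x ≠ 0`
(`ort_eq`, `integral_norm_proj`, `finrank (ℝ∙x)ᗮ = d-1`).
* `Rop_adm`: measurability: `StronglyMeasurable.integral_prod_right'`/`Measurable.lintegral_prod_right'`, `measurable_ort`.
* `mean_Rop`: `lemmaM` with `E = F = ⊤`: `(d-1)/m_d ∫ G ≤ ∫ ‖ξ‖ ∫ G(ort ξ g) = m_{d-1} ∫ Rop G` and `m_d m_{d-1} = d-1` (`mG_mul`).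
* `Rop_Rop_lower`: `x ≠ 0`: `lemmaM` with `E = (ℝ∙x)ᗮ`, `F = ⊤`: `(d-2)/m_d ∫ G ≤ ∫ ‖ort x ξ‖ ∫ G(ort (ort x ξ) g) =
  m_{d-1} ∫ Rop G (ort x ξ)`, `Rop (Rop G) x = ‖x‖ ∫ Rop G (ort x ξ) / m_{d-1}`, `m_{d-1}² ≤ d-1` (`mG_sq_le`). -/

namespace Pool.Agent.HP89
open MeasureTheory ProbabilityTheory Set Filter Topology Metric
open scoped RealInnerProductSpace ENNReal

variable {V : Type*} [NormedAddCommGroup V] [InnerProductSpace ℝ V] [FiniteDimensional ℝ V]
  [MeasurableSpace V] [BorelSpace V]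

private theorem Adm.meas_ort {G : V → ℝ} (hG : Adm G) :
    Measurable (fun p : V × V => G (ort p.1 p.2)) := hG.meas.comp measurable_ort

private theorem Adm.bd {G : V → ℝ} (hG : Adm G) : ∃ C, 0 ≤ C ∧ ∀ x, G x ≤ C * ‖x‖ := by
  obtain ⟨C, hC⟩ := hG.bdd
  refine ⟨|C|, abs_nonneg C, fun x => (hC x).trans ?_⟩
  exact mul_le_mul_of_nonneg_right (le_abs_self C) (norm_nonneg x)

theorem Adm.integrable {G : V → ℝ} (hG : Adm G) : Integrable G (stdGaussian V) := by
  obtain ⟨C, hC0, hC⟩ := hG.bd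
  refine Integrable.mono' (integrable_norm_gaussian.const_mul C) hG.meas.aestronglyMeasurable ?_
  refine Filter.Eventually.of_forall fun x => ?_
  rw [Real.norm_of_nonneg (hG.nn x)]
  exact hC x

theorem Adm.integrable_ort {G : V → ℝ} (hG : Adm G) (x : V) :
    Integrable (fun g => G (ort x g)) (stdGaussian V) := by
  obtain ⟨C, hC0, hC⟩ := hG.bd
  refine Integrable.mono' (integrable_norm_gaussian.const_mul C)
    (hG.meas_ort.comp (measurable_const.prodMk measurable_id)).aestronglyMeasurable ?_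
  refine Filter.Eventually.of_forall fun g => ?_
  rw [Real.norm_of_nonneg (hG.nn _)]
  exact (hC _).trans (mul_le_mul_of_nonneg_left (norm_ort_le x g) hC0)

private theorem int_ort_nonneg {G : V → ℝ} (hG : ∀ x, 0 ≤ G x) (x : V) :
    0 ≤ ∫ g, G (ort x g) ∂(stdGaussian V) := integral_nonneg fun g => hG _

theorem Rop_adm {G : V → ℝ} (hG : Adm G) : Adm (Rop G) := by
  obtain ⟨C, hC0, hC⟩ := hG.bd
  refine ⟨?_, ?_, ?_⟩
  · unfold Rop
    refine Measurable.div_const (Measurable.mul measurable_norm ?_) _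
    exact (hG.meas_ort.stronglyMeasurable.integral_prod_right' (ν := stdGaussian V)).measurable
  · intro x
    unfold Rop
    exact div_nonneg (mul_nonneg (norm_nonneg _) (int_ort_nonneg hG.nn x)) (mG_nonneg _)
  · refine ⟨C * (∫ g, ‖g‖ ∂(stdGaussian V)) / mG (Module.finrank ℝ V - 1), fun x => ?_⟩
    unfold Rop
    have h1 : ∫ g, G (ort x g) ∂(stdGaussian V) ≤ C * ∫ g, ‖g‖ ∂(stdGaussian V) := by
      rw [← integral_const_mul]
      refine integral_mono (hG.integrable_ort x) (integrable_norm_gaussian.const_mul C) ?_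
      intro g
      exact (hC _).trans (mul_le_mul_of_nonneg_left (norm_ort_le x g) hC0)
    have h2 : ‖x‖ * (∫ g, G (ort x g) ∂(stdGaussian V)) ≤
        ‖x‖ * (C * ∫ g, ‖g‖ ∂(stdGaussian V)) := mul_le_mul_of_nonneg_left h1 (norm_nonneg x)
    calc ‖x‖ * (∫ g, G (ort x g) ∂(stdGaussian V)) / mG (Module.finrank ℝ V - 1)
        ≤ ‖x‖ * (C * ∫ g, ‖g‖ ∂(stdGaussian V)) / mG (Module.finrank ℝ V - 1) :=
          div_le_div_of_nonneg_right h2 (mG_nonneg _)
      _ = C * (∫ g, ‖g‖ ∂(stdGaussian V)) / mG (Module.finrank ℝ V - 1) * ‖x‖ := by ring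

theorem Rop_add {G H : V → ℝ} (hG : Adm G) (hH : Adm H) (x : V) :
    Rop (fun v => G v + H v) x = Rop G x + Rop H x := by
  unfold Rop
  rw [integral_add (hG.integrable_ort x) (hH.integrable_ort x)]
  ring

theorem Rop_smul (G : V → ℝ) (c : ℝ) (x : V) : Rop (fun v => c * G v) x = c * Rop G x := by
  unfold Rop
  rw [integral_const_mul]
  ring

theorem Rop_mono {G H : V → ℝ} (hG : Adm G) (hH : Adm H) (h : ∀ v, G v ≤ H v) (x : V) :
    Rop G x ≤ Rop H x := by
  unfold Rop
  refine div_le_div_of_nonneg_right ?_ (mG_nonneg _)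
  refine mul_le_mul_of_nonneg_left ?_ (norm_nonneg x)
  exact integral_mono (hG.integrable_ort x) (hH.integrable_ort x) fun g => h _

private theorem finrank_orth {x : V} (hx : x ≠ 0) :
    Module.finrank ℝ (ℝ ∙ x)ᗮ = Module.finrank ℝ V - 1 := by
  have h1 := Submodule.finrank_add_finrank_orthogonal (ℝ ∙ x)
  rw [finrank_span_singleton hx] at h1
  omega

theorem Rop_norm (hd : 2 ≤ Module.finrank ℝ V) (x : V) : Rop (fun v => ‖v‖) x = ‖x‖ := by
  unfold Rop
  by_cases hx : x = 0
  · subst hx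
    simp
  · have h1 : ∫ g, ‖ort x g‖ ∂(stdGaussian V) = mG (Module.finrank ℝ V - 1) := by
      have h2 := integral_norm_proj (V := V) (ℝ ∙ x)ᗮ
      rw [finrank_orth hx] at h2
      rw [← h2]
      exact integral_congr_ae (Filter.Eventually.of_forall fun g => by simp only [ort_eq])
    rw [h1]
    have h3 : 0 < mG (Module.finrank ℝ V - 1) := mG_pos (by omega)
    field_simp

private theorem lemmaM_real (E : Submodule ℝ V) {G : V → ℝ} (hG : Hom1 G)
    (hE : 1 ≤ Module.finrank ℝ E) (hd : 2 ≤ Module.finrank ℝ V) :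
    ((Module.finrank ℝ E : ℝ) - 1) / mG (Module.finrank ℝ V) * (∫ g, G g ∂(stdGaussian V)) ≤
      mG (Module.finrank ℝ V - 1) * ∫ ξ, Rop G (E.starProjection ξ) ∂(stdGaussian V) := by
  have hA := hG.adm
  have h1 := lemmaM E ⊤ hG (by rw [finrank_top]; omega)
  rw [finrank_top] at h1
  have e1 : (Module.finrank ℝ E : ℝ) + Module.finrank ℝ V - 1 - Module.finrank ℝ V =
      (Module.finrank ℝ E : ℝ) - 1 := by ring
  rw [e1] at h1
  have e2 : ∀ v : V, (⊤ : Submodule ℝ V).starProjection v = v := by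
    intro v
    rw [Submodule.starProjection_top]
    rfl
  simp only [e2] at h1
  have hm0 : 0 < mG (Module.finrank ℝ V - 1) := mG_pos (by omega)
  -- inner integrals
  have h2 : ∀ ξ : V, ENNReal.ofReal ‖E.starProjection ξ‖ *
      ∫⁻ g, ENNReal.ofReal (G (ort (E.starProjection ξ) g)) ∂(stdGaussian V) =
      ENNReal.ofReal (mG (Module.finrank ℝ V - 1) * Rop G (E.starProjection ξ)) := by
    intro ξ
    rw [← ofReal_integral_eq_lintegral_ofReal (hA.integrable_ort _)
      (Filter.Eventually.of_forall fun g => hG.nn _), ← ENNReal.ofReal_mul (norm_nonneg _)]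
    congr 1
    unfold Rop
    field_simp
  have h3 : Integrable (fun ξ => mG (Module.finrank ℝ V - 1) * Rop G (E.starProjection ξ))
      (stdGaussian V) := by
    refine Integrable.const_mul ?_ _
    obtain ⟨C, hC0, hC⟩ := (Rop_adm hA).bd
    refine Integrable.mono' (integrable_norm_gaussian.const_mul C)
      ((Rop_adm hA).meas.comp E.starProjection.continuous.measurable).aestronglyMeasurable ?_
    refine Filter.Eventually.of_forall fun g => ?_
    rw [Real.norm_of_nonneg ((Rop_adm hA).nn _)]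
    refine (hC _).trans (mul_le_mul_of_nonneg_left ?_ hC0)
    exact E.norm_starProjection_apply_le g
  simp only [h2] at h1
  rw [← ofReal_integral_eq_lintegral_ofReal hA.integrable
      (Filter.Eventually.of_forall fun g => hG.nn _),
    ← ofReal_integral_eq_lintegral_ofReal h3
      (Filter.Eventually.of_forall fun g => mul_nonneg (mG_nonneg _) ((Rop_adm hA).nn _)),
    ← ENNReal.ofReal_mul] at h1
  · have h4 : 0 ≤ ∫ ξ, mG (Module.finrank ℝ V - 1) * Rop G (E.starProjection ξ)
        ∂(stdGaussian V) := integral_nonneg fun ξ => mul_nonneg (mG_nonneg _) ((Rop_adm hA).nn _)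
    have h5 := (ENNReal.ofReal_le_ofReal_iff h4).1 h1
    rwa [integral_const_mul] at h5
  · refine div_nonneg ?_ (mG_nonneg _)
    have : (1 : ℝ) ≤ (Module.finrank ℝ E : ℝ) := by exact_mod_cast hE
    linarith

theorem mean_Rop (hd : 2 ≤ Module.finrank ℝ V) {G : V → ℝ} (hG : Hom1 G) :
    ∫ g, G g ∂(stdGaussian V) ≤ ∫ g, Rop G g ∂(stdGaussian V) := by
  have h1 := lemmaM_real (V := V) ⊤ hG (by rw [finrank_top]; omega) hd
  have e2 : ∀ v : V, (⊤ : Submodule ℝ V).starProjection v = v := by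
    intro v
    rw [Submodule.starProjection_top]
    rfl
  simp only [e2, finrank_top] at h1
  have hm0 : 0 < mG (Module.finrank ℝ V - 1) := mG_pos (by omega)
  have hm1 : 0 < mG (Module.finrank ℝ V) := mG_pos (by omega)
  have h2 : mG (Module.finrank ℝ V) * mG (Module.finrank ℝ V - 1) =
      (Module.finrank ℝ V : ℝ) - 1 := by
    have h3 := mG_mul (Module.finrank ℝ V - 1)
    have h4 : Module.finrank ℝ V - 1 + 1 = Module.finrank ℝ V := by omega
    rw [h4] at h3
    rw [h3, Nat.cast_sub (by omega)]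
    simp
  rw [← h2] at h1
  have h5 : mG (Module.finrank ℝ V) * mG (Module.finrank ℝ V - 1) / mG (Module.finrank ℝ V) =
      mG (Module.finrank ℝ V - 1) := by field_simp
  rw [h5] at h1
  exact le_of_mul_le_mul_left h1 hm0

theorem Rop_Rop_lower (hd : 3 ≤ Module.finrank ℝ V) {G : V → ℝ} (hG : Hom1 G) (x : V) :
    ‖x‖ * (((Module.finrank ℝ V : ℝ) - 2) / ((Module.finrank ℝ V : ℝ) - 1)) *
      ((∫ g, G g ∂(stdGaussian V)) / mG (Module.finrank ℝ V)) ≤ Rop (Rop G) x := by
  by_cases hx : x = 0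
  · subst hx
    simp [Rop]
  · have h1 := lemmaM_real (V := V) (ℝ ∙ x)ᗮ hG (by rw [finrank_orth hx]; omega) (by omega)
    rw [finrank_orth hx, Nat.cast_sub (by omega)] at h1
    have hm0 : 0 < mG (Module.finrank ℝ V - 1) := mG_pos (by omega)
    have hm1 : 0 < mG (Module.finrank ℝ V) := mG_pos (by omega)
    have hsq := mG_sq_le (Module.finrank ℝ V - 1)
    rw [Nat.cast_sub (by omega)] at hsq
    have hd' : (3 : ℝ) ≤ (Module.finrank ℝ V : ℝ) := by exact_mod_cast hd
    have hI : 0 ≤ ∫ g, G g ∂(stdGaussian V) := integral_nonneg hG.nn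
    have h2 : Rop (Rop G) x = ‖x‖ * (∫ g, Rop G (ort x g) ∂(stdGaussian V)) /
        mG (Module.finrank ℝ V - 1) := rfl
    have h3 : ∫ g, Rop G (ort x g) ∂(stdGaussian V) =
        ∫ g, Rop G ((ℝ ∙ x)ᗮ.starProjection g) ∂(stdGaussian V) :=
      integral_congr_ae (Filter.Eventually.of_forall fun g => by simp only [ort_eq])
    rw [h2, h3]
    set J := ∫ g, Rop G ((ℝ ∙ x)ᗮ.starProjection g) ∂(stdGaussian V) with hJ
    set I := ∫ g, G g ∂(stdGaussian V) with hIdef
    set n : ℝ := (Module.finrank ℝ V : ℝ) with hn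
    set p := mG (Module.finrank ℝ V - 1) with hp
    set q := mG (Module.finrank ℝ V) with hq
    simp only [Nat.cast_one] at h1 hsq
    -- h1 : (n - 1 - 1) / q * I ≤ p * J
    have h4 : (n - 2) * (I / q) ≤ p * J := by
      calc (n - 2) * (I / q) = (n - 1 - 1) / q * I := by ring
        _ ≤ p * J := h1
    have h5 : 0 ≤ (n - 2) * (I / q) := mul_nonneg (by linarith) (div_nonneg hI hm1.le)
    have h6 : (n - 2) / (n - 1) * (I / q) ≤ J / p := by
      rw [div_mul_eq_mul_div, div_le_div_iff₀ (by linarith) hm0]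
      have h7 : 0 ≤ J := by
        by_contra hneg
        push Not at hneg
        have := mul_neg_of_pos_of_neg hm0 hneg
        linarith
      calc (n - 2) * (I / q) * p ≤ p * J * p := mul_le_mul_of_nonneg_right h4 hm0.le
        _ = J * p ^ 2 := by ring
        _ ≤ J * (n - 1) := mul_le_mul_of_nonneg_left hsq h7
    calc ‖x‖ * ((n - 2) / (n - 1)) * (I / q) = ‖x‖ * ((n - 2) / (n - 1) * (I / q)) := by ring
      _ ≤ ‖x‖ * (J / p) := mul_le_mul_of_nonneg_left h6 (norm_nonneg x)
      _ = ‖x‖ * J / p := by ring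

/-- mean of `hh`. -/
theorem integral_hh {μ : Measure V} [IsFiniteMeasure μ] (hμ : Integrable (fun x => ‖x‖) μ) :
    ∫ g, hh μ g ∂(stdGaussian V) = ∫ x, ‖x‖ ∂μ := by
  unfold hh
  rw [integral_const_mul]
  have h1 : Integrable (Function.uncurry fun (g y : V) => |⟪y, g⟫|) ((stdGaussian V).prod μ) := by
    refine Integrable.mono' (integrable_norm_gaussian.mul_prod hμ) ?_ ?_
    · refine Measurable.aestronglyMeasurable ?_
      have : Continuous (Function.uncurry fun (g y : V) => |⟪y, g⟫|) := by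
        simp only [Function.uncurry_def]
        fun_prop
      exact this.measurable
    · refine Filter.Eventually.of_forall fun p => ?_
      simp only [Function.uncurry, Real.norm_eq_abs, abs_abs]
      rw [mul_comm]
      exact abs_real_inner_le_norm _ _
  rw [integral_integral_swap h1]
  simp only [integral_abs_inner]
  rw [integral_const_mul, ← mul_assoc, ← Real.sqrt_mul (by positivity)]
  have h2 : Real.pi / 2 * (2 / Real.pi) = 1 := by
    field_simp
  rw [h2, Real.sqrt_one, one_mul]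

theorem Good.integral_hh {j : ℕ} {μ : Measure V} (hμ : Good j μ) :
    ∫ g, hh μ g ∂(stdGaussian V) = mG (Module.finrank ℝ V - j) := by
  have := hμ.fin
  rw [HP89.integral_hh hμ.int]
  have h1 := hμ.g3
  rw [← ofReal_integral_eq_lintegral_ofReal hμ.int
    (Filter.Eventually.of_forall fun x => norm_nonneg x)] at h1
  exact (ENNReal.ofReal_eq_ofReal_iff (integral_nonneg fun x => norm_nonneg x) (mG_nonneg _)).1 h1

end Pool.Agent.HP89
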