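import Pool.Agent.HP89.G0

/-! Module HP-G1: `vol(M + [-cu, cu]) = vol M + 2c vol_{d-1}(M|u^⊥)`.

Let `S = (ℝ∙u)ᗮ`. The map `Φ : S × ℝ → V`, `(y, τ) ↦ y + τ u` is a measure preserving homeomorphism
(`Submodule.orthogonalDecomposition` is a linear isometry, hence measure preserving; `WithLp.volume_preserving_ofLp`;
`ℝ∙u ≃ₗᵢ ℝ`, see `Submodule.measurePreserving_measurableEquivProd` in Mathlib/Geometry/Euclidean/Volume/Measure.lean).
So `vol M = ∫⁻ y, vol (M_y)`, `M_y = {τ | y + τ u ∈ M}`, compact convex, nonempty iff `y ∈ shadow M S`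
(`y = P x`, `x = P x + ⟪x,u⟫ u`). `(M + seg (c u))_y = M_y + [-c, c]`, so its length is `length M_y + 2c` if `M_y ≠ ∅`
(`M_y = Icc a b`), and `0` otherwise. Integrate. (`shadow M S` is compact, hence measurable; all volumes finite.) -/

namespace Pool.Agent.HP89
open MeasureTheory ProbabilityTheory Set Filter Topology Metric
open Pool.Agent.Helper82.Proj1
open scoped RealInnerProductSpace ENNReal Pointwise

variable {V : Type*} [NormedAddCommGroup V] [InnerProductSpace ℝ V] [FiniteDimensional ℝ V]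
  [MeasurableSpace V] [BorelSpace V]

/-- coordinates `S × ℝ` for `S = (ℝ∙u)ᗮ`. -/
theorem measurePreserving_split {u : V} (hu : ‖u‖ = 1) :
    MeasurePreserving (fun p : (ℝ ∙ u)ᗮ × ℝ => (p.1 : V) + p.2 • u) (volume.prod volume) volume := by
  have h1 : MeasurePreserving (ℝ ∙ u).orthogonalDecomposition.symm :=
    LinearIsometryEquiv.measurePreserving _
  have h2 := WithLp.volume_preserving_toLp (ℝ ∙ u) ((ℝ ∙ u)ᗮ)
  have h3 : MeasurePreserving (LinearIsometryEquiv.toSpanUnitSingleton (𝕜 := ℝ) u hu) :=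
    LinearIsometryEquiv.measurePreserving _
  have h4 : MeasurePreserving
      (Prod.map (LinearIsometryEquiv.toSpanUnitSingleton (𝕜 := ℝ) u hu) (id : (ℝ ∙ u)ᗮ → (ℝ ∙ u)ᗮ))
      (volume.prod volume) (volume.prod volume) :=
    h3.prod (MeasurePreserving.id _)
  have h5 : MeasurePreserving (Prod.swap : (ℝ ∙ u)ᗮ × ℝ → ℝ × (ℝ ∙ u)ᗮ)
      (volume.prod volume) (volume.prod volume) := Measure.measurePreserving_swap
  have h6 := h1.comp (h2.comp (h4.comp h5))
  have h7 : (fun p : (ℝ ∙ u)ᗮ × ℝ => (p.1 : V) + p.2 • u) =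
      (ℝ ∙ u).orthogonalDecomposition.symm ∘ (WithLp.toLp 2 ∘
        (Prod.map (LinearIsometryEquiv.toSpanUnitSingleton (𝕜 := ℝ) u hu) (id : (ℝ ∙ u)ᗮ → (ℝ ∙ u)ᗮ)
          ∘ Prod.swap)) := by
    funext p
    obtain ⟨y, t⟩ := p
    simp [add_comm]
  rw [h7]
  exact h6

/-- a compact convex nonempty subset of the line is an interval. -/
theorem exists_Icc {A : Set ℝ} (hc : IsCompact A) (hv : Convex ℝ A) (hn : A.Nonempty) :
    ∃ a b, a ≤ b ∧ A = Icc a b := by
  have hconn : IsConnected A := ⟨hn, hv.isPreconnected⟩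
  refine ⟨sInf A, sSup A, ?_, ?_⟩
  · exact csInf_le_csSup hn hc.bddBelow hc.bddAbove
  · exact eq_Icc_csInf_csSup_of_connected_bdd_closed hconn hc.bddBelow hc.bddAbove hc.isClosed

/-- the fibre of `A` over `y`. -/
def fib (A : Set V) (u : V) (y : (ℝ ∙ u)ᗮ) : Set ℝ := {t | (y : V) + t • u ∈ A}

theorem vol_eq_lintegral_fib {A : Set V} (hA : MeasurableSet A) {u : V} (hu : ‖u‖ = 1) :
    volume A = ∫⁻ y, volume (fib A u y) ∂(volume : Measure (ℝ ∙ u)ᗮ) := by
  have h1 := measurePreserving_split hu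
  rw [← h1.measure_preimage hA.nullMeasurableSet, Measure.prod_apply (h1.measurable hA)]
  rfl

omit [FiniteDimensional ℝ V] [MeasurableSpace V] [BorelSpace V] in
theorem mem_seg_smul {u : V} {c : ℝ} (hc : 0 ≤ c) (x : V) :
    x ∈ seg (c • u) ↔ ∃ s ∈ Icc (-c) c, x = s • u := by
  rw [seg, segment_eq_image]
  constructor
  · rintro ⟨θ, ⟨h0, h1⟩, rfl⟩
    refine ⟨(2 * θ - 1) * c, ⟨by nlinarith, by nlinarith⟩, ?_⟩
    simp only [smul_smul, ← neg_smul, ← add_smul]
    congr 1
    ring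
  · rintro ⟨s, ⟨h0, h1⟩, rfl⟩
    rcases hc.eq_or_lt with hc0 | hc0
    · have hs : s = 0 := by
        subst hc0
        linarith
      subst hs
      refine ⟨0, ⟨le_refl _, zero_le_one⟩, ?_⟩
      simp [← hc0]
    · refine ⟨(s / c + 1) / 2, ⟨?_, ?_⟩, ?_⟩
      · have : -1 ≤ s / c := by
          rw [le_div_iff₀ hc0]
          linarith
        linarith
      · have : s / c ≤ 1 := by
          rw [div_le_iff₀ hc0]
          linarith
        linarith
      · simp only [smul_smul, ← neg_smul, ← add_smul]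
        congr 1
        field_simp
        ring

omit [FiniteDimensional ℝ V] [MeasurableSpace V] [BorelSpace V] in
theorem fib_add_seg {M : Set V} {u : V} {c : ℝ} (hc : 0 ≤ c) (y : (ℝ ∙ u)ᗮ) :
    fib (M + seg (c • u)) u y = {t | ∃ s ∈ Icc (-c) c, t - s ∈ fib M u y} := by
  ext t
  simp only [fib, mem_ofPred_eq, Set.mem_add]
  constructor
  · rintro ⟨m, hm, x, hx, hxy⟩
    rw [mem_seg_smul hc] at hx
    obtain ⟨s, hs, rfl⟩ := hx
    refine ⟨s, hs, ?_⟩
    have : (y : V) + (t - s) • u = m := by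
      rw [sub_smul, ← add_sub_assoc, ← hxy]
      abel
    rwa [this]
  · rintro ⟨s, hs, h⟩
    refine ⟨_, h, s • u, (mem_seg_smul hc _).2 ⟨s, hs, rfl⟩, ?_⟩
    rw [sub_smul]
    abel

omit [FiniteDimensional ℝ V] [MeasurableSpace V] [BorelSpace V] in
theorem fib_isCompact {M : Set V} (hM : CC M) {u : V} (hu : ‖u‖ = 1) (y : (ℝ ∙ u)ᗮ) :
    IsCompact (fib M u y) := by
  have hiso : Isometry (fun t : ℝ => (y : V) + t • u) := by
    refine Isometry.of_dist_eq fun s t => ?_
    rw [dist_eq_norm, dist_eq_norm]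
    have : (y : V) + s • u - ((y : V) + t • u) = (s - t) • u := by
      rw [sub_smul]
      abel
    rw [this, norm_smul, hu, mul_one]
  exact hiso.isClosedEmbedding.isCompact_preimage hM.compact

omit [FiniteDimensional ℝ V] [MeasurableSpace V] [BorelSpace V] in
theorem fib_convex {M : Set V} (hM : CC M) {u : V} (y : (ℝ ∙ u)ᗮ) : Convex ℝ (fib M u y) := by
  intro s hs t ht a b ha hb hab
  have h := hM.convex hs ht ha hb hab
  simp only [fib, mem_ofPred_eq] at *
  have e : (y : V) + (a • s + b • t) • u = a • ((y : V) + s • u) + b • ((y : V) + t • u) := by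
    have : (y : V) = (a + b) • (y : V) := by rw [hab, one_smul]
    nth_rw 1 [this]
    simp only [smul_eq_mul, add_smul, smul_add, smul_smul]
    abel
  rw [e]
  exact h

omit [MeasurableSpace V] [BorelSpace V] in
theorem fib_nonempty_iff {M : Set V} {u : V} (hu : ‖u‖ = 1) (y : (ℝ ∙ u)ᗮ) :
    (fib M u y).Nonempty ↔ y ∈ shadow M (ℝ ∙ u)ᗮ := by
  constructor
  · rintro ⟨t, ht⟩
    refine ⟨_, ht, ?_⟩
    have h1 : (ℝ ∙ u)ᗮ.orthogonalProjectionOnto ((y : V)) = y :=
      Submodule.orthogonalProjectionOnto_mem_subspace_eq_self y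
    have h2 : (ℝ ∙ u)ᗮ.orthogonalProjectionOnto (t • u) = 0 := by
      rw [Submodule.orthogonalProjectionOnto_eq_zero_iff]
      rw [Submodule.orthogonal_orthogonal]
      exact Submodule.smul_mem _ _ (Submodule.mem_span_singleton_self u)
    show (ℝ ∙ u)ᗮ.orthogonalProjectionOnto ((y : V) + t • u) = y
    rw [map_add, h1, h2, add_zero]
  · rintro ⟨x, hx, rfl⟩
    refine ⟨⟪u, x⟫, ?_⟩
    have h : (((ℝ ∙ u)ᗮ.orthogonalProjectionOnto x : (ℝ ∙ u)ᗮ) : V) + ⟪u, x⟫ • u = x := by
      have h1 := Submodule.starProjection_orthogonal_val (K := (ℝ ∙ u)) x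
      rw [Submodule.starProjection_unit_singleton ℝ hu] at h1
      have h2 : (((ℝ ∙ u)ᗮ.orthogonalProjectionOnto x : (ℝ ∙ u)ᗮ) : V) = x - ⟪u, x⟫ • u := h1
      rw [h2, sub_add_cancel]
    show (((ℝ ∙ u)ᗮ.orthogonalProjectionOnto x : (ℝ ∙ u)ᗮ) : V) + ⟪u, x⟫ • u ∈ M
    rw [h]
    exact hx

theorem vol_fib_add_seg {M : Set V} (hM : CC M) {u : V} (hu : ‖u‖ = 1) {c : ℝ} (hc : 0 ≤ c)
    (y : (ℝ ∙ u)ᗮ) : volume (fib (M + seg (c • u)) u y) =
      volume (fib M u y) + (shadow M (ℝ ∙ u)ᗮ).indicator (fun _ => ENNReal.ofReal (2 * c)) y := by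
  rw [fib_add_seg hc]
  by_cases hy : y ∈ shadow M (ℝ ∙ u)ᗮ
  · obtain ⟨a, b, hab, hfib⟩ := exists_Icc (fib_isCompact hM hu y) (fib_convex hM y)
      ((fib_nonempty_iff hu y).2 hy)
    have e : {t : ℝ | ∃ s ∈ Icc (-c) c, t - s ∈ fib M u y} = Icc (a - c) (b + c) := by
      rw [hfib]
      ext t
      simp only [mem_ofPred_eq, mem_Icc]
      constructor
      · rintro ⟨s, ⟨h1, h2⟩, h3, h4⟩
        constructor <;> linarith
      · rintro ⟨h1, h2⟩
        rcases lt_or_ge t a with h | h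
        · exact ⟨t - a, ⟨by linarith, by linarith⟩, by linarith, by linarith⟩
        rcases lt_or_ge b t with h' | h'
        · exact ⟨t - b, ⟨by linarith, by linarith⟩, by linarith, by linarith⟩
        · exact ⟨0, ⟨by linarith, by linarith⟩, by linarith, by linarith⟩
    rw [e, hfib, indicator_of_mem hy, Real.volume_Icc, Real.volume_Icc, ← ENNReal.ofReal_add
      (by linarith) (by linarith)]
    congr 1
    ring
  · have h0 : fib M u y = ∅ := by
      rw [← Set.not_nonempty_iff_eq_empty, fib_nonempty_iff hu y]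
      exact hy
    rw [indicator_of_notMem hy, h0]
    simp

theorem vol_add_seg {M : Set V} (hM : CC M) {u : V} (hu : ‖u‖ = 1) {c : ℝ} (hc : 0 ≤ c) :
    (volume (M + seg (c • u))).toReal =
      (volume M).toReal + 2 * c * (volume (shadow M (ℝ ∙ u)ᗮ)).toReal := by
  have hM' : CC (M + seg (c • u)) := CC.add hM (cc_seg _)
  have hS : CC (shadow M (ℝ ∙ u)ᗮ) := CC.shadow hM _
  rw [vol_eq_lintegral_fib hM'.compact.measurableSet hu]
  simp_rw [vol_fib_add_seg hM hu hc]
  rw [lintegral_add_right _ (measurable_const.indicator hS.compact.measurableSet),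
    ← vol_eq_lintegral_fib hM.compact.measurableSet hu,
    lintegral_indicator hS.compact.measurableSet, setLIntegral_const,
    ENNReal.toReal_add hM.compact.measure_lt_top.ne
      (ENNReal.mul_ne_top ENNReal.ofReal_ne_top hS.compact.measure_lt_top.ne),
    ENNReal.toReal_mul, ENNReal.toReal_ofReal (by positivity)]

end Pool.Agent.HP89
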