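import Pool.Agent.HP89.G1

/-! Module HP-G2a: algebra of `cfl`.

* `cfl_perm`: induction on `List.Perm` (for all `M` simultaneously); swap: both sides are
  `cfl Y (M + [x] + [y]) - cfl Y (M + [x]) - cfl Y (M + [y]) + cfl Y M`.
* `vol_add_seg_affine`: `vol_add_seg` with `u = y/‖y‖`, `c = w‖y‖` (`y = 0` trivial); `cfl_add_seg`: induction on `Y` using `cfl_perm`.
* `cfl_dup`: by `cfl_add_seg`, `cfl Y (M + w[y])` is affine in `w`, and `M + [y] + [y] = M + 2[y]`, so the second difference vanishes.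
* `cfl_snoc`: induction on `Y`; `Y = []` is `vol_add_seg`; step: `shadow_add`, `shadow_seg`. -/

universe v

namespace Pool.Agent.HP89
open MeasureTheory ProbabilityTheory Set Filter Topology Metric
open Pool.Agent.Helper82.Proj1
open scoped RealInnerProductSpace ENNReal Pointwise

variable {V : Type v} [NormedAddCommGroup V] [InnerProductSpace ℝ V] [FiniteDimensional ℝ V]
  [MeasurableSpace V] [BorelSpace V]

theorem cfl_perm {X Y : List V} (h : X.Perm Y) (M : Set V) : cfl X M = cfl Y M := by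
  induction h generalizing M with
  | nil => rfl
  | cons x _ ih => simp only [cfl, ih]
  | swap x y l =>
    simp only [cfl]
    rw [add_right_comm M (seg y) (seg x)]
    ring
  | trans _ _ ih1 ih2 => rw [ih1, ih2]

theorem seg_eq_smul_unit {y : V} (hy : y ≠ 0) (w : ℝ) :
    w • y = (w * ‖y‖) • (‖y‖⁻¹ • y) := by
  have : ‖y‖ ≠ 0 := norm_ne_zero_iff.mpr hy
  rw [smul_smul, mul_assoc, mul_inv_cancel₀ this, mul_one]

theorem vol_shadow_congr (M : Set V) {S T : Submodule ℝ V} (h : S = T) :
    (volume (shadow M S)).toReal = (volume (shadow M T)).toReal := by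
  subst h; rfl

theorem vol_add_seg' {M : Set V} (hM : CC M) {y : V} (hy : y ≠ 0) {w : ℝ} (hw : 0 ≤ w) :
    (volume (M + seg (w • y))).toReal =
      (volume M).toReal + w * (2 * ‖y‖ * (volume (shadow M (ℝ ∙ y)ᗮ)).toReal) := by
  have hn : ‖y‖ ≠ 0 := norm_ne_zero_iff.mpr hy
  have hu : ‖(‖y‖⁻¹ • y)‖ = 1 := by
    rw [norm_smul, norm_inv, norm_norm, inv_mul_cancel₀ hn]
  have hS : (ℝ ∙ (‖y‖⁻¹ • y))ᗮ = (ℝ ∙ y)ᗮ := by
    rw [Submodule.span_singleton_smul_eq (IsUnit.mk0 _ (inv_ne_zero hn))]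
  rw [seg_eq_smul_unit hy w, vol_add_seg hM hu (mul_nonneg hw (norm_nonneg y)),
    vol_shadow_congr M hS]
  ring

theorem vol_add_seg_affine {M : Set V} (hM : CC M) (y : V) {w : ℝ} (hw : 0 ≤ w) :
    (volume (M + seg (w • y))).toReal =
      (volume M).toReal + w * ((volume (M + seg y)).toReal - (volume M).toReal) := by
  by_cases hy : y = 0
  · subst hy
    rw [smul_zero, seg_zero, add_singleton]
    simp
  · have h1 := vol_add_seg' hM hy (zero_le_one)
    rw [one_smul] at h1
    rw [vol_add_seg' hM hy hw, h1]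
    ring

theorem cfl_add_seg (Y : List V) {M : Set V} (hM : CC M) (y : V) {w : ℝ} (hw : 0 ≤ w) :
    cfl Y (M + seg (w • y)) = cfl Y M + w * cfl (y :: Y) M := by
  induction Y generalizing M with
  | nil =>
    simp only [cfl]
    exact vol_add_seg_affine hM y hw
  | cons z Y ih =>
    rw [cfl_perm (List.Perm.swap z y Y) M]
    have h1 := ih hM
    have h2 := ih (hM.add (cc_seg z))
    have e : cfl (z :: y :: Y) M = cfl (y :: Y) (M + seg z) - cfl (y :: Y) M := rfl
    have e1 : cfl (z :: Y) M = cfl Y (M + seg z) - cfl Y M := rfl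
    have e2 : cfl (z :: Y) (M + seg (w • y)) =
        cfl Y (M + seg (w • y) + seg z) - cfl Y (M + seg (w • y)) := rfl
    rw [e, e1, e2, add_right_comm M (seg (w • y)) (seg z), h1, h2]
    ring

theorem seg_add_seg (y : V) : seg y + seg y = seg ((2 : ℝ) • y) := by
  apply eq_of_supp ((cc_seg y).add (cc_seg y)) (cc_seg _)
  intro u _
  rw [supp_add (cc_seg y) (cc_seg y), supp_seg, supp_seg, real_inner_smul_left, abs_mul,
    abs_of_pos (by norm_num : (0 : ℝ) < 2)]
  ring

theorem cfl_dup (Y : List V) {M : Set V} (hM : CC M) (y : V) : cfl (y :: y :: Y) M = 0 := by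
  have h := cfl_add_seg Y hM y (w := 2) (by norm_num)
  have e : cfl (y :: y :: Y) M =
      (cfl Y (M + seg y + seg y) - cfl Y (M + seg y)) - (cfl Y (M + seg y) - cfl Y M) := rfl
  have e1 : cfl (y :: Y) M = cfl Y (M + seg y) - cfl Y M := rfl
  rw [e, add_assoc M, seg_add_seg, h, e1]
  ring

theorem cfl_zero_cons (Y : List V) (M : Set V) : cfl ((0 : V) :: Y) M = 0 := by
  simp only [cfl]
  rw [seg_zero, add_singleton]
  simp

theorem cfl_snoc (Y : List V) {M : Set V} (hM : CC M) {y : V} (hy : y ≠ 0) :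
    cfl (Y ++ [y]) M =
      2 * ‖y‖ * cfl (Y.map (fun x => (ℝ ∙ y)ᗮ.orthogonalProjectionOnto x)) (shadow M (ℝ ∙ y)ᗮ) := by
  induction Y generalizing M with
  | nil =>
    have h1 := vol_add_seg' hM hy (zero_le_one)
    rw [one_smul] at h1
    simp only [List.nil_append, List.map_nil, cfl]
    rw [h1]
    ring
  | cons z Y ih =>
    have e : cfl ((z :: Y) ++ [y]) M = cfl (Y ++ [y]) (M + seg z) - cfl (Y ++ [y]) M := rfl
    have h1 := ih hM
    have h2 := ih (hM.add (cc_seg z))
    rw [e, h1, h2, shadow_add, shadow_seg]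
    simp only [List.map_cons, cfl]
    ring

/-- for a unit vector: `cfl [u] M = 2 vol_{d-1}(M|u^⊥)`. -/
theorem cfl_singleton {M : Set V} (hM : CC M) {u : V} (hu : ‖u‖ = 1) :
    cfl [u] M = 2 * (volume (shadow M (ℝ ∙ u)ᗮ)).toReal := by
  have hne : u ≠ 0 := by
    intro h; rw [h, norm_zero] at hu; exact zero_ne_one hu
  have := cfl_snoc [] hM hne
  simp only [List.nil_append, List.map_nil] at this
  rw [this, hu]
  simp [cfl]

theorem cfl_singleton_mono {A B : Set V} (hA : CC A) (hB : CC B) (h : A ⊆ B) (u : V) : cfl [u] A ≤ cfl [u] B := by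
  by_cases hu : u = 0
  · subst hu
    rw [cfl_zero_cons, cfl_zero_cons]
  · have h1 := cfl_snoc [] hA hu
    have h2 := cfl_snoc [] hB hu
    simp only [List.nil_append, List.map_nil] at h1 h2
    rw [h1, h2]
    refine mul_le_mul_of_nonneg_left ?_ (by positivity)
    simp only [cfl]
    refine ENNReal.toReal_mono ?_ (measure_mono (image_mono h))
    exact (hB.shadow _).compact.measure_lt_top.ne

end Pool.Agent.HP89
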