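import Pool.Agent.HP89.G2b

/-! Module HP-G3: expansion of `cfl Y (M + zonotope)`.

* `sI_cons`: for `F` permutation invariant with `F (y :: y :: Y) = 0`:
  `sI (p :: L) l F Y = sI L l F Y + l * p.1 * sI L (l-1) F (p.2 :: Y)`, induction on `l` generalizing `Y`:
  `sI (p::L) (l+1) F Y = p.1 * sI (p::L) l F (y::Y) + ∑_{q∈L} q.1 * sI (p::L) l F (q.2::Y)`; insert the induction hypothesis;
  `sI L (l-1) F (y::y::Y) = 0` (all values of `F` occurring contain `y` twice), `sI L (l-1) F (y::q.2::Y) = sI L (l-1) F (q.2::y::Y)`.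
* `expansion`: induction on `L`, generalizing `Y` (`M` fixed): `cfl Y (M + zon L + seg (w y)) = cfl Y (M + zon L) + w cfl (y::Y) (M + zon L)`
  (`cfl_add_seg`), `F = fun Z => cfl Z M`, and the term `l = d` of the expansion of `cfl (y::Y)` is `0` (`cfl_zero_of_length`:
  lists of length `≥ d+1`).
* `sI_scale`: replacing all weights `w` by `t w` multiplies `sI _ l` by `t^l`. -/

universe v

namespace Pool.Agent.HP89
open MeasureTheory ProbabilityTheory Set Filter Topology Metric
open Pool.Agent.Helper82.Proj1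
open scoped RealInnerProductSpace ENNReal Pointwise

variable {V : Type v} [NormedAddCommGroup V] [InnerProductSpace ℝ V]

theorem sI_perm (L : List (ℝ × V)) (l : ℕ) {F : List V → ℝ} (hF : ∀ Z Z' : List V, Z.Perm Z' → F Z = F Z')
    {Y Y' : List V} (h : Y.Perm Y') : sI L l F Y = sI L l F Y' := by
  induction l generalizing Y Y' with
  | zero => exact hF Y Y' h
  | succ l ih =>
    simp only [sI]
    congr 1
    apply List.map_congr_left
    intro p _
    rw [ih (h.cons p.2)]

theorem sI_congr (L : List (ℝ × V)) (l : ℕ) {F G : List V → ℝ} (Y : List V)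
    (h : ∀ Z, Z.length = Y.length + l → F Z = G Z) : sI L l F Y = sI L l G Y := by
  induction l generalizing Y with
  | zero => exact h Y (by simp)
  | succ l ih =>
    simp only [sI]
    congr 1
    apply List.map_congr_left
    intro p _
    rw [ih (p.2 :: Y) (fun Z hZ => h Z (by rw [hZ, List.length_cons]; omega))]

theorem sI_const_mul (L : List (ℝ × V)) (l : ℕ) (F : List V → ℝ) (c : ℝ) (Y : List V) :
    sI L l (fun Z => c * F Z) Y = c * sI L l F Y := by
  induction l generalizing Y with
  | zero => rfl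
  | succ l ih =>
    simp only [sI]
    rw [← List.sum_map_mul_left]
    congr 1
    apply List.map_congr_left
    intro p _
    rw [ih (p.2 :: Y)]
    ring

theorem sI_scale (L : List (ℝ × V)) (l : ℕ) (F : List V → ℝ) (t : ℝ) (Y : List V) :
    sI (L.map (fun p => (t * p.1, p.2))) l F Y = t ^ l * sI L l F Y := by
  induction l generalizing Y with
  | zero => simp [sI]
  | succ l ih =>
    simp only [sI]
    rw [← List.sum_map_mul_left, List.map_map]
    congr 1
    apply List.map_congr_left
    intro p _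
    simp only [Function.comp]
    rw [ih (p.2 :: Y)]
    ring

private theorem sI_dup (L : List (ℝ × V)) (l : ℕ) {F : List V → ℝ}
    (hF : ∀ Z Z' : List V, Z.Perm Z' → F Z = F Z') (hF0 : ∀ (y : V) (Z : List V), F (y :: y :: Z) = 0)
    (y : V) {Z Z' : List V} (h : Z.Perm (y :: y :: Z')) : sI L l F Z = 0 := by
  induction l generalizing Z Z' with
  | zero =>
    show F Z = 0
    rw [hF Z _ h, hF0]
  | succ l ih =>
    simp only [sI]
    apply List.sum_eq_zero
    intro a ha
    rw [List.mem_map] at ha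
    obtain ⟨q, -, rfl⟩ := ha
    have h2 : (q.2 :: Z).Perm (y :: y :: (q.2 :: Z')) := by
      refine (h.cons q.2).trans ?_
      refine (List.Perm.swap y q.2 (y :: Z')).trans ?_
      exact (List.Perm.swap y q.2 Z').cons y
    rw [ih h2, mul_zero]

theorem sI_cons (p : ℝ × V) (L : List (ℝ × V)) (l : ℕ) {F : List V → ℝ}
    (hF : ∀ Z Z' : List V, Z.Perm Z' → F Z = F Z') (hF0 : ∀ (y : V) (Z : List V), F (y :: y :: Z) = 0) (Y : List V) :
    sI (p :: L) l F Y = sI L l F Y + l * p.1 * sI L (l - 1) F (p.2 :: Y) := by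
  induction l generalizing Y with
  | zero => simp [sI]
  | succ l ih =>
    have e1 : sI (p :: L) (l + 1) F Y =
        p.1 * sI (p :: L) l F (p.2 :: Y) + (L.map (fun q => q.1 * sI (p :: L) l F (q.2 :: Y))).sum := by
      simp [sI]
    have e2 : sI (p :: L) l F (p.2 :: Y) = sI L l F (p.2 :: Y) := by
      rw [ih (p.2 :: Y), sI_dup L (l - 1) hF hF0 p.2 (List.Perm.refl _), mul_zero, add_zero]
    have e3 : (L.map (fun q => q.1 * sI (p :: L) l F (q.2 :: Y))).sum =
        sI L (l + 1) F Y + l * p.1 * sI L l F (p.2 :: Y) := by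
      rcases Nat.eq_zero_or_pos l with h0 | hpos
      · subst h0
        simp [sI]
      · obtain ⟨k, rfl⟩ : ∃ k, l = k + 1 := ⟨l - 1, by omega⟩
        have e4 : sI L (k + 1) F (p.2 :: Y) = (L.map (fun q => q.1 * sI L k F (p.2 :: q.2 :: Y))).sum := by
          simp only [sI]
          congr 1
          apply List.map_congr_left
          intro q _
          rw [sI_perm L k hF (List.Perm.swap p.2 q.2 Y)]
        rw [e4]
        have e5 : sI L (k + 1 + 1) F Y = (L.map (fun q => q.1 * sI L (k + 1) F (q.2 :: Y))).sum := rfl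
        rw [e5, ← List.sum_map_mul_left, ← List.sum_map_add]
        congr 1
        apply List.map_congr_left
        intro q _
        rw [ih (q.2 :: Y)]
        simp only [Nat.add_sub_cancel]
        ring
    rw [e1, e2, e3, Nat.add_sub_cancel]
    push_cast
    ring

private theorem sI_zero_of (L : List (ℝ × V)) (l : ℕ) {F : List V → ℝ} (Y : List V)
    (h : ∀ Z, Z.length = Y.length + l → F Z = 0) : sI L l F Y = 0 := by
  rw [sI_congr L l (F := F) (G := fun Z => 0 * F Z) Y (fun Z hZ => by rw [h Z hZ, mul_zero]),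
    sI_const_mul, zero_mul]

variable [FiniteDimensional ℝ V] [MeasurableSpace V] [BorelSpace V]

theorem expansion {L : List (ℝ × V)} (hL : ∀ p ∈ L, 0 ≤ p.1) {M : Set V} (hM : CC M) (Y : List V) :
    cfl Y (M + zon L) = ∑ l ∈ Finset.range (Module.finrank ℝ V + 1),
      (1 / (l.factorial : ℝ)) * sI L l (fun Z => cfl Z M) Y := by
  have hFp : ∀ Z Z' : List V, Z.Perm Z' → cfl Z M = cfl Z' M := fun Z Z' h => cfl_perm h M
  have hF0 : ∀ (y : V) (Z : List V), cfl (y :: y :: Z) M = 0 := fun y Z => cfl_dup Z hM y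
  induction L generalizing Y with
  | nil =>
    rw [Finset.sum_range_succ']
    have hz : ∀ l : ℕ, sI ([] : List (ℝ × V)) (l + 1) (fun Z => cfl Z M) Y = 0 := by
      intro l
      simp [sI]
    simp only [hz, mul_zero, Finset.sum_const_zero, zero_add]
    have h0 : M + zon ([] : List (ℝ × V)) = M := by
      simp [zon]
    rw [h0]
    simp [sI]
  | cons p L ih =>
    have hL' : ∀ q ∈ L, 0 ≤ q.1 := fun q hq => hL q (List.mem_cons_of_mem _ hq)
    have hp : 0 ≤ p.1 := hL p List.mem_cons_self
    have e0 : M + zon (p :: L) = (M + zon L) + seg (p.1 • p.2) := by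
      simp only [zon]
      rw [add_assoc]
    rw [e0, cfl_add_seg Y (hM.add (cc_zon L)) p.2 hp, ih hL' Y, ih hL' (p.2 :: Y)]
    have e1 : ∀ l ∈ Finset.range (Module.finrank ℝ V + 1),
        (1 / (l.factorial : ℝ)) * sI (p :: L) l (fun Z => cfl Z M) Y =
        (1 / (l.factorial : ℝ)) * sI L l (fun Z => cfl Z M) Y +
          (1 / (l.factorial : ℝ)) * (l * p.1 * sI L (l - 1) (fun Z => cfl Z M) (p.2 :: Y)) := by
      intro l _
      rw [sI_cons p L l hFp hF0 Y]
      ring
    rw [Finset.sum_congr rfl e1, Finset.sum_add_distrib]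
    congr 1
    rw [Finset.sum_range_succ' (fun l : ℕ => (1 / (l.factorial : ℝ)) *
      (l * p.1 * sI L (l - 1) (fun Z => cfl Z M) (p.2 :: Y)))]
    rw [Finset.sum_range_succ (fun l : ℕ => (1 / (l.factorial : ℝ)) * sI L l (fun Z => cfl Z M) (p.2 :: Y))]
    have hlast : sI L (Module.finrank ℝ V) (fun Z => cfl Z M) (p.2 :: Y) = 0 := by
      apply sI_zero_of
      intro Z hZ
      exact cfl_zero_of_length (by rw [hZ, List.length_cons]; omega) hM
    rw [hlast, mul_zero, add_zero, Finset.mul_sum]
    simp only [Nat.cast_zero, zero_mul, mul_zero, add_zero]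
    apply Finset.sum_congr rfl
    intro l _
    rw [Nat.add_sub_cancel, Nat.factorial_succ]
    have hl : ((l : ℝ) + 1) ≠ 0 := by positivity
    have hf : ((l.factorial : ℕ) : ℝ) ≠ 0 := by exact_mod_cast l.factorial_ne_zero
    push_cast
    field_simp

/-- scaled weights, list `[u]`: a polynomial of degree `≤ d - 1` in `t`. -/
theorem expansion_scaled {L : List (ℝ × V)} (hL : ∀ p ∈ L, 0 ≤ p.1) {M : Set V} (hM : CC M) (u : V) {t : ℝ}
    (ht : 0 ≤ t) :
    cfl [u] (M + zon (L.map (fun p => (t * p.1, p.2)))) = ∑ l ∈ Finset.range (Module.finrank ℝ V),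
      (1 / (l.factorial : ℝ)) * sI L l (fun Z => cfl Z M) [u] * t ^ l := by
  have hL' : ∀ p ∈ L.map (fun p => (t * p.1, p.2)), 0 ≤ p.1 := by
    intro p hp
    rw [List.mem_map] at hp
    obtain ⟨q, hq, rfl⟩ := hp
    exact mul_nonneg ht (hL q hq)
  rw [expansion hL' hM [u], Finset.sum_range_succ]
  have hlast : sI (L.map (fun p => (t * p.1, p.2))) (Module.finrank ℝ V) (fun Z => cfl Z M) [u] = 0 := by
    apply sI_zero_of
    intro Z hZ
    exact cfl_zero_of_length (by rw [hZ, List.length_singleton]; omega) hM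
  rw [hlast, mul_zero, add_zero]
  apply Finset.sum_congr rfl
  intro l _
  rw [sI_scale]
  ring

/-- balls: `M = closedBall 0 t`. -/
theorem expansion_ball {L : List (ℝ × V)} (hL : ∀ p ∈ L, 0 ≤ p.1) (u : V) {t : ℝ} (ht : 0 ≤ t) :
    cfl [u] (closedBall (0 : V) t + zon L) = ∑ l ∈ Finset.range (Module.finrank ℝ V),
      (2 ^ (l + 1) / (l.factorial : ℝ)) * kappa (Module.finrank ℝ V - 1 - l) * sI L l wn [u] *
        t ^ (Module.finrank ℝ V - 1 - l) := by
  have hM : CC (closedBall (0 : V) t) := cc_ball ht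
  rw [expansion hL hM [u], Finset.sum_range_succ]
  have hlast : sI L (Module.finrank ℝ V) (fun Z => cfl Z (closedBall (0 : V) t)) [u] = 0 := by
    apply sI_zero_of
    intro Z hZ
    exact cfl_zero_of_length (by rw [hZ, List.length_singleton]; omega) hM
  rw [hlast, mul_zero, add_zero]
  apply Finset.sum_congr rfl
  intro l hl
  rw [Finset.mem_range] at hl
  have e1 : sI L l (fun Z => cfl Z (closedBall (0 : V) t)) [u] =
      sI L l (fun Z => (2 ^ (l + 1) * kappa (Module.finrank ℝ V - 1 - l) *
        t ^ (Module.finrank ℝ V - 1 - l)) * wn Z) [u] := by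
    apply sI_congr
    intro Z hZ
    rw [List.length_singleton] at hZ
    have hZ' : Z.length = l + 1 := by omega
    have h1 : Module.finrank ℝ V - Z.length = Module.finrank ℝ V - 1 - l := by omega
    rw [cfl_ball Z (by omega) ht, h1, hZ']
  rw [e1, sI_const_mul]
  ring

end Pool.Agent.HP89
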