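import Pool.Agent.HP89.Defs

/-! Module HP-G5: coefficients of polynomials converge if the values converge.

The coefficients of a polynomial of degree `< D` are fixed linear combinations of its values at `1, ..., D`
(Lagrange interpolation `Lagrange.interpolate`, or invertibility of the Vandermonde matrix `Matrix.det_vandermonde_ne_zero_iff`).
Alternatively: induction on `D` (divide differences). -/

namespace Pool.Agent.HP89
open Filter Topology

theorem coeff_tendsto {D : ℕ} {a : ℕ → ℕ → ℝ} {b : ℕ → ℝ}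
    (h : ∀ t : ℝ, 0 < t → Tendsto (fun n => ∑ l ∈ Finset.range D, a n l * t ^ l) atTop
      (𝓝 (∑ l ∈ Finset.range D, b l * t ^ l))) {l : ℕ} (hl : l < D) :
    Tendsto (fun n => a n l) atTop (𝓝 (b l)) := by
  classical
  set V : Matrix (Fin D) (Fin D) ℝ := Matrix.vandermonde (fun i : Fin D => ((i : ℕ) : ℝ) + 1) with hV
  have hdet : V.det ≠ 0 := by
    rw [hV, Matrix.det_vandermonde_ne_zero_iff]
    intro i j hij
    have : ((i : ℕ) : ℝ) = ((j : ℕ) : ℝ) := by simpa using hij
    exact Fin.ext (by exact_mod_cast this)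
  have hunit : IsUnit V.det := isUnit_iff_ne_zero.mpr hdet
  have key : ∀ c : ℕ → ℝ, ∀ i : Fin D, (V.mulVec (fun k : Fin D => c k)) i =
      ∑ l ∈ Finset.range D, c l * (((i : ℕ) : ℝ) + 1) ^ l := by
    intro c i
    rw [Finset.sum_range]
    simp only [Matrix.mulVec, dotProduct, hV, Matrix.vandermonde_apply]
    exact Finset.sum_congr rfl (fun k _ => mul_comm _ _)
  have inv : ∀ c : ℕ → ℝ, ∀ k : Fin D,
      c k = ∑ i : Fin D, V⁻¹ k i * (∑ l ∈ Finset.range D, c l * (((i : ℕ) : ℝ) + 1) ^ l) := by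
    intro c k
    have h1 : V⁻¹.mulVec (V.mulVec (fun k : Fin D => c k)) = (fun k : Fin D => c k) := by
      rw [Matrix.mulVec_mulVec, Matrix.nonsing_inv_mul V hunit, Matrix.one_mulVec]
    have h2 : (V⁻¹.mulVec (V.mulVec (fun k : Fin D => c k))) k = c k := congrFun h1 k
    have h3 : (V⁻¹.mulVec (V.mulVec (fun k : Fin D => c k))) k =
        ∑ i : Fin D, V⁻¹ k i * (V.mulVec (fun k : Fin D => c k)) i := rfl
    rw [h3] at h2
    refine h2.symm.trans (Finset.sum_congr rfl (fun i _ => ?_))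
    rw [key c i]
  have e : (fun n => a n l) = fun n => ∑ i : Fin D, V⁻¹ ⟨l, hl⟩ i *
      (∑ l ∈ Finset.range D, a n l * (((i : ℕ) : ℝ) + 1) ^ l) := by
    funext n
    exact inv (a n) ⟨l, hl⟩
  have e' : b l = ∑ i : Fin D, V⁻¹ ⟨l, hl⟩ i *
      (∑ l ∈ Finset.range D, b l * (((i : ℕ) : ℝ) + 1) ^ l) := inv b ⟨l, hl⟩
  rw [e, e']
  refine tendsto_finsetSum _ (fun i _ => ?_)
  exact (h _ (by positivity)).const_mul _

theorem coeff_unique {D : ℕ} {a b : ℕ → ℝ}
    (h : ∀ t : ℝ, 0 < t → ∑ l ∈ Finset.range D, a l * t ^ l = ∑ l ∈ Finset.range D, b l * t ^ l) {l : ℕ}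
    (hl : l < D) : a l = b l := by
  have h1 : Tendsto (fun _ : ℕ => a l) atTop (𝓝 (b l)) :=
    coeff_tendsto (D := D) (a := fun _ => a) (b := b)
      (fun t ht => by simp only [h t ht]; exact tendsto_const_nhds) hl
  exact tendsto_nhds_unique tendsto_const_nhds h1

end Pool.Agent.HP89
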