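import Pool.Agent.HP89.G9Defs
import Pool.Agent.HP89.G3
import Pool.Agent.HP89.G4
import Pool.Agent.HP89.G5

/-! Module HP-G9: from Steiner's formula to `cfl`, homothets, and the two geometric theorems' common part.

* `StF.cfl`: `shadow (K + closedBall 0 t) S = shadow K S + closedBall 0 t` (`shadow_add`, `shadow_ball`), `cfl_singleton`.
* `StF.homothety`: `shadow (cK + x) = c • shadow K + {P x}`; `c • A + {p} + closedBall 0 t = c • (A + closedBall 0 (t/c)) + {p}`;
  volume in the `(d-1)`-dimensional `S`: `addHaar_smul`, translation invariance; `c^{d-1} (t/c)^{d-1-i} = c^i t^{d-1-i}`. -/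

namespace Pool.Agent.HP89
open MeasureTheory ProbabilityTheory Set Filter Topology Metric
open Pool.Agent.Helper82.Proj1
open scoped RealInnerProductSpace ENNReal Pointwise

variable {V : Type*} [NormedAddCommGroup V] [InnerProductSpace ℝ V] [FiniteDimensional ℝ V]
  [MeasurableSpace V] [BorelSpace V]

theorem StF.cfl_eq {K : Set V} (hK : CC K) {u : V} (hu : ‖u‖ = 1) {v : ℕ → ℝ} (h : StF K u v) {t : ℝ} (ht : 0 ≤ t) :
    cfl [u] (K + closedBall (0 : V) t) = 2 * ∑ i ∈ Finset.range (Module.finrank ℝ V),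
      kappa (Module.finrank ℝ V - 1 - i) * v i * t ^ (Module.finrank ℝ V - 1 - i) := by
  rw [cfl_singleton (hK.add (cc_ball ht)) hu, shadow_add, shadow_ball ht, h t ht]

theorem StF.homothety {K : Set V} (hK : CC K) {u : V} (hu : ‖u‖ = 1) {v : ℕ → ℝ} (h : StF K u v) {c : ℝ}
    (hc : 0 < c) (x : V) : StF ((fun y => c • y + x) '' K) u (fun i => c ^ i * v i) := by
  intro t ht
  set S : Submodule ℝ V := (ℝ ∙ u)ᗮ with hS
  have hu0 : u ≠ 0 := by
    rintro rfl
    rw [norm_zero] at hu
    exact zero_ne_one hu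
  have hfin : Module.finrank ℝ S + 1 = Module.finrank ℝ V := by
    have h1 := Submodule.finrank_add_finrank_orthogonal (K := (ℝ ∙ u))
    rw [finrank_span_singleton hu0, ← hS] at h1
    omega
  set p : S := S.orthogonalProjectionOnto x with hp
  have hset : shadow ((fun y => c • y + x) '' K) S + closedBall (0 : S) t =
      p +ᵥ (c • (shadow K S + closedBall (0 : S) (t / c))) := by
    have hball : c • closedBall (0 : S) (t / c) = closedBall (0 : S) t := by
      rw [_root_.smul_closedBall _ _ (by positivity), smul_zero, Real.norm_of_nonneg hc.le,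
        mul_div_cancel₀ _ hc.ne']
    have hsh : shadow ((fun y => c • y + x) '' K) S = p +ᵥ (c • shadow K S) := by
      ext z
      constructor
      · rintro ⟨w, ⟨y, hy, rfl⟩, rfl⟩
        refine ⟨c • S.orthogonalProjectionOnto y, ⟨_, ⟨y, hy, rfl⟩, rfl⟩, ?_⟩
        simp only [map_add, map_smul, vadd_eq_add, hp]
        rw [add_comm]
      · rintro ⟨w, ⟨w', ⟨y, hy, rfl⟩, rfl⟩, rfl⟩
        refine ⟨c • y + x, ⟨y, hy, rfl⟩, ?_⟩
        simp only [map_add, map_smul, vadd_eq_add, hp]
        rw [add_comm]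
    rw [hsh, smul_add, hball, vadd_add_assoc]
  rw [hset, measure_vadd, Measure.addHaar_smul, ENNReal.toReal_mul,
    ENNReal.toReal_ofReal (abs_nonneg _), h (t / c) (by positivity), Finset.mul_sum]
  apply Finset.sum_congr rfl
  intro i hi
  rw [Finset.mem_range] at hi
  have hci : |c ^ Module.finrank ℝ S| = c ^ i * c ^ (Module.finrank ℝ V - 1 - i) := by
    rw [abs_of_pos (pow_pos hc _), ← pow_add]
    congr 1
    omega
  rw [hci, div_pow]
  have hcp : c ^ (Module.finrank ℝ V - 1 - i) ≠ 0 := (pow_pos hc _).ne'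
  field_simp

end Pool.Agent.HP89
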