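import Pool.Agent.HP89.Defs
import Pool.Agent.Helper82.Proj1.Basic

/-! Project HP89: definitions for the geometric part. -/

set_option autoImplicit false

namespace Pool.Agent.HP89

open MeasureTheory ProbabilityTheory Set Filter Topology Metric
open Pool.Agent.Helper82.Proj1 (supp shadow kappa)
open scoped RealInnerProductSpace ENNReal Pointwise

section
variable {V : Type*} [NormedAddCommGroup V] [InnerProductSpace ℝ V]

/-- compact convex nonempty. -/
structure CC (M : Set V) : Prop where
  compact : IsCompact M
  convex : Convex ℝ M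
  nonempty : M.Nonempty

/-- the segment `[-y, y]`. -/
def seg (y : V) : Set V := segment ℝ (-y) y

/-- the zonotope `∑ w_i [-y_i, y_i]` of a weighted list. -/
def zon : List (ℝ × V) → Set V
  | [] => {0}
  | p :: L => zon L + seg (p.1 • p.2)

/-- iterated sums over a weighted list. -/
def sI (L : List (ℝ × V)) : ℕ → (List V → ℝ) → List V → ℝ
  | 0, F, Y => F Y
  | l + 1, F, Y => (L.map (fun p => p.1 * sI L l F (p.2 :: Y))).sum

variable [FiniteDimensional ℝ V] [MeasurableSpace V] [BorelSpace V]

/-- iterated differences of the volume: `cfl (y :: Y) M = cfl Y (M + [-y,y]) - cfl Y M`. -/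
noncomputable def cfl : List V → Set V → ℝ
  | [], M => (volume M).toReal
  | y :: Y, M => cfl Y (M + seg y) - cfl Y M

/-- `f` is on the unit sphere the support function of a zonoid. -/
def Zon (f : V → ℝ) : Prop :=
  ∃ μ : Measure V, IsFiniteMeasure μ ∧ Integrable (fun x => ‖x‖) μ ∧
    ∀ u, ‖u‖ = 1 → f u = ∫ x, |⟪x, u⟫| ∂μ

end

end Pool.Agent.HP89
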